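import Pool.Agent.K1H32.CI.Rep

/-! Analysis of the limits: preliminaries and sufficiency. -/

set_option autoImplicit false

open MeasureTheory Set Filter Topology Metric ProbabilityTheory
open scoped ENNReal NNReal

namespace Pool.Agent.K1H32.CI

/-- the hypotheses on the weight -/
structure QD (F : Set ℂ) (Q : ℂ → ℝ) (η : ℂ) : Prop where
  compact : IsCompact F
  nonneg : ∀ ζ ∈ F, 0 ≤ Q ζ
  pos : ∀ ζ ∈ F, ζ ≠ η → 0 < Q ζ
  bdd : ∃ B : ℝ, ∀ ζ ∈ F, Q ζ ≤ B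
  lsc : LowerSemicontinuousOn Q F

variable {F : Set ℂ} {Q : ℂ → ℝ} {η : ℂ}

lemma QD.meas (h : QD F Q η) : Measurable (F.indicator Q) := by
  apply measurable_of_restrict_of_restrict_compl h.compact.isClosed.measurableSet
  · have h1 : LowerSemicontinuous (F.domRestrict Q) := lowerSemicontinuous_restrict_iff.2 h.lsc
    have h2 : F.domRestrict (F.indicator Q) = F.domRestrict Q := by
      funext x
      simp [Set.domRestrict_apply]
    rw [h2]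
    exact h1.measurable
  · have h2 : Fᶜ.domRestrict (F.indicator Q) = fun _ => 0 := by
      funext x
      have hx : (x : ℂ) ∉ F := x.2
      simp [Set.domRestrict_apply, hx]
    rw [h2]
    exact measurable_const

lemma QD.ind_nonneg (h : QD F Q η) (ζ : ℂ) : 0 ≤ F.indicator Q ζ := by
  by_cases hζ : ζ ∈ F
  · rw [indicator_of_mem hζ]; exact h.nonneg ζ hζ
  · rw [indicator_of_notMem hζ]

lemma QD.ind_bdd (h : QD F Q η) : ∃ B : ℝ, 0 < B ∧ ∀ ζ, F.indicator Q ζ ≤ B := by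
  obtain ⟨B, hB⟩ := h.bdd
  refine ⟨|B| + 1, by positivity, fun ζ => ?_⟩
  by_cases hζ : ζ ∈ F
  · rw [indicator_of_mem hζ]
    have := hB ζ hζ
    linarith [le_abs_self B]
  · rw [indicator_of_notMem hζ]; positivity

lemma QD.lower (h : QD F Q η) {δ : ℝ} (hδ : 0 < δ) : ∃ c : ℝ, 0 < c ∧ ∀ ζ ∈ F, δ ≤ ‖ζ - η‖ → c ≤ Q ζ := by
  have hcl : IsClosed {ζ : ℂ | δ ≤ ‖ζ - η‖} := isClosed_le continuous_const (by fun_prop)
  have hK : IsCompact (F ∩ {ζ : ℂ | δ ≤ ‖ζ - η‖}) := h.compact.inter_right hcl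
  rcases (F ∩ {ζ : ℂ | δ ≤ ‖ζ - η‖}).eq_empty_or_nonempty with he | hne
  · refine ⟨1, one_pos, fun ζ hζ hd => ?_⟩
    have : ζ ∈ F ∩ {ζ : ℂ | δ ≤ ‖ζ - η‖} := ⟨hζ, hd⟩
    rw [he] at this
    exact this.elim
  · obtain ⟨a, ha, hmin⟩ := (h.lsc.mono inter_subset_left).exists_isMinOn hne hK
    refine ⟨Q a, h.pos a ha.1 ?_, fun ζ hζ hd => hmin ⟨hζ, hd⟩⟩
    rintro rfl
    have := ha.2
    simp at this
    linarith

/-- the hypotheses on the measures -/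
structure DN (F : Set ℂ) (Q : ℂ → ℝ) (η : ℂ) (N : Measure ℂ) : Prop where
  ae_mem : ∀ᵐ ζ ∂N, ζ ∈ F
  ae_ne : ∀ᵐ ζ ∂N, ζ ≠ η
  int : Integrable (fun ζ => F.indicator Q ζ * ‖ζ - η‖) N

lemma DN.finite_away {N : Measure ℂ} (hN : DN F Q η N) (hQ : QD F Q η) {δ : ℝ} (hδ : 0 < δ) :
    N {ζ | δ ≤ ‖ζ - η‖} < ∞ := by
  obtain ⟨c, hc, hcQ⟩ := hQ.lower hδ
  have h1 := hN.int.measure_norm_ge_lt_top (ε := c * δ) (by positivity)
  refine (measure_mono_ae ?_).trans_lt h1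
  filter_upwards [hN.ae_mem] with ζ hζ hd
  have hd : δ ≤ ‖ζ - η‖ := hd
  show c * δ ≤ ‖F.indicator Q ζ * ‖ζ - η‖‖
  rw [norm_mul, norm_norm, Real.norm_eq_abs, indicator_of_mem hζ, abs_of_nonneg (hQ.nonneg ζ hζ)]
  exact mul_le_mul (hcQ ζ hζ hd) hd hδ.le (hQ.nonneg ζ hζ)

lemma DN.aesm {N : Measure ℂ} (hN : DN F Q η N) (hQ : QD F Q η) {X : Type*} [TopologicalSpace X]
    [TopologicalSpace.PseudoMetrizableSpace X] [SecondCountableTopologyEither ℂ X]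
    {h : ℂ → X} (hh : ContinuousOn h F) : AEStronglyMeasurable h N := by
  have h1 := hh.aestronglyMeasurable (μ := N) hQ.compact.isClosed.measurableSet
  rwa [Measure.restrict_eq_self_of_ae_mem hN.ae_mem] at h1

/-- the geometric hypothesis on the approach region -/
structure Geo (F S : Set ℂ) (η : ℂ) (c δ : ℝ) : Prop where
  c_pos : 0 < c
  δ_pos : 0 < δ
  le : ∀ z ∈ S, ‖z - η‖ < δ → ∀ ζ ∈ F, c * (‖ζ - η‖ + ‖z - η‖) ≤ ‖ζ - z‖

lemma kz_im (η z ζ : ℂ) : (kz η z ζ).im =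
    ((ζ - η).re * (z - η).im - (ζ - η).im * (z - η).re) / ‖ζ - z‖ ^ 2 := by
  unfold kz
  rw [Complex.div_im, ← Complex.normSq_eq_norm_sq, ← sub_div]
  congr 1
  have h1 : (ζ - z).re = (ζ - η).re - (z - η).re := by simp
  have h2 : (ζ - z).im = (ζ - η).im - (z - η).im := by simp
  rw [h1, h2]
  ring

lemma cross_le (w τ : ℂ) : |w.re * τ.im - w.im * τ.re| ≤ ‖w‖ * ‖τ‖ := by
  have h1 : w.re * τ.im - w.im * τ.re = ((starRingEnd ℂ) w * τ).im := by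
    simp [Complex.mul_im]
    ring
  rw [h1]
  refine (Complex.abs_im_le_norm _).trans ?_
  rw [norm_mul, Complex.norm_conj]

variable {S : Set ℂ} {c δ : ℝ}

lemma Geo.pos_dist (hg : Geo F S η c δ) (hηS : η ∉ S) {z : ℂ} (hz : z ∈ S) (hzd : ‖z - η‖ < δ) {ζ : ℂ}
    (hζ : ζ ∈ F) : 0 < ‖ζ - z‖ := by
  have h1 := hg.le z hz hzd ζ hζ
  have hne : z ≠ η := fun h => hηS (h ▸ hz)
  have h2 : 0 < ‖z - η‖ := norm_pos_iff.2 (sub_ne_zero.2 hne)
  have := mul_pos hg.c_pos (add_pos_of_nonneg_of_pos (norm_nonneg (ζ - η)) h2)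
  linarith

lemma Geo.norm_kz (hg : Geo F S η c δ) (hηS : η ∉ S) {z : ℂ} (hz : z ∈ S) (hzd : ‖z - η‖ < δ) {ζ : ℂ}
    (hζ : ζ ∈ F) : ‖kz η z ζ‖ ≤ 1 / c := by
  have hpos := hg.pos_dist hηS hz hzd hζ
  have h1 := hg.le z hz hzd ζ hζ
  unfold kz
  rw [norm_div, div_le_div_iff₀ hpos hg.c_pos]
  nlinarith [norm_nonneg (z - η), hg.c_pos, norm_nonneg (ζ - η)]

lemma Geo.im_kz (hg : Geo F S η c δ) (hηS : η ∉ S) {z : ℂ} (hz : z ∈ S) (hzd : ‖z - η‖ < δ) {ζ : ℂ}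
    (hζ : ζ ∈ F) : |(kz η z ζ).im| ≤ 1 / c ^ 2 * (‖ζ - η‖ * (‖z - η‖ / (‖z - η‖ + ‖ζ - η‖) ^ 2)) := by
  have hpos := hg.pos_dist hηS hz hzd hζ
  have h1 := hg.le z hz hzd ζ hζ
  have hc := hg.c_pos
  have hne : z ≠ η := fun h => hηS (h ▸ hz)
  have h2 : 0 < ‖z - η‖ := norm_pos_iff.2 (sub_ne_zero.2 hne)
  rw [kz_im, abs_div, abs_of_pos (by positivity : 0 < ‖ζ - z‖ ^ 2)]
  have h3 : (c * (‖z - η‖ + ‖ζ - η‖)) ^ 2 ≤ ‖ζ - z‖ ^ 2 := by
    rw [add_comm ‖z - η‖]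
    exact pow_le_pow_left₀ (by positivity) h1 2
  calc |(ζ - η).re * (z - η).im - (ζ - η).im * (z - η).re| / ‖ζ - z‖ ^ 2
      ≤ (‖ζ - η‖ * ‖z - η‖) / (c * (‖z - η‖ + ‖ζ - η‖)) ^ 2 :=
        div_le_div₀ (by positivity) (cross_le _ _) (by positivity) h3
    _ = _ := by
        field_simp

lemma tendsto_kz {ζ : ℂ} (hζ : ζ ≠ η) : Tendsto (fun z => kz η z ζ) (𝓝 η) (𝓝 1) := by
  unfold kz
  have h1 : ζ - η ≠ 0 := sub_ne_zero.2 hζ
  have h2 : Tendsto (fun z => (ζ - η) / (ζ - z)) (𝓝 η) (𝓝 ((ζ - η) / (ζ - η))) :=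
    tendsto_const_nhds.div (tendsto_const_nhds.sub tendsto_id) h1
  rwa [div_self h1] at h2

/-- growth condition for the second measure -/
def GrB (F : Set ℂ) (Q : ℂ → ℝ) (η : ℂ) (N : Measure ℂ) (M : ℝ) : Prop :=
  ∀ r : ℝ, 0 < r → ∫⁻ ζ in ball η r, ENNReal.ofReal (F.indicator Q ζ * ‖ζ - η‖) ∂N ≤ ENNReal.ofReal (M * r)

lemma pointwise_dyadic {ρ t : ℝ} (hρ : 0 ≤ ρ) (ht : 0 < t) :
    ∃ j : ℕ, ρ < 2 ^ j * t ∧ t / (t + ρ) ^ 2 ≤ 4 * (1 / 4) ^ j / t := by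
  have hex : ∃ j : ℕ, ρ < 2 ^ j * t := by
    obtain ⟨j, hj⟩ := pow_unbounded_of_one_lt (ρ / t) one_lt_two
    exact ⟨j, by rwa [div_lt_iff₀ ht] at hj⟩
  classical
  refine ⟨Nat.find hex, Nat.find_spec hex, ?_⟩
  rcases Nat.eq_zero_or_pos (Nat.find hex) with h0 | h0
  · rw [h0, pow_zero, mul_one, div_le_div_iff₀ (by positivity) ht]
    nlinarith [sq_nonneg (t + ρ)]
  · obtain ⟨j, hj⟩ := Nat.exists_eq_succ_of_ne_zero h0.ne'
    have h1 := Nat.find_min hex (m := j) (by rw [hj]; exact Nat.lt_succ_self j)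
    rw [not_lt] at h1
    rw [hj, pow_succ, div_le_div_iff₀ (by positivity) ht]
    have h2 : (1 / 4 : ℝ) ^ j * (2 ^ j) ^ 2 = 1 := by
      rw [← pow_mul, mul_comm j 2, pow_mul, ← mul_pow]
      norm_num
    have h3 : (2 ^ j * t) ^ 2 ≤ (t + ρ) ^ 2 := pow_le_pow_left₀ (by positivity) (by linarith) 2
    have h4 : (0:ℝ) < (1 / 4) ^ j := by positivity
    calc t * t = (1 / 4 : ℝ) ^ j * ((2 ^ j) ^ 2 * t ^ 2) := by rw [← mul_assoc, h2]; ring
      _ = (1 / 4 : ℝ) ^ j * (2 ^ j * t) ^ 2 := by ring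
      _ ≤ (1 / 4 : ℝ) ^ j * (t + ρ) ^ 2 := by gcongr
      _ = 4 * ((1 / 4) ^ j * (1 / 4)) * (t + ρ) ^ 2 := by ring

lemma GrB.ker {N : Measure ℂ} {M : ℝ} (hM : 0 ≤ M) (h : GrB F Q η N M) (hQ : QD F Q η) {t : ℝ} (ht : 0 < t) :
    ∫⁻ ζ, ENNReal.ofReal (F.indicator Q ζ * ‖ζ - η‖ * (t / (t + ‖ζ - η‖) ^ 2)) ∂N ≤
      ENNReal.ofReal (8 * M) := by
  have hm : Measurable (fun ζ => ENNReal.ofReal (F.indicator Q ζ * ‖ζ - η‖)) :=
    (hQ.meas.mul (by fun_prop)).ennreal_ofReal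
  calc ∫⁻ ζ, ENNReal.ofReal (F.indicator Q ζ * ‖ζ - η‖ * (t / (t + ‖ζ - η‖) ^ 2)) ∂N
      ≤ ∫⁻ ζ, ∑' j : ℕ, ENNReal.ofReal (4 * (1 / 4) ^ j / t) *
          (ball η (2 ^ j * t)).indicator (fun ζ => ENNReal.ofReal (F.indicator Q ζ * ‖ζ - η‖)) ζ ∂N := by
        apply lintegral_mono
        intro ζ
        obtain ⟨j, hj1, hj2⟩ := pointwise_dyadic (norm_nonneg (ζ - η)) ht
        refine le_trans ?_ (ENNReal.le_tsum j)
        rw [indicator_of_mem (by rw [mem_ball, dist_eq_norm]; exact hj1),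
          ← ENNReal.ofReal_mul (by positivity)]
        apply ENNReal.ofReal_le_ofReal
        rw [mul_comm]
        exact mul_le_mul_of_nonneg_right hj2 (mul_nonneg (hQ.ind_nonneg ζ) (norm_nonneg _))
    _ = ∑' j : ℕ, ENNReal.ofReal (4 * (1 / 4) ^ j / t) *
          ∫⁻ ζ in ball η (2 ^ j * t), ENNReal.ofReal (F.indicator Q ζ * ‖ζ - η‖) ∂N := by
        rw [lintegral_tsum]
        · congr 1
          funext j
          rw [lintegral_const_mul _ (hm.indicator measurableSet_ball), lintegral_indicator measurableSet_ball]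
        · intro j
          exact ((hm.indicator measurableSet_ball).const_mul _).aemeasurable
    _ ≤ ∑' j : ℕ, ENNReal.ofReal (4 * (1 / 4) ^ j / t) * ENNReal.ofReal (M * (2 ^ j * t)) := by
        apply ENNReal.tsum_le_tsum
        intro j
        gcongr
        exact h _ (by positivity)
    _ = ∑' j : ℕ, ENNReal.ofReal (4 * M) * (2⁻¹ : ℝ≥0∞) ^ j := by
        congr 1
        funext j
        rw [← ENNReal.ofReal_mul (by positivity)]
        have h1 : (1 / 4 : ℝ) ^ j * 2 ^ j = (1 / 2) ^ j := by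
          rw [← mul_pow]; norm_num
        have h2 : 4 * (1 / 4 : ℝ) ^ j / t * (M * (2 ^ j * t)) = 4 * M * (1 / 2) ^ j := by
          rw [← h1]; field_simp
        rw [h2, ENNReal.ofReal_mul (by positivity), ENNReal.ofReal_pow (by norm_num)]
        congr 2
        rw [one_div, ENNReal.ofReal_inv_of_pos two_pos]
        simp
    _ = ENNReal.ofReal (8 * M) := by
        rw [ENNReal.tsum_mul_left, ENNReal.tsum_geometric, ENNReal.one_sub_inv_two, inv_inv,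
          show (2:ℝ≥0∞) = ENNReal.ofReal 2 by norm_num, ← ENNReal.ofReal_mul (by positivity)]
        congr 1; ring

end Pool.Agent.K1H32.CI
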