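import Pool.Agent.K1H32.CI.Ana1

/-! Analysis of the limits: sufficiency. -/

set_option autoImplicit false

open MeasureTheory Set Filter Topology Metric ProbabilityTheory
open scoped ENNReal NNReal

namespace Pool.Agent.K1H32.CI

/-- continuous functions vanishing at `η` faster than the weight -/
structure XX (F : Set ℂ) (Q : ℂ → ℝ) (η : ℂ) (h : ℂ → ℝ) : Prop where
  cont : ContinuousOn h F
  small : ∀ ε : ℝ, 0 < ε → ∃ δ : ℝ, 0 < δ ∧ ∀ ζ ∈ F, ‖ζ - η‖ < δ → |h ζ| ≤ ε * Q ζ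

variable {F : Set ℂ} {Q : ℂ → ℝ} {η : ℂ} {S : Set ℂ} {c δ : ℝ}

lemma XX.bound {h : ℂ → ℝ} (hh : XX F Q η h) (hQ : QD F Q η) :
    ∃ C : ℝ, 0 < C ∧ ∀ ζ ∈ F, |h ζ| ≤ C * Q ζ := by
  obtain ⟨δ, hδ, h1⟩ := hh.small 1 one_pos
  obtain ⟨B, hB⟩ := hQ.compact.exists_bound_of_continuousOn hh.cont
  obtain ⟨c, hc, h2⟩ := hQ.lower hδ
  refine ⟨max 1 (|B| / c), by positivity, fun ζ hζ => ?_⟩
  by_cases hd : ‖ζ - η‖ < δ
  · refine (h1 ζ hζ hd).trans ?_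
    exact mul_le_mul_of_nonneg_right (le_max_left _ _) (hQ.nonneg ζ hζ)
  · rw [not_lt] at hd
    have h3 := h2 ζ hζ hd
    have h4 := hB ζ hζ
    rw [Real.norm_eq_abs] at h4
    calc |h ζ| ≤ |B| := h4.trans (le_abs_self B)
      _ = |B| / c * c := by field_simp
      _ ≤ |B| / c * Q ζ := by gcongr
      _ ≤ max 1 (|B| / c) * Q ζ := mul_le_mul_of_nonneg_right (le_max_right _ _) (hQ.nonneg ζ hζ)

/-- the functional -/
noncomputable def Lam (N₁ N₂ : Measure ℂ) (s₁ s₂ : ℂ → ℝ) (η : ℂ) (h : ℂ → ℝ) (z : ℂ) : ℝ :=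
  (∫ ζ, s₁ ζ * (h ζ * (kz η z ζ).re) ∂N₁) + ∫ ζ, s₂ ζ * (h ζ * (kz η z ζ).im) ∂N₂

lemma measurable_kz (η z : ℂ) : Measurable (kz η z) := by unfold kz; fun_prop

lemma DN.aesm_mul {N : Measure ℂ} (hN : DN F Q η N) (hQ : QD F Q η) {s : ℂ → ℝ} (hs : Measurable s)
    {h : ℂ → ℝ} (hh : ContinuousOn h F) {k : ℂ → ℝ} (hk : Measurable k) :
    AEStronglyMeasurable (fun ζ => s ζ * (h ζ * k ζ)) N :=
  hs.aestronglyMeasurable.mul ((hN.aesm hQ hh).mul hk.aestronglyMeasurable)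

lemma DN.ker_int {N : Measure ℂ} (hN : DN F Q η N) (hQ : QD F Q η) {t : ℝ} (ht : 0 < t) :
    Integrable (fun ζ => F.indicator Q ζ * ‖ζ - η‖ * (t / (t + ‖ζ - η‖) ^ 2)) N := by
  refine (hN.int.mul_const (1 / t)).mono ?_ ?_
  · apply Measurable.aestronglyMeasurable
    exact (hQ.meas.mul (by fun_prop)).mul (by fun_prop)
  · filter_upwards with ζ
    rw [norm_mul, norm_mul _ (1 / t)]
    apply mul_le_mul_of_nonneg_left _ (norm_nonneg _)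
    rw [Real.norm_of_nonneg (by positivity), Real.norm_of_nonneg (by positivity),
      div_le_div_iff₀ (by positivity) ht]
    nlinarith [norm_nonneg (ζ - η)]

lemma DN.ker_le {N : Measure ℂ} (hN : DN F Q η N) (hQ : QD F Q η) {M : ℝ} (hM : 0 ≤ M)
    (hB : GrB F Q η N M) {t : ℝ} (ht : 0 < t) :
    ∫ ζ, F.indicator Q ζ * ‖ζ - η‖ * (t / (t + ‖ζ - η‖) ^ 2) ∂N ≤ 8 * M := by
  have h1 := hB.ker hM hQ ht
  rw [← ofReal_integral_eq_lintegral_ofReal (hN.ker_int hQ ht)] at h1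
  · exact (ENNReal.ofReal_le_ofReal_iff (by positivity)).1 h1
  · filter_upwards with ζ
    have := hQ.ind_nonneg ζ
    show 0 ≤ _
    positivity

lemma eventually_S (η : ℂ) (S : Set ℂ) {δ : ℝ} (hδ : 0 < δ) : ∀ᶠ z in 𝓝[S] η, z ∈ S ∧ ‖z - η‖ < δ := by
  have h1 : ∀ᶠ z in 𝓝[S] η, z ∈ S := self_mem_nhdsWithin
  have h2 : ∀ᶠ z in 𝓝[S] η, z ∈ ball η δ := mem_nhdsWithin_of_mem_nhds (ball_mem_nhds η hδ)
  filter_upwards [h1, h2] with z hz hz2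
  rw [mem_ball, dist_eq_norm] at hz2
  exact ⟨hz, hz2⟩

theorem suf {N₁ N₂ : Measure ℂ} {s₁ s₂ : ℂ → ℝ} (hQ : QD F Q η) (hN₁ : DN F Q η N₁) (hN₂ : DN F Q η N₂)
    (hs₁ : Measurable s₁) (hs₁' : ∀ᵐ ζ ∂N₁, |s₁ ζ| = 1) (hs₂' : ∀ᵐ ζ ∂N₂, |s₂ ζ| = 1)
    (hg : Geo F S η c δ) (hηS : η ∉ S) (hI : Integrable (F.indicator Q) N₁) {M : ℝ} (hM : 0 ≤ M)
    (hB : GrB F Q η N₂ M) {h : ℂ → ℝ} (hh : XX F Q η h) :
    Tendsto (Lam N₁ N₂ s₁ s₂ η h) (𝓝[S] η) (𝓝 (∫ ζ, s₁ ζ * h ζ ∂N₁)) := by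
  obtain ⟨C, hC, hhC⟩ := hh.bound hQ
  have hc := hg.c_pos
  have hT1 : Tendsto (fun z => ∫ ζ, s₁ ζ * (h ζ * (kz η z ζ).re) ∂N₁) (𝓝[S] η)
      (𝓝 (∫ ζ, s₁ ζ * h ζ ∂N₁)) := by
    apply tendsto_integral_filter_of_dominated_convergence (fun ζ => C * F.indicator Q ζ * (1 / c))
    · filter_upwards with z
      exact hN₁.aesm_mul hQ hs₁ hh.cont (Complex.measurable_re.comp (measurable_kz η z))
    · filter_upwards [eventually_S η S hg.δ_pos] with z hz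
      filter_upwards [hs₁', hN₁.ae_mem] with ζ h1 h2
      rw [norm_mul, Real.norm_eq_abs, h1, one_mul, norm_mul, Real.norm_eq_abs, indicator_of_mem h2]
      have h3 := hg.norm_kz hηS hz.1 hz.2 h2
      have h4 := (Complex.abs_re_le_norm (kz η z ζ)).trans h3
      have h5 := hQ.nonneg ζ h2
      exact mul_le_mul (hhC ζ h2) h4 (norm_nonneg _) (by positivity)
    · exact (hI.const_mul C).mul_const (1 / c)
    · filter_upwards [hN₁.ae_ne] with ζ hζ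
      have h1 := (tendsto_kz hζ).mono_left (nhdsWithin_le_nhds (s := S))
      have h2 := (Complex.continuous_re.tendsto 1).comp h1
      have h3 := (h2.const_mul (h ζ)).const_mul (s₁ ζ)
      simpa using h3
  have hT2 : Tendsto (fun z => ∫ ζ, s₂ ζ * (h ζ * (kz η z ζ).im) ∂N₂) (𝓝[S] η) (𝓝 0) := by
    rw [Metric.tendsto_nhds]
    intro ε hε
    set ε' : ℝ := ε * c ^ 2 / (16 * M + 1) / 2 with hε'
    have hε'0 : 0 < ε' := by positivity
    obtain ⟨δ', hδ', hsm⟩ := hh.small ε' hε'0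
    set I : ℝ := ∫ ζ, F.indicator Q ζ * ‖ζ - η‖ ∂N₂ with hIdef
    have hI0 : 0 ≤ I := integral_nonneg fun ζ => mul_nonneg (hQ.ind_nonneg ζ) (norm_nonneg _)
    set t0 : ℝ := ε * c ^ 2 * δ' ^ 2 / (C * I + 1) / 4 with ht0
    have ht0' : 0 < t0 := by positivity
    filter_upwards [eventually_S η S hg.δ_pos, eventually_S η S ht0'] with z hz hz2
    have hne : z ≠ η := fun h => hηS (h ▸ hz.1)
    have ht : 0 < ‖z - η‖ := norm_pos_iff.2 (sub_ne_zero.2 hne)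
    set t := ‖z - η‖ with htdef
    rw [dist_zero_right]
    have hpt : ∀ᵐ ζ ∂N₂, ‖s₂ ζ * (h ζ * (kz η z ζ).im)‖ ≤
        ε' / c ^ 2 * (F.indicator Q ζ * ‖ζ - η‖ * (t / (t + ‖ζ - η‖) ^ 2)) +
        C * t / (c ^ 2 * δ' ^ 2) * (F.indicator Q ζ * ‖ζ - η‖) := by
      filter_upwards [hs₂', hN₂.ae_mem] with ζ h1 h2
      rw [norm_mul, Real.norm_eq_abs, h1, one_mul, norm_mul, Real.norm_eq_abs, indicator_of_mem h2,
        Real.norm_eq_abs]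
      have h3 := hg.im_kz hηS hz.1 hz.2 h2
      have h5 := hQ.nonneg ζ h2
      have hρ := norm_nonneg (ζ - η)
      by_cases hd : ‖ζ - η‖ < δ'
      · have h6 := hsm ζ h2 hd
        have h7 : |h ζ| * |(kz η z ζ).im| ≤ (ε' * Q ζ) *
            (1 / c ^ 2 * (‖ζ - η‖ * (t / (t + ‖ζ - η‖) ^ 2))) :=
          mul_le_mul h6 h3 (abs_nonneg _) (by positivity)
        refine h7.trans ?_
        have h8 : 0 ≤ C * t / (c ^ 2 * δ' ^ 2) * (Q ζ * ‖ζ - η‖) := by positivity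
        have h9 : (ε' * Q ζ) * (1 / c ^ 2 * (‖ζ - η‖ * (t / (t + ‖ζ - η‖) ^ 2))) =
          ε' / c ^ 2 * (Q ζ * ‖ζ - η‖ * (t / (t + ‖ζ - η‖) ^ 2)) := by ring
        linarith
      · rw [not_lt] at hd
        have h6 := hhC ζ h2
        have h7 : |h ζ| * |(kz η z ζ).im| ≤ (C * Q ζ) *
            (1 / c ^ 2 * (‖ζ - η‖ * (t / (t + ‖ζ - η‖) ^ 2))) :=
          mul_le_mul h6 h3 (abs_nonneg _) (by positivity)
        have h8 : t / (t + ‖ζ - η‖) ^ 2 ≤ t / δ' ^ 2 := by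
          apply div_le_div_of_nonneg_left ht.le (by positivity)
          exact pow_le_pow_left₀ hδ'.le (by linarith) 2
        have h9 : (C * Q ζ) * (1 / c ^ 2 * (‖ζ - η‖ * (t / (t + ‖ζ - η‖) ^ 2))) ≤
            (C * Q ζ) * (1 / c ^ 2 * (‖ζ - η‖ * (t / δ' ^ 2))) := by gcongr
        have h10 : (C * Q ζ) * (1 / c ^ 2 * (‖ζ - η‖ * (t / δ' ^ 2))) =
            C * t / (c ^ 2 * δ' ^ 2) * (Q ζ * ‖ζ - η‖) := by field_simp
        have h11 : 0 ≤ ε' / c ^ 2 * (Q ζ * ‖ζ - η‖ * (t / (t + ‖ζ - η‖) ^ 2)) := by positivity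
        linarith
    have hb := norm_integral_le_of_norm_le
      (((hN₂.ker_int hQ ht).const_mul (ε' / c ^ 2)).add (hN₂.int.const_mul (C * t / (c ^ 2 * δ' ^ 2)))) hpt
    refine hb.trans_lt ?_
    have hsplit : ∫ ζ, (fun ζ => ε' / c ^ 2 * (F.indicator Q ζ * ‖ζ - η‖ * (t / (t + ‖ζ - η‖) ^ 2)) +
        C * t / (c ^ 2 * δ' ^ 2) * (F.indicator Q ζ * ‖ζ - η‖)) ζ ∂N₂ =
        ε' / c ^ 2 * (∫ ζ, F.indicator Q ζ * ‖ζ - η‖ * (t / (t + ‖ζ - η‖) ^ 2) ∂N₂) +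
        C * t / (c ^ 2 * δ' ^ 2) * I := by
      rw [integral_add ((hN₂.ker_int hQ ht).const_mul _) (hN₂.int.const_mul _), integral_const_mul,
        integral_const_mul]
    have hk := hN₂.ker_le hQ hM hB ht
    have e1 : ε' / c ^ 2 * (∫ ζ, F.indicator Q ζ * ‖ζ - η‖ * (t / (t + ‖ζ - η‖) ^ 2) ∂N₂) ≤ ε / 2 := by
      calc _ ≤ ε' / c ^ 2 * (8 * M) := by gcongr
        _ = ε / 2 * (8 * M / (16 * M + 1)) := by rw [hε']; field_simp
        _ ≤ ε / 2 * 1 := by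
            gcongr
            rw [div_le_one (by positivity)]; linarith
        _ = ε / 2 := mul_one _
    have e2 : C * t / (c ^ 2 * δ' ^ 2) * I ≤ ε / 4 := by
      calc C * t / (c ^ 2 * δ' ^ 2) * I ≤ C * t0 / (c ^ 2 * δ' ^ 2) * I := by
            gcongr
            exact hz2.2.le
        _ = ε / 4 * (C * I / (C * I + 1)) := by rw [ht0]; field_simp
        _ ≤ ε / 4 * 1 := by
            gcongr
            rw [div_le_one (by positivity)]; linarith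
        _ = ε / 4 := mul_one _
    calc _ = _ := hsplit
      _ < ε := by linarith
  have := hT1.add hT2
  rw [add_zero] at this
  exact this

end Pool.Agent.K1H32.CI
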