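import Pool.Agent.K1H32.CI.Tr

/-! Slices of the essential boundary by circles and rays. -/

set_option autoImplicit false

open MeasureTheory Set Filter Topology Metric ProbabilityTheory
open scoped ENNReal NNReal

namespace Pool.Agent.K1H32.CI

/-- cell of the logarithmic plane -/
def cellC (a b : ℤ) : Set ℂ :=
  {w | w.re ∈ Ico ((a:ℝ) / 4) (((a:ℝ) + 1) / 4) ∧ w.im ∈ Ico ((b:ℝ) / 4) (((b:ℝ) + 1) / 4)}

/-- annulus -/
def Ann (η : ℂ) (a : ℤ) : Set ℂ :=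
  {ζ | Real.exp ((a:ℝ) / 4) ≤ ‖ζ - η‖ ∧ ‖ζ - η‖ < Real.exp (((a:ℝ) + 1) / 4)}

lemma mem_quarter {a : ℤ} {x : ℝ} : x ∈ Ico ((a:ℝ) / 4) (((a:ℝ) + 1) / 4) ↔ ⌊4 * x⌋ = a := by
  rw [mem_Ico, Int.floor_eq_iff]
  constructor <;> rintro ⟨h1, h2⟩ <;> constructor <;> linarith

lemma exp_anti {a b : ℤ} {w w' : ℂ} (hw : w ∈ cellC a b) (hw' : w' ∈ cellC a b) :
    ‖w - w'‖ ≤ 2 * Real.exp (-((a:ℝ) / 4)) * ‖Complex.exp w - Complex.exp w'‖ := by
  have h1 : ‖w - w'‖ ≤ 1 / 2 := by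
    refine (Complex.norm_le_abs_re_add_abs_im _).trans ?_
    have e1 : |(w - w').re| ≤ 1 / 4 := by
      rw [Complex.sub_re, abs_le]
      constructor <;> linarith [hw.1.1, hw.1.2, hw'.1.1, hw'.1.2]
    have e2 : |(w - w').im| ≤ 1 / 4 := by
      rw [Complex.sub_im, abs_le]
      constructor <;> linarith [hw.2.1, hw.2.2, hw'.2.1, hw'.2.2]
    linarith
  have h2 : Complex.exp w - Complex.exp w' = Complex.exp w' * (Complex.exp (w - w') - 1) := by
    rw [mul_sub, ← Complex.exp_add, add_sub_cancel, mul_one]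
  have h3 : ‖w - w'‖ / 2 ≤ ‖Complex.exp (w - w') - 1‖ := by
    have h4 := Complex.norm_exp_sub_one_sub_id_le (x := w - w') (by linarith)
    have h5 : ‖w - w'‖ ≤ ‖Complex.exp (w - w') - 1 - (w - w')‖ + ‖Complex.exp (w - w') - 1‖ := by
      have := norm_sub_le (Complex.exp (w - w') - 1) (Complex.exp (w - w') - 1 - (w - w'))
      rw [sub_sub_cancel] at this
      linarith
    nlinarith [norm_nonneg (w - w')]
  rw [h2, norm_mul, Complex.norm_exp]
  have h6 : Real.exp ((a:ℝ) / 4) ≤ Real.exp w'.re := Real.exp_le_exp.2 hw'.1.1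
  have h7 : Real.exp (-((a:ℝ) / 4)) * Real.exp ((a:ℝ) / 4) = 1 := by
    rw [← Real.exp_add]; simp
  have h8 : 1 ≤ Real.exp (-((a:ℝ) / 4)) * Real.exp w'.re := by
    rw [← h7]
    exact mul_le_mul_of_nonneg_left h6 (Real.exp_pos _).le
  calc ‖w - w'‖ ≤ 2 * ‖Complex.exp (w - w') - 1‖ := by linarith
    _ = 2 * (1 * ‖Complex.exp (w - w') - 1‖) := by ring
    _ ≤ 2 * ((Real.exp (-((a:ℝ) / 4)) * Real.exp w'.re) * ‖Complex.exp (w - w') - 1‖) := by gcongr
    _ = _ := by ring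

lemma exp_mem_Ann {η w : ℂ} {a b : ℤ} (hw : w ∈ cellC a b) : η + Complex.exp w ∈ Ann η a := by
  unfold Ann
  rw [mem_ofPred_eq, add_sub_cancel_left, Complex.norm_exp]
  exact ⟨Real.exp_le_exp.2 hw.1.1, Real.exp_lt_exp.2 hw.1.2⟩

lemma hm_cell (η : ℂ) (a b : ℤ) (D : Set ℂ) :
    Measure.hausdorffMeasure 1 {w | w ∈ cellC a b ∧ η + Complex.exp w ∈ D} ≤
      ENNReal.ofReal (2 * Real.exp (-((a:ℝ) / 4))) * Measure.hausdorffMeasure 1 (D ∩ Ann η a) := by
  set f : ↥(cellC a b) → ℂ := fun w => η + Complex.exp w with hf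
  have hanti : AntilipschitzWith (Real.toNNReal (2 * Real.exp (-((a:ℝ) / 4)))) f := by
    apply AntilipschitzWith.of_le_mul_dist
    intro w w'
    rw [Subtype.dist_eq, Complex.dist_eq, Complex.dist_eq, Real.coe_toNNReal _ (by positivity), hf]
    simp only [add_sub_add_left_eq_sub]
    exact exp_anti w.2 w'.2
  have h1 : {w | w ∈ cellC a b ∧ η + Complex.exp w ∈ D} = Subtype.val '' (f ⁻¹' (D ∩ Ann η a)) := by
    ext w
    constructor
    · rintro ⟨h1, h2⟩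
      exact ⟨⟨w, h1⟩, ⟨h2, exp_mem_Ann h1⟩, rfl⟩
    · rintro ⟨w', hw', rfl⟩
      exact ⟨w'.2, hw'.1⟩
  rw [h1, (isometry_subtype_coe).hausdorffMeasure_image (Or.inl zero_le_one)]
  refine (hanti.hausdorffMeasure_preimage_le zero_le_one _).trans (le_of_eq ?_)
  rw [ENNReal.rpow_one]
  rfl

/-- slice of the preimage of `D` inside a cell -/
def Sl (s : Bool) (η : ℂ) (a b : ℤ) (D : Set ℂ) (p : ℝ) : Set ℝ :=
  {t | io s (p, t) ∈ cellC a b ∧ Th s η (p, t) ∈ D}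

lemma oi_lip (s : Bool) (S : Set ℂ) : LipschitzOnWith 1 (fun w => (oi s w).1) S := by
  apply LipschitzWith.lipschitzOnWith
  apply LipschitzWith.of_dist_le_mul
  intro z w
  rw [NNReal.coe_one, one_mul, Complex.dist_eq, Real.dist_eq]
  cases s
  · exact Complex.abs_re_le_norm (z - w)
  · exact Complex.abs_im_le_norm (z - w)

lemma io_inj (s : Bool) (p : ℝ) : Function.Injective (fun t => io s (p, t)) := by
  intro t t' h
  have := congrArg (oi s) h
  simp only [oi_io, Prod.mk.injEq, true_and] at this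
  exact this

theorem slice_bound (s : Bool) (η : ℂ) (a b : ℤ) (D : Set ℂ) :
    ∃ g : ℝ → ℝ≥0∞, Measurable g ∧ (∀ p, ((Sl s η a b D p).encard : ℝ≥0∞) ≤ g p) ∧
      ∫⁻ p, g p ≤ ENNReal.ofReal (2 * Real.exp (-((a:ℝ) / 4))) *
        Measure.hausdorffMeasure 1 (D ∩ Ann η a) := by
  obtain ⟨g, hg1, hg2, hg3⟩ := eilenberg {w | w ∈ cellC a b ∧ η + Complex.exp w ∈ D}
    (fun w => (oi s w).1) 1 (oi_lip s _)
  refine ⟨g, hg1, fun p => ?_, ?_⟩
  · refine le_trans (le_of_eq ?_) (hg2 p)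
    rw [ENNReal.tsum_set_one]
    have : {w | w ∈ cellC a b ∧ η + Complex.exp w ∈ D} ∩ (fun w => (oi s w).1) ⁻¹' {p} =
        (fun t => io s (p, t)) '' Sl s η a b D p := by
      ext w
      constructor
      · rintro ⟨⟨h1, h2⟩, h3⟩
        have h3 : (oi s w).1 = p := h3
        have h4 : io s (p, (oi s w).2) = w := by
          rw [← h3]
          exact io_oi s w
        refine ⟨(oi s w).2, ⟨?_, ?_⟩, h4⟩
        · rw [h4]; exact h1
        · unfold Th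
          rw [h4]; exact h2
      · rintro ⟨t, ⟨h1, h2⟩, rfl⟩
        refine ⟨⟨h1, h2⟩, ?_⟩
        show (oi s (io s (p, t))).1 = p
        rw [oi_io]
    rw [this, (io_inj s p).encard_image]
  · refine hg3.trans ?_
    rw [ENNReal.coe_one, one_mul]
    exact hm_cell η a b D

lemma essBdry_compl (A : Set ℂ) : essBdry Aᶜ = essBdry A := by
  unfold essBdry
  ext ζ
  rw [mem_ofPred_eq, mem_ofPred_eq, compl_compl, and_comm]

lemma abs_io_re (s : Bool) (p t : ℝ) : |(io s (p, t)).re| ≤ |p| + |t| := by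
  cases s
  · exact le_add_of_nonneg_right (abs_nonneg t)
  · exact le_add_of_nonneg_left (abs_nonneg p)

lemma abs_io_im (s : Bool) (p t : ℝ) : |(io s (p, t)).im| ≤ |p| + |t| := by
  cases s
  · exact le_add_of_nonneg_left (abs_nonneg p)
  · exact le_add_of_nonneg_right (abs_nonneg t)

lemma finite_slices (s : Bool) (η : ℂ) {E : Set ℂ}
    (hfin : ∀ a : ℤ, Measure.hausdorffMeasure 1 (E ∩ Ann η a) < ∞) :
    ∀ᵐ p : ℝ, ∀ n : ℕ, {t : ℝ | t ∈ Icc (-(n:ℝ)) n ∧ Th s η (p, t) ∈ E}.Finite := by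
  have h1 : ∀ᵐ p : ℝ, ∀ i : ℤ × ℤ, (Sl s η i.1 i.2 E p).Finite := by
    rw [ae_all_iff]
    rintro ⟨a, b⟩
    obtain ⟨g, hg1, hg2, hg3⟩ := slice_bound s η a b E
    have h2 : ∫⁻ p, g p ≠ ∞ := (hg3.trans_lt (ENNReal.mul_lt_top ENNReal.ofReal_lt_top (hfin a))).ne
    filter_upwards [ae_lt_top hg1 h2] with p hp
    have h3 := (hg2 p).trans_lt hp
    rw [← Set.encard_lt_top_iff]
    by_contra h
    rw [not_lt_top_iff] at h
    rw [h] at h3
    simp at h3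
  filter_upwards [h1] with p hp n
  obtain ⟨N, hN⟩ := exists_nat_gt (4 * (|p| + n) + 1)
  have hsub : {t : ℝ | t ∈ Icc (-(n:ℝ)) n ∧ Th s η (p, t) ∈ E} ⊆
      ⋃ i ∈ (Finset.Icc (-(N:ℤ)) N ×ˢ Finset.Icc (-(N:ℤ)) N), Sl s η i.1 i.2 E p := by
    rintro t ⟨ht, htE⟩
    have ht' : |t| ≤ n := abs_le.2 ht
    have h3 : ∀ x : ℝ, |x| ≤ |p| + |t| → ⌊4 * x⌋ ∈ Finset.Icc (-(N:ℤ)) N := by
      intro x hx
      have hx' := abs_le.1 hx
      rw [Finset.mem_Icc]
      constructor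
      · rw [Int.le_floor]
        push_cast
        linarith
      · have : (⌊4 * x⌋ : ℝ) ≤ 4 * x := Int.floor_le _
        have h4 : (⌊4 * x⌋ : ℝ) ≤ ((N:ℤ):ℝ) := by push_cast; linarith
        exact_mod_cast h4
    rw [mem_iUnion₂]
    refine ⟨(⌊4 * (io s (p, t)).re⌋, ⌊4 * (io s (p, t)).im⌋), ?_, ⟨?_, ?_⟩, htE⟩
    · rw [Finset.mem_product]
      exact ⟨h3 _ (abs_io_re s p t), h3 _ (abs_io_im s p t)⟩
    · exact mem_quarter.2 rfl
    · exact mem_quarter.2 rfl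
  refine Set.Finite.subset ?_ hsub
  exact Set.Finite.biUnion (Finset.finite_toSet _) (fun i _ => hp i)

/-- the preimage of the complement of `A` -/
def MM (s : Bool) (η : ℂ) (A : Set ℂ) : Set (ℝ × ℝ) := Th s η ⁻¹' Aᶜ

lemma measurableSet_MM {s : Bool} {η : ℂ} {A : Set ℂ} (hA : MeasurableSet A) :
    MeasurableSet (MM s η A) := (continuous_Th s η).measurable hA.compl

theorem slice_ae (s : Bool) (η : ℂ) {A : Set ℂ} (hA : MeasurableSet A)
    (hfin : ∀ a : ℤ, Measure.hausdorffMeasure 1 (essBdry A ∩ Ann η a) < ∞) :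
    ∀ᵐ p : ℝ, p ∈ GoodP (MM s η A) ∧ ∀ t, t ∈ HS (MM s η A) p ↔ Th s η (p, t) ∈ essBdry A := by
  have hM : MeasurableSet (MM s η A) := measurableSet_MM hA
  have hE : ∀ q, Ess (MM s η A) q ↔ Th s η q ∈ essBdry A := by
    intro q
    unfold MM
    rw [ess_Th, essBdry_compl]
  filter_upwards [finite_slices s η hfin, hit_of_ess hM, ess_of_hit hM] with p h1 h2 h3
  have h4 : ∀ t, t ∈ HS (MM s η A) p ↔ Th s η (p, t) ∈ essBdry A := by
    intro t
    rw [← hE]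
    constructor
    · intro ht
      refine h3 ?_ t ht
      intro n
      simp_rw [hE]
      exact h1 n
    · exact h2 t
  refine ⟨fun n => ?_, h4⟩
  rw [Measure.count_apply_lt_top]
  refine (h1 n).subset ?_
  rintro t ⟨ht1, ht2⟩
  exact ⟨Ico_subset_Icc_self ht2, (h4 t).1 ht1⟩

end Pool.Agent.K1H32.CI
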