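import Pool.Agent.K1H32.CI.Fin2

/-! The unit disc with the constant weight: part (a) with the weighted quantity fails. -/

set_option autoImplicit false

open MeasureTheory Set Filter Topology Metric ProbabilityTheory Asymptotics
open scoped ENNReal NNReal

namespace Pool.Agent.K1H32.CI

/-- the radius `[0,1)` -/
def seg : Set ℂ := (fun t : ℝ => (t : ℂ)) '' Ico 0 1

lemma frontier_disc : frontier (ball (0:ℂ) 1) = sphere 0 1 := frontier_ball 0 one_ne_zero

lemma disc_thick {z : ℂ} (hz : z ∈ sphere (0:ℂ) 1) {r : ℝ} (hr : 0 < r) (hr1 : r ≤ 1) :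
    ball (((1 - r / 2 : ℝ) : ℂ) * z) (r / 2) ⊆ ball 0 1 ∩ closedBall z r ∧
    ball (((1 + r / 2 : ℝ) : ℂ) * z) (r / 2) ⊆ (ball 0 1)ᶜ ∩ closedBall z r := by
  rw [mem_sphere, dist_zero_right] at hz
  constructor
  · intro w hw
    rw [mem_ball, dist_eq_norm] at hw
    have h1 : ‖((1 - r / 2 : ℝ) : ℂ) * z‖ = 1 - r / 2 := by
      rw [norm_mul, hz, mul_one, Complex.norm_real, Real.norm_eq_abs, abs_of_nonneg (by linarith)]
    have h2 : ‖((1 - r / 2 : ℝ) : ℂ) * z - z‖ = r / 2 := by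
      have : ((1 - r / 2 : ℝ) : ℂ) * z - z = ((-(r / 2) : ℝ) : ℂ) * z := by push_cast; ring
      rw [this, norm_mul, hz, mul_one, Complex.norm_real, Real.norm_eq_abs, abs_neg, abs_of_pos (by positivity)]
    constructor
    · rw [mem_ball, dist_zero_right]
      have : w = (w - ((1 - r / 2 : ℝ) : ℂ) * z) + ((1 - r / 2 : ℝ) : ℂ) * z := by ring
      rw [this]
      refine (norm_add_le _ _).trans_lt ?_
      rw [h1]; linarith
    · rw [mem_closedBall, dist_eq_norm]
      have : w - z = (w - ((1 - r / 2 : ℝ) : ℂ) * z) + (((1 - r / 2 : ℝ) : ℂ) * z - z) := by ring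
      rw [this]
      refine (norm_add_le _ _).trans ?_
      rw [h2]; linarith
  · intro w hw
    rw [mem_ball, dist_eq_norm] at hw
    have h1 : ‖((1 + r / 2 : ℝ) : ℂ) * z‖ = 1 + r / 2 := by
      rw [norm_mul, hz, mul_one, Complex.norm_real, Real.norm_eq_abs, abs_of_nonneg (by linarith)]
    have h2 : ‖((1 + r / 2 : ℝ) : ℂ) * z - z‖ = r / 2 := by
      have : ((1 + r / 2 : ℝ) : ℂ) * z - z = ((r / 2 : ℝ) : ℂ) * z := by push_cast; ring
      rw [this, norm_mul, hz, mul_one, Complex.norm_real, Real.norm_eq_abs, abs_of_pos (by positivity)]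
    constructor
    · rw [mem_compl_iff, mem_ball, dist_zero_right, not_lt]
      have h3 := norm_sub_norm_le (((1 + r / 2 : ℝ) : ℂ) * z) (((1 + r / 2 : ℝ) : ℂ) * z - w)
      rw [sub_sub_cancel, h1, norm_sub_rev] at h3
      linarith
    · rw [mem_closedBall, dist_eq_norm]
      have : w - z = (w - ((1 + r / 2 : ℝ) : ℂ) * z) + (((1 + r / 2 : ℝ) : ℂ) * z - z) := by ring
      rw [this]
      refine (norm_add_le _ _).trans ?_
      rw [h2]; linarith

lemma vol_half_ball (a : ℂ) {r : ℝ} (hr : 0 < r) : ENNReal.ofReal (1 / 2 * r ^ 2) < volume (ball a (r / 2)) := by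
  rw [Complex.volume_ball]
  have h1 : (NNReal.pi : ℝ≥0∞) = ENNReal.ofReal Real.pi := by
    rw [← NNReal.coe_real_pi, ENNReal.ofReal_coe_nnreal]
  rw [h1, ← ENNReal.ofReal_pow (by positivity), ← ENNReal.ofReal_mul (by positivity),
    ENNReal.ofReal_lt_ofReal_iff (by positivity)]
  nlinarith [Real.pi_gt_three, sq_pos_of_pos hr]

lemma essBdry_disc : essBdry (ball (0:ℂ) 1) = sphere 0 1 := by
  apply subset_antisymm
  · rw [← frontier_disc]; exact essBdry_subset _
  · intro z hz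
    rw [mem_essBdry]
    have key : ∀ B : Set ℂ, (∀ r : ℝ, 0 < r → r ≤ 1 → ∃ a, ball a (r / 2) ⊆ B ∩ closedBall z r) → ¬ ZD B z := by
      intro B hB h
      have h1 := h (1 / 2) (by norm_num)
      have h2 : ∀ᶠ r in 𝓝[>] (0:ℝ), r ≤ 1 := by
        apply eventually_nhdsWithin_of_eventually_nhds
        exact eventually_le_nhds one_pos
      obtain ⟨r, hr1, hr2, hr0⟩ := (h1.and (h2.and self_mem_nhdsWithin)).exists
      have hr0 : 0 < r := hr0
      obtain ⟨a, ha⟩ := hB r hr0 hr2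
      have h3 := (vol_half_ball a hr0).trans_le ((measure_mono ha).trans hr1)
      exact lt_irrefl _ h3
    exact ⟨key _ fun r hr hr1 => ⟨_, (disc_thick hz hr hr1).1⟩, key _ fun r hr hr1 => ⟨_, (disc_thick hz hr hr1).2⟩⟩

lemma hm_circle : Measure.hausdorffMeasure 1 (sphere (0:ℂ) 1) < ∞ := by
  have h1 : sphere (0:ℂ) 1 ⊆ circleMap 0 1 '' Icc (-Real.pi) Real.pi := by
    intro z hz
    rw [mem_sphere, dist_zero_right] at hz
    refine ⟨Complex.arg z, ⟨(Complex.neg_pi_lt_arg z).le, Complex.arg_le_pi z⟩, ?_⟩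
    unfold circleMap
    have := Complex.norm_mul_exp_arg_mul_I z
    rw [hz] at this
    rw [zero_add]
    exact this
  refine (measure_mono h1).trans_lt ?_
  have h2 := (lipschitzWith_circleMap (0:ℂ) 1).hausdorffMeasure_image_le (d := 1) zero_le_one (Icc (-Real.pi) Real.pi)
  refine h2.trans_lt ?_
  rw [hausdorffMeasure_real]
  apply ENNReal.mul_lt_top
  · simp
  · rw [Real.volume_Icc]; exact ENNReal.ofReal_lt_top

lemma circle_re {z : ℂ} (hz : ‖z‖ = 1) : (z - 1).re = -‖z - 1‖ ^ 2 / 2 := by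
  have h1 : z.re ^ 2 + z.im ^ 2 = 1 := by
    have h := Complex.sq_norm z
    rw [hz, Complex.normSq_apply] at h
    linarith
  rw [Complex.sq_norm, Complex.normSq_apply]
  simp only [Complex.sub_re, Complex.one_re, Complex.sub_im, Complex.one_im, sub_zero]
  nlinarith

lemma contingent_circle {u : ℂ} (hu : u ∈ contingent (sphere (0:ℂ) 1) 1) : u.re = 0 := by
  obtain ⟨_, z, hz, hzt, hlim⟩ := hu
  have h1 := (Complex.continuous_re.tendsto u).comp hlim
  have h2 : Tendsto (fun n => -‖z n - 1‖ / 2) atTop (𝓝 0) := by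
    have := (tendsto_iff_norm_sub_tendsto_zero.1 hzt).neg.div_const 2
    simpa using this
  refine tendsto_nhds_unique h1 (h2.congr fun n => ?_)
  have hn := hz n
  have hz1 : ‖z n‖ = 1 := by simpa using hn.1
  have hpos : ‖z n - 1‖ ≠ 0 := norm_ne_zero_iff.2 (sub_ne_zero.2 hn.2)
  show -‖z n - 1‖ / 2 = ((z n - 1) / (‖z n - 1‖ : ℂ)).re
  rw [Complex.div_ofReal_re, circle_re hz1]
  field_simp

lemma contingent_seg : contingent seg 1 = {-1} := by
  have key : ∀ z ∈ seg, (z - 1) / (‖z - 1‖ : ℂ) = -1 := by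
    rintro _ ⟨t, ht, rfl⟩
    have h1 : (1:ℝ) - t > 0 := by linarith [ht.2]
    have h2 : ‖((t:ℝ):ℂ) - 1‖ = 1 - t := by
      rw [← Complex.ofReal_one, ← Complex.ofReal_sub, Complex.norm_real, Real.norm_eq_abs,
        abs_of_neg (by linarith)]
      ring
    simp only [h2]
    have h3 : (((1 - t : ℝ)) : ℂ) ≠ 0 := by exact_mod_cast h1.ne'
    rw [div_eq_iff h3]
    push_cast; ring
  ext u
  constructor
  · rintro ⟨_, z, hz, _, hlim⟩
    have : Tendsto (fun _ : ℕ => (-1:ℂ)) atTop (𝓝 u) := hlim.congr fun n => key _ (hz n).1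
    exact (tendsto_nhds_unique this tendsto_const_nhds)
  · rintro rfl
    have hmem : ∀ n : ℕ, (((1 - 1 / ((n:ℝ) + 1) : ℝ)) : ℂ) ∈ seg := by
      intro n
      have h1 : (0:ℝ) < 1 / ((n:ℝ) + 1) := by positivity
      have h2 : 1 / ((n:ℝ) + 1) ≤ 1 := by
        rw [div_le_one (by positivity)]
        have : (0:ℝ) ≤ n := Nat.cast_nonneg n
        linarith
      exact ⟨_, ⟨by linarith, by linarith⟩, rfl⟩
    refine ⟨by simp, fun n => (((1 - 1 / ((n:ℝ) + 1) : ℝ)) : ℂ), fun n => ⟨hmem n, ?_⟩, ?_, ?_⟩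
    · intro h
      have h1 : (1 - 1 / ((n:ℝ) + 1) : ℝ) = 1 := Complex.ofReal_injective (h.trans Complex.ofReal_one.symm)
      have h2 : (0:ℝ) < 1 / ((n:ℝ) + 1) := by positivity
      linarith
    · have h1 : Tendsto (fun n : ℕ => 1 - 1 / ((n:ℝ) + 1)) atTop (𝓝 (1 - 0)) :=
        tendsto_const_nhds.sub tendsto_one_div_add_atTop_nhds_zero_nat
      rw [sub_zero] at h1
      have := (Complex.continuous_ofReal.tendsto 1).comp h1
      rw [Complex.ofReal_one] at this
      exact this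
    · exact tendsto_const_nhds.congr fun n => (key _ (hmem n)).symm

theorem admissible_disc : Admissible (ball (0:ℂ) 1) (fun _ => 1) 1 seg := by
  have hint : interior (ball (0:ℂ) 1) = ball 0 1 := isOpen_ball.interior_eq
  refine ⟨measurableSet_ball, ?_, ?_, ?_, ?_, ?_, ?_, ?_, ?_, ?_, ?_, ?_, ?_, ?_⟩
  · rw [frontier_disc]; exact isCompact_sphere 0 1
  · rw [hint]; exact ⟨0, by simp⟩
  · intro z hz r hr
    rw [frontier_disc] at hz
    have hr' : 0 < min (r / 2) 1 := by positivity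
    have h := disc_thick hz hr' (min_le_right _ _)
    have hsub : closedBall z (min (r / 2) 1) ⊆ ball z r :=
      closedBall_subset_ball ((min_le_left _ _).trans_lt (by linarith))
    have hpos : ∀ a : ℂ, 0 < volume (ball a (min (r / 2) 1 / 2)) := fun a =>
      Metric.measure_ball_pos volume a (by positivity)
    constructor
    · refine (hpos _).trans_le (measure_mono (h.1.trans ?_))
      rintro x ⟨h1, h2⟩
      exact ⟨hsub h2, h1⟩
    · refine (hpos _).trans_le (measure_mono (h.2.trans ?_))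
      rintro x ⟨h1, h2⟩
      exact ⟨hsub h2, h1⟩
  · rw [frontier_disc]; simp
  · intro _ _; exact zero_le_one
  · intro _ _ _; exact one_pos
  · exact ⟨1, fun _ _ => le_rfl⟩
  · exact lowerSemicontinuousOn_const
  · rw [essBdry_disc]
    simp only [ENNReal.ofReal_one]
    rw [setLIntegral_one]
    exact hm_circle
  · rw [hint]
    rintro _ ⟨t, ht, rfl⟩
    rw [mem_ball, dist_zero_right, Complex.norm_real, Real.norm_eq_abs, abs_of_nonneg ht.1]
    exact ht.2
  · have h1 : IsConnected (Ico (0:ℝ) 1) := ⟨⟨0, le_rfl, one_pos⟩, isPreconnected_Ico⟩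
    exact h1.image _ Complex.continuous_ofReal.continuousOn
  · rw [frontier_disc]
    ext z
    constructor
    · rintro ⟨h1, h2⟩
      have hcl : closure seg ⊆ (fun t : ℝ => (t : ℂ)) '' Icc 0 1 := by
        apply closure_minimal
        · exact image_mono Ico_subset_Icc_self
        · exact (isCompact_Icc.image Complex.continuous_ofReal).isClosed
      obtain ⟨t, ht, rfl⟩ := hcl h1
      rw [mem_sphere, dist_zero_right, Complex.norm_real, Real.norm_eq_abs, abs_of_nonneg ht.1] at h2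
      rw [h2]; simp
    · rintro rfl
      refine ⟨?_, by simp⟩
      have h1 : (fun t : ℝ => (t : ℂ)) '' closure (Ico 0 1) ⊆ closure seg :=
        image_closure_subset_closure_image Complex.continuous_ofReal
      apply h1
      rw [closure_Ico zero_ne_one]
      exact ⟨1, by simp, by simp⟩
  · refine ⟨-1, contingent_seg, ?_, ?_⟩
    · rw [frontier_disc]
      intro h
      have := contingent_circle h
      simp at this
    · rw [frontier_disc]
      intro h
      have := contingent_circle h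
      simp at this

lemma vQ_disc : vQ (ball (0:ℂ) 1) (fun _ => 1) 1 < ∞ := by
  have h1 : ∀ γ : ℝ, ∑' _ : ↥(essBdry (ball (0:ℂ) 1) ∩ ray 1 γ ⊤), ENNReal.ofReal 1 ≤ 1 := by
    intro γ
    rw [ENNReal.ofReal_one, ENNReal.tsum_set_one, essBdry_disc]
    have h2 : (sphere (0:ℂ) 1 ∩ ray 1 γ ⊤).Subsingleton := by
      have key : ∀ ρ : ℝ, 0 < ρ → ‖(1:ℂ) + ρ * Complex.exp (γ * Complex.I)‖ = 1 → ρ = -2 * Real.cos γ := by
        intro ρ hρ h
        have e1 : ((1:ℂ) + ρ * Complex.exp (γ * Complex.I)).re = 1 + ρ * Real.cos γ := by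
          rw [Complex.add_re, Complex.re_ofReal_mul, Complex.exp_ofReal_mul_I_re]; rfl
        have e2 : ((1:ℂ) + ρ * Complex.exp (γ * Complex.I)).im = ρ * Real.sin γ := by
          rw [Complex.add_im, Complex.im_ofReal_mul, Complex.exp_ofReal_mul_I_im]; simp
        have h3 := Complex.sq_norm ((1:ℂ) + ρ * Complex.exp (γ * Complex.I))
        rw [h, Complex.normSq_apply, e1, e2] at h3
        have h4 := Real.sin_sq_add_cos_sq γ
        have h5 : ρ * (ρ + 2 * Real.cos γ) = 0 := by linear_combination (-1) * h3 - ρ ^ 2 * h4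
        rcases mul_eq_zero.1 h5 with h6 | h6
        · exact absurd h6 hρ.ne'
        · linarith
      rintro _ ⟨ha, ρ, hρ, _, rfl⟩ _ ⟨hb, ρ', hρ', _, rfl⟩
      rw [mem_sphere, dist_zero_right] at ha hb
      rw [key ρ hρ ha, key ρ' hρ' hb]
    have h3 := Set.encard_le_one_iff_subsingleton.2 h2
    exact_mod_cast h3
  unfold vQ
  refine (lintegral_mono h1).trans_lt ?_
  rw [setLIntegral_one, Real.volume_Ioc]
  exact ENNReal.ofReal_lt_top

lemma uQ_disc (r : {r : ℝ // 0 < r}) :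
    uQ (ball (0:ℂ) 1) (fun _ => 1) 1 (ENNReal.ofReal r) / ENNReal.ofReal r ≤ 2 := by
  have h1 : ∀ ρ : ℝ, ∑' _ : ↥(essBdry (ball (0:ℂ) 1) ∩ sphere 1 ρ), ENNReal.ofReal 1 ≤ 2 := by
    intro ρ
    rw [ENNReal.ofReal_one, ENNReal.tsum_set_one, essBdry_disc]
    set a : ℝ := 1 - ρ ^ 2 / 2 with ha
    have hsub : sphere (0:ℂ) 1 ∩ sphere 1 ρ ⊆ {(⟨a, Real.sqrt (1 - a ^ 2)⟩ : ℂ), (⟨a, -Real.sqrt (1 - a ^ 2)⟩ : ℂ)} := by
      rintro z ⟨hz1, hz2⟩
      rw [mem_sphere, dist_zero_right] at hz1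
      rw [mem_sphere, dist_eq_norm] at hz2
      have h2 := circle_re hz1
      rw [hz2] at h2
      have h3 : z.re = a := by
        have : (z - 1).re = z.re - 1 := by simp
        rw [this] at h2
        rw [ha]; linarith
      have h4 : z.re ^ 2 + z.im ^ 2 = 1 := by
        have h := Complex.sq_norm z
        rw [hz1, Complex.normSq_apply] at h
        linarith
      have h5 : z.im ^ 2 = 1 - a ^ 2 := by rw [← h3]; linarith
      have h6 : Real.sqrt (1 - a ^ 2) = |z.im| := by rw [← h5, Real.sqrt_sq_eq_abs]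
      rcases le_total 0 z.im with h | h
      · left
        apply Complex.ext
        · exact h3
        · show z.im = Real.sqrt (1 - a ^ 2)
          rw [h6, abs_of_nonneg h]
      · right
        apply Complex.ext
        · exact h3
        · show z.im = -Real.sqrt (1 - a ^ 2)
          rw [h6, abs_of_nonpos h, neg_neg]
    have h2 : (sphere (0:ℂ) 1 ∩ sphere 1 ρ).encard ≤ 2 := by
      refine (Set.encard_le_encard hsub).trans ((Set.encard_insert_le _ _).trans ?_)
      rw [Set.encard_singleton]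
      norm_num
    exact_mod_cast h2
  have hr : ENNReal.ofReal (r:ℝ) ≠ 0 := by
    rw [Ne, ENNReal.ofReal_eq_zero, not_le]; exact r.2
  rw [ENNReal.div_le_iff hr ENNReal.ofReal_ne_top]
  unfold uQ
  calc ∫⁻ ρ in {ρ : ℝ | 0 < ρ ∧ ENNReal.ofReal ρ < ENNReal.ofReal r},
        ∑' _ : ↥(essBdry (ball (0:ℂ) 1) ∩ sphere 1 ρ), ENNReal.ofReal 1
      ≤ ∫⁻ _ in {ρ : ℝ | 0 < ρ ∧ ENNReal.ofReal ρ < ENNReal.ofReal r}, 2 := lintegral_mono h1
    _ = 2 * volume {ρ : ℝ | 0 < ρ ∧ ENNReal.ofReal ρ < ENNReal.ofReal r} := setLIntegral_const _ _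
    _ ≤ 2 * volume (Ioo 0 (r:ℝ)) := by
        gcongr
        rintro ρ ⟨h1, h2⟩
        exact ⟨h1, (ENNReal.ofReal_lt_ofReal_iff r.2).1 h2⟩
    _ = 2 * ENNReal.ofReal r := by rw [Real.volume_Ioo, sub_zero]

lemma lintegral_inv_Ioo : ∫⁻ ρ in Ioo (0:ℝ) 1, ENNReal.ofReal ρ⁻¹ = ∞ := by
  by_contra h
  have h1 : IntegrableOn (fun ρ : ℝ => ρ⁻¹) (Ioo 0 1) volume := by
    refine ⟨(measurable_id.inv).aestronglyMeasurable, ?_⟩
    rw [hasFiniteIntegral_iff_ofReal]
    · exact lt_top_iff_ne_top.2 h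
    · refine ae_restrict_of_forall_mem measurableSet_Ioo fun ρ hρ => ?_
      have := hρ.1
      show 0 ≤ ρ⁻¹
      positivity
  have h2 : IntervalIntegrable (fun ρ : ℝ => ρ⁻¹) volume 0 1 := by
    rw [intervalIntegrable_iff_integrableOn_Ioo_of_le zero_le_one]
    exact h1
  rw [intervalIntegrable_inv_iff] at h2
  rcases h2 with h2 | h2
  · exact zero_ne_one h2
  · apply h2
    rw [uIcc_of_le zero_le_one]
    exact ⟨le_rfl, zero_le_one⟩

lemma UQ_disc : UQ (ball (0:ℂ) 1) (fun _ => 1) 1 (ENNReal.ofReal 1) = ∞ := by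
  rw [← top_le_iff, ← lintegral_inv_Ioo]
  unfold UQ
  have hset : {ρ : ℝ | 0 < ρ ∧ ENNReal.ofReal ρ < ENNReal.ofReal 1} = Ioo 0 1 := by
    ext ρ
    constructor
    · rintro ⟨h1, h2⟩
      exact ⟨h1, (ENNReal.ofReal_lt_ofReal_iff one_pos).1 h2⟩
    · rintro ⟨h1, h2⟩
      exact ⟨h1, (ENNReal.ofReal_lt_ofReal_iff one_pos).2 h2⟩
  rw [hset]
  apply setLIntegral_mono' measurableSet_Ioo
  intro ρ hρ
  have h1 : (1:ℝ≥0∞) ≤ ∑' _ : ↥(essBdry (ball (0:ℂ) 1) ∩ sphere 1 ρ), ENNReal.ofReal 1 := by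
    rw [ENNReal.ofReal_one, ENNReal.tsum_set_one, essBdry_disc]
    have hne : (sphere (0:ℂ) 1 ∩ sphere 1 ρ).Nonempty := by
      set a : ℝ := 1 - ρ ^ 2 / 2 with ha
      have hρ1 := hρ.1
      have hρ2 := hρ.2
      have ha0 : 0 ≤ a := by nlinarith
      have ha1 : a ≤ 1 := by nlinarith
      have h2 : 0 ≤ 1 - a ^ 2 := by nlinarith
      have h3 := Real.sq_sqrt h2
      refine ⟨⟨a, Real.sqrt (1 - a ^ 2)⟩, ?_, ?_⟩
      · rw [mem_sphere, dist_zero_right]
        have h4 : ‖(⟨a, Real.sqrt (1 - a ^ 2)⟩ : ℂ)‖ ^ 2 = 1 := by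
          rw [Complex.sq_norm, Complex.normSq_apply]
          show a * a + Real.sqrt (1 - a ^ 2) * Real.sqrt (1 - a ^ 2) = 1
          nlinarith
        have h5 := norm_nonneg (⟨a, Real.sqrt (1 - a ^ 2)⟩ : ℂ)
        nlinarith
      · rw [mem_sphere, dist_eq_norm]
        have h4 : ‖(⟨a, Real.sqrt (1 - a ^ 2)⟩ : ℂ) - 1‖ ^ 2 = ρ ^ 2 := by
          rw [Complex.sq_norm, Complex.normSq_apply]
          simp only [Complex.sub_re, Complex.one_re, Complex.sub_im, Complex.one_im, sub_zero]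
          nlinarith
        exact (pow_left_inj₀ (norm_nonneg _) hρ1.le two_ne_zero).1 h4
    have h4 := Set.one_le_encard_iff_nonempty.2 hne
    exact_mod_cast h4
  calc ENNReal.ofReal ρ⁻¹ = ENNReal.ofReal ρ⁻¹ * 1 := (mul_one _).symm
    _ ≤ _ := mul_le_mul_right h1 _

theorem literal_a_fails : Admissible (ball (0:ℂ) 1) (fun _ => 1) 1 seg ∧
    (∀ f : ℂ → ℝ, MemC (ball (0:ℂ) 1) (fun _ => 1) 1 (fun ζ => (f ζ : ℂ)) → ∃ L : ℝ,
      Tendsto (fun z => (cauchyK (ball (0:ℂ) 1) (fun _ => 1) 1 (fun ζ => (f ζ : ℂ)) z).im) (𝓝[seg] 1) (𝓝 L)) ∧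
    ¬ (vQ (ball (0:ℂ) 1) (fun _ => 1) 1 + ⨆ r : {r : ℝ // 0 < r},
      UQ (ball (0:ℂ) 1) (fun _ => 1) 1 (ENNReal.ofReal r) / ENNReal.ofReal r < ∞) := by
  refine ⟨admissible_disc, (part_a admissible_disc).2 ?_, ?_⟩
  · rw [ENNReal.add_lt_top]
    refine ⟨vQ_disc, lt_of_le_of_lt (iSup_le uQ_disc) (by norm_num)⟩
  · intro h
    rw [ENNReal.add_lt_top] at h
    have h1 := le_iSup (fun r : {r : ℝ // 0 < r} =>
      UQ (ball (0:ℂ) 1) (fun _ => 1) 1 (ENNReal.ofReal r) / ENNReal.ofReal r) ⟨1, one_pos⟩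
    simp only at h1
    rw [UQ_disc, ENNReal.ofReal_one, div_one] at h1
    exact absurd h.2 (not_lt.2 h1)

end Pool.Agent.K1H32.CI
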