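import Mathlib

/-! An inequality of Eilenberg type: the number of points of a set in the fibres of a Lipschitz
function is integrable when the length of the set is finite. -/

set_option autoImplicit false

open MeasureTheory Set Filter Topology Metric
open scoped ENNReal NNReal

namespace Pool.Agent.K1H32.CI

/-- index of the dyadic square -/
noncomputable def idx (n : ℕ) (z : ℂ) : ℤ × ℤ := (⌊(2:ℝ) ^ n * z.re⌋, ⌊(2:ℝ) ^ n * z.im⌋)

lemma measurable_idx (n : ℕ) : Measurable (idx n) := by
  unfold idx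
  exact (Int.measurable_floor.comp (by fun_prop)).prodMk (Int.measurable_floor.comp (by fun_prop))

lemma idx_sep {z w : ℂ} (h : z ≠ w) : ∀ᶠ n in atTop, idx n z ≠ idx n w := by
  have key : ∀ a b : ℝ, a ≠ b → ∀ᶠ n : ℕ in atTop, ⌊(2:ℝ) ^ n * a⌋ ≠ ⌊(2:ℝ) ^ n * b⌋ := by
    intro a b hab
    have hpos : 0 < |a - b| := abs_pos.2 (sub_ne_zero.2 hab)
    have ht : Tendsto (fun n : ℕ => (2:ℝ) ^ n * |a - b|) atTop atTop :=
      (tendsto_pow_atTop_atTop_of_one_lt one_lt_two).atTop_mul_const hpos
    filter_upwards [ht.eventually_ge_atTop 1] with n hn heq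
    have h1 := Int.abs_sub_lt_one_of_floor_eq_floor heq
    rw [← mul_sub, abs_mul, abs_of_pos (by positivity : (0:ℝ) < 2 ^ n)] at h1
    linarith
  by_cases hre : z.re = w.re
  · have him : z.im ≠ w.im := fun him => h (Complex.ext hre him)
    filter_upwards [key _ _ him] with n hn heq
    exact hn (congrArg Prod.snd heq)
  · filter_upwards [key _ _ hre] with n hn heq
    exact hn (congrArg Prod.fst heq)

theorem eilenberg (S : Set ℂ) (f : ℂ → ℝ) (K : ℝ≥0) (hf : LipschitzOnWith K f S) :
    ∃ g : ℝ → ℝ≥0∞, Measurable g ∧ (∀ t, (∑' _ : ↥(S ∩ f ⁻¹' {t}), (1:ℝ≥0∞)) ≤ g t) ∧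
      ∫⁻ t, g t ≤ K * Measure.hausdorffMeasure 1 S := by
  classical
  set N : ℕ → ℝ → ℝ≥0∞ := fun n t =>
    ∑' q : ℤ × ℤ, (toMeasurable volume (f '' (S ∩ idx n ⁻¹' {q}))).indicator 1 t with hN
  have hNm : ∀ n, Measurable (N n) := by
    intro n
    apply Measurable.ennreal_tsum
    intro q
    exact measurable_one.indicator (measurableSet_toMeasurable _ _)
  have hint : ∀ n, ∫⁻ t, N n t ≤ K * Measure.hausdorffMeasure 1 S := by
    intro n
    rw [hN]
    simp only
    rw [lintegral_tsum (fun q => (measurable_one.indicator (measurableSet_toMeasurable _ _)).aemeasurable)]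
    have h1 : ∀ q : ℤ × ℤ, ∫⁻ t, (toMeasurable volume (f '' (S ∩ idx n ⁻¹' {q}))).indicator 1 t ≤
        K * (Measure.hausdorffMeasure 1 : Measure ℂ).restrict S (idx n ⁻¹' {q}) := by
      intro q
      rw [lintegral_indicator_one (measurableSet_toMeasurable _ _), measure_toMeasurable,
        Measure.restrict_apply (measurable_idx n (measurableSet_singleton q)), ← hausdorffMeasure_real]
      have h2 := (hf.mono (inter_subset_left : S ∩ idx n ⁻¹' {q} ⊆ S)).hausdorffMeasure_image_le
        (d := 1) zero_le_one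
      simpa [inter_comm] using h2
    calc ∑' q : ℤ × ℤ, ∫⁻ t, (toMeasurable volume (f '' (S ∩ idx n ⁻¹' {q}))).indicator 1 t
        ≤ ∑' q : ℤ × ℤ, K * (Measure.hausdorffMeasure 1 : Measure ℂ).restrict S (idx n ⁻¹' {q}) :=
          ENNReal.tsum_le_tsum h1
      _ = K * ∑' q : ℤ × ℤ, (Measure.hausdorffMeasure 1 : Measure ℂ).restrict S (idx n ⁻¹' {q}) :=
          ENNReal.tsum_mul_left
      _ = K * (Measure.hausdorffMeasure 1 : Measure ℂ).restrict S (⋃ q : ℤ × ℤ, idx n ⁻¹' {q}) := by
          rw [measure_iUnion]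
          · intro p q hpq
            exact Disjoint.preimage _ (by simpa using hpq)
          · exact fun q => measurable_idx n (measurableSet_singleton q)
      _ = K * Measure.hausdorffMeasure 1 S := by
          have : (⋃ q : ℤ × ℤ, idx n ⁻¹' {q}) = univ := by
            ext z; simp
          rw [this, Measure.restrict_apply_univ]
  have hpt : ∀ t, (∑' _ : ↥(S ∩ f ⁻¹' {t}), (1:ℝ≥0∞)) ≤ liminf (fun n => N n t) atTop := by
    intro t
    rw [ENNReal.tsum_eq_iSup_sum]
    apply iSup_le
    intro F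
    have hsep : ∀ᶠ n in atTop, ∀ z ∈ F, ∀ w ∈ F, z ≠ w → idx n (z : ℂ) ≠ idx n (w : ℂ) := by
      rw [Finset.eventually_all]
      intro z hz
      rw [Finset.eventually_all]
      intro w hw
      by_cases hzw : z = w
      · exact Eventually.of_forall (fun n h => absurd hzw h)
      · filter_upwards [idx_sep (fun h => hzw (Subtype.ext h))] with n hn _
        exact hn
    apply le_liminf_of_le (by isBoundedDefault)
    filter_upwards [hsep] with n hn
    have hinj : Set.InjOn (fun z : ↥(S ∩ f ⁻¹' {t}) => idx n (z : ℂ)) F := by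
      intro z hz w hw heq
      by_contra hne
      exact hn z hz w hw hne heq
    calc ∑ _ ∈ F, (1:ℝ≥0∞) = ∑ q ∈ F.image (fun z : ↥(S ∩ f ⁻¹' {t}) => idx n (z : ℂ)), (1:ℝ≥0∞) := by
          rw [Finset.sum_const, Finset.sum_const, Finset.card_image_of_injOn hinj]
      _ ≤ ∑ q ∈ F.image (fun z : ↥(S ∩ f ⁻¹' {t}) => idx n (z : ℂ)),
            (toMeasurable volume (f '' (S ∩ idx n ⁻¹' {q}))).indicator 1 t := by
          apply Finset.sum_le_sum
          intro q hq
          obtain ⟨z, hz, rfl⟩ := Finset.mem_image.1 hq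
          rw [indicator_of_mem]
          · rfl
          · apply subset_toMeasurable
            exact ⟨z, ⟨z.2.1, rfl⟩, z.2.2⟩
      _ ≤ N n t := ENNReal.sum_le_tsum _
  refine ⟨fun t => liminf (fun n => N n t) atTop, Measurable.liminf hNm, hpt, ?_⟩
  calc ∫⁻ t, liminf (fun n => N n t) atTop
      ≤ liminf (fun n => ∫⁻ t, N n t) atTop := lintegral_liminf_le hNm
    _ ≤ K * Measure.hausdorffMeasure 1 S := by
        apply liminf_le_of_le (by isBoundedDefault)
        intro b hb
        obtain ⟨n, hn⟩ := hb.exists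
        exact hn.trans (hint n)

end Pool.Agent.K1H32.CI
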