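import Pool.Agent.K1H32.CI.Quant

/-! The extension of the Cauchy-type integral to the weighted space. -/

set_option autoImplicit false

open MeasureTheory Set Filter Topology Metric ProbabilityTheory Asymptotics
open scoped ENNReal NNReal

namespace Pool.Agent.K1H32.CI

/-- membership in the weighted space -/
def MemC (A : Set ℂ) (Q : ℂ → ℝ) (η : ℂ) (f : ℂ → ℂ) : Prop :=
  ContinuousOn f (frontier A) ∧ (fun ζ => f ζ - f η) =o[𝓝[frontier A] η] Q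

/-- the weighted norm -/
noncomputable def normQ (A : Set ℂ) (Q : ℂ → ℝ) (η : ℂ) (f : ℂ → ℂ) : ℝ≥0∞ :=
  (⨆ ζ ∈ frontier A, ENNReal.ofReal ‖f ζ‖) ⊔
    (⨆ ζ ∈ frontier A, ⨆ (_ : ζ ≠ η), ENNReal.ofReal (‖f ζ - f η‖ / Q ζ))

variable {A : Set ℂ} {Q : ℂ → ℝ} {η : ℂ}

lemma normQ_le_iff (hQ : QD (frontier A) Q η) {g : ℂ → ℂ} {ε : ℝ} (hε : 0 ≤ ε) :
    normQ A Q η g ≤ ENNReal.ofReal ε ↔ ∀ ζ ∈ frontier A, ‖g ζ‖ ≤ ε ∧ ‖g ζ - g η‖ ≤ ε * Q ζ := by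
  unfold normQ
  rw [sup_le_iff, iSup₂_le_iff, iSup₂_le_iff]
  constructor
  · rintro ⟨h1, h2⟩ ζ hζ
    refine ⟨(ENNReal.ofReal_le_ofReal_iff hε).1 (h1 ζ hζ), ?_⟩
    by_cases hne : ζ = η
    · rw [hne, sub_self, norm_zero]
      rw [hne] at hζ
      exact mul_nonneg hε (hQ.nonneg η hζ)
    · have h3 := h2 ζ hζ
      rw [iSup_le_iff] at h3
      have h4 := (ENNReal.ofReal_le_ofReal_iff hε).1 (h3 hne)
      rwa [div_le_iff₀ (hQ.pos ζ hζ hne)] at h4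
  · intro h
    refine ⟨fun ζ hζ => ENNReal.ofReal_le_ofReal (h ζ hζ).1, fun ζ hζ => iSup_le fun hne => ?_⟩
    apply ENNReal.ofReal_le_ofReal
    rw [div_le_iff₀ (hQ.pos ζ hζ hne)]
    exact (h ζ hζ).2

lemma MemC.small {f : ℂ → ℂ} (hf : MemC A Q η f) (hQ : QD (frontier A) Q η) {ε : ℝ} (hε : 0 < ε) :
    ∃ δ : ℝ, 0 < δ ∧ ∀ ζ ∈ frontier A, ‖ζ - η‖ < δ → ‖f ζ - f η‖ ≤ ε * Q ζ := by
  have h1 := (isLittleO_iff.1 hf.2) hε
  rw [eventually_nhdsWithin_iff, Metric.eventually_nhds_iff] at h1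
  obtain ⟨δ, hδ, h1⟩ := h1
  refine ⟨δ, hδ, fun ζ hζ hd => ?_⟩
  have h2 := h1 (by rw [dist_eq_norm]; exact hd) hζ
  rwa [Real.norm_eq_abs, abs_of_nonneg (hQ.nonneg ζ hζ)] at h2

lemma MemC.mk' {f : ℂ → ℂ} (hc : ContinuousOn f (frontier A)) (hQ : QD (frontier A) Q η)
    (h : ∀ ε : ℝ, 0 < ε → ∃ δ : ℝ, 0 < δ ∧ ∀ ζ ∈ frontier A, ‖ζ - η‖ < δ → ‖f ζ - f η‖ ≤ ε * Q ζ) :
    MemC A Q η f := by
  refine ⟨hc, isLittleO_iff.2 fun ε hε => ?_⟩
  obtain ⟨δ, hδ, h1⟩ := h ε hε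
  rw [eventually_nhdsWithin_iff, Metric.eventually_nhds_iff]
  refine ⟨δ, hδ, fun ζ hd hζ => ?_⟩
  rw [Real.norm_eq_abs, abs_of_nonneg (hQ.nonneg ζ hζ)]
  exact h1 ζ hζ (by rwa [dist_eq_norm] at hd)

lemma MemC.bound {f : ℂ → ℂ} (hf : MemC A Q η f) (hQ : QD (frontier A) Q η) :
    ∃ C : ℝ, 0 < C ∧ ∀ ζ ∈ frontier A, ‖f ζ - f η‖ ≤ C * Q ζ := by
  obtain ⟨δ, hδ, h1⟩ := hf.small hQ one_pos
  obtain ⟨B, hB⟩ := hQ.compact.exists_bound_of_continuousOn (hf.1.sub (continuousOn_const (c := f η)))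
  obtain ⟨c, hc, h2⟩ := hQ.lower hδ
  refine ⟨max 1 (|B| / c), by positivity, fun ζ hζ => ?_⟩
  by_cases hd : ‖ζ - η‖ < δ
  · refine (h1 ζ hζ hd).trans ?_
    exact mul_le_mul_of_nonneg_right (le_max_left _ _) (hQ.nonneg ζ hζ)
  · rw [not_lt] at hd
    have h3 := h2 ζ hζ hd
    have h4 := hB ζ hζ
    calc ‖f ζ - f η‖ ≤ |B| := h4.trans (le_abs_self B)
      _ = |B| / c * c := by field_simp
      _ ≤ |B| / c * Q ζ := by gcongr
      _ ≤ max 1 (|B| / c) * Q ζ := mul_le_mul_of_nonneg_right (le_max_right _ _) (hQ.nonneg ζ hζ)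

lemma MemC.sub {f g : ℂ → ℂ} (hf : MemC A Q η f) (hg : MemC A Q η g) :
    MemC A Q η (fun ζ => f ζ - g ζ) := by
  refine ⟨hf.1.sub hg.1, ?_⟩
  refine (hf.2.sub hg.2).congr_left (fun ζ => ?_)
  ring

/-- finiteness of the length of the essential boundary in annuli -/
lemma hfin_of (hQ : QD (frontier A) Q η)
    (hE : ∫⁻ ζ in essBdry A, ENNReal.ofReal (Q ζ) ∂(Measure.hausdorffMeasure 1 : Measure ℂ) < ∞) (a : ℤ) :
    Measure.hausdorffMeasure 1 (essBdry A ∩ Ann η a) < ∞ := by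
  obtain ⟨c, hc, hcQ⟩ := hQ.lower (Real.exp_pos ((a:ℝ) / 4))
  set μ : Measure ℂ := (Measure.hausdorffMeasure 1 : Measure ℂ).restrict (essBdry A) with hμ
  have hmem : ∀ᵐ ζ ∂μ, ζ ∈ frontier A := by
    rw [ae_iff]
    have hm : MeasurableSet (frontier A)ᶜ := isClosed_frontier.measurableSet.compl
    show μ (frontier A)ᶜ = 0
    rw [hμ, Measure.restrict_apply hm]
    have : (frontier A)ᶜ ∩ essBdry A = ∅ := by
      ext ζ
      simp only [mem_inter_iff, mem_compl_iff, mem_empty_iff_false, iff_false, not_and]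
      intro h1 h2
      exact h1 (essBdry_subset A h2)
    rw [this, measure_empty]
  have h1 : ENNReal.ofReal c * μ (Ann η a) ≤ ∫⁻ ζ, ENNReal.ofReal (Q ζ) ∂μ := by
    rw [← setLIntegral_const]
    refine (lintegral_mono_ae ?_).trans (setLIntegral_le_lintegral (Ann η a) _)
    refine (ae_restrict_iff' (measurableSet_Ann η a)).2 ?_
    filter_upwards [hmem] with ζ hζ hζA
    exact ENNReal.ofReal_le_ofReal (hcQ ζ hζ hζA.1)
  have h2 : μ (Ann η a) = Measure.hausdorffMeasure 1 (essBdry A ∩ Ann η a) := by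
    rw [hμ, Measure.restrict_apply (measurableSet_Ann η a), inter_comm]
  rw [← h2]
  by_contra h3
  rw [not_lt, top_le_iff] at h3
  rw [h3, ENNReal.mul_top (by simpa using hc)] at h1
  exact absurd hE (not_lt.2 h1)

lemma dn_of (hA : MeasurableSet A) (hQ : QD (frontier A) Q η)
    (hE : ∫⁻ ζ in essBdry A, ENNReal.ofReal (Q ζ) ∂(Measure.hausdorffMeasure 1 : Measure ℂ) < ∞) (s : Bool) :
    DN (frontier A) Q η (NN s η hA) := by
  have hfin := hfin_of hQ hE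
  refine ⟨NN_ae_frontier s η hA hfin, NN_ae_ne s η hA, ?_⟩
  have hm : Measurable (fun ζ => (frontier A).indicator Q ζ * ‖ζ - η‖) := hQ.meas.mul (by fun_prop)
  refine ⟨hm.aestronglyMeasurable, ?_⟩
  rw [hasFiniteIntegral_iff_ofReal (Eventually.of_forall fun ζ => mul_nonneg (hQ.ind_nonneg ζ) (norm_nonneg _))]
  have h1 := lintegral_NN_mul_le s η hA hfin (fun ζ => ENNReal.ofReal ((frontier A).indicator Q ζ))
  have h2 : ∫⁻ ζ, ENNReal.ofReal ((frontier A).indicator Q ζ * ‖ζ - η‖) ∂(NN s η hA) =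
      ∫⁻ ζ, ENNReal.ofReal ((frontier A).indicator Q ζ) * ENNReal.ofReal ‖ζ - η‖ ∂(NN s η hA) := by
    apply lintegral_congr
    intro ζ
    rw [ENNReal.ofReal_mul (hQ.ind_nonneg ζ)]
  rw [h2]
  refine h1.trans_lt (ENNReal.mul_lt_top ENNReal.ofReal_lt_top ?_)
  refine lt_of_le_of_lt ?_ hE
  apply lintegral_mono
  intro ζ
  refine ENNReal.ofReal_le_ofReal_iff'.2 ?_
  by_cases hζ : ζ ∈ frontier A
  · left; rw [indicator_of_mem hζ]
  · right; rw [indicator_of_notMem hζ]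

/-- the hypotheses used in the representation -/
structure Hyp (A : Set ℂ) (Q : ℂ → ℝ) (η : ℂ) : Prop where
  meas : MeasurableSet A
  qd : QD (frontier A) Q η
  mem : η ∈ frontier A
  fin : ∫⁻ ζ in essBdry A, ENNReal.ofReal (Q ζ) ∂(Measure.hausdorffMeasure 1 : Measure ℂ) < ∞

variable (hy : Hyp A Q η)

include hy in
lemma Hyp.hfin (a : ℤ) : Measure.hausdorffMeasure 1 (essBdry A ∩ Ann η a) < ∞ := hfin_of hy.qd hy.fin a

include hy in
lemma Hyp.dn (s : Bool) : DN (frontier A) Q η (NN s η hy.meas) := dn_of hy.meas hy.qd hy.fin s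

lemma kz_bound {z : ℂ} {ε : ℝ} (hε : 0 < ε) (hb : ball z ε ⊆ interior A) {ζ : ℂ} (hζ : ζ ∈ frontier A) :
    ‖kz η z ζ‖ ≤ 1 / ε * ‖ζ - η‖ := by
  have h1 : ζ ∉ ball z ε := fun h => hζ.2 (hb h)
  rw [mem_ball, not_lt, dist_eq_norm] at h1
  unfold kz
  rw [norm_div, one_div_mul_eq_div]
  exact div_le_div_of_nonneg_left (norm_nonneg _) hε h1

include hy in
lemma int_J {z : ℂ} {ε : ℝ} (hε : 0 < ε) (hb : ball z ε ⊆ interior A) {h : ℂ → ℂ}
    (hc : ContinuousOn h (frontier A)) {C : ℝ} (hC : ∀ ζ ∈ frontier A, ‖h ζ‖ ≤ C * Q ζ) (s : Bool) :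
    Integrable (fun ζ => h ζ * kz η z ζ) (NN s η hy.meas) ∧
    Integrable (fun ζ => (sN s η A ζ : ℂ) * (h ζ * kz η z ζ)) (NN s η hy.meas) ∧
      ‖∫ ζ, (sN s η A ζ : ℂ) * (h ζ * kz η z ζ) ∂(NN s η hy.meas)‖ ≤
        C * (1 / ε) * ∫ ζ, (frontier A).indicator Q ζ * ‖ζ - η‖ ∂(NN s η hy.meas) := by
  have hN := hy.dn s
  have hb1 : ∀ᵐ ζ ∂(NN s η hy.meas), ‖h ζ * kz η z ζ‖ ≤
      C * (1 / ε) * ((frontier A).indicator Q ζ * ‖ζ - η‖) := by
    filter_upwards [hN.ae_mem] with ζ h2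
    rw [norm_mul, indicator_of_mem h2]
    calc ‖h ζ‖ * ‖kz η z ζ‖ ≤ (C * Q ζ) * (1 / ε * ‖ζ - η‖) :=
          mul_le_mul (hC ζ h2) (kz_bound hε hb h2) (norm_nonneg _) ((norm_nonneg _).trans (hC ζ h2))
      _ = _ := by ring
  have hm : AEStronglyMeasurable (fun ζ => h ζ * kz η z ζ) (NN s η hy.meas) :=
    (hN.aesm hy.qd hc).mul (measurable_kz η z).aestronglyMeasurable
  have hb2 : ∀ᵐ ζ ∂(NN s η hy.meas), ‖(sN s η A ζ : ℂ) * (h ζ * kz η z ζ)‖ ≤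
      C * (1 / ε) * ((frontier A).indicator Q ζ * ‖ζ - η‖) := by
    filter_upwards [hb1, sN_ae s η hy.meas] with ζ h1 h2
    rw [norm_mul, Complex.norm_real, Real.norm_eq_abs, h2, one_mul]
    exact h1
  have hm2 : AEStronglyMeasurable (fun ζ => (sN s η A ζ : ℂ) * (h ζ * kz η z ζ)) (NN s η hy.meas) :=
    (Complex.measurable_ofReal.comp (measurable_sN s η hy.meas)).aestronglyMeasurable.mul hm
  refine ⟨(hN.int.const_mul _).mono' hm hb1, (hN.int.const_mul _).mono' hm2 hb2, ?_⟩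
  have := norm_integral_le_of_norm_le (hN.int.const_mul (C * (1 / ε))) hb2
  rwa [integral_const_mul] at this

include hy in
lemma JJ_sub {z : ℂ} (hz : z ∈ interior A) {h h' : ℂ → ℂ}
    (hc : ContinuousOn h (frontier A)) {C : ℝ} (hC : ∀ ζ ∈ frontier A, ‖h ζ‖ ≤ C * Q ζ)
    (hc' : ContinuousOn h' (frontier A)) {C' : ℝ} (hC' : ∀ ζ ∈ frontier A, ‖h' ζ‖ ≤ C' * Q ζ) :
    JJ η hy.meas h z - JJ η hy.meas h' z = JJ η hy.meas (fun ζ => h ζ - h' ζ) z := by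
  obtain ⟨ε, hε, hball⟩ := Metric.isOpen_iff.1 isOpen_interior z hz
  have key : ∀ s, ∫ ζ, (sN s η A ζ : ℂ) * ((h ζ - h' ζ) * kz η z ζ) ∂(NN s η hy.meas) =
      (∫ ζ, (sN s η A ζ : ℂ) * (h ζ * kz η z ζ) ∂(NN s η hy.meas)) -
      ∫ ζ, (sN s η A ζ : ℂ) * (h' ζ * kz η z ζ) ∂(NN s η hy.meas) := by
    intro s
    rw [← integral_sub (int_J hy hε hball hc hC s).2.1 (int_J hy hε hball hc' hC' s).2.1]
    congr 1
    funext ζ
    ring
  unfold JJ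
  rw [key, key]
  ring

include hy in
lemma JJ_bound {z : ℂ} (hz : z ∈ interior A) : ∃ K : ℝ, 0 ≤ K ∧ ∀ h : ℂ → ℂ, ContinuousOn h (frontier A) →
    ∀ C : ℝ, 0 ≤ C → (∀ ζ ∈ frontier A, ‖h ζ‖ ≤ C * Q ζ) → ‖JJ η hy.meas h z‖ ≤ K * C := by
  obtain ⟨ε, hε, hball⟩ := Metric.isOpen_iff.1 isOpen_interior z hz
  set I : Bool → ℝ := fun s => ∫ ζ, (frontier A).indicator Q ζ * ‖ζ - η‖ ∂(NN s η hy.meas) with hI
  have hI0 : ∀ s, 0 ≤ I s := fun s =>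
    integral_nonneg fun ζ => mul_nonneg (hy.qd.ind_nonneg ζ) (norm_nonneg _)
  refine ⟨1 / ε * (I true + I false), by have := hI0 true; have := hI0 false; positivity, ?_⟩
  intro h hc C hC0 hC
  have h1 := (int_J hy hε hball hc hC true).2.2
  have h2 := (int_J hy hε hball hc hC false).2.2
  unfold JJ
  rw [norm_mul]
  have h3 : ‖(1 / (2 * Real.pi * Complex.I) : ℂ)‖ ≤ 1 := by
    rw [norm_div, norm_mul, norm_mul, Complex.norm_I, norm_one, Complex.norm_real, Complex.norm_ofNat,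
      Real.norm_eq_abs, abs_of_pos Real.pi_pos, mul_one]
    rw [div_le_one (by positivity)]
    linarith [Real.pi_gt_three]
  have h4 : ‖(∫ ζ, (sN true η A ζ : ℂ) * (h ζ * kz η z ζ) ∂(NN true η hy.meas)) +
      Complex.I * ∫ ζ, (sN false η A ζ : ℂ) * (h ζ * kz η z ζ) ∂(NN false η hy.meas)‖ ≤
      C * (1 / ε) * I true + C * (1 / ε) * I false := by
    refine (norm_add_le _ _).trans ?_
    rw [norm_mul, Complex.norm_I, one_mul]
    exact add_le_add h1 h2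
  calc _ ≤ 1 * (C * (1 / ε) * I true + C * (1 / ε) * I false) :=
        mul_le_mul h3 h4 (norm_nonneg _) zero_le_one
    _ = _ := by ring

end Pool.Agent.K1H32.CI
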