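import Pool.Agent.K1H32.CI.Ext

/-! Density of smooth functions and existence of the extension. -/

set_option autoImplicit false

open MeasureTheory Set Filter Topology Metric ProbabilityTheory Asymptotics
open scoped ENNReal NNReal

namespace Pool.Agent.K1H32.CI

variable {A : Set ℂ} {Q : ℂ → ℝ} {η : ℂ}

/-- a cut-off function equal to one near the boundary -/
structure Psi (A : Set ℂ) (η : ℂ) (ψ : ℂ → ℂ) (R : ℝ) : Prop where
  smooth : ContDiff ℝ 1 ψ
  compact : HasCompactSupport ψ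
  pos : 0 < R
  one : ∀ ζ ∈ closedBall η R, ψ ζ = 1
  sub : frontier A ⊆ closedBall η R

lemma exists_psi (hc : IsCompact (frontier A)) (η : ℂ) : ∃ ψ R, Psi A η ψ R := by
  obtain ⟨R, hR⟩ := hc.isBounded.subset_closedBall η
  have hpos : 0 < max R 1 := lt_max_of_lt_right one_pos
  let b : ContDiffBump η := ⟨max R 1, max R 1 + 1, hpos, by linarith⟩
  refine ⟨fun ζ => ((b ζ : ℝ) : ℂ), max R 1, ?_, ?_, hpos, ?_, ?_⟩
  · exact Complex.ofRealCLM.contDiff.comp b.contDiff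
  · exact b.hasCompactSupport.comp_left (g := fun x : ℝ => (x:ℂ)) (by simp)
  · intro ζ hζ
    rw [b.one_of_mem_closedBall hζ]; simp
  · exact hR.trans (closedBall_subset_closedBall (le_max_left _ _))

variable (hy : Hyp A Q η)

/-- the extended Cauchy-type integral -/
noncomputable def Kx (ψ : ℂ → ℂ) (f : ℂ → ℂ) (z : ℂ) : ℂ :=
  f η * CauchyC1 A ψ z + JJ η hy.meas (fun ζ => f ζ - f η) z

include hy in
theorem rep_Kx {ψ : ℂ → ℂ} {R : ℝ} (hψ : Psi A η ψ R) {φ : ℂ → ℂ} (hφ : ContDiff ℝ 1 φ)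
    (hc : HasCompactSupport φ) (hm : MemC A Q η φ) {z : ℂ} (hz : z ∈ interior A) :
    CauchyC1 A φ z = Kx hy ψ φ z := by
  set g : ℂ → ℂ := fun ζ => φ ζ + (-(φ η)) * ψ ζ with hg
  have hgs : ContDiff ℝ 1 g := hφ.add (contDiff_const.mul hψ.smooth)
  have hgc : HasCompactSupport g := hc.add (hψ.compact.mul_left)
  have hηR : η ∈ closedBall η R := mem_closedBall_self hψ.pos.le
  have hg0 : g η = 0 := by
    show φ η + (-(φ η)) * ψ η = 0
    rw [hψ.one η hηR]; ring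
  have hgF : ∀ ζ ∈ frontier A, g ζ = φ ζ - φ η := by
    intro ζ hζ
    show φ ζ + (-(φ η)) * ψ ζ = _
    rw [hψ.one ζ (hψ.sub hζ)]; ring
  obtain ⟨C, hC0, hC⟩ := hm.bound hy.qd
  obtain ⟨ε, hε, hball⟩ := Metric.isOpen_iff.1 isOpen_interior z hz
  have hcont : ContinuousOn (fun ζ => φ ζ - φ η) (frontier A) := hm.1.sub continuousOn_const
  have hint : ∀ s, Integrable (fun ζ => g ζ * kz η z ζ) (NN s η hy.meas) := by
    intro s
    have h1 := (int_J hy hε hball hcont hC s).1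
    refine h1.congr ?_
    filter_upwards [(hy.dn s).ae_mem] with ζ hζ
    rw [hgF ζ hζ]
  have h1 := rep_zero hy.meas hy.hfin hgs hgc hg0 hz hint
  have h2 : JJ η hy.meas g z = JJ η hy.meas (fun ζ => φ ζ - φ η) z := by
    apply JJ_congr hy.meas hy.hfin
    intro ζ hζ
    rw [hgF ζ hζ]
  have hdψ : ∀ ζ, DifferentiableAt ℝ ψ ζ := fun ζ => (hψ.smooth.differentiable (by norm_num)).differentiableAt
  have hdφ : ∀ ζ, DifferentiableAt ℝ φ ζ := fun ζ => (hφ.differentiable (by norm_num)).differentiableAt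
  have h3 : CauchyC1 A g z = CauchyC1 A φ z + (-(φ η)) * CauchyC1 A ψ z := by
    unfold CauchyC1
    have h4 : ∀ ζ, dbar g ζ / (ζ - z) = dbar φ ζ / (ζ - z) + (-(φ η)) * (dbar ψ ζ / (ζ - z)) := by
      intro ζ
      rw [hg, dbar_add (hdφ ζ) ((hdψ ζ).const_mul _), dbar_const_mul _ (hdψ ζ)]
      ring
    simp_rw [h4]
    rw [integral_add (integrableOn_dbar_div hy.meas hφ hc hz)
      ((integrableOn_dbar_div hy.meas hψ.smooth hψ.compact hz).const_mul _), integral_const_mul]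
    ring
  unfold Kx
  rw [← h2, ← h1, h3]
  ring

/-- smooth compactly supported functions close to `f` in the weighted norm -/
def Near (A : Set ℂ) (Q : ℂ → ℝ) (η : ℂ) (f : ℂ → ℂ) (z : ℂ) (ε : ℝ) : Set (ℂ → ℂ) :=
  {φ | ContDiff ℝ 1 φ ∧ HasCompactSupport φ ∧ φ z = 0 ∧ MemC A Q η φ ∧
    normQ A Q η (fun ζ => φ ζ - f ζ) ≤ ENNReal.ofReal ε}

/-- the filter of approximation of `f` by smooth functions -/
def approx (A : Set ℂ) (Q : ℂ → ℝ) (η : ℂ) (f : ℂ → ℂ) (z : ℂ) : Filter (ℂ → ℂ) :=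
  ⨅ ε ∈ Ioi (0:ℝ), 𝓟 (Near A Q η f z ε)

include hy in
theorem tendsto_approx {ψ : ℂ → ℂ} {R : ℝ} (hψ : Psi A η ψ R) {f : ℂ → ℂ} (hf : MemC A Q η f) {z : ℂ}
    (hz : z ∈ interior A) :
    Tendsto (fun φ => CauchyC1 A φ z) (approx A Q η f z) (𝓝 (Kx hy ψ f z)) := by
  rw [Metric.tendsto_nhds]
  intro δ hδ
  obtain ⟨K, hK0, hK⟩ := JJ_bound hy hz
  set L : ℝ := ‖CauchyC1 A ψ z‖ + K + 1 with hL
  have hL0 : 0 < L := by positivity
  have hmem : Near A Q η f z (δ / (2 * L)) ∈ approx A Q η f z :=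
    mem_iInf_of_mem (δ / (2 * L)) (mem_iInf_of_mem (show 0 < δ / (2 * L) by positivity) (mem_principal_self _))
  filter_upwards [hmem] with φ hφ
  obtain ⟨h1, h2, _, h4, h5⟩ := hφ
  rw [normQ_le_iff hy.qd (by positivity)] at h5
  rw [rep_Kx hy hψ h1 h2 h4 hz, dist_eq_norm]
  obtain ⟨C1, _, hC1⟩ := h4.bound hy.qd
  obtain ⟨C2, _, hC2⟩ := hf.bound hy.qd
  have hc1 : ContinuousOn (fun ζ => φ ζ - φ η) (frontier A) := h4.1.sub continuousOn_const
  have hc2 : ContinuousOn (fun ζ => f ζ - f η) (frontier A) := hf.1.sub continuousOn_const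
  have h6 : Kx hy ψ φ z - Kx hy ψ f z = (φ η - f η) * CauchyC1 A ψ z +
      JJ η hy.meas (fun ζ => (φ ζ - φ η) - (f ζ - f η)) z := by
    rw [← JJ_sub hy hz hc1 hC1 hc2 hC2]
    unfold Kx
    ring
  rw [h6]
  have h7 : ‖φ η - f η‖ ≤ δ / (2 * L) := (h5 η hy.mem).1
  have h8 : ‖JJ η hy.meas (fun ζ => (φ ζ - φ η) - (f ζ - f η)) z‖ ≤ K * (δ / (2 * L)) := by
    apply hK _ (hc1.sub hc2) _ (by positivity)
    intro ζ hζ
    have h9 := (h5 ζ hζ).2
    have h10 : (φ ζ - φ η) - (f ζ - f η) = φ ζ - f ζ - (φ η - f η) := by ring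
    show ‖(φ ζ - φ η) - (f ζ - f η)‖ ≤ _
    rw [h10]
    exact h9
  calc _ ≤ ‖φ η - f η‖ * ‖CauchyC1 A ψ z‖ + K * (δ / (2 * L)) := by
        refine (norm_add_le _ _).trans ?_
        rw [norm_mul]
        exact add_le_add le_rfl h8
    _ ≤ δ / (2 * L) * ‖CauchyC1 A ψ z‖ + K * (δ / (2 * L)) := by gcongr
    _ = δ / 2 * ((‖CauchyC1 A ψ z‖ + K) / L) := by field_simp
    _ ≤ δ / 2 * 1 := by
        gcongr
        rw [div_le_one hL0]; linarith
    _ < δ := by linarith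

include hy in
theorem near_nonempty {f : ℂ → ℂ} (hf : MemC A Q η f) {z : ℂ} (hz : z ∈ interior A) {ε : ℝ}
    (hε : 0 < ε) : (Near A Q η f z ε).Nonempty := by
  obtain ⟨ψ, R, hψ⟩ := exists_psi hy.qd.compact η
  obtain ⟨r, hr, hball⟩ := Metric.isOpen_iff.1 isOpen_interior z hz
  obtain ⟨B, hB0, hB⟩ := hy.qd.ind_bdd
  -- cut-off vanishing at `z`
  let b : ContDiffBump z := ⟨r / 4, r / 2, by positivity, by linarith⟩
  set χ : ℂ → ℂ := fun ζ => ψ ζ * ((1 - b ζ : ℝ) : ℂ) with hχ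
  have hχs : ContDiff ℝ 1 χ := by
    apply hψ.smooth.mul
    apply Complex.ofRealCLM.contDiff.comp
    exact contDiff_const.sub b.contDiff
  have hχc : HasCompactSupport χ := hψ.compact.mul_right
  have hχz : χ z = 0 := by
    show ψ z * ((1 - b z : ℝ) : ℂ) = 0
    rw [b.one_of_mem_closedBall (mem_closedBall_self (by positivity))]; simp
  have hχF : ∀ ζ ∈ frontier A, χ ζ = 1 := by
    intro ζ hζ
    have hζb : ζ ∉ ball z r := fun h => hζ.2 (hball h)
    rw [mem_ball, not_lt] at hζb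
    show ψ ζ * ((1 - b ζ : ℝ) : ℂ) = 1
    rw [hψ.one ζ (hψ.sub hζ), b.zero_of_le_dist (by
      show r / 2 ≤ dist ζ z
      linarith)]
    simp
  -- continuous extension of `f - f η`
  have hcl : IsClosed (frontier A) := isClosed_frontier
  have hcont : ContinuousOn (fun ζ => f ζ - f η) (frontier A) := hf.1.sub continuousOn_const
  obtain ⟨H, hH⟩ := ContinuousMap.exists_restrict_eq hcl
    (⟨(frontier A).domRestrict (fun ζ => f ζ - f η), hcont.domRestrict⟩ : C(frontier A, ℂ))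
  have hHF : ∀ ζ ∈ frontier A, H ζ = f ζ - f η := by
    intro ζ hζ
    have := congrArg (fun g : C(frontier A, ℂ) => g ⟨ζ, hζ⟩) hH
    simpa using this
  -- cut-off near `η`
  set ε₁ : ℝ := min (ε / 2) (ε / (2 * B)) with hε₁
  have hε₁0 : 0 < ε₁ := by positivity
  obtain ⟨δ, hδ, hsm⟩ := hf.small hy.qd hε₁0
  obtain ⟨n, hn⟩ := (one_div_small (show 0 < δ / 2 by positivity)).exists
  have hn2 : 2 / ((n:ℝ) + 1) < δ := by
    have : 2 / ((n:ℝ) + 1) = 2 * (1 / ((n:ℝ) + 1)) := by ring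
    rw [this]; linarith
  have hnpos : (0:ℝ) < 1 / ((n:ℝ) + 1) := by positivity
  obtain ⟨c, hc0, hc⟩ := hy.qd.lower hnpos
  set G : ℂ → ℂ := fun ζ => χ ζ * ((1 - bet η n ζ) * H ζ) with hG
  have hGc : Continuous G := hχs.continuous.mul
    ((continuous_const.sub (contDiff_bet η n).continuous).mul H.continuous)
  set ε₂ : ℝ := min (ε / 2) (ε / 2 * c) with hε₂
  have hε₂0 : 0 < ε₂ := by positivity
  obtain ⟨P, hPs, hPd, hPsupp⟩ := hGc.exists_contDiff_approx 1 (continuous_const (y := ε₂)) (fun _ => hε₂0)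
  have hP0 : ∀ ζ, G ζ = 0 → P ζ = 0 := by
    intro ζ h
    by_contra hne
    exact (hPsupp hne) h
  have hPnear : ∀ ζ, ‖ζ - η‖ ≤ 1 / ((n:ℝ) + 1) → P ζ = 0 := by
    intro ζ hζ
    apply hP0
    show χ ζ * ((1 - bet η n ζ) * H ζ) = 0
    rw [bet_one hζ]; ring
  have hPη : P η = 0 := hPnear η (by rw [sub_self, norm_zero]; positivity)
  have hPz : P z = 0 := hP0 z (by show χ z * _ = 0; rw [hχz, zero_mul])
  have hPc : HasCompactSupport P := by
    apply hχc.mono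
    intro ζ hζ
    have h1 := hPsupp hζ
    intro h0
    apply h1
    show χ ζ * _ = 0
    rw [h0, zero_mul]
  set φ : ℂ → ℂ := fun ζ => f η * χ ζ + P ζ with hφ
  have hφη : φ η = f η := by
    show f η * χ η + P η = f η
    rw [hχF η hy.mem, hPη]; ring
  have hφF : ∀ ζ ∈ frontier A, φ ζ = f η + P ζ := by
    intro ζ hζ
    show f η * χ ζ + P ζ = _
    rw [hχF ζ hζ, mul_one]
  have hφs : ContDiff ℝ 1 φ := (contDiff_const.mul hχs).add hPs
  -- the difference on the boundary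
  have hdiff : ∀ ζ ∈ frontier A, ‖φ ζ - f ζ‖ ≤ ε ∧ ‖φ ζ - f ζ‖ ≤ ε * Q ζ := by
    intro ζ hζ
    have hQ0 := hy.qd.nonneg ζ hζ
    have hQB : Q ζ ≤ B := by
      have := hB ζ
      rwa [indicator_of_mem hζ] at this
    have e1 : φ ζ - f ζ = (P ζ - G ζ) + (-(bet η n ζ)) * (f ζ - f η) := by
      rw [hφF ζ hζ]
      show f η + P ζ - f ζ = (P ζ - χ ζ * ((1 - bet η n ζ) * H ζ)) + (-(bet η n ζ)) * (f ζ - f η)
      rw [hχF ζ hζ, hHF ζ hζ]
      ring
    have e2 : ‖(-(bet η n ζ)) * (f ζ - f η)‖ ≤ ε₁ * Q ζ := by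
      by_cases hfar : 2 / ((n:ℝ) + 1) ≤ ‖ζ - η‖
      · rw [bet_zero hfar, neg_zero, zero_mul, norm_zero]
        positivity
      · rw [not_le] at hfar
        rw [norm_mul, norm_neg]
        have h1 := bet_norm η n ζ
        have h2 := hsm ζ hζ (hfar.trans hn2)
        calc ‖bet η n ζ‖ * ‖f ζ - f η‖ ≤ 1 * (ε₁ * Q ζ) :=
              mul_le_mul h1 h2 (norm_nonneg _) zero_le_one
          _ = _ := one_mul _
    have e3 : ‖P ζ - G ζ‖ ≤ ε / 2 ∧ ‖P ζ - G ζ‖ ≤ ε / 2 * Q ζ := by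
      by_cases hnear : ‖ζ - η‖ ≤ 1 / ((n:ℝ) + 1)
      · have hG0 : G ζ = 0 := by
          show χ ζ * ((1 - bet η n ζ) * H ζ) = 0
          rw [bet_one hnear]; ring
        rw [hPnear ζ hnear, hG0, sub_self, norm_zero]
        constructor <;> positivity
      · rw [not_le] at hnear
        have h1 := (hPd ζ).le
        rw [dist_eq_norm] at h1
        have h2 := hc ζ hζ hnear.le
        refine ⟨h1.trans (min_le_left _ _), (h1.trans (min_le_right _ _)).trans ?_⟩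
        gcongr
    have e4 : ε₁ * Q ζ ≤ ε / 2 * Q ζ := mul_le_mul_of_nonneg_right (min_le_left _ _) hQ0
    have e5 : ε₁ * Q ζ ≤ ε / 2 := by
      calc ε₁ * Q ζ ≤ ε / (2 * B) * B := mul_le_mul (min_le_right _ _) hQB hQ0 (by positivity)
        _ = ε / 2 := by field_simp
    rw [e1]
    constructor
    · refine (norm_add_le _ _).trans ?_
      linarith [e3.1]
    · refine (norm_add_le _ _).trans ?_
      have := e3.2
      nlinarith
  refine ⟨φ, hφs, (hχc.mul_left).add hPc, ?_, ?_, ?_⟩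
  · show f η * χ z + P z = 0
    rw [hχz, hPz]; ring
  · apply MemC.mk' hφs.continuous.continuousOn hy.qd
    intro ε' hε'
    refine ⟨1 / ((n:ℝ) + 1), hnpos, fun ζ hζ hd => ?_⟩
    rw [hφη, hφF ζ hζ, hPnear ζ hd.le, add_zero, sub_self, norm_zero]
    exact mul_nonneg hε'.le (hy.qd.nonneg ζ hζ)
  · rw [normQ_le_iff hy.qd hε.le]
    intro ζ hζ
    have h1 := hdiff ζ hζ
    refine ⟨h1.1, ?_⟩
    rw [hφη, sub_self, sub_zero]
    exact h1.2

include hy in
theorem approx_neBot {f : ℂ → ℂ} (hf : MemC A Q η f) {z : ℂ} (hz : z ∈ interior A) :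
    (approx A Q η f z).NeBot := by
  unfold approx
  have hdir : DirectedOn ((fun ε => Near A Q η f z ε) ⁻¹'o (· ≥ ·)) (Ioi (0:ℝ)) := by
    intro a ha b hb
    refine ⟨min a b, mem_Ioi.2 (lt_min (mem_Ioi.1 ha) (mem_Ioi.1 hb)), ?_, ?_⟩
    · show Near A Q η f z (min a b) ⊆ Near A Q η f z a
      rintro φ ⟨h1, h2, h3, h4, h5⟩
      exact ⟨h1, h2, h3, h4, h5.trans (ENNReal.ofReal_le_ofReal (min_le_left _ _))⟩
    · show Near A Q η f z (min a b) ⊆ Near A Q η f z b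
      rintro φ ⟨h1, h2, h3, h4, h5⟩
      exact ⟨h1, h2, h3, h4, h5.trans (ENNReal.ofReal_le_ofReal (min_le_right _ _))⟩
  have hb := hasBasis_biInf_principal hdir ⟨1, mem_Ioi.2 one_pos⟩
  rw [hb.neBot_iff]
  intro ε hε
  exact near_nonempty hy hf hz hε

/-- the Cauchy-type integral of a function of the weighted space -/
noncomputable def cauchyK (A : Set ℂ) (Q : ℂ → ℝ) (η : ℂ) (f : ℂ → ℂ) (z : ℂ) : ℂ :=
  limUnder (approx A Q η f z) (fun φ => CauchyC1 A φ z)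

include hy in
theorem cauchyK_eq {ψ : ℂ → ℂ} {R : ℝ} (hψ : Psi A η ψ R) {f : ℂ → ℂ} (hf : MemC A Q η f) {z : ℂ}
    (hz : z ∈ interior A) : cauchyK A Q η f z = Kx hy ψ f z := by
  haveI := approx_neBot hy hf hz
  exact (tendsto_approx hy hψ hf hz).limUnder_eq

end Pool.Agent.K1H32.CI
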