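import Pool.Agent.K1H32.CI.Ext2

/-! The equivalences. -/

set_option autoImplicit false

open MeasureTheory Set Filter Topology Metric ProbabilityTheory Asymptotics
open scoped ENNReal NNReal

namespace Pool.Agent.K1H32.CI

variable {A : Set ℂ} {Q : ℂ → ℝ} {η : ℂ} {S : Set ℂ}

lemma tendsto_K1 {ψ : ℂ → ℂ} {R : ℝ} (hψ : Psi A η ψ R) :
    Tendsto (fun z => CauchyC1 A ψ z) (𝓝 η) (𝓝 (CauchyC1 A ψ η)) := by
  obtain ⟨L, hL⟩ := hψ.smooth.lipschitzWith_of_hasCompactSupport hψ.compact (by norm_num)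
  have hR := hψ.pos
  have hd0 : ∀ ζ ∈ ball η R, dbar ψ ζ = 0 := by
    intro ζ hζ
    have he : ψ =ᶠ[𝓝 ζ] fun _ => 1 := by
      filter_upwards [isOpen_ball.mem_nhds hζ] with x hx
      exact hψ.one x (ball_subset_closedBall hx)
    rw [dbar_congr he]
    unfold dbar; simp
  unfold CauchyC1
  apply Tendsto.const_mul
  apply tendsto_integral_filter_of_dominated_convergence
    (fun ζ => (tsupport ψ).indicator (fun _ => (L : ℝ) / (R / 2)) ζ)
  · filter_upwards with z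
    apply Measurable.aestronglyMeasurable
    exact (continuous_dbar hψ.smooth).measurable.div (by fun_prop)
  · filter_upwards [ball_mem_nhds η (half_pos hR)] with z hz
    filter_upwards with ζ
    rw [mem_ball, dist_eq_norm] at hz
    by_cases h1 : ζ ∈ tsupport ψ
    · rw [indicator_of_mem h1]
      by_cases h2 : ζ ∈ ball η R
      · rw [hd0 ζ h2, zero_div, norm_zero]
        positivity
      · rw [mem_ball, not_lt, dist_eq_norm] at h2
        rw [norm_div]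
        apply div_le_div₀ L.2 (norm_dbar_le hL ζ) (by positivity)
        have : ζ - z = (ζ - η) - (z - η) := by ring
        rw [this]
        have := norm_sub_norm_le (ζ - η) (z - η)
        linarith
    · rw [indicator_of_notMem h1, dbar_supp h1, zero_div, norm_zero]
  · rw [integrable_indicator_iff (isClosed_tsupport ψ).measurableSet]
    apply IntegrableOn.mono_measure _ Measure.restrict_le_self
    exact integrableOn_const hψ.compact.isCompact.measure_lt_top.ne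
  · filter_upwards with ζ
    by_cases h2 : ζ ∈ ball η R
    · rw [hd0 ζ h2]
      simp
    · have hne : ζ - η ≠ 0 := by
        intro h
        apply h2
        rw [sub_eq_zero.1 h]
        exact mem_ball_self hR
      exact tendsto_const_nhds.div (tendsto_const_nhds.sub tendsto_id) hne

lemma re_im_integral {N : Measure ℂ} {f : ℂ → ℂ} (hf : Integrable f N) :
    (∫ ζ, f ζ ∂N).re = ∫ ζ, (f ζ).re ∂N ∧ (∫ ζ, f ζ ∂N).im = ∫ ζ, (f ζ).im ∂N := by
  constructor
  · exact (Complex.reCLM.integral_comp_comm hf).symm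
  · exact (Complex.imCLM.integral_comp_comm hf).symm

variable (hy : Hyp A Q η)

lemma JJ_real {z : ℂ} (hz : z ∈ interior A) {h : ℂ → ℝ} (hc : ContinuousOn h (frontier A)) {C : ℝ}
    (hC : ∀ ζ ∈ frontier A, |h ζ| ≤ C * Q ζ) :
    (JJ η hy.meas (fun ζ => (h ζ : ℂ)) z).im = 1 / (2 * Real.pi) *
      Lam (NN true η hy.meas) (NN false η hy.meas) (fun ζ => -sN true η A ζ) (sN false η A) η h z ∧
    (JJ η hy.meas (fun ζ => (h ζ : ℂ)) z).re = 1 / (2 * Real.pi) *
      Lam (NN false η hy.meas) (NN true η hy.meas) (sN false η A) (sN true η A) η h z := by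
  obtain ⟨ε, hε, hball⟩ := Metric.isOpen_iff.1 isOpen_interior z hz
  have hc' : ContinuousOn (fun ζ => (h ζ : ℂ)) (frontier A) := Complex.continuous_ofReal.comp_continuousOn hc
  have hC' : ∀ ζ ∈ frontier A, ‖(h ζ : ℂ)‖ ≤ C * Q ζ := by
    intro ζ hζ
    rw [Complex.norm_real, Real.norm_eq_abs]; exact hC ζ hζ
  have hX := re_im_integral (int_J hy hε hball hc' hC' true).2.1
  have hY := re_im_integral (int_J hy hε hball hc' hC' false).2.1
  have hre : ∀ s ζ, ((sN s η A ζ : ℂ) * ((h ζ : ℂ) * kz η z ζ)).re = sN s η A ζ * (h ζ * (kz η z ζ).re) := by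
    intro s ζ
    simp
  have him : ∀ s ζ, ((sN s η A ζ : ℂ) * ((h ζ : ℂ) * kz η z ζ)).im = sN s η A ζ * (h ζ * (kz η z ζ).im) := by
    intro s ζ
    simp
  simp_rw [hre, him] at hX hY
  set X := ∫ ζ, (sN true η A ζ : ℂ) * ((h ζ : ℂ) * kz η z ζ) ∂(NN true η hy.meas) with hXd
  set Y := ∫ ζ, (sN false η A ζ : ℂ) * ((h ζ : ℂ) * kz η z ζ) ∂(NN false η hy.meas) with hYd
  have hJ : JJ η hy.meas (fun ζ => (h ζ : ℂ)) z = ((1 / (2 * Real.pi) : ℝ) : ℂ) * (-Complex.I * X + Y) := by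
    unfold JJ
    rw [← hXd, ← hYd]
    have hpi : (Real.pi : ℂ) ≠ 0 := by exact_mod_cast Real.pi_ne_zero
    have hI := Complex.I_ne_zero
    push_cast
    field_simp
    linear_combination (X) * Complex.I_sq
  rw [hJ]
  unfold Lam
  constructor
  · rw [Complex.im_ofReal_mul]
    congr 1
    have e1 : ∫ ζ, -sN true η A ζ * (h ζ * (kz η z ζ).re) ∂(NN true η hy.meas) =
        -∫ ζ, sN true η A ζ * (h ζ * (kz η z ζ).re) ∂(NN true η hy.meas) := by
      rw [← integral_neg]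
      congr 1
      funext ζ
      ring
    rw [e1, ← hX.1, ← hY.2]
    simp
  · rw [Complex.re_ofReal_mul]
    congr 1
    rw [← hX.2, ← hY.1]
    simp
    ring

lemma XX.zero {F : Set ℂ} {h : ℂ → ℝ} (hh : XX F Q η h) (hQ : QD F Q η) (hη : η ∈ F) : h η = 0 := by
  by_contra hne
  have hpos : 0 < |h η| := abs_pos.2 hne
  have hQ0 := hQ.nonneg η hη
  obtain ⟨δ, hδ, h1⟩ := hh.small (|h η| / (2 * (Q η + 1))) (by positivity)
  have h2 := h1 η hη (by simpa using hδ)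
  have h3 : |h η| / (2 * (Q η + 1)) * Q η = |h η| * (Q η / (2 * (Q η + 1))) := by ring
  have h4 : Q η / (2 * (Q η + 1)) ≤ 1 / 2 := by
    rw [div_le_div_iff₀ (by positivity) two_pos]; linarith
  rw [h3] at h2
  nlinarith

lemma XX.memC {h : ℂ → ℝ} (hh : XX (frontier A) Q η h) (hQ : QD (frontier A) Q η) (hη : η ∈ frontier A) :
    MemC A Q η (fun ζ => (h ζ : ℂ)) := by
  apply MemC.mk' (Complex.continuous_ofReal.comp_continuousOn hh.cont) hQ
  intro ε hε
  obtain ⟨δ, hδ, h1⟩ := hh.small ε hε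
  refine ⟨δ, hδ, fun ζ hζ hd => ?_⟩
  show ‖((h ζ : ℝ) : ℂ) - ((h η : ℝ) : ℂ)‖ ≤ _
  rw [hh.zero hQ hη, Complex.ofReal_zero, sub_zero, Complex.norm_real, Real.norm_eq_abs]
  exact h1 ζ hζ hd

lemma MemC.xx {f : ℂ → ℝ} (hf : MemC A Q η (fun ζ => (f ζ : ℂ))) (hQ : QD (frontier A) Q η) :
    XX (frontier A) Q η (fun ζ => f ζ - f η) := by
  refine ⟨?_, fun ε hε => ?_⟩
  · have h1 : ContinuousOn f (frontier A) := by
      have := Complex.continuous_re.comp_continuousOn hf.1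
      exact this
    exact h1.sub continuousOn_const
  · obtain ⟨δ, hδ, h1⟩ := hf.small hQ hε
    refine ⟨δ, hδ, fun ζ hζ hd => ?_⟩
    have h2 := h1 ζ hζ hd
    rw [← Complex.ofReal_sub, Complex.norm_real, Real.norm_eq_abs] at h2
    exact h2

/-- the geometric data of the approach region -/
structure Appr (A S : Set ℂ) (η : ℂ) : Prop where
  sub : S ⊆ interior A
  geo : ∃ c δ, Geo (frontier A) S η c δ
  geo2 : ∃ c δ, 0 < δ ∧ Geo2 (frontier A) S η c δ
  circ : ∃ d, 0 < d ∧ Circ S η d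

lemma Geo.mono {F S : Set ℂ} {η : ℂ} {c δ δ' : ℝ} (h : Geo F S η c δ) (h0 : 0 < δ') (hle : δ' ≤ δ) :
    Geo F S η c δ' := ⟨h.c_pos, h0, fun z hz hd => h.le z hz (hd.trans_le hle)⟩

lemma Geo2.mono {F S : Set ℂ} {η : ℂ} {c δ δ' : ℝ} (h : Geo2 F S η c δ) (hle : δ' ≤ δ) :
    Geo2 F S η c δ' := ⟨h.c_pos, fun z hz hd ζ hζ hd' => h.le z hz (hd.trans_le hle) ζ hζ (hd'.trans_le hle)⟩

/-- abstract form of the conditions -/
def Cond (A : Set ℂ) (Q : ℂ → ℝ) (η : ℂ) (N₁ N₂ : Measure ℂ) : Prop :=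
  Integrable ((frontier A).indicator Q) N₁ ∧ ∃ M : ℝ, 0 ≤ M ∧ GrB (frontier A) Q η N₂ M

theorem cond_iff (ha : Appr A S η) {N₁ N₂ : Measure ℂ} {s₁ s₂ : ℂ → ℝ} (hQ : QD (frontier A) Q η)
    (hη : η ∈ frontier A) (hN₁ : DN (frontier A) Q η N₁) (hN₂ : DN (frontier A) Q η N₂)
    (hs₁ : Measurable s₁) (hs₂ : Measurable s₂) (hs₁' : ∀ᵐ ζ ∂N₁, |s₁ ζ| = 1)
    (hs₂' : ∀ᵐ ζ ∂N₂, |s₂ ζ| = 1) :
    (∀ h, XX (frontier A) Q η h → ∃ L, Tendsto (Lam N₁ N₂ s₁ s₂ η h) (𝓝[S] η) (𝓝 L)) ↔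
      Cond A Q η N₁ N₂ := by
  obtain ⟨c, δ, hg⟩ := ha.geo
  obtain ⟨c₂, δ₂, hδ₂, hg2⟩ := ha.geo2
  obtain ⟨d, hd, hcirc⟩ := ha.circ
  have hηS : η ∉ S := fun h => hη.2 (ha.sub h)
  have hg' := hg.mono (lt_min hg.δ_pos hδ₂) (min_le_left _ _)
  have hg2' := hg2.mono (min_le_right δ δ₂)
  constructor
  · intro h
    exact nec hQ ⟨η, hη⟩ hN₁ hN₂ hs₁ hs₂ hs₁' hs₂' hg' hg2' hηS hd hcirc h
  · rintro ⟨hI, M, hM, hB⟩ h hh
    exact ⟨_, suf hQ hN₁ hN₂ hs₁ hs₁' hs₂' hg' hηS hI hM hB hh⟩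

include hy in
lemma Kx_real {ψ : ℂ → ℂ} {f : ℂ → ℝ} (hf : MemC A Q η (fun ζ => (f ζ : ℂ))) {z : ℂ}
    (hz : z ∈ interior A) :
    (Kx hy ψ (fun ζ => (f ζ : ℂ)) z).im = f η * (CauchyC1 A ψ z).im + 1 / (2 * Real.pi) *
      Lam (NN true η hy.meas) (NN false η hy.meas) (fun ζ => -sN true η A ζ) (sN false η A) η
        (fun ζ => f ζ - f η) z ∧
    (Kx hy ψ (fun ζ => (f ζ : ℂ)) z).re = f η * (CauchyC1 A ψ z).re + 1 / (2 * Real.pi) *
      Lam (NN false η hy.meas) (NN true η hy.meas) (sN false η A) (sN true η A) η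
        (fun ζ => f ζ - f η) z := by
  have hx := hf.xx hy.qd
  obtain ⟨C, _, hC⟩ := hx.bound hy.qd
  have h := JJ_real hy hz hx.cont hC
  have e : (fun ζ => (f ζ : ℂ) - (f η : ℂ)) = fun ζ => ((f ζ - f η : ℝ) : ℂ) := by
    funext ζ; push_cast; rfl
  unfold Kx
  rw [Complex.add_im, Complex.add_re, e, h.1, h.2, Complex.im_ofReal_mul, Complex.re_ofReal_mul]
  exact ⟨rfl, rfl⟩

include hy in
/-- both equivalences at once -/
theorem main_iff (ha : Appr A S η) :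
    ((∀ f : ℂ → ℝ, MemC A Q η (fun ζ => (f ζ : ℂ)) →
      ∃ L : ℝ, Tendsto (fun z => (cauchyK A Q η (fun ζ => (f ζ : ℂ)) z).im) (𝓝[S] η) (𝓝 L)) ↔
      Cond A Q η (NN true η hy.meas) (NN false η hy.meas)) ∧
    ((∀ f : ℂ → ℝ, MemC A Q η (fun ζ => (f ζ : ℂ)) →
      ∃ L : ℝ, Tendsto (fun z => (cauchyK A Q η (fun ζ => (f ζ : ℂ)) z).re) (𝓝[S] η) (𝓝 L)) ↔
      Cond A Q η (NN false η hy.meas) (NN true η hy.meas)) := by
  obtain ⟨ψ, R, hψ⟩ := exists_psi hy.qd.compact η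
  have hK1 := (tendsto_K1 hψ).mono_left (nhdsWithin_le_nhds (s := S))
  have hS : ∀ᶠ z in 𝓝[S] η, z ∈ interior A := by
    filter_upwards [self_mem_nhdsWithin] with z hz
    exact ha.sub hz
  have hs1 : Measurable (fun ζ => -sN true η A ζ) := (measurable_sN true η hy.meas).neg
  have hs1' : ∀ᵐ ζ ∂(NN true η hy.meas), |(fun ζ => -sN true η A ζ) ζ| = 1 := by
    filter_upwards [sN_ae true η hy.meas] with ζ hζ
    rw [abs_neg]; exact hζ
  have hpi : (1 / (2 * Real.pi) : ℝ) ≠ 0 := by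
    have := Real.pi_pos
    positivity
  constructor
  · rw [← cond_iff ha hy.qd hy.mem (hy.dn true) (hy.dn false) hs1 (measurable_sN false η hy.meas) hs1'
      (sN_ae false η hy.meas)]
    constructor
    · intro h g hg
      obtain ⟨L, hL⟩ := h g (hg.memC hy.qd hy.mem)
      refine ⟨L * (1 / (2 * Real.pi))⁻¹, (hL.mul_const (1 / (2 * Real.pi))⁻¹).congr' ?_⟩
      filter_upwards [hS] with z hz
      rw [cauchyK_eq hy hψ (hg.memC hy.qd hy.mem) hz, (Kx_real hy (hg.memC hy.qd hy.mem) hz).1,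
        hg.zero hy.qd hy.mem]
      simp only [sub_zero, zero_mul, zero_add]
      field_simp
    · intro h f hf
      obtain ⟨L, hL⟩ := h _ (hf.xx hy.qd)
      refine ⟨f η * (CauchyC1 A ψ η).im + 1 / (2 * Real.pi) * L, ?_⟩
      have h1 := (((Complex.continuous_im.tendsto _).comp hK1).const_mul (f η)).add
        (hL.const_mul (1 / (2 * Real.pi)))
      refine h1.congr' ?_
      filter_upwards [hS] with z hz
      rw [cauchyK_eq hy hψ hf hz, (Kx_real hy hf hz).1]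
      rfl
  · rw [← cond_iff ha hy.qd hy.mem (hy.dn false) (hy.dn true) (measurable_sN false η hy.meas)
      (measurable_sN true η hy.meas) (sN_ae false η hy.meas) (sN_ae true η hy.meas)]
    constructor
    · intro h g hg
      obtain ⟨L, hL⟩ := h g (hg.memC hy.qd hy.mem)
      refine ⟨L * (1 / (2 * Real.pi))⁻¹, (hL.mul_const (1 / (2 * Real.pi))⁻¹).congr' ?_⟩
      filter_upwards [hS] with z hz
      rw [cauchyK_eq hy hψ (hg.memC hy.qd hy.mem) hz, (Kx_real hy (hg.memC hy.qd hy.mem) hz).2,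
        hg.zero hy.qd hy.mem]
      simp only [sub_zero, zero_mul, zero_add]
      field_simp
    · intro h f hf
      obtain ⟨L, hL⟩ := h _ (hf.xx hy.qd)
      refine ⟨f η * (CauchyC1 A ψ η).re + 1 / (2 * Real.pi) * L, ?_⟩
      have h1 := (((Complex.continuous_re.tendsto _).comp hK1).const_mul (f η)).add
        (hL.const_mul (1 / (2 * Real.pi)))
      refine h1.congr' ?_
      filter_upwards [hS] with z hz
      rw [cauchyK_eq hy hψ hf hz, (Kx_real hy hf hz).2]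
      rfl

lemma MemC.re_im {f : ℂ → ℂ} (hf : MemC A Q η f) (hQ : QD (frontier A) Q η) :
    MemC A Q η (fun ζ => ((f ζ).re : ℂ)) ∧ MemC A Q η (fun ζ => ((f ζ).im : ℂ)) := by
  constructor
  · apply MemC.mk' (Complex.continuous_ofReal.comp_continuousOn (Complex.continuous_re.comp_continuousOn hf.1)) hQ
    intro ε hε
    obtain ⟨δ, hδ, h1⟩ := hf.small hQ hε
    refine ⟨δ, hδ, fun ζ hζ hd => ?_⟩
    show ‖(((f ζ).re : ℝ) : ℂ) - (((f η).re : ℝ) : ℂ)‖ ≤ _
    rw [← Complex.ofReal_sub, ← Complex.sub_re, Complex.norm_real, Real.norm_eq_abs]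
    exact (Complex.abs_re_le_norm _).trans (h1 ζ hζ hd)
  · apply MemC.mk' (Complex.continuous_ofReal.comp_continuousOn (Complex.continuous_im.comp_continuousOn hf.1)) hQ
    intro ε hε
    obtain ⟨δ, hδ, h1⟩ := hf.small hQ hε
    refine ⟨δ, hδ, fun ζ hζ hd => ?_⟩
    show ‖(((f ζ).im : ℝ) : ℂ) - (((f η).im : ℝ) : ℂ)‖ ≤ _
    rw [← Complex.ofReal_sub, ← Complex.sub_im, Complex.norm_real, Real.norm_eq_abs]
    exact (Complex.abs_im_le_norm _).trans (h1 ζ hζ hd)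

include hy in
lemma Kx_decomp {ψ : ℂ → ℂ} {f : ℂ → ℂ} (hf : MemC A Q η f) {z : ℂ} (hz : z ∈ interior A) :
    Kx hy ψ f z = Kx hy ψ (fun ζ => ((f ζ).re : ℂ)) z + Complex.I * Kx hy ψ (fun ζ => ((f ζ).im : ℂ)) z := by
  obtain ⟨ε, hε, hball⟩ := Metric.isOpen_iff.1 isOpen_interior z hz
  have hri := hf.re_im hy.qd
  obtain ⟨C1, _, hC1⟩ := hri.1.bound hy.qd
  obtain ⟨C2, _, hC2⟩ := hri.2.bound hy.qd
  have hc1 : ContinuousOn (fun ζ => ((f ζ).re : ℂ) - ((f η).re : ℂ)) (frontier A) := hri.1.1.sub continuousOn_const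
  have hc2 : ContinuousOn (fun ζ => ((f ζ).im : ℂ) - ((f η).im : ℂ)) (frontier A) := hri.2.1.sub continuousOn_const
  have key : ∀ s, ∫ ζ, (sN s η A ζ : ℂ) * ((f ζ - f η) * kz η z ζ) ∂(NN s η hy.meas) =
      (∫ ζ, (sN s η A ζ : ℂ) * ((((f ζ).re : ℂ) - ((f η).re : ℂ)) * kz η z ζ) ∂(NN s η hy.meas)) +
      Complex.I * ∫ ζ, (sN s η A ζ : ℂ) * ((((f ζ).im : ℂ) - ((f η).im : ℂ)) * kz η z ζ) ∂(NN s η hy.meas) := by
    intro s
    rw [← integral_const_mul, ← integral_add (int_J hy hε hball hc1 hC1 s).2.1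
      ((int_J hy hε hball hc2 hC2 s).2.1.const_mul _)]
    congr 1
    funext ζ
    have e : f ζ - f η = (((f ζ).re : ℂ) - ((f η).re : ℂ)) + Complex.I * (((f ζ).im : ℂ) - ((f η).im : ℂ)) := by
      apply Complex.ext <;> simp
    rw [e]; ring
  have e2 : f η = ((f η).re : ℂ) + Complex.I * ((f η).im : ℂ) := by
    apply Complex.ext <;> simp
  have e3 : f η * CauchyC1 A ψ z = ((f η).re : ℂ) * CauchyC1 A ψ z +
      Complex.I * (((f η).im : ℂ) * CauchyC1 A ψ z) := by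
    linear_combination (CauchyC1 A ψ z) * e2
  unfold Kx JJ
  rw [key, key, e3]
  ring

lemma grB_of_integrable {N : Measure ℂ} (hQ : QD (frontier A) Q η)
    (hI : Integrable ((frontier A).indicator Q) N) : ∃ M : ℝ, 0 ≤ M ∧ GrB (frontier A) Q η N M := by
  refine ⟨∫ ζ, (frontier A).indicator Q ζ ∂N, integral_nonneg hQ.ind_nonneg, fun r hr => ?_⟩
  rw [ENNReal.ofReal_mul (integral_nonneg hQ.ind_nonneg),
    ofReal_integral_eq_lintegral_ofReal hI (Eventually.of_forall hQ.ind_nonneg),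
    ← lintegral_mul_const' _ _ ENNReal.ofReal_ne_top]
  refine le_trans ?_ (setLIntegral_le_lintegral (ball η r) _)
  apply setLIntegral_mono' measurableSet_ball
  intro ζ hζ
  rw [mem_ball, dist_eq_norm] at hζ
  rw [← ENNReal.ofReal_mul (hQ.ind_nonneg ζ)]
  apply ENNReal.ofReal_le_ofReal
  exact mul_le_mul_of_nonneg_left hζ.le (hQ.ind_nonneg ζ)

include hy in
theorem main_iff_c (ha : Appr A S η) :
    (∀ f : ℂ → ℂ, MemC A Q η f → ∃ L : ℂ, Tendsto (fun z => cauchyK A Q η f z) (𝓝[S] η) (𝓝 L)) ↔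
      Integrable ((frontier A).indicator Q) (NN false η hy.meas) ∧
      Integrable ((frontier A).indicator Q) (NN true η hy.meas) := by
  have hm := main_iff hy ha
  constructor
  · intro h
    constructor
    · refine (hm.2.1 ?_).1
      intro f hf
      obtain ⟨L, hL⟩ := h _ hf
      exact ⟨L.re, (Complex.continuous_re.tendsto _).comp hL⟩
    · refine (hm.1.1 ?_).1
      intro f hf
      obtain ⟨L, hL⟩ := h _ hf
      exact ⟨L.im, (Complex.continuous_im.tendsto _).comp hL⟩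
  · rintro ⟨hI1, hI2⟩ f hf
    obtain ⟨ψ, R, hψ⟩ := exists_psi hy.qd.compact η
    have hW := hm.1.2 ⟨hI2, grB_of_integrable hy.qd hI1⟩
    have hP := hm.2.2 ⟨hI1, grB_of_integrable hy.qd hI2⟩
    have hreal : ∀ g : ℂ → ℝ, MemC A Q η (fun ζ => (g ζ : ℂ)) →
        ∃ L : ℂ, Tendsto (fun z => cauchyK A Q η (fun ζ => (g ζ : ℂ)) z) (𝓝[S] η) (𝓝 L) := by
      intro g hg
      obtain ⟨L1, hL1⟩ := hP g hg
      obtain ⟨L2, hL2⟩ := hW g hg
      refine ⟨(L1 : ℂ) + (L2 : ℂ) * Complex.I, ?_⟩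
      have h1 := ((Complex.continuous_ofReal.tendsto _).comp hL1).add
        (((Complex.continuous_ofReal.tendsto _).comp hL2).mul_const Complex.I)
      refine h1.congr (fun z => ?_)
      exact Complex.re_add_im _
    have hri := hf.re_im hy.qd
    obtain ⟨L1, hL1⟩ := hreal _ hri.1
    obtain ⟨L2, hL2⟩ := hreal _ hri.2
    refine ⟨L1 + Complex.I * L2, (hL1.add (hL2.const_mul Complex.I)).congr' ?_⟩
    filter_upwards [self_mem_nhdsWithin] with z hz
    have hz := ha.sub hz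
    rw [cauchyK_eq hy hψ hri.1 hz, cauchyK_eq hy hψ hri.2 hz, cauchyK_eq hy hψ hf hz,
      Kx_decomp hy hf hz]

end Pool.Agent.K1H32.CI
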