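import Pool.Agent.K1H32.CI.Fin

/-! The final form of the equivalences. -/

set_option autoImplicit false

open MeasureTheory Set Filter Topology Metric ProbabilityTheory Asymptotics
open scoped ENNReal NNReal

namespace Pool.Agent.K1H32.CI

/-- the standing hypotheses of the problem -/
structure Admissible (A : Set ℂ) (Q : ℂ → ℝ) (η : ℂ) (S : Set ℂ) : Prop where
  borel : MeasurableSet A
  compact : IsCompact (frontier A)
  interior_nonempty : (interior A).Nonempty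
  thick : ∀ z ∈ frontier A, ∀ r : ℝ, 0 < r → 0 < volume (ball z r ∩ A) ∧ 0 < volume (ball z r ∩ Aᶜ)
  mem : η ∈ frontier A
  nonneg : ∀ ζ ∈ frontier A, 0 ≤ Q ζ
  pos : ∀ ζ ∈ frontier A, ζ ≠ η → 0 < Q ζ
  bounded : ∃ B : ℝ, ∀ ζ ∈ frontier A, Q ζ ≤ B
  lsc : LowerSemicontinuousOn Q (frontier A)
  finite : ∫⁻ ζ in essBdry A, ENNReal.ofReal (Q ζ) ∂(Measure.hausdorffMeasure 1 : Measure ℂ) < ∞
  sub : S ⊆ interior A
  connected : IsConnected S
  closure_inter : closure S ∩ frontier A = {η}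
  direction : ∃ u : ℂ, contingent S η = {u} ∧ u ∉ contingent (frontier A) η ∧ -u ∉ contingent (frontier A) η

variable {A : Set ℂ} {Q : ℂ → ℝ} {η : ℂ} {S : Set ℂ}

lemma Admissible.hyp (h : Admissible A Q η S) : Hyp A Q η :=
  ⟨h.borel, ⟨h.compact, h.nonneg, h.pos, h.bounded, h.lsc⟩, h.mem, h.finite⟩

lemma Admissible.appr (h : Admissible A Q η S) : Appr A S η := by
  have hηS : η ∉ S := fun hh => h.mem.2 (h.sub hh)
  obtain ⟨u, hu, h1, h2⟩ := h.direction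
  have hcl : η ∈ closure S := by
    have : η ∈ closure S ∩ frontier A := by rw [h.closure_inter]; rfl
    exact this.1
  exact ⟨h.sub, exists_geo hηS hu h1, exists_geo2 hηS hu h1 h2,
    exists_circ h.connected.isPreconnected hcl hηS⟩

lemma int_iff {N : Measure ℂ} (hQ : QD (frontier A) Q η) : Integrable ((frontier A).indicator Q) N ↔
    ∫⁻ ζ, ENNReal.ofReal ((frontier A).indicator Q ζ) ∂N < ∞ := by
  rw [← hasFiniteIntegral_iff_ofReal (Eventually.of_forall hQ.ind_nonneg)]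
  exact ⟨fun h => h.2, fun h => ⟨hQ.meas.aestronglyMeasurable, h⟩⟩

lemma sup_iff {N : Measure ℂ} : (∃ M : ℝ, 0 ≤ M ∧ GrB (frontier A) Q η N M) ↔
    ⨆ r : {r : ℝ // 0 < r}, (∫⁻ ζ in ball η r, ENNReal.ofReal ((frontier A).indicator Q ζ * ‖ζ - η‖) ∂N) /
      ENNReal.ofReal r < ∞ := by
  constructor
  · rintro ⟨M, hM, h⟩
    refine lt_of_le_of_lt (iSup_le fun r => ?_) (ENNReal.ofReal_lt_top (r := M))
    have hr : ENNReal.ofReal (r:ℝ) ≠ 0 := by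
      rw [Ne, ENNReal.ofReal_eq_zero, not_le]; exact r.2
    rw [ENNReal.div_le_iff hr ENNReal.ofReal_ne_top, ← ENNReal.ofReal_mul hM]
    exact h r r.2
  · intro h
    set K := ⨆ r : {r : ℝ // 0 < r}, (∫⁻ ζ in ball η r, ENNReal.ofReal ((frontier A).indicator Q ζ * ‖ζ - η‖) ∂N) /
      ENNReal.ofReal r with hK
    refine ⟨K.toReal, ENNReal.toReal_nonneg, fun r hr => ?_⟩
    have hr' : ENNReal.ofReal r ≠ 0 := by
      rw [Ne, ENNReal.ofReal_eq_zero, not_le]; exact hr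
    have h1 : (∫⁻ ζ in ball η r, ENNReal.ofReal ((frontier A).indicator Q ζ * ‖ζ - η‖) ∂N) /
      ENNReal.ofReal r ≤ K := le_iSup (fun r : {r : ℝ // 0 < r} =>
        (∫⁻ ζ in ball η r, ENNReal.ofReal ((frontier A).indicator Q ζ * ‖ζ - η‖) ∂N) / ENNReal.ofReal r) ⟨r, hr⟩
    rw [ENNReal.div_le_iff hr' ENNReal.ofReal_ne_top] at h1
    rw [ENNReal.ofReal_mul ENNReal.toReal_nonneg, ENNReal.ofReal_toReal h.ne]
    exact h1

theorem part_a (h : Admissible A Q η S) :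
    (∀ f : ℂ → ℝ, MemC A Q η (fun ζ => (f ζ : ℂ)) →
      ∃ L : ℝ, Tendsto (fun z => (cauchyK A Q η (fun ζ => (f ζ : ℂ)) z).im) (𝓝[S] η) (𝓝 L)) ↔
    vQ A Q η + ⨆ r : {r : ℝ // 0 < r}, uQ A Q η (ENNReal.ofReal r) / ENNReal.ofReal r < ∞ := by
  have hy := h.hyp
  rw [(main_iff hy h.appr).1, ENNReal.add_lt_top]
  unfold Cond
  rw [int_iff hy.qd, sup_iff, ← vQ_eq hy.meas hy.hfin hy.qd]
  have : ∀ r : {r : ℝ // 0 < r}, uQ A Q η (ENNReal.ofReal r) =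
      ∫⁻ ζ in ball η r, ENNReal.ofReal ((frontier A).indicator Q ζ * ‖ζ - η‖) ∂(NN false η hy.meas) := by
    intro r
    rw [uQ_eq hy.meas hy.hfin hy.qd, Dr_ofReal η r.2]
  simp_rw [this]

theorem part_b (h : Admissible A Q η S) :
    (∀ f : ℂ → ℝ, MemC A Q η (fun ζ => (f ζ : ℂ)) →
      ∃ L : ℝ, Tendsto (fun z => (cauchyK A Q η (fun ζ => (f ζ : ℂ)) z).re) (𝓝[S] η) (𝓝 L)) ↔
    UQ A Q η ⊤ + ⨆ r : {r : ℝ // 0 < r}, VQ A Q η (ENNReal.ofReal r) / ENNReal.ofReal r < ∞ := by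
  have hy := h.hyp
  rw [(main_iff hy h.appr).2, ENNReal.add_lt_top]
  unfold Cond
  rw [int_iff hy.qd, sup_iff, UQ_eq hy.meas hy.hfin hy.qd, Dr_top, Measure.restrict_univ]
  have : ∀ r : {r : ℝ // 0 < r}, VQ A Q η (ENNReal.ofReal r) =
      ∫⁻ ζ in ball η r, ENNReal.ofReal ((frontier A).indicator Q ζ * ‖ζ - η‖) ∂(NN true η hy.meas) := by
    intro r
    rw [VQ_eq hy.meas hy.hfin hy.qd, Dr_ofReal η r.2]
  simp_rw [this]

theorem part_c (h : Admissible A Q η S) :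
    (∀ f : ℂ → ℂ, MemC A Q η f → ∃ L : ℂ, Tendsto (fun z => cauchyK A Q η f z) (𝓝[S] η) (𝓝 L)) ↔
    UQ A Q η ⊤ + vQ A Q η < ∞ := by
  have hy := h.hyp
  rw [main_iff_c hy h.appr, ENNReal.add_lt_top, int_iff hy.qd, int_iff hy.qd,
    UQ_eq hy.meas hy.hfin hy.qd, Dr_top, Measure.restrict_univ, vQ_eq hy.meas hy.hfin hy.qd]

theorem well_defined (h : Admissible A Q η S) {f : ℂ → ℂ} (hf : MemC A Q η f) {z : ℂ} (hz : z ∈ interior A) :
    (approx A Q η f z).NeBot ∧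
      Tendsto (fun φ => CauchyC1 A φ z) (approx A Q η f z) (𝓝 (cauchyK A Q η f z)) := by
  have hy := h.hyp
  obtain ⟨ψ, R, hψ⟩ := exists_psi hy.qd.compact η
  refine ⟨approx_neBot hy hf hz, ?_⟩
  rw [cauchyK_eq hy hψ hf hz]
  exact tendsto_approx hy hψ hf hz

theorem extends_smooth (h : Admissible A Q η S) {φ : ℂ → ℂ} (hφ : ContDiff ℝ 1 φ)
    (hc : HasCompactSupport φ) (hf : MemC A Q η φ) {z : ℂ} (hz : z ∈ interior A) :
    cauchyK A Q η φ z = CauchyC1 A φ z := by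
  have hy := h.hyp
  obtain ⟨ψ, R, hψ⟩ := exists_psi hy.qd.compact η
  rw [cauchyK_eq hy hψ hf hz, rep_Kx hy hψ hφ hc hf hz]

end Pool.Agent.K1H32.CI
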