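import Pool.Agent.K1H32.CI.Cex

/-! Two complements. -/

set_option autoImplicit false

open MeasureTheory Set Filter Topology Metric ProbabilityTheory Asymptotics
open scoped ENNReal NNReal

namespace Pool.Agent.K1H32.CI

variable {A : Set ℂ} {Q : ℂ → ℝ} {η : ℂ} {S : Set ℂ}

theorem extends_boundary (h : Admissible A Q η S) {f φ : ℂ → ℂ} (hf : MemC A Q η f)
    (hφ : ContDiff ℝ 1 φ) (hc : HasCompactSupport φ) (heq : ∀ ζ ∈ frontier A, φ ζ = f ζ) {z : ℂ}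
    (hz : z ∈ interior A) : cauchyK A Q η f z = CauchyC1 A φ z := by
  have hy := h.hyp
  obtain ⟨ψ, R, hψ⟩ := exists_psi hy.qd.compact η
  have hm : MemC A Q η φ := by
    refine ⟨hφ.continuous.continuousOn, hf.2.congr' ?_ (EventuallyEq.refl _ _)⟩
    filter_upwards [self_mem_nhdsWithin] with ζ hζ
    rw [heq ζ hζ, heq η hy.mem]
  rw [cauchyK_eq hy hψ hf hz, rep_Kx hy hψ hφ hc hm hz]
  unfold Kx
  rw [heq η hy.mem]
  congr 1
  apply JJ_congr hy.meas hy.hfin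
  intro ζ hζ
  rw [heq ζ hζ]

theorem literal_suff (h : Admissible A Q η S)
    (hs : vQ A Q η + ⨆ r : {r : ℝ // 0 < r}, UQ A Q η (ENNReal.ofReal r) / ENNReal.ofReal r < ∞) :
    vQ A Q η + ⨆ r : {r : ℝ // 0 < r}, uQ A Q η (ENNReal.ofReal r) / ENNReal.ofReal r < ∞ := by
  have hy := h.hyp
  rw [ENNReal.add_lt_top] at hs ⊢
  refine ⟨hs.1, ?_⟩
  obtain ⟨R, hR⟩ := hy.qd.compact.isBounded.subset_ball η
  have hR0 : 0 < max R 1 := lt_max_of_lt_right one_pos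
  have hsub : frontier A ⊆ ball η (max R 1) := hR.trans (ball_subset_ball (le_max_left _ _))
  have hUtop : UQ A Q η ⊤ = UQ A Q η (ENNReal.ofReal (max R 1)) := by
    rw [UQ_eq hy.meas hy.hfin hy.qd, UQ_eq hy.meas hy.hfin hy.qd, Dr_top, Measure.restrict_univ,
      Dr_ofReal η hR0, Measure.restrict_eq_self_of_ae_mem]
    filter_upwards [(hy.dn false).ae_mem] with ζ hζ
    exact hsub hζ
  have hne : ∀ r : {r : ℝ // 0 < r}, ENNReal.ofReal (r:ℝ) ≠ 0 := by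
    intro r
    rw [Ne, ENNReal.ofReal_eq_zero, not_le]; exact r.2
  set K := ⨆ r : {r : ℝ // 0 < r}, UQ A Q η (ENNReal.ofReal r) / ENNReal.ofReal r with hK
  have hUlt : UQ A Q η ⊤ < ∞ := by
    have h1 : UQ A Q η (ENNReal.ofReal (max R 1)) / ENNReal.ofReal (max R 1) ≤ K :=
      le_iSup (fun r : {r : ℝ // 0 < r} => UQ A Q η (ENNReal.ofReal r) / ENNReal.ofReal r) ⟨max R 1, hR0⟩
    rw [ENNReal.div_le_iff (hne ⟨max R 1, hR0⟩) ENNReal.ofReal_ne_top] at h1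
    rw [hUtop]
    exact h1.trans_lt (ENNReal.mul_lt_top hs.2 ENNReal.ofReal_lt_top)
  refine lt_of_le_of_lt (iSup_le fun r => ?_) hUlt
  rw [ENNReal.div_le_iff (hne r) ENNReal.ofReal_ne_top, uQ_eq hy.meas hy.hfin hy.qd,
    UQ_eq hy.meas hy.hfin hy.qd, Dr_top, Measure.restrict_univ, Dr_ofReal η r.2,
    ← lintegral_mul_const' _ _ ENNReal.ofReal_ne_top]
  refine le_trans ?_ (setLIntegral_le_lintegral (ball η r) _)
  apply setLIntegral_mono' measurableSet_ball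
  intro ζ hζ
  rw [mem_ball, dist_eq_norm] at hζ
  rw [← ENNReal.ofReal_mul (hy.qd.ind_nonneg ζ)]
  apply ENNReal.ofReal_le_ofReal
  exact mul_le_mul_of_nonneg_left hζ.le (hy.qd.ind_nonneg ζ)

end Pool.Agent.K1H32.CI
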