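import Pool.Agent.K1H32.CI.Meas

/-! The sign function and the formula for the integral over one slice. -/

set_option autoImplicit false

open MeasureTheory Set Filter Topology Metric ProbabilityTheory
open scoped ENNReal NNReal

namespace Pool.Agent.K1H32.CI

lemma sg_abs {M : Set (ℝ × ℝ)} {p : ℝ} (hp : p ∈ GoodP M) {t : ℝ} (ht : t ∈ HS M p) :
    |sg (sec M p) t| = 1 := by
  have hF : ((HS M p ∩ Ico (t - 1) (t + 1)) \ {t}).Finite := (goodP_finite hp _ _).subset sdiff_subset
  have htF : t ∉ (HS M p ∩ Ico (t - 1) (t + 1)) \ {t} := fun h => h.2 rfl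
  obtain ⟨δ, hδ, hball⟩ := Metric.isOpen_iff.1 hF.isClosed.isOpen_compl t htF
  have h1 : 0 < min δ 1 := lt_min hδ one_pos
  have := sg_hit (s := sec M p) (a := t - min δ 1) (b := t + min δ 1) (t := t) (by linarith)
    (by linarith) ht (by
      intro x hx hxH
      by_contra hne
      have hx1 : |x - t| < min δ 1 := by rw [abs_lt]; constructor <;> linarith [hx.1, hx.2]
      rw [lt_min_iff] at hx1
      have hx2 := abs_lt.1 hx1.2
      apply hball (show x ∈ ball t δ from by rw [mem_ball, Real.dist_eq]; exact hx1.1)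
      exact ⟨⟨hxH, by linarith [hx2.1], by linarith [hx2.2]⟩, hne⟩)
  rcases this with h | h <;> rw [h] <;> simp

lemma sgM_ae {M : Set (ℝ × ℝ)} (hM : MeasurableSet M) : ∀ᵐ q ∂(nuM hM), |sgM M q| = 1 := by
  apply Measure.ae_compProd_of_ae_ae
  · exact (measurable_sgM hM).abs (measurableSet_singleton 1)
  · filter_upwards with p
    rw [kapK_apply]
    by_cases hp : p ∈ GoodP M
    · rw [kap_good hp]
      exact ae_restrict_of_forall_mem (isClosed_HS M p).measurableSet (fun t ht => sg_abs hp ht)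
    · rw [kap_bad hp]
      simp

/-- the sign function on the plane -/
noncomputable def sN (s : Bool) (η : ℂ) (A : Set ℂ) (ζ : ℂ) : ℝ :=
  sgM (MM s η A) (oi s (Complex.log (ζ - η)))

lemma measurable_sN (s : Bool) (η : ℂ) {A : Set ℂ} (hA : MeasurableSet A) : Measurable (sN s η A) := by
  unfold sN
  apply (measurable_sgM (measurableSet_MM hA)).comp
  apply (contDiff_oi s).continuous.measurable.comp
  exact Complex.measurable_log.comp (measurable_id.sub_const η)

lemma sN_Th {s : Bool} {η : ℂ} {A : Set ℂ} {q : ℝ × ℝ} (hq : q ∈ strip s) :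
    sN s η A (Th s η q) = sgM (MM s η A) q := by
  unfold sN Th
  rw [add_sub_cancel_left, Complex.log_exp hq.1 hq.2, oi_io]

lemma sN_ae (s : Bool) (η : ℂ) {A : Set ℂ} (hA : MeasurableSet A) :
    ∀ᵐ ζ ∂(NN s η hA), |sN s η A ζ| = 1 := by
  unfold NN
  have hms : MeasurableSet {ζ | |sN s η A ζ| = 1} :=
    (measurable_sN s η hA).abs (measurableSet_singleton 1)
  rw [ae_map_iff (measurable_Th s η).aemeasurable hms, ae_restrict_iff' (measurableSet_strip s)]
  filter_upwards [sgM_ae (measurableSet_MM (s := s) (η := η) hA)] with q hq hqs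
  rw [sN_Th hqs]
  exact hq

lemma integral_kap {M : Set (ℝ × ℝ)} {p : ℝ} (hp : p ∈ GoodP M) {I : Set ℝ} (hI : MeasurableSet I)
    {F : Finset ℝ} (hF : ∀ t, t ∈ F ↔ t ∈ I ∧ t ∈ HS M p) (f : ℝ → ℂ) :
    ∫ t in I, f t ∂(kap M p) = ∑ t ∈ F, f t := by
  rw [kap_good hp, Measure.restrict_restrict hI]
  have : I ∩ HS M p = (F : Set ℝ) := by
    ext t
    rw [Finset.mem_coe, hF]
    rfl
  rw [this]
  rw [setIntegral_finset]
  · apply Finset.sum_congr rfl
    intro t _
    simp [Measure.real]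
  · rw [← Set.biUnion_of_singleton (F : Set ℝ)]
    simp only [Finset.mem_coe]
    rw [integrableOn_finset_iUnion]
    intro t _
    exact integrableOn_singleton (by simp) (by simp)

theorem slice_formula {M : Set (ℝ × ℝ)} (hM : MeasurableSet M) {p : ℝ} (hp : p ∈ GoodP M) {a b : ℝ}
    (hab : a < b) {φ φ' : ℝ → ℂ} (hφ : ∀ x, HasDerivAt φ (φ' x) x) (hc : Continuous φ') :
    ∫ x in sec M p ∩ Ioo a b, φ' x = ((lv (sec M p) b).toReal : ℂ) * φ b -
      ((rv (sec M p) a).toReal : ℂ) * φ a +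
      ∫ t in Ioo a b, (sg (sec M p) t : ℂ) * φ t ∂(kap M p) := by
  have hfin : (HS M p ∩ Ioo a b).Finite := (goodP_finite hp a b).subset
    (inter_subset_inter_right _ Ioo_subset_Ico_self)
  set F := hfin.toFinset with hF
  have hmem : ∀ t, t ∈ F ↔ t ∈ Ioo a b ∧ t ∈ HS M p := by
    intro t
    rw [hF, Set.Finite.mem_toFinset, mem_inter_iff, and_comm]
  rw [integral_kap hp measurableSet_Ioo hmem]
  exact integral_hits (measurableSet_sec hM p) hφ hc F.card a b hab F rfl hmem

end Pool.Agent.K1H32.CI
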