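import Pool.Agent.K1H32.CI.Form

/-! The integral of a derivative over the preimage of the complement of `A`, in slices. -/

set_option autoImplicit false

open MeasureTheory Set Filter Topology Metric ProbabilityTheory
open scoped ENNReal NNReal

namespace Pool.Agent.K1H32.CI

/-- direction of the second coordinate -/
def vdir (s : Bool) : ℂ := if s then 1 else Complex.I

lemma hasDerivAt_Th (s : Bool) (η : ℂ) (p t : ℝ) :
    HasDerivAt (fun t : ℝ => Th s η (p, t)) (vdir s * Complex.exp (io s (p, t))) t := by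
  have h1 : HasDerivAt (fun t : ℝ => (t : ℂ)) 1 t := Complex.ofRealCLM.hasDerivAt
  have h2 : HasDerivAt (fun t : ℝ => io s (p, t)) (vdir s) t := by
    have : (fun t : ℝ => io s (p, t)) = fun t : ℝ => if s then (t : ℂ) + p * Complex.I else (p : ℂ) + t * Complex.I := by
      funext t; exact io_eq s (p, t)
    rw [this]
    cases s
    · simpa [vdir] using (h1.mul_const Complex.I).const_add (p : ℂ)
    · simpa [vdir] using h1.add_const ((p : ℂ) * Complex.I)
  unfold Th
  rw [mul_comm]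
  exact (h2.cexp).const_add η

/-- derivative of `Φ` in the direction of the second coordinate -/
noncomputable def DΦ (s : Bool) (η : ℂ) (Φ : ℂ → ℂ) (q : ℝ × ℝ) : ℂ :=
  fderiv ℝ Φ (Th s η q) (vdir s * Complex.exp (io s q))

lemma hasDerivAt_slice (s : Bool) (η : ℂ) {Φ : ℂ → ℂ} (hΦ : ContDiff ℝ 1 Φ) (p t : ℝ) :
    HasDerivAt (fun t : ℝ => Φ (Th s η (p, t))) (DΦ s η Φ (p, t)) t := by
  have h := (hΦ.differentiable (by norm_num)).differentiableAt (x := Th s η (p, t)) |>.hasFDerivAt
  exact h.comp_hasDerivAt t (hasDerivAt_Th s η p t)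

lemma continuous_DΦ (s : Bool) (η : ℂ) {Φ : ℂ → ℂ} (hΦ : ContDiff ℝ 1 Φ) : Continuous (DΦ s η Φ) := by
  unfold DΦ
  have h1 : Continuous (fun q => fderiv ℝ Φ (Th s η q)) :=
    (hΦ.continuous_fderiv (by norm_num)).comp (continuous_Th s η)
  have h2 : Continuous (fun q => vdir s * Complex.exp (io s q)) :=
    continuous_const.mul (Complex.continuous_exp.comp (contDiff_io s).continuous)
  exact h1.clm_apply h2

/-- a radius outside which everything vanishes -/
def Rad (η : ℂ) (Φ : ℂ → ℂ) (R : ℝ) : Prop :=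
  ∀ ζ, (‖ζ - η‖ < Real.exp (-R) ∨ Real.exp R < ‖ζ - η‖) → Φ ζ = 0

lemma exists_Rad {η : ℂ} {Φ : ℂ → ℂ} (hc : HasCompactSupport Φ) (h0 : ∀ᶠ ζ in 𝓝 η, Φ ζ = 0) :
    ∃ R : ℝ, 0 < R ∧ Rad η Φ R := by
  obtain ⟨δ, hδ, h1⟩ := Metric.eventually_nhds_iff.1 h0
  obtain ⟨B, hB⟩ := (hc.isCompact.isBounded).exists_norm_le
  refine ⟨max 1 (max (-Real.log δ) (Real.log (|B| + ‖η‖ + 1))), by positivity, ?_⟩
  rintro ζ (h | h)
  · apply h1
    rw [dist_eq_norm]
    refine h.trans_le ?_
    rw [← Real.le_log_iff_exp_le hδ]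
    have := le_max_right 1 (max (-Real.log δ) (Real.log (|B| + ‖η‖ + 1)))
    have h3 := le_max_left (-Real.log δ) (Real.log (|B| + ‖η‖ + 1))
    linarith
  · by_contra hne
    have h2 := hB ζ (subset_closure hne)
    have h3 : Real.exp (Real.log (|B| + ‖η‖ + 1)) ≤
        Real.exp (max 1 (max (-Real.log δ) (Real.log (|B| + ‖η‖ + 1)))) :=
      Real.exp_le_exp.2 ((le_max_right _ _).trans (le_max_right _ _))
    rw [Real.exp_log (by positivity)] at h3
    have h4 := norm_sub_le ζ η
    have h5 := le_abs_self B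
    linarith

lemma Rad.fderiv {η : ℂ} {Φ : ℂ → ℂ} {R : ℝ} (h : Rad η Φ R) {ζ : ℂ}
    (hζ : ‖ζ - η‖ < Real.exp (-R) ∨ Real.exp R < ‖ζ - η‖) : fderiv ℝ Φ ζ = 0 := by
  have ho : IsOpen {ζ : ℂ | ‖ζ - η‖ < Real.exp (-R) ∨ Real.exp R < ‖ζ - η‖} := by
    have hc : Continuous (fun ζ : ℂ => ‖ζ - η‖) := by fun_prop
    exact (isOpen_lt hc continuous_const).union (isOpen_lt continuous_const hc)
  have he : Φ =ᶠ[𝓝 ζ] fun _ => 0 := by
    filter_upwards [ho.mem_nhds hζ] with x hx
    exact h x hx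
  rw [he.fderiv_eq]
  simp

lemma Rad.out {η : ℂ} {R : ℝ} {s : Bool} {q : ℝ × ℝ} (hq : R < |(io s q).re|) :
    ‖Th s η q - η‖ < Real.exp (-R) ∨ Real.exp R < ‖Th s η q - η‖ := by
  unfold Th
  rw [add_sub_cancel_left, Complex.norm_exp, Real.exp_lt_exp, Real.exp_lt_exp]
  rcases lt_abs.1 hq with h | h
  · exact Or.inr h
  · exact Or.inl (by linarith)

lemma Th_per (η : ℂ) (p t : ℝ) : Th false η (p, t + 2 * Real.pi) = Th false η (p, t) := by
  unfold Th
  congr 1
  have : io false (p, t + 2 * Real.pi) = io false (p, t) + 2 * Real.pi * Complex.I := by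
    rw [io_eq, io_eq]
    simp
    ring
  rw [this, Complex.exp_periodic]

lemma rden_per (η : ℂ) (A : Set ℂ) (p : ℝ) (n : ℕ) :
    rden (sec (MM false η A) p) n (-Real.pi) = rden (sec (MM false η A) p) n Real.pi := by
  unfold rden
  congr 1
  rw [← measure_preimage_add_right volume (2 * Real.pi)
    (sec (MM false η A) p ∩ Ioo Real.pi (Real.pi + 1 / ((n:ℝ) + 1)))]
  congr 1
  ext t
  constructor
  · rintro ⟨h1, h2, h3⟩
    refine ⟨?_, by linarith, by linarith⟩
    show Th false η (p, t + 2 * Real.pi) ∈ Aᶜ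
    rw [Th_per]
    exact h1
  · rintro ⟨h1, h2, h3⟩
    have h1 : Th false η (p, t + 2 * Real.pi) ∈ Aᶜ := h1
    rw [Th_per] at h1
    exact ⟨h1, by linarith, by linarith⟩

theorem slice_integral (s : Bool) (η : ℂ) {A : Set ℂ} (hA : MeasurableSet A) {Φ : ℂ → ℂ}
    (hΦ : ContDiff ℝ 1 Φ) {R : ℝ} (hR0 : 0 < R) (hR : Rad η Φ R) {p : ℝ} (hp : p ∈ GoodP (MM s η A)) :
    ∫ t in {t | (p, t) ∈ MM s η A ∧ (p, t) ∈ strip s}, DΦ s η Φ (p, t) =
      ∫ t in {t | (p, t) ∈ strip s}, (sg (sec (MM s η A) p) t : ℂ) * Φ (Th s η (p, t))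
        ∂(kap (MM s η A) p) := by
  have hM : MeasurableSet (MM s η A) := measurableSet_MM hA
  have hd := hasDerivAt_slice s η hΦ p
  have hcd : Continuous (fun t => DΦ s η Φ (p, t)) := (continuous_DΦ s η hΦ).comp (by fun_prop)
  cases s
  · -- circles
    have hset : {t | (p, t) ∈ MM false η A ∧ (p, t) ∈ strip false} =
        sec (MM false η A) p ∩ Ioc (-Real.pi) Real.pi := rfl
    have hset2 : {t | (p, t) ∈ strip false} = Ioc (-Real.pi) Real.pi := rfl
    have hpi : -Real.pi < Real.pi := by linarith [Real.pi_pos]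
    have h1 : ∫ t in sec (MM false η A) p ∩ Ioc (-Real.pi) Real.pi, DΦ false η Φ (p, t) =
        ∫ t in sec (MM false η A) p ∩ Ioo (-Real.pi) Real.pi, DΦ false η Φ (p, t) := by
      apply setIntegral_congr_set
      exact (ae_eq_refl _).inter Ioo_ae_eq_Ioc.symm
    rw [hset, hset2, h1, slice_formula hM hp hpi hd hcd]
    have hper : Th false η (p, -Real.pi) = Th false η (p, Real.pi) := by
      rw [← Th_per η p (-Real.pi)]
      congr 2; ring
    have hrv : rv (sec (MM false η A) p) (-Real.pi) = rv (sec (MM false η A) p) Real.pi := by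
      unfold rv
      simp_rw [rden_per]
    rw [hper, hrv]
    have hfin : (HS (MM false η A) p ∩ Ioc (-Real.pi) Real.pi).Finite :=
      (goodP_finite hp (-Real.pi) (Real.pi + 1)).subset (by
        rintro t ⟨h1, h2, h3⟩
        exact ⟨h1, h2.le, by linarith⟩)
    set F := hfin.toFinset with hF
    have hmem : ∀ t, t ∈ F ↔ t ∈ Ioc (-Real.pi) Real.pi ∧ t ∈ HS (MM false η A) p := by
      intro t
      rw [hF, Set.Finite.mem_toFinset, mem_inter_iff, and_comm]
    have hmem' : ∀ t, t ∈ F.erase Real.pi ↔ t ∈ Ioo (-Real.pi) Real.pi ∧ t ∈ HS (MM false η A) p := by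
      intro t
      rw [Finset.mem_erase, hmem]
      constructor
      · rintro ⟨h1, ⟨h2, h3⟩, h4⟩
        exact ⟨⟨h2, lt_of_le_of_ne h3 h1⟩, h4⟩
      · rintro ⟨⟨h2, h3⟩, h4⟩
        exact ⟨h3.ne, ⟨h2, h3.le⟩, h4⟩
    rw [integral_kap hp measurableSet_Ioc hmem, integral_kap hp measurableSet_Ioo hmem']
    by_cases hpF : Real.pi ∈ F
    · rw [← Finset.add_sum_erase F _ hpF]
      unfold sg
      push_cast
      ring
    · rw [Finset.erase_eq_of_notMem hpF]
      have hnot : ¬ Hit (sec (MM false η A) p) Real.pi := by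
        intro h
        exact hpF ((hmem _).2 ⟨⟨hpi, le_rfl⟩, h⟩)
      have h0 := sg_not_hit hnot
      unfold sg at h0
      have h0' : ((lv (sec (MM false η A) p) Real.pi).toReal : ℂ) =
          ((rv (sec (MM false η A) p) Real.pi).toReal : ℂ) := by
        exact_mod_cast sub_eq_zero.1 h0
      rw [h0']
      ring
  · -- rays
    by_cases hps : p ∈ Ioc (-Real.pi) Real.pi
    · have hset : {t | (p, t) ∈ MM true η A ∧ (p, t) ∈ strip true} = sec (MM true η A) p := by
        ext t
        exact ⟨fun h => h.1, fun h => ⟨h, hps⟩⟩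
      have hset2 : {t : ℝ | (p, t) ∈ strip true} = univ := by
        ext t
        exact ⟨fun _ => mem_univ _, fun _ => hps⟩
      have hout : ∀ t : ℝ, t ∉ Ioo (-(R+1)) (R+1) → R < |(io true (p, t)).re| := by
        intro t ht
        show R < |t|
        by_contra h
        have := abs_le.1 (not_lt.1 h)
        exact ht ⟨by linarith, by linarith⟩
      have h1 : ∫ t in sec (MM true η A) p, DΦ true η Φ (p, t) =
          ∫ t in sec (MM true η A) p ∩ Ioo (-(R+1)) (R+1), DΦ true η Φ (p, t) := by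
        apply setIntegral_eq_of_subset_of_forall_sdiff_eq_zero (measurableSet_sec hM p) inter_subset_left
        intro t ht
        unfold DΦ
        rw [hR.fderiv (Rad.out (hout t (fun h => ht.2 ⟨ht.1, h⟩)))]
        rfl
      have h2 : ∫ t in univ, (sg (sec (MM true η A) p) t : ℂ) * Φ (Th true η (p, t))
          ∂(kap (MM true η A) p) = ∫ t in Ioo (-(R+1)) (R+1), (sg (sec (MM true η A) p) t : ℂ) *
          Φ (Th true η (p, t)) ∂(kap (MM true η A) p) := by
        apply setIntegral_eq_of_subset_of_forall_sdiff_eq_zero MeasurableSet.univ (subset_univ _)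
        intro t ht
        rw [hR _ (Rad.out (hout t ht.2)), mul_zero]
      rw [hset, hset2, h1, h2, slice_formula hM hp (by linarith) hd hcd]
      have e1 : Φ (Th true η (p, R + 1)) = 0 := hR _ (Rad.out (hout _ (by simp)))
      have e2 : Φ (Th true η (p, -(R + 1))) = 0 := hR _ (Rad.out (hout _ (by simp)))
      rw [e1, e2]
      ring
    · have hset : {t | (p, t) ∈ MM true η A ∧ (p, t) ∈ strip true} = ∅ := by
        ext t
        exact ⟨fun h => hps h.2, fun h => h.elim⟩
      have hset2 : {t : ℝ | (p, t) ∈ strip true} = ∅ := by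
        ext t
        exact ⟨fun h => hps h, fun h => h.elim⟩
      rw [hset, hset2]
      simp

end Pool.Agent.K1H32.CI
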