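import Pool.Agent.K1H32.CI.Form2

/-! The polar formula. -/

set_option autoImplicit false

open MeasureTheory Set Filter Topology Metric ProbabilityTheory
open scoped ENNReal NNReal

namespace Pool.Agent.K1H32.CI

lemma NN_annulus_lt (s : Bool) (η : ℂ) {A : Set ℂ} (hA : MeasurableSet A)
    (hfin : ∀ a : ℤ, Measure.hausdorffMeasure 1 (essBdry A ∩ Ann η a) < ∞) (R : ℝ) :
    NN s η hA {ζ | Real.exp (-R) ≤ ‖ζ - η‖ ∧ ‖ζ - η‖ ≤ Real.exp R} < ∞ := by
  have hsub : {ζ | Real.exp (-R) ≤ ‖ζ - η‖ ∧ ‖ζ - η‖ ≤ Real.exp R} ⊆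
      ⋃ a ∈ Finset.Icc ⌊4 * (-R)⌋ ⌊4 * R⌋, Ann η a := by
    rintro ζ ⟨h1, h2⟩
    have hne : ζ ≠ η := by
      rintro rfl
      rw [sub_self, norm_zero] at h1
      exact absurd (Real.exp_pos _) (not_lt.2 h1)
    have hpos : 0 < ‖ζ - η‖ := norm_pos_iff.2 (sub_ne_zero.2 hne)
    rw [mem_iUnion₂]
    refine ⟨⌊4 * Real.log ‖ζ - η‖⌋, ?_, (mem_Ann_iff hne _).2 rfl⟩
    rw [Finset.mem_Icc]
    rw [← Real.le_log_iff_exp_le hpos] at h1
    rw [← Real.log_le_iff_le_exp hpos] at h2
    exact ⟨Int.floor_le_floor (by linarith), Int.floor_le_floor (by linarith)⟩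
  refine (measure_mono hsub).trans_lt ?_
  exact (measure_biUnion_finset_le _ _).trans_lt
    (ENNReal.sum_lt_top.2 fun a _ => NN_Ann_lt s η hA hfin a)

lemma integrable_NN (s : Bool) (η : ℂ) {A : Set ℂ} (hA : MeasurableSet A)
    (hfin : ∀ a : ℤ, Measure.hausdorffMeasure 1 (essBdry A ∩ Ann η a) < ∞) {R : ℝ} {f : ℂ → ℂ}
    (hf : Measurable f) {C : ℝ} (hC : ∀ᵐ ζ ∂(NN s η hA), ‖f ζ‖ ≤ C) (hR : Rad η f R) :
    Integrable f (NN s η hA) := by
  have hm : MeasurableSet {ζ : ℂ | Real.exp (-R) ≤ ‖ζ - η‖ ∧ ‖ζ - η‖ ≤ Real.exp R} := by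
    have h : Measurable (fun ζ : ℂ => ‖ζ - η‖) := by fun_prop
    exact (measurableSet_le measurable_const h).inter (measurableSet_le h measurable_const)
  have h1 : IntegrableOn f {ζ | Real.exp (-R) ≤ ‖ζ - η‖ ∧ ‖ζ - η‖ ≤ Real.exp R} (NN s η hA) :=
    IntegrableOn.of_bound (NN_annulus_lt s η hA hfin R) hf.aestronglyMeasurable C
      (ae_restrict_of_ae hC)
  refine h1.integrable_of_forall_notMem_eq_zero ?_
  intro ζ hζ
  apply hR
  by_contra h
  rw [not_or, not_lt, not_lt] at h
  exact hζ h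

lemma integrableOn_strip (s : Bool) (η : ℂ) {A : Set ℂ} (hA : MeasurableSet A) {Φ : ℂ → ℂ}
    (hΦ : ContDiff ℝ 1 Φ) {R : ℝ} (hR0 : 0 < R) (hR : Rad η Φ R) :
    IntegrableOn (DΦ s η Φ) (MM s η A ∩ strip s) volume := by
  have hM : MeasurableSet (MM s η A) := measurableSet_MM hA
  have hMs : MeasurableSet (MM s η A ∩ strip s) := hM.inter (measurableSet_strip s)
  set B : ℝ := R + Real.pi with hB
  have hK : IsCompact (Icc ((-B, -B) : ℝ × ℝ) (B, B)) := isCompact_Icc
  have h1 : IntegrableOn (DΦ s η Φ) (Icc ((-B, -B) : ℝ × ℝ) (B, B)) volume :=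
    (continuous_DΦ s η hΦ).continuousOn.integrableOn_compact hK
  refine h1.of_forall_sdiff_eq_zero hMs ?_
  rintro q ⟨⟨_, hq⟩, hqK⟩
  unfold DΦ
  rw [hR.fderiv]
  · rfl
  · apply Rad.out
    by_contra h
    rw [not_lt] at h
    have h := abs_le.1 h
    have hq : (io s q).im ∈ Ioc (-Real.pi) Real.pi := hq
    have hpi := Real.pi_pos
    apply hqK
    rw [Set.mem_Icc, Prod.le_def, Prod.le_def]
    cases s
    · have e1 : (io false q).re = q.1 := rfl
      have e2 : (io false q).im = q.2 := rfl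
      rw [e1] at h
      rw [e2] at hq
      exact ⟨⟨by linarith [h.1], by linarith [hq.1]⟩, ⟨by linarith [h.2], by linarith [hq.2]⟩⟩
    · have e1 : (io true q).re = q.2 := rfl
      have e2 : (io true q).im = q.1 := rfl
      rw [e1] at h
      rw [e2] at hq
      exact ⟨⟨by linarith [hq.1], by linarith [h.1]⟩, ⟨by linarith [hq.2], by linarith [h.2]⟩⟩

theorem strip_formula (s : Bool) (η : ℂ) {A : Set ℂ} (hA : MeasurableSet A)
    (hfin : ∀ a : ℤ, Measure.hausdorffMeasure 1 (essBdry A ∩ Ann η a) < ∞) {Φ : ℂ → ℂ}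
    (hΦ : ContDiff ℝ 1 Φ) (hc : HasCompactSupport Φ) {R : ℝ} (hR0 : 0 < R) (hR : Rad η Φ R) :
    ∫ q in MM s η A ∩ strip s, DΦ s η Φ q = ∫ ζ, (sN s η A ζ : ℂ) * Φ ζ ∂(NN s η hA) := by
  have hM : MeasurableSet (MM s η A) := measurableSet_MM hA
  have hMs : MeasurableSet (MM s η A ∩ strip s) := hM.inter (measurableSet_strip s)
  have hint : IntegrableOn (DΦ s η Φ) (MM s η A ∩ strip s) volume :=
    integrableOn_strip s η hA hΦ hR0 hR
  have hbd : ∃ C, ∀ ζ, ‖Φ ζ‖ ≤ C := hc.exists_bound_of_continuous hΦ.continuous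
  obtain ⟨C, hC⟩ := hbd
  have hmeas : Measurable (fun ζ => (sN s η A ζ : ℂ) * Φ ζ) :=
    (Complex.measurable_ofReal.comp (measurable_sN s η hA)).mul hΦ.continuous.measurable
  have hintN : Integrable (fun ζ => (sN s η A ζ : ℂ) * Φ ζ) (NN s η hA) := by
    refine integrable_NN s η hA hfin (R := R) hmeas (C := C) ?_ ?_
    · filter_upwards [sN_ae s η hA] with ζ hζ
      rw [norm_mul, Complex.norm_real, Real.norm_eq_abs, hζ, one_mul]
      exact hC ζ
    · intro ζ hζ
      show _ * _ = _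
      rw [hR ζ hζ, mul_zero]
  have hintN' := hintN
  unfold NN at hintN'
  rw [integrable_map_measure hmeas.aestronglyMeasurable (measurable_Th s η).aemeasurable] at hintN'
  have hind := (integrable_indicator_iff (measurableSet_strip s)).2 hintN'
  -- left side
  rw [← integral_indicator hMs, Measure.volume_eq_prod, integral_prod]
  swap
  · rw [← Measure.volume_eq_prod]
    exact (integrable_indicator_iff hMs).2 hint
  -- right side
  have hRHS : ∫ ζ, (sN s η A ζ : ℂ) * Φ ζ ∂(NN s η hA) =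
      ∫ p, ∫ t, (strip s).indicator ((fun ζ => (sN s η A ζ : ℂ) * Φ ζ) ∘ Th s η) (p, t)
        ∂(kapK hM p) := by
    rw [← Measure.integral_compProd hind, integral_indicator (measurableSet_strip s)]
    unfold NN
    rw [integral_map (measurable_Th s η).aemeasurable hmeas.aestronglyMeasurable]
    rfl
  rw [hRHS]
  apply integral_congr_ae
  filter_upwards [slice_ae s η hA hfin] with p hp
  have h1 := slice_integral s η hA hΦ hR0 hR hp.1
  have hm1 : MeasurableSet {t | (p, t) ∈ MM s η A ∧ (p, t) ∈ strip s} := measurable_prodMk_left hMs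
  have hm2 : MeasurableSet {t | (p, t) ∈ strip s} := measurable_prodMk_left (measurableSet_strip s)
  have e1 : (fun t => (MM s η A ∩ strip s).indicator (DΦ s η Φ) (p, t)) =
      {t | (p, t) ∈ MM s η A ∧ (p, t) ∈ strip s}.indicator (fun t => DΦ s η Φ (p, t)) := by
    funext t
    rfl
  have e2 : (fun t => (strip s).indicator ((fun ζ => (sN s η A ζ : ℂ) * Φ ζ) ∘ Th s η) (p, t)) =
      {t | (p, t) ∈ strip s}.indicator
        (fun t => (sg (sec (MM s η A) p) t : ℂ) * Φ (Th s η (p, t))) := by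
    funext t
    by_cases ht : (p, t) ∈ strip s
    · rw [indicator_of_mem ht, indicator_of_mem (show t ∈ {t | (p, t) ∈ strip s} from ht)]
      show (sN s η A (Th s η (p, t)) : ℂ) * Φ (Th s η (p, t)) = _
      rw [sN_Th ht]
      rfl
    · rw [indicator_of_notMem ht, indicator_of_notMem (show t ∉ {t | (p, t) ∈ strip s} from ht)]
  simp only [e1, e2]
  rw [integral_indicator hm1, integral_indicator hm2, kapK_apply]
  exact h1

/-- the antiholomorphic derivative -/
noncomputable def dbar (φ : ℂ → ℂ) (ζ : ℂ) : ℂ :=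
  (fderiv ℝ φ ζ 1 + Complex.I * fderiv ℝ φ ζ Complex.I) / 2

lemma dbar_mul (L : ℂ →L[ℝ] ℂ) (c : ℂ) :
    (starRingEnd ℂ) c * (L 1 + Complex.I * L Complex.I) = L c + Complex.I * L (Complex.I * c) := by
  have h1 : ∀ a b : ℝ, L ((a:ℂ) + b * Complex.I) = a * L 1 + b * L Complex.I := by
    intro a b
    have : ((a:ℂ) + b * Complex.I) = a • (1:ℂ) + b • Complex.I := by
      simp
    rw [this, map_add, map_smul, map_smul]
    simp
  have h2 : L c = c.re * L 1 + c.im * L Complex.I := by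
    conv_lhs => rw [← Complex.re_add_im c]
    exact h1 _ _
  have h3 : L (Complex.I * c) = (-c.im) * L 1 + c.re * L Complex.I := by
    have : Complex.I * c = (((-c.im : ℝ) : ℂ)) + (c.re : ℝ) * Complex.I := by
      apply Complex.ext <;> simp
    rw [this, h1]
    push_cast
    ring
  have h4 : (starRingEnd ℂ) c = c.re - c.im * Complex.I := by
    apply Complex.ext <;> simp
  rw [h2, h3, h4]
  linear_combination (-(c.im:ℂ)) * L Complex.I * Complex.I_sq

lemma det_mul_complex (c : ℂ) :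
    ((ContinuousLinearMap.mul ℝ ℂ c : ℂ →L[ℝ] ℂ)).det = Complex.normSq c := by
  rw [← Algebra.norm_complex_apply, Algebra.norm_apply]
  rfl

lemma change_var (η : ℂ) {G : Set ℂ} (hG : MeasurableSet G) (F : ℂ → ℂ) :
    ∫ ζ in G, F ζ = ∫ w in {w : ℂ | w.im ∈ Ioc (-Real.pi) Real.pi ∧ η + Complex.exp w ∈ G},
      (Complex.normSq (Complex.exp w) : ℝ) • F (η + Complex.exp w) := by
  set S : Set ℂ := {w : ℂ | w.im ∈ Ioc (-Real.pi) Real.pi ∧ η + Complex.exp w ∈ G} with hS
  have hSm : MeasurableSet S := by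
    apply MeasurableSet.inter
    · exact Complex.measurable_im measurableSet_Ioc
    · exact (by fun_prop : Measurable (fun w : ℂ => η + Complex.exp w)) hG
  have himg : (fun w : ℂ => η + Complex.exp w) '' S = G \ {η} := by
    ext ζ
    constructor
    · rintro ⟨w, hw, rfl⟩
      refine ⟨hw.2, ?_⟩
      simp
    · rintro ⟨h1, h2⟩
      have h2 : ζ ≠ η := h2
      have hlog : η + Complex.exp (Complex.log (ζ - η)) = ζ := by
        rw [Complex.exp_log (sub_ne_zero.2 h2)]; ring
      refine ⟨Complex.log (ζ - η), ⟨⟨Complex.neg_pi_lt_log_im _, Complex.log_im_le_pi _⟩, ?_⟩, hlog⟩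
      rw [hlog]; exact h1
  have h1 : ∫ ζ in G, F ζ = ∫ ζ in (fun w : ℂ => η + Complex.exp w) '' S, F ζ := by
    rw [himg]
    apply setIntegral_congr_set
    exact (sdiff_null_ae_eq_self (by simp)).symm
  rw [h1, integral_image_eq_integral_abs_det_fderiv_smul volume hSm
    (f' := fun w => ContinuousLinearMap.mul ℝ ℂ (Complex.exp w))]
  · apply setIntegral_congr_fun hSm
    intro w _
    simp only
    rw [det_mul_complex, abs_of_nonneg (Complex.normSq_nonneg _)]
  · intro w _
    have h2 : HasDerivAt (fun w : ℂ => η + Complex.exp w) (Complex.exp w) w :=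
      (Complex.hasDerivAt_exp w).const_add η
    have h3 := h2.hasFDerivAt.restrictScalars ℝ
    apply HasFDerivAt.hasFDerivWithinAt
    convert h3 using 1
    ext x
    simp [mul_comm]
  · intro w hw w' hw' h
    have h : Complex.exp w = Complex.exp w' := add_left_cancel h
    exact Complex.exp_inj_of_neg_pi_lt_of_le_pi hw.1.1 hw.1.2 hw'.1.1 hw'.1.2 h

lemma mp_io (s : Bool) : MeasurePreserving (io s) volume volume := by
  cases s
  · exact Complex.volume_preserving_equiv_real_prod.symm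
  · have h1 : MeasurePreserving (Prod.swap : ℝ × ℝ → ℝ × ℝ) volume volume :=
      Measure.measurePreserving_swap
    exact (Complex.volume_preserving_equiv_real_prod.symm).comp h1

lemma me_io (s : Bool) : MeasurableEmbedding (io s) := by
  cases s
  · exact Complex.measurableEquivRealProd.symm.measurableEmbedding
  · exact Complex.measurableEquivRealProd.symm.measurableEmbedding.comp
      MeasurableEquiv.prodComm.measurableEmbedding

theorem polar_formula (η : ℂ) {A : Set ℂ} (hA : MeasurableSet A)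
    (hfin : ∀ a : ℤ, Measure.hausdorffMeasure 1 (essBdry A ∩ Ann η a) < ∞) {Φ : ℂ → ℂ}
    (hΦ : ContDiff ℝ 1 Φ) (hc : HasCompactSupport Φ) (h0 : ∀ᶠ ζ in 𝓝 η, Φ ζ = 0) :
    ∫ ζ in Aᶜ, dbar Φ ζ / (ζ - η) = (∫ ζ, (sN true η A ζ : ℂ) * Φ ζ ∂(NN true η hA)) / 2 +
      Complex.I * (∫ ζ, (sN false η A ζ : ℂ) * Φ ζ ∂(NN false η hA)) / 2 := by
  obtain ⟨R, hR0, hR⟩ := exists_Rad hc h0
  rw [← strip_formula true η hA hfin hΦ hc hR0 hR, ← strip_formula false η hA hfin hΦ hc hR0 hR]
  set S : Set ℂ := {w : ℂ | w.im ∈ Ioc (-Real.pi) Real.pi ∧ η + Complex.exp w ∈ Aᶜ} with hS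
  have hSm : MeasurableSet S := by
    apply MeasurableSet.inter
    · exact Complex.measurable_im measurableSet_Ioc
    · exact (by fun_prop : Measurable (fun w : ℂ => η + Complex.exp w)) hA.compl
  have hpre : ∀ s, io s ⁻¹' S = MM s η A ∩ strip s := by
    intro s
    ext q
    exact ⟨fun h => ⟨h.2, h.1⟩, fun h => ⟨h.2, h.1⟩⟩
  have hstr : ∀ s, ∫ q in MM s η A ∩ strip s, DΦ s η Φ q =
      ∫ w in S, fderiv ℝ Φ (η + Complex.exp w) (vdir s * Complex.exp w) := by
    intro s
    rw [← hpre s, ← (mp_io s).setIntegral_preimage_emb (me_io s)]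
    rfl
  rw [hstr true, hstr false, change_var η hA.compl]
  have hI : ∀ s, IntegrableOn (fun w => fderiv ℝ Φ (η + Complex.exp w) (vdir s * Complex.exp w)) S volume := by
    intro s
    have h := integrableOn_strip s η hA hΦ hR0 hR
    rw [← hpre s] at h
    exact ((mp_io s).integrableOn_comp_preimage (me_io s)).1 h
  rw [← hS]
  have : ∀ w : ℂ, (Complex.normSq (Complex.exp w) : ℝ) • (dbar Φ (η + Complex.exp w) / (η + Complex.exp w - η)) =
      (fderiv ℝ Φ (η + Complex.exp w) (vdir true * Complex.exp w)) / 2 +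
      Complex.I * (fderiv ℝ Φ (η + Complex.exp w) (vdir false * Complex.exp w)) / 2 := by
    intro w
    have hne := Complex.exp_ne_zero w
    rw [add_sub_cancel_left, Complex.real_smul, ← Complex.mul_conj]
    unfold dbar vdir
    have h := dbar_mul (fderiv ℝ Φ (η + Complex.exp w)) (Complex.exp w)
    simp only [if_true, one_mul, Bool.false_eq_true, if_false]
    have h5 : ∀ X c D : ℂ, X ≠ 0 → X * c * (D / 2 / X) = c * D / 2 := by
      intro X c D hX
      field_simp
    rw [h5 _ _ _ hne, h]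
    ring
  simp_rw [this]
  rw [integral_add, integral_div, integral_div, integral_const_mul]
  · exact (hI true).div_const 2
  · exact ((hI false).const_mul Complex.I).div_const 2

end Pool.Agent.K1H32.CI
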