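import Pool.Agent.K1H32.CI.Nec3

/-! The geometric hypotheses from the contingents. -/

set_option autoImplicit false

open MeasureTheory Set Filter Topology Metric ProbabilityTheory
open scoped ENNReal NNReal

namespace Pool.Agent.K1H32.CI

/-- the unit directions of the contingent of `M` at `η` -/
def contingent (M : Set ℂ) (η : ℂ) : Set ℂ :=
  {u | ‖u‖ = 1 ∧ ∃ z : ℕ → ℂ, (∀ n, z n ∈ M ∧ z n ≠ η) ∧ Tendsto z atTop (𝓝 η) ∧
    Tendsto (fun n => (z n - η) / (‖z n - η‖ : ℂ)) atTop (𝓝 u)}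

lemma norm_dir {η z : ℂ} (h : z ≠ η) : ‖(z - η) / (‖z - η‖ : ℂ)‖ = 1 := by
  have : ‖z - η‖ ≠ 0 := norm_ne_zero_iff.2 (sub_ne_zero.2 h)
  rw [norm_div, Complex.norm_real, norm_norm, div_self this]

lemma exists_subseq {M : Set ℂ} {η : ℂ} {z : ℕ → ℂ} (h1 : ∀ n, z n ∈ M) (h2 : ∀ n, z n ≠ η)
    (h3 : Tendsto z atTop (𝓝 η)) : ∃ u ∈ contingent M η, ∃ φ : ℕ → ℕ, StrictMono φ ∧
      Tendsto (fun n => (z (φ n) - η) / (‖z (φ n) - η‖ : ℂ)) atTop (𝓝 u) := by
  obtain ⟨u, hu, φ, hφ, hlim⟩ := (isCompact_sphere (0:ℂ) 1).tendsto_subseq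
    (x := fun n => (z n - η) / (‖z n - η‖ : ℂ)) (fun n => by
      rw [mem_sphere, dist_zero_right]; exact norm_dir (h2 n))
  refine ⟨u, ⟨by simpa using hu, fun n => z (φ n), fun n => ⟨h1 _, h2 _⟩, h3.comp hφ.tendsto_atTop, hlim⟩,
    φ, hφ, hlim⟩

variable {F S : Set ℂ} {η u : ℂ}

theorem exists_geo (hηS : η ∉ S) (hS : contingent S η = {u}) (hu : u ∉ contingent F η) :
    ∃ c δ, Geo F S η c δ := by
  by_contra hcon
  have hseq : ∀ n : ℕ, ∃ z ∈ S, ‖z - η‖ < 1 / ((n:ℝ) + 2) ∧ ∃ ζ ∈ F,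
      ‖ζ - z‖ < 1 / ((n:ℝ) + 2) * (‖ζ - η‖ + ‖z - η‖) := by
    intro n
    by_contra h
    push Not at h
    exact hcon ⟨1 / ((n:ℝ) + 2), 1 / ((n:ℝ) + 2), by positivity, by positivity, h⟩
  choose z hzS hz ζ hζF hζ using hseq
  have hne : ∀ n, z n ≠ η := fun n h => hηS (h ▸ hzS n)
  have hpos : ∀ n, 0 < ‖z n - η‖ := fun n => norm_pos_iff.2 (sub_ne_zero.2 (hne n))
  have ht0 : Tendsto (fun n : ℕ => 1 / ((n:ℝ) + 2)) atTop (𝓝 0) := by
    have h1 : Tendsto (fun n : ℕ => (n:ℝ) + 2) atTop atTop :=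
      tendsto_atTop_add_const_right _ _ tendsto_natCast_atTop_atTop
    exact h1.const_div_atTop 1
  have hzt : Tendsto z atTop (𝓝 η) := by
    rw [tendsto_iff_norm_sub_tendsto_zero]
    exact squeeze_zero (fun n => norm_nonneg _) (fun n => (hz n).le) ht0
  have hhalf : ∀ n : ℕ, 1 / ((n:ℝ) + 2) ≤ 1 / 2 := by
    intro n
    apply one_div_le_one_div_of_le (by norm_num)
    have : (0:ℝ) ≤ n := Nat.cast_nonneg n
    linarith
  have h3 : ∀ n, ‖ζ n - η‖ ≤ 3 * ‖z n - η‖ := by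
    intro n
    have h4 : ‖ζ n - η‖ ≤ ‖ζ n - z n‖ + ‖z n - η‖ := by
      have : ζ n - η = (ζ n - z n) + (z n - η) := by ring
      rw [this]; exact norm_add_le _ _
    have h5 := hζ n
    have h6 : 1 / ((n:ℝ) + 2) * (‖ζ n - η‖ + ‖z n - η‖) ≤ 1 / 2 * (‖ζ n - η‖ + ‖z n - η‖) :=
      mul_le_mul_of_nonneg_right (hhalf n) (by positivity)
    linarith
  have hrat : Tendsto (fun n => (ζ n - z n) / (‖z n - η‖ : ℂ)) atTop (𝓝 0) := by
    rw [tendsto_zero_iff_norm_tendsto_zero]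
    have h4 : Tendsto (fun n : ℕ => 1 / ((n:ℝ) + 2) * 4) atTop (𝓝 (0 * 4)) := ht0.mul_const 4
    rw [zero_mul] at h4
    refine squeeze_zero (fun n => norm_nonneg _) (fun n => ?_) h4
    rw [norm_div, Complex.norm_real, norm_norm, div_le_iff₀ (hpos n)]
    have h5 := hζ n
    have h6 := h3 n
    calc ‖ζ n - z n‖ ≤ 1 / ((n:ℝ) + 2) * (‖ζ n - η‖ + ‖z n - η‖) := h5.le
      _ ≤ 1 / ((n:ℝ) + 2) * (4 * ‖z n - η‖) := by gcongr; linarith
      _ = _ := by ring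
  obtain ⟨v, hv, φ, hφ, hlim⟩ := exists_subseq hzS hne hzt
  rw [hS, mem_singleton_iff] at hv
  subst hv
  have hvnorm : ‖v‖ = 1 := by
    have : v ∈ contingent S η := by rw [hS]; rfl
    exact this.1
  have hlim2 : Tendsto (fun n => (ζ (φ n) - η) / (‖z (φ n) - η‖ : ℂ)) atTop (𝓝 v) := by
    have h4 := hlim.add (hrat.comp hφ.tendsto_atTop)
    rw [add_zero] at h4
    refine h4.congr (fun n => ?_)
    show (z (φ n) - η) / (‖z (φ n) - η‖ : ℂ) + (ζ (φ n) - z (φ n)) / (‖z (φ n) - η‖ : ℂ) = _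
    rw [← add_div]
    congr 1; ring
  have hlimn : Tendsto (fun n => ‖ζ (φ n) - η‖ / ‖z (φ n) - η‖) atTop (𝓝 1) := by
    have h4 := hlim2.norm
    rw [hvnorm] at h4
    refine h4.congr (fun n => ?_)
    rw [norm_div, Complex.norm_real, norm_norm]
  have hev : ∀ᶠ n in atTop, ζ (φ n) ≠ η := by
    filter_upwards [hlimn.eventually_const_lt (show (0:ℝ) < 1 from one_pos)] with n hn h
    rw [h] at hn
    simp at hn
  obtain ⟨N, hN⟩ := eventually_atTop.1 hev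
  apply hu
  refine ⟨hvnorm, fun n => ζ (φ (n + N)), fun n => ⟨hζF _, hN _ (Nat.le_add_left N n)⟩, ?_, ?_⟩
  · rw [tendsto_iff_norm_sub_tendsto_zero]
    have h4 : Tendsto (fun n => ‖z (φ (n + N)) - η‖) atTop (𝓝 0) := by
      have h5 := (tendsto_iff_norm_sub_tendsto_zero.1 hzt).comp hφ.tendsto_atTop
      exact (tendsto_add_atTop_iff_nat N).2 h5
    have h6 : Tendsto (fun n => 3 * ‖z (φ (n + N)) - η‖) atTop (𝓝 (3 * 0)) := h4.const_mul 3
    rw [mul_zero] at h6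
    exact squeeze_zero (fun n => norm_nonneg _) (fun n => h3 _) h6
  · have h5 : Tendsto (fun n => (((‖ζ (φ n) - η‖ / ‖z (φ n) - η‖)⁻¹ : ℝ) : ℂ) *
        ((ζ (φ n) - η) / (‖z (φ n) - η‖ : ℂ))) atTop (𝓝 (((1:ℝ)⁻¹ : ℝ) * v)) :=
      ((Complex.continuous_ofReal.tendsto _).comp (hlimn.inv₀ one_ne_zero)).mul hlim2
    rw [inv_one, Complex.ofReal_one, one_mul] at h5
    refine ((tendsto_add_atTop_iff_nat N).2 h5).congr (fun n => ?_)
    have hz0 : (‖z (φ (n + N)) - η‖ : ℂ) ≠ 0 := by exact_mod_cast (hpos _).ne'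
    have hζ0 : (‖ζ (φ (n + N)) - η‖ : ℂ) ≠ 0 := by
      have := norm_ne_zero_iff.2 (sub_ne_zero.2 (hN _ (Nat.le_add_left N n)))
      exact_mod_cast this
    push_cast
    field_simp

theorem exists_geo2 (hηS : η ∉ S) (hS : contingent S η = {u}) (hu : u ∉ contingent F η)
    (hu' : -u ∉ contingent F η) : ∃ c δ, 0 < δ ∧ Geo2 F S η c δ := by
  by_contra hcon
  have hseq : ∀ n : ℕ, ∃ z ∈ S, ‖z - η‖ < 1 / ((n:ℝ) + 1) ∧ ∃ ζ ∈ F, ‖ζ - η‖ < 1 / ((n:ℝ) + 1) ∧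
      |(ζ - η).re * (z - η).im - (ζ - η).im * (z - η).re| < 1 / ((n:ℝ) + 1) * (‖ζ - η‖ * ‖z - η‖) := by
    intro n
    by_contra h
    push Not at h
    exact hcon ⟨1 / ((n:ℝ) + 1), 1 / ((n:ℝ) + 1), by positivity, by positivity, h⟩
  choose z hzS hz ζ hζF hζ hcr using hseq
  have hne : ∀ n, z n ≠ η := fun n h => hηS (h ▸ hzS n)
  have hpos : ∀ n, 0 < ‖z n - η‖ := fun n => norm_pos_iff.2 (sub_ne_zero.2 (hne n))
  have hne2 : ∀ n, ζ n ≠ η := by
    intro n h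
    have := hcr n
    rw [h] at this
    simp at this
  have hpos2 : ∀ n, 0 < ‖ζ n - η‖ := fun n => norm_pos_iff.2 (sub_ne_zero.2 (hne2 n))
  have ht0 : Tendsto (fun n : ℕ => 1 / ((n:ℝ) + 1)) atTop (𝓝 0) := tendsto_one_div_add_atTop_nhds_zero_nat
  have hzt : Tendsto z atTop (𝓝 η) := by
    rw [tendsto_iff_norm_sub_tendsto_zero]
    exact squeeze_zero (fun n => norm_nonneg _) (fun n => (hz n).le) ht0
  have hζt : Tendsto ζ atTop (𝓝 η) := by
    rw [tendsto_iff_norm_sub_tendsto_zero]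
    exact squeeze_zero (fun n => norm_nonneg _) (fun n => (hζ n).le) ht0
  obtain ⟨v, hv, φ, hφ, hlim⟩ := exists_subseq hzS hne hzt
  rw [hS, mem_singleton_iff] at hv
  subst hv
  have hvnorm : ‖v‖ = 1 := by
    have : v ∈ contingent S η := by rw [hS]; rfl
    exact this.1
  obtain ⟨w, hw, ψ, hψ, hlim2⟩ := exists_subseq (fun n => hζF (φ n)) (fun n => hne2 (φ n))
    (hζt.comp hφ.tendsto_atTop)
  have hlim' := hlim.comp hψ.tendsto_atTop
  -- the cross product of the limits vanishes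
  have hcross : w.re * v.im - w.im * v.re = 0 := by
    have h1 : Tendsto (fun n => ((ζ (φ (ψ n)) - η) / (‖ζ (φ (ψ n)) - η‖ : ℂ)).re *
        ((z (φ (ψ n)) - η) / (‖z (φ (ψ n)) - η‖ : ℂ)).im -
        ((ζ (φ (ψ n)) - η) / (‖ζ (φ (ψ n)) - η‖ : ℂ)).im *
        ((z (φ (ψ n)) - η) / (‖z (φ (ψ n)) - η‖ : ℂ)).re) atTop (𝓝 (w.re * v.im - w.im * v.re)) := by
      have a1 := (Complex.continuous_re.tendsto w).comp hlim2
      have a2 := (Complex.continuous_im.tendsto w).comp hlim2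
      have b1 := (Complex.continuous_re.tendsto v).comp hlim'
      have b2 := (Complex.continuous_im.tendsto v).comp hlim'
      exact (a1.mul b2).sub (a2.mul b1)
    have h2 : Tendsto (fun n => ((ζ (φ (ψ n)) - η) / (‖ζ (φ (ψ n)) - η‖ : ℂ)).re *
        ((z (φ (ψ n)) - η) / (‖z (φ (ψ n)) - η‖ : ℂ)).im -
        ((ζ (φ (ψ n)) - η) / (‖ζ (φ (ψ n)) - η‖ : ℂ)).im *
        ((z (φ (ψ n)) - η) / (‖z (φ (ψ n)) - η‖ : ℂ)).re) atTop (𝓝 0) := by
      rw [tendsto_zero_iff_norm_tendsto_zero]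
      refine squeeze_zero (fun n => norm_nonneg _) (fun n => ?_)
        (ht0.comp (hφ.tendsto_atTop.comp hψ.tendsto_atTop))
      simp only [Function.comp_apply]
      rw [Complex.div_ofReal_re, Complex.div_ofReal_im, Complex.div_ofReal_re, Complex.div_ofReal_im]
      have h3 := hcr (φ (ψ n))
      have p1 := hpos (φ (ψ n))
      have p2 := hpos2 (φ (ψ n))
      rw [Real.norm_eq_abs]
      have h4 : (ζ (φ (ψ n)) - η).re / ‖ζ (φ (ψ n)) - η‖ * ((z (φ (ψ n)) - η).im / ‖z (φ (ψ n)) - η‖) -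
          (ζ (φ (ψ n)) - η).im / ‖ζ (φ (ψ n)) - η‖ * ((z (φ (ψ n)) - η).re / ‖z (φ (ψ n)) - η‖) =
          ((ζ (φ (ψ n)) - η).re * (z (φ (ψ n)) - η).im - (ζ (φ (ψ n)) - η).im * (z (φ (ψ n)) - η).re) /
          (‖ζ (φ (ψ n)) - η‖ * ‖z (φ (ψ n)) - η‖) := by
        field_simp
      rw [h4, abs_div, abs_of_pos (by positivity : 0 < ‖ζ (φ (ψ n)) - η‖ * ‖z (φ (ψ n)) - η‖),
        div_le_iff₀ (by positivity)]
      exact h3.le
    exact tendsto_nhds_unique h1 h2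
  have hwnorm : ‖w‖ = 1 := hw.1
  have e1 : w.re ^ 2 + w.im ^ 2 = 1 := by
    have h := Complex.sq_norm w
    rw [hwnorm, Complex.normSq_apply] at h
    linarith
  have e2 : v.re ^ 2 + v.im ^ 2 = 1 := by
    have h := Complex.sq_norm v
    rw [hvnorm, Complex.normSq_apply] at h
    linarith
  have e3 : (w.re * v.re + w.im * v.im) ^ 2 = 1 := by nlinarith
  have e4 : (w.re * v.re + w.im * v.im) = 1 ∨ (w.re * v.re + w.im * v.im) = -1 := by
    have h5 : (w.re * v.re + w.im * v.im - 1) * (w.re * v.re + w.im * v.im + 1) = 0 := by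
      linear_combination e3
    rcases mul_eq_zero.1 h5 with h | h
    · exact Or.inl (by linarith)
    · exact Or.inr (by linarith)
  rcases e4 with h | h
  · apply hu
    have : w = v := by
      apply Complex.ext
      · linear_combination v.re * h + v.im * hcross - w.re * e2
      · linear_combination v.im * h - v.re * hcross - w.im * e2
    rw [← this]; exact hw
  · apply hu'
    have : w = -v := by
      apply Complex.ext
      · rw [Complex.neg_re]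
        linear_combination v.re * h + v.im * hcross - w.re * e2
      · rw [Complex.neg_im]
        linear_combination v.im * h - v.re * hcross - w.im * e2
    rw [← this]; exact hw

theorem exists_circ (hS : IsPreconnected S) (hcl : η ∈ closure S) (hηS : η ∉ S) :
    ∃ d, 0 < d ∧ Circ S η d := by
  have hne : S.Nonempty := closure_nonempty_iff.1 ⟨η, hcl⟩
  obtain ⟨z0, hz0⟩ := hne
  have h0 : z0 ≠ η := fun h => hηS (h ▸ hz0)
  refine ⟨‖z0 - η‖, norm_pos_iff.2 (sub_ne_zero.2 h0), fun t ht0 ht => ?_⟩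
  obtain ⟨z1, hz1, hd⟩ := Metric.mem_closure_iff.1 hcl t ht0
  rw [dist_comm, dist_eq_norm] at hd
  have hc : ContinuousOn (fun z : ℂ => ‖z - η‖) S := by fun_prop
  have h := hS.intermediate_value hz1 hz0 hc
  obtain ⟨z, hz, hzt⟩ := h ⟨hd.le, ht.le⟩
  exact ⟨z, hz, hzt⟩

end Pool.Agent.K1H32.CI
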