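import Mathlib

/-! The essential boundary of a measurable subset of the line, and the formula for the integral of a
derivative over the set. -/

set_option autoImplicit false

open MeasureTheory Set Filter Topology Metric
open scoped ENNReal NNReal

namespace Pool.Agent.K1H32.CI

/-- every neighbourhood of `t` meets both `s` and its complement in positive length -/
def Hit (s : Set ℝ) (t : ℝ) : Prop :=
  ∀ a b, a < t → t < b → volume (s ∩ Ioo a b) ≠ 0 ∧ volume (sᶜ ∩ Ioo a b) ≠ 0

lemma not_hit {s : Set ℝ} {t : ℝ} (h : ¬ Hit s t) :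
    ∃ a b, a < t ∧ t < b ∧ (volume (s ∩ Ioo a b) = 0 ∨ volume (sᶜ ∩ Ioo a b) = 0) := by
  unfold Hit at h
  push Not at h
  obtain ⟨a, b, h1, h2, h3⟩ := h
  refine ⟨a, b, h1, h2, ?_⟩
  by_cases h4 : volume (s ∩ Ioo a b) = 0
  · exact Or.inl h4
  · exact Or.inr (h3 h4)

lemma hit_compl {s : Set ℝ} {t : ℝ} : Hit sᶜ t ↔ Hit s t := by
  unfold Hit
  simp only [compl_compl]
  exact forall₄_congr fun a b h1 h2 => and_comm

lemma vol_Ioo_ne_zero {a b : ℝ} (h : a < b) : volume (Ioo a b) ≠ 0 := by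
  rw [Real.volume_Ioo]
  simpa using h

/-- if both are null on a nonempty interval, contradiction -/
lemma not_both_null {s : Set ℝ} {a b : ℝ} (hab : a < b) (h1 : volume (s ∩ Ioo a b) = 0)
    (h2 : volume (sᶜ ∩ Ioo a b) = 0) : False := by
  have h3 : Ioo a b ⊆ (s ∩ Ioo a b) ∪ (sᶜ ∩ Ioo a b) := by
    intro x hx
    by_cases hs : x ∈ s
    · exact Or.inl ⟨hs, hx⟩
    · exact Or.inr ⟨hs, hx⟩
  exact vol_Ioo_ne_zero hab (measure_mono_null h3 (measure_union_null h1 h2))

lemma null_or_full {s : Set ℝ} {a b : ℝ} (h : ∀ t ∈ Ioo a b, ¬ Hit s t) :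
    volume (s ∩ Ioo a b) = 0 ∨ volume (sᶜ ∩ Ioo a b) = 0 := by
  by_cases hab : a < b
  swap
  · left; rw [Ioo_eq_empty hab]; simp
  set U : Set ℝ := {t | ∃ c d, c < t ∧ t < d ∧ volume (s ∩ Ioo c d) = 0} with hU
  set V : Set ℝ := {t | ∃ c d, c < t ∧ t < d ∧ volume (sᶜ ∩ Ioo c d) = 0} with hV
  have hUo : IsOpen U := by
    rw [isOpen_iff_mem_nhds]
    rintro t ⟨c, d, h1, h2, h3⟩
    filter_upwards [Ioo_mem_nhds h1 h2] with x hx
    exact ⟨c, d, hx.1, hx.2, h3⟩
  have hVo : IsOpen V := by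
    rw [isOpen_iff_mem_nhds]
    rintro t ⟨c, d, h1, h2, h3⟩
    filter_upwards [Ioo_mem_nhds h1 h2] with x hx
    exact ⟨c, d, hx.1, hx.2, h3⟩
  have hcov : Ioo a b ⊆ U ∪ V := by
    intro t ht
    obtain ⟨c, d, h1, h2, h3⟩ := not_hit (h t ht)
    rcases h3 with h3 | h3
    · exact Or.inl ⟨c, d, h1, h2, h3⟩
    · exact Or.inr ⟨c, d, h1, h2, h3⟩
  have hdisj : Disjoint U V := by
    rw [Set.disjoint_left]
    rintro t ⟨c, d, h1, h2, h3⟩ ⟨c', d', h1', h2', h3'⟩
    refine not_both_null (s := s) (a := max c c') (b := min d d') ?_ ?_ ?_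
    · exact (max_lt h1 h1').trans (lt_min h2 h2')
    · refine measure_mono_null ?_ h3
      exact inter_subset_inter_right _ (Ioo_subset_Ioo (le_max_left _ _) (min_le_left _ _))
    · refine measure_mono_null ?_ h3'
      exact inter_subset_inter_right _ (Ioo_subset_Ioo (le_max_right _ _) (min_le_right _ _))
  rcases (isPreconnected_Ioo (a := a) (b := b)).subset_or_subset hUo hVo hdisj hcov with h1 | h1
  · left
    apply measure_null_of_locally_null
    rintro t ⟨_, ht⟩
    obtain ⟨c, d, hc, hd, h0⟩ := h1 ht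
    refine ⟨s ∩ Ioo c d, ?_, h0⟩
    rw [mem_nhdsWithin]
    exact ⟨Ioo c d, isOpen_Ioo, ⟨hc, hd⟩, fun x hx => ⟨hx.2.1, hx.1⟩⟩
  · right
    apply measure_null_of_locally_null
    rintro t ⟨_, ht⟩
    obtain ⟨c, d, hc, hd, h0⟩ := h1 ht
    refine ⟨sᶜ ∩ Ioo c d, ?_, h0⟩
    rw [mem_nhdsWithin]
    exact ⟨Ioo c d, isOpen_Ioo, ⟨hc, hd⟩, fun x hx => ⟨hx.2.1, hx.1⟩⟩

/-- mean density of `s` on a short interval to the left -/
noncomputable def lden (s : Set ℝ) (n : ℕ) (t : ℝ) : ℝ≥0∞ :=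
  volume (s ∩ Ioo (t - 1 / ((n : ℝ) + 1)) t) * ((n : ℝ≥0∞) + 1)

/-- mean density of `s` on a short interval to the right -/
noncomputable def rden (s : Set ℝ) (n : ℕ) (t : ℝ) : ℝ≥0∞ :=
  volume (s ∩ Ioo t (t + 1 / ((n : ℝ) + 1))) * ((n : ℝ≥0∞) + 1)

/-- density of `s` at `t` from the left -/
noncomputable def lv (s : Set ℝ) (t : ℝ) : ℝ≥0∞ := limsup (fun n => lden s n t) atTop

/-- density of `s` at `t` from the right -/
noncomputable def rv (s : Set ℝ) (t : ℝ) : ℝ≥0∞ := limsup (fun n => rden s n t) atTop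

/-- the sign of the jump -/
noncomputable def sg (s : Set ℝ) (t : ℝ) : ℝ := (lv s t).toReal - (rv s t).toReal

lemma one_div_small {δ : ℝ} (hδ : 0 < δ) : ∀ᶠ n : ℕ in atTop, 1 / ((n : ℝ) + 1) < δ := by
  have := tendsto_one_div_add_atTop_nhds_zero_nat (𝕜 := ℝ)
  exact this.eventually_lt_const hδ

lemma lv_null {s : Set ℝ} {c t : ℝ} (hc : c < t) (h : volume (s ∩ Ioo c t) = 0) : lv s t = 0 := by
  have h1 : ∀ᶠ n in atTop, lden s n t = 0 := by
    filter_upwards [one_div_small (sub_pos.2 hc)] with n hn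
    unfold lden
    rw [measure_mono_null _ h, zero_mul]
    exact inter_subset_inter_right _ (Ioo_subset_Ioo (by linarith) le_rfl)
  unfold lv
  rw [limsup_congr h1, limsup_const]

lemma rv_null {s : Set ℝ} {t d : ℝ} (hd : t < d) (h : volume (s ∩ Ioo t d) = 0) : rv s t = 0 := by
  have h1 : ∀ᶠ n in atTop, rden s n t = 0 := by
    filter_upwards [one_div_small (sub_pos.2 hd)] with n hn
    unfold rden
    rw [measure_mono_null _ h, zero_mul]
    exact inter_subset_inter_right _ (Ioo_subset_Ioo le_rfl (by linarith))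
  unfold rv
  rw [limsup_congr h1, limsup_const]

lemma vol_full {s : Set ℝ} {a b : ℝ} (h : volume (sᶜ ∩ Ioo a b) = 0) :
    volume (s ∩ Ioo a b) = ENNReal.ofReal (b - a) := by
  rw [← Real.volume_Ioo]
  apply le_antisymm (measure_mono inter_subset_right)
  have h3 : Ioo a b ⊆ (s ∩ Ioo a b) ∪ (sᶜ ∩ Ioo a b) := by
    intro x hx
    by_cases hs : x ∈ s
    · exact Or.inl ⟨hs, hx⟩
    · exact Or.inr ⟨hs, hx⟩
  calc volume (Ioo a b) ≤ volume ((s ∩ Ioo a b) ∪ (sᶜ ∩ Ioo a b)) := measure_mono h3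
    _ ≤ volume (s ∩ Ioo a b) + volume (sᶜ ∩ Ioo a b) := measure_union_le _ _
    _ = volume (s ∩ Ioo a b) := by rw [h, add_zero]

lemma aux_one (n : ℕ) : ENNReal.ofReal (1 / ((n : ℝ) + 1)) * ((n : ℝ≥0∞) + 1) = 1 := by
  have h1 : ((n : ℝ≥0∞) + 1) = ENNReal.ofReal ((n : ℝ) + 1) := by
    rw [ENNReal.ofReal_add (by positivity) zero_le_one]
    simp
  rw [h1, ← ENNReal.ofReal_mul (by positivity)]
  rw [one_div_mul_cancel (by positivity)]
  simp

lemma lv_full {s : Set ℝ} {c t : ℝ} (hc : c < t) (h : volume (sᶜ ∩ Ioo c t) = 0) : lv s t = 1 := by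
  have h1 : ∀ᶠ n in atTop, lden s n t = 1 := by
    filter_upwards [one_div_small (sub_pos.2 hc)] with n hn
    unfold lden
    rw [vol_full (measure_mono_null _ h)]
    · rw [sub_sub_cancel, aux_one]
    exact inter_subset_inter_right _ (Ioo_subset_Ioo (by linarith) le_rfl)
  unfold lv
  rw [limsup_congr h1, limsup_const]

lemma rv_full {s : Set ℝ} {t d : ℝ} (hd : t < d) (h : volume (sᶜ ∩ Ioo t d) = 0) : rv s t = 1 := by
  have h1 : ∀ᶠ n in atTop, rden s n t = 1 := by
    filter_upwards [one_div_small (sub_pos.2 hd)] with n hn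
    unfold rden
    rw [vol_full (measure_mono_null _ h)]
    · rw [add_sub_cancel_left, aux_one]
    exact inter_subset_inter_right _ (Ioo_subset_Ioo le_rfl (by linarith))
  unfold rv
  rw [limsup_congr h1, limsup_const]

lemma setIntegral_full {s : Set ℝ} {a b : ℝ} {g : ℝ → ℂ} (h : volume (sᶜ ∩ Ioo a b) = 0) :
    ∫ x in s ∩ Ioo a b, g x = ∫ x in Ioo a b, g x := by
  apply setIntegral_congr_set
  rw [ae_eq_set]
  constructor
  · refine measure_mono_null (t := ∅) ?_ measure_empty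
    rintro x ⟨h1, h2⟩
    exact absurd h1.2 h2
  · refine measure_mono_null ?_ h
    rintro x ⟨h1, h2⟩
    exact ⟨fun hs => h2 ⟨hs, h1⟩, h1⟩

theorem integral_hits {s : Set ℝ} (hs : MeasurableSet s) {φ φ' : ℝ → ℂ}
    (hφ : ∀ x, HasDerivAt φ (φ' x) x) (hc : Continuous φ') :
    ∀ (n : ℕ) (a b : ℝ), a < b → ∀ F : Finset ℝ, F.card = n → (∀ t, t ∈ F ↔ t ∈ Ioo a b ∧ Hit s t) →
      ∫ x in s ∩ Ioo a b, φ' x = ((lv s b).toReal : ℂ) * φ b - ((rv s a).toReal : ℂ) * φ a +
        ∑ t ∈ F, (sg s t : ℂ) * φ t := by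
  intro n
  induction n using Nat.strong_induction_on with
  | _ n ih =>
  intro a b hab F hF hFm
  have hint : ∀ c d : ℝ, IntegrableOn φ' (Ioo c d) volume := fun c d =>
    (hc.continuousOn.integrableOn_Icc (a := c) (b := d)).mono_set Ioo_subset_Icc_self
  rcases F.eq_empty_or_nonempty with rfl | ⟨p, hp⟩
  · rcases null_or_full (s := s) (a := a) (b := b) (fun t ht hh => by simpa using (hFm t).2 ⟨ht, hh⟩)
      with h | h
    · rw [lv_null hab h, rv_null hab h, setIntegral_measure_zero _ h]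
      simp
    · rw [lv_full hab h, rv_full hab h, setIntegral_full h]
      have h1 : ∫ x in Ioo a b, φ' x = ∫ x in a..b, φ' x := by
        rw [intervalIntegral.integral_of_le hab.le]
        exact integral_Ioc_eq_integral_Ioo.symm
      rw [h1, intervalIntegral.integral_eq_sub_of_hasDerivAt (fun x _ => hφ x)
        (hc.intervalIntegrable _ _)]
      simp
  · have hp' := (hFm p).1 hp
    have hap := hp'.1.1
    have hpb := hp'.1.2
    set F1 := F.filter (fun t => t < p) with hF1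
    set F2 := F.filter (fun t => p < t) with hF2
    have hcard1 : F1.card < n := by
      rw [← hF]
      apply Finset.card_lt_card
      refine Finset.filter_ssubset.2 ⟨p, hp, lt_irrefl p⟩
    have hcard2 : F2.card < n := by
      rw [← hF]
      apply Finset.card_lt_card
      refine Finset.filter_ssubset.2 ⟨p, hp, lt_irrefl p⟩
    have e1 := ih _ hcard1 a p hap F1 rfl (by
      intro t
      rw [hF1, Finset.mem_filter, hFm]
      constructor
      · rintro ⟨⟨h1, h2⟩, h3⟩
        exact ⟨⟨h1.1, h3⟩, h2⟩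
      · rintro ⟨h1, h2⟩
        exact ⟨⟨⟨h1.1, h1.2.trans hpb⟩, h2⟩, h1.2⟩)
    have e2 := ih _ hcard2 p b hpb F2 rfl (by
      intro t
      rw [hF2, Finset.mem_filter, hFm]
      constructor
      · rintro ⟨⟨h1, h2⟩, h3⟩
        exact ⟨⟨h3, h1.2⟩, h2⟩
      · rintro ⟨h1, h2⟩
        exact ⟨⟨⟨hap.trans h1.1, h1.2⟩, h2⟩, h1.1⟩)
    have hsplit : ∫ x in s ∩ Ioo a b, φ' x = (∫ x in s ∩ Ioo a p, φ' x) + ∫ x in s ∩ Ioo p b, φ' x := by
      rw [← setIntegral_union]
      · apply setIntegral_congr_set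
        rw [ae_eq_set]
        constructor
        · refine measure_mono_null (t := {p}) ?_ (by simp)
          rintro x ⟨h1, h2⟩
          by_contra hx
          rw [mem_singleton_iff] at hx
          apply h2
          rcases lt_or_gt_of_ne hx with h | h
          · exact Or.inl ⟨h1.1, h1.2.1, h⟩
          · exact Or.inr ⟨h1.1, h, h1.2.2⟩
        · refine measure_mono_null (t := ∅) ?_ measure_empty
          rintro x ⟨h1, h2⟩
          apply h2
          rcases h1 with h1 | h1
          · exact ⟨h1.1, h1.2.1, h1.2.2.trans hpb⟩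
          · exact ⟨h1.1, hap.trans h1.2.1, h1.2.2⟩
      · rw [Set.disjoint_left]
        rintro x h1 h2
        exact lt_asymm h1.2.2 h2.2.1
      · exact hs.inter measurableSet_Ioo
      · exact (hint a p).mono_set inter_subset_right
      · exact (hint p b).mono_set inter_subset_right
    have hsum : ∑ t ∈ F, (sg s t : ℂ) * φ t =
        (∑ t ∈ F1, (sg s t : ℂ) * φ t) + (sg s p : ℂ) * φ p + ∑ t ∈ F2, (sg s t : ℂ) * φ t := by
      have hFeq : F = insert p (F1 ∪ F2) := by
        ext t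
        simp only [hF1, hF2, Finset.mem_insert, Finset.mem_union, Finset.mem_filter]
        constructor
        · intro ht
          rcases lt_trichotomy t p with h | h | h
          · exact Or.inr (Or.inl ⟨ht, h⟩)
          · exact Or.inl h
          · exact Or.inr (Or.inr ⟨ht, h⟩)
        · rintro (h | h | h)
          · rw [h]; exact hp
          · exact h.1
          · exact h.1
      have hd : Disjoint F1 F2 := by
        rw [Finset.disjoint_left]
        intro t h1 h2
        exact lt_asymm (Finset.mem_filter.1 h1).2 (Finset.mem_filter.1 h2).2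
      have hpn : p ∉ F1 ∪ F2 := by
        simp [hF1, hF2]
      rw [hFeq, Finset.sum_insert hpn, Finset.sum_union hd]
      ring
    rw [hsplit, e1, e2, hsum]
    unfold sg
    push_cast
    ring

/-- at an isolated hit the jump is `±1` -/
lemma sg_hit {s : Set ℝ} {a b t : ℝ} (ha : a < t) (hb : t < b) (ht : Hit s t)
    (h : ∀ x ∈ Ioo a b, Hit s x → x = t) : sg s t = 1 ∨ sg s t = -1 := by
  have h1 := null_or_full (s := s) (a := a) (b := t) (fun x hx hh => by
    have := h x ⟨hx.1, hx.2.trans hb⟩ hh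
    exact hx.2.ne this)
  have h2 := null_or_full (s := s) (a := t) (b := b) (fun x hx hh => by
    have := h x ⟨ha.trans hx.1, hx.2⟩ hh
    exact hx.1.ne' this)
  have key : ∀ u : Set ℝ, volume (u ∩ Ioo a t) = 0 → volume (u ∩ Ioo t b) = 0 →
      volume (u ∩ Ioo a b) = 0 := by
    intro u h1 h2
    refine measure_mono_null (t := (u ∩ Ioo a t) ∪ ({t} ∪ (u ∩ Ioo t b))) ?_ ?_
    · rintro x ⟨hx, hx2⟩
      rcases lt_trichotomy x t with h | h | h
      · exact Or.inl ⟨hx, hx2.1, h⟩
      · exact Or.inr (Or.inl h)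
      · exact Or.inr (Or.inr ⟨hx, h, hx2.2⟩)
    · exact measure_union_null h1 (measure_union_null (by simp) h2)
  unfold sg
  rcases h1 with h1 | h1 <;> rcases h2 with h2 | h2
  · exact absurd (key s h1 h2) (ht a b ha hb).1
  · right; rw [lv_null ha h1, rv_full hb h2]; simp
  · left; rw [lv_full ha h1, rv_null hb h2]; simp
  · exact absurd (key sᶜ h1 h2) (ht a b ha hb).2

lemma sg_not_hit {s : Set ℝ} {t : ℝ} (ht : ¬ Hit s t) : sg s t = 0 := by
  obtain ⟨a, b, ha, hb, h⟩ := not_hit ht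
  unfold sg
  rcases h with h | h
  · rw [lv_null ha (measure_mono_null (inter_subset_inter_right _ (Ioo_subset_Ioo le_rfl hb.le)) h),
      rv_null hb (measure_mono_null (inter_subset_inter_right _ (Ioo_subset_Ioo ha.le le_rfl)) h)]
    simp
  · rw [lv_full ha (measure_mono_null (inter_subset_inter_right _ (Ioo_subset_Ioo le_rfl hb.le)) h),
      rv_full hb (measure_mono_null (inter_subset_inter_right _ (Ioo_subset_Ioo ha.le le_rfl)) h)]
    simp

end Pool.Agent.K1H32.CI
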