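import Pool.Agent.K1H32.CI.Planar

/-! The counting measures on the slices form a measurable kernel. -/

set_option autoImplicit false

open MeasureTheory Set Filter Topology Metric ProbabilityTheory
open scoped ENNReal NNReal

namespace Pool.Agent.K1H32.CI

/-- the points of the slice where the slice jumps -/
def HS (M : Set (ℝ × ℝ)) (p : ℝ) : Set ℝ := {t | Hit (sec M p) t}

lemma isClosed_HS (M : Set (ℝ × ℝ)) (p : ℝ) : IsClosed (HS M p) := by
  rw [← isOpen_compl_iff, isOpen_iff_mem_nhds]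
  intro t ht
  obtain ⟨a, b, ha, hb, h⟩ := not_hit ht
  filter_upwards [Ioo_mem_nhds ha hb] with x hx hxH
  rcases h with h | h
  · exact (hxH a b hx.1 hx.2).1 h
  · exact (hxH a b hx.1 hx.2).2 h

lemma hit_iff_seq {s : Set ℝ} {t : ℝ} : Hit s t ↔ ∀ n : ℕ,
    volume (s ∩ Ioo (t - 1 / ((n:ℝ) + 1)) (t + 1 / ((n:ℝ) + 1))) ≠ 0 ∧
    volume (sᶜ ∩ Ioo (t - 1 / ((n:ℝ) + 1)) (t + 1 / ((n:ℝ) + 1))) ≠ 0 := by
  constructor
  · intro h n
    have : (0:ℝ) < 1 / ((n:ℝ) + 1) := by positivity
    exact h _ _ (by linarith) (by linarith)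
  · intro h a b ha hb
    obtain ⟨n, hn⟩ := (one_div_small (lt_min (sub_pos.2 ha) (sub_pos.2 hb))).exists
    rw [lt_min_iff] at hn
    have hsub : Ioo (t - 1 / ((n:ℝ) + 1)) (t + 1 / ((n:ℝ) + 1)) ⊆ Ioo a b :=
      Ioo_subset_Ioo (by linarith) (by linarith)
    exact ⟨fun h0 => (h n).1 (measure_mono_null (inter_subset_inter_right _ hsub) h0),
      fun h0 => (h n).2 (measure_mono_null (inter_subset_inter_right _ hsub) h0)⟩

lemma measurableSet_vol_ne {M : Set (ℝ × ℝ)} (hM : MeasurableSet M) (a b : ℝ) :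
    MeasurableSet {p | volume (sec M p ∩ Ioo a b) ≠ 0 ∧ volume ((sec M p)ᶜ ∩ Ioo a b) ≠ 0} := by
  have h1 : MeasurableSet {p | volume (sec M p ∩ Ioo a b) ≠ 0} :=
    (measurable_vol_sec hM measurableSet_Ioo (measurableSet_singleton 0)).compl
  have h2 : MeasurableSet {p | volume (sec Mᶜ p ∩ Ioo a b) ≠ 0} :=
    (measurable_vol_sec hM.compl measurableSet_Ioo (measurableSet_singleton 0)).compl
  exact h1.inter h2

lemma measurableSet_hit_at {M : Set (ℝ × ℝ)} (hM : MeasurableSet M) (a : ℝ) :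
    MeasurableSet {p | Hit (sec M p) a} := by
  simp_rw [hit_iff_seq]
  rw [Set.ofPred_forall]
  exact MeasurableSet.iInter fun n => measurableSet_vol_ne hM _ _

lemma measurableSet_hit_Ico {M : Set (ℝ × ℝ)} (hM : MeasurableSet M) (a b : ℝ) :
    MeasurableSet {p | (HS M p ∩ Ico a b).Nonempty} := by
  by_cases hab : a < b
  swap
  · rw [Ico_eq_empty hab]; simp
  have : {p | (HS M p ∩ Ico a b).Nonempty} = {p | Hit (sec M p) a} ∪
      {p | volume (sec M p ∩ Ioo a b) ≠ 0 ∧ volume ((sec M p)ᶜ ∩ Ioo a b) ≠ 0} := by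
    ext p
    simp only [mem_ofPred_eq, mem_union]
    constructor
    · rintro ⟨t, ht, hab2⟩
      rcases eq_or_lt_of_le hab2.1 with h | h
      · left; rw [h]; exact ht
      · right; exact ht a b h hab2.2
    · rintro (h | h)
      · exact ⟨a, h, le_rfl, hab⟩
      · by_contra hne
        rcases null_or_full (s := sec M p) (a := a) (b := b)
          (fun t ht hh => hne ⟨t, hh, ht.1.le, ht.2⟩) with h0 | h0
        · exact h.1 h0
        · exact h.2 h0
  rw [this]
  exact (measurableSet_hit_at hM a).union (measurableSet_vol_ne hM a b)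

/-- dyadic cell -/
def cel (n : ℕ) (k : ℤ) : Set ℝ := Ico ((k:ℝ) / 2 ^ n) (((k:ℝ) + 1) / 2 ^ n)

lemma mem_cel {n : ℕ} {k : ℤ} {x : ℝ} : x ∈ cel n k ↔ ⌊(2:ℝ) ^ n * x⌋ = k := by
  have h2 : (0:ℝ) < 2 ^ n := by positivity
  unfold cel
  rw [mem_Ico, div_le_iff₀ h2, lt_div_iff₀ h2, Int.floor_eq_iff, mul_comm x]

lemma measurable_count_of {H : ℝ → Set ℝ} (hH : ∀ p, MeasurableSet (H p))
    (hm : ∀ a b, MeasurableSet {p | (H p ∩ Ico a b).Nonempty}) (a b : ℝ) :
    Measurable (fun p => Measure.count (H p ∩ Ico a b)) := by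
  classical
  set N : ℕ → ℝ → ℝ≥0∞ := fun n p =>
    ∑' k : ℤ, {p | (H p ∩ (Ico a b ∩ cel n k)).Nonempty}.indicator 1 p with hN
  have hNm : ∀ n, Measurable (N n) := by
    intro n
    apply Measurable.tsum
    intro k
    refine measurable_one.indicator ?_
    have : ∀ p, H p ∩ (Ico a b ∩ cel n k) = H p ∩ Ico (max a ((k:ℝ) / 2 ^ n)) (min b (((k:ℝ) + 1) / 2 ^ n)) := by
      intro p
      unfold cel
      rw [Ico_inter_Ico]
    simp_rw [this]
    exact hm _ _
  have hle : ∀ n p, N n p ≤ Measure.count (H p ∩ Ico a b) := by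
    intro n p
    calc N n p ≤ ∑' k : ℤ, Measure.count (H p ∩ Ico a b ∩ cel n k) := by
          apply ENNReal.tsum_le_tsum
          intro k
          by_cases hne : (H p ∩ (Ico a b ∩ cel n k)).Nonempty
          · rw [indicator_of_mem (show p ∈ {p | (H p ∩ (Ico a b ∩ cel n k)).Nonempty} from hne)]
            obtain ⟨x, hx⟩ := hne
            calc (1 : ℝ → ℝ≥0∞) p = Measure.count {x} := by simp
              _ ≤ _ := measure_mono (by rintro y rfl; exact ⟨⟨hx.1, hx.2.1⟩, hx.2.2⟩)
          · rw [indicator_of_notMem (show p ∉ {p | (H p ∩ (Ico a b ∩ cel n k)).Nonempty} from hne)]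
            exact zero_le
      _ = Measure.count (⋃ k : ℤ, H p ∩ Ico a b ∩ cel n k) := by
          rw [measure_iUnion]
          · intro j k hjk
            rw [Function.onFun, Set.disjoint_left]
            intro x hx hx'
            exact hjk ((mem_cel.1 hx.2).symm.trans (mem_cel.1 hx'.2))
          · intro k
            exact ((hH p).inter measurableSet_Ico).inter measurableSet_Ico
      _ ≤ _ := measure_mono (iUnion_subset fun k => inter_subset_left)
  have hge : ∀ p, Measure.count (H p ∩ Ico a b) ≤ liminf (fun n => N n p) atTop := by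
    intro p
    rw [Measure.count_apply ((hH p).inter measurableSet_Ico), ← ENNReal.tsum_set_one,
      ENNReal.tsum_eq_iSup_sum]
    apply iSup_le
    intro F
    have key : ∀ a b : ℝ, a ≠ b → ∀ᶠ n : ℕ in atTop, ⌊(2:ℝ) ^ n * a⌋ ≠ ⌊(2:ℝ) ^ n * b⌋ := by
      intro a b hab
      have hpos : 0 < |a - b| := abs_pos.2 (sub_ne_zero.2 hab)
      have ht : Tendsto (fun n : ℕ => (2:ℝ) ^ n * |a - b|) atTop atTop :=
        (tendsto_pow_atTop_atTop_of_one_lt one_lt_two).atTop_mul_const hpos
      filter_upwards [ht.eventually_ge_atTop 1] with n hn heq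
      have h1 := Int.abs_sub_lt_one_of_floor_eq_floor heq
      rw [← mul_sub, abs_mul, abs_of_pos (by positivity : (0:ℝ) < 2 ^ n)] at h1
      linarith
    have hsep : ∀ᶠ n : ℕ in atTop, ∀ z ∈ F, ∀ w ∈ F, z ≠ w →
        ⌊(2:ℝ) ^ n * (z:ℝ)⌋ ≠ ⌊(2:ℝ) ^ n * (w:ℝ)⌋ := by
      rw [Finset.eventually_all]
      intro z hz
      rw [Finset.eventually_all]
      intro w hw
      by_cases hzw : z = w
      · exact Eventually.of_forall (fun n h => absurd hzw h)
      · filter_upwards [key _ _ (fun h => hzw (Subtype.ext h))] with n hn _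
        exact hn
    apply le_liminf_of_le (by isBoundedDefault)
    filter_upwards [hsep] with n hn
    have hinj : Set.InjOn (fun z : ↥(H p ∩ Ico a b) => ⌊(2:ℝ) ^ n * (z:ℝ)⌋) F := by
      intro z hz w hw heq
      by_contra hne
      exact hn z hz w hw hne heq
    calc ∑ _ ∈ F, (1:ℝ≥0∞) = ∑ q ∈ F.image (fun z : ↥(H p ∩ Ico a b) => ⌊(2:ℝ) ^ n * (z:ℝ)⌋), (1:ℝ≥0∞) := by
          rw [Finset.sum_const, Finset.sum_const, Finset.card_image_of_injOn hinj]
      _ ≤ ∑ q ∈ F.image (fun z : ↥(H p ∩ Ico a b) => ⌊(2:ℝ) ^ n * (z:ℝ)⌋),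
            {p | (H p ∩ (Ico a b ∩ cel n q)).Nonempty}.indicator 1 p := by
          apply Finset.sum_le_sum
          intro q hq
          obtain ⟨z, hz, rfl⟩ := Finset.mem_image.1 hq
          rw [indicator_of_mem]
          · rfl
          · exact ⟨z, z.2.1, z.2.2, mem_cel.2 rfl⟩
      _ ≤ N n p := ENNReal.sum_le_tsum _
  have heq : (fun p => Measure.count (H p ∩ Ico a b)) = fun p => liminf (fun n => N n p) atTop := by
    funext p
    apply le_antisymm (hge p)
    apply liminf_le_of_le (by isBoundedDefault)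
    intro c hc
    obtain ⟨n, hn⟩ := hc.exists
    exact hn.trans (hle n p)
  rw [heq]
  exact Measurable.liminf hNm

lemma measurable_count {M : Set (ℝ × ℝ)} (hM : MeasurableSet M) (a b : ℝ) :
    Measurable (fun p => Measure.count (HS M p ∩ Ico a b)) :=
  measurable_count_of (fun p => (isClosed_HS M p).measurableSet) (measurableSet_hit_Ico hM) a b

/-- slices with locally finitely many jumps -/
def GoodP (M : Set (ℝ × ℝ)) : Set ℝ :=
  {p | ∀ n : ℕ, Measure.count (HS M p ∩ Ico (-(n:ℝ)) n) < ∞}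

lemma measurableSet_goodP {M : Set (ℝ × ℝ)} (hM : MeasurableSet M) : MeasurableSet (GoodP M) := by
  unfold GoodP
  rw [Set.ofPred_forall]
  exact MeasurableSet.iInter fun n => measurable_count hM _ _ measurableSet_Iio

lemma goodP_finite {M : Set (ℝ × ℝ)} {p : ℝ} (hp : p ∈ GoodP M) (a b : ℝ) :
    (HS M p ∩ Ico a b).Finite := by
  obtain ⟨n, hn⟩ := exists_nat_gt (max |a| |b|)
  rw [max_lt_iff] at hn
  have h := hp n
  rw [Measure.count_apply_lt_top] at h
  refine h.subset (inter_subset_inter_right _ (Ico_subset_Ico ?_ ?_))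
  · linarith [neg_abs_le a]
  · linarith [le_abs_self b]

open Classical in
/-- counting measure on the jumps -/
noncomputable def kap (M : Set (ℝ × ℝ)) (p : ℝ) : Measure ℝ :=
  if p ∈ GoodP M then Measure.count.restrict (HS M p) else 0

lemma kap_good {M : Set (ℝ × ℝ)} {p : ℝ} (hp : p ∈ GoodP M) :
    kap M p = Measure.count.restrict (HS M p) := by
  unfold kap
  rw [if_pos hp]

lemma kap_bad {M : Set (ℝ × ℝ)} {p : ℝ} (hp : p ∉ GoodP M) : kap M p = 0 := by
  unfold kap
  rw [if_neg hp]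

lemma kap_Ico {M : Set (ℝ × ℝ)} (a b : ℝ) : (fun p => kap M p (Ico a b)) =
    (GoodP M).indicator (fun p => Measure.count (HS M p ∩ Ico a b)) := by
  funext p
  by_cases hp : p ∈ GoodP M
  · rw [indicator_of_mem hp, kap_good hp, Measure.restrict_apply measurableSet_Ico, inter_comm]
  · rw [indicator_of_notMem hp, kap_bad hp]; rfl

lemma measurable_kap_Ico {M : Set (ℝ × ℝ)} (hM : MeasurableSet M) (a b : ℝ) :
    Measurable (fun p => kap M p (Ico a b)) := by
  rw [kap_Ico]
  exact (measurable_count hM a b).indicator (measurableSet_goodP hM)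

lemma kap_Ico_lt {M : Set (ℝ × ℝ)} (p a b : ℝ) : kap M p (Ico a b) < ∞ := by
  by_cases hp : p ∈ GoodP M
  · rw [kap_good hp, Measure.restrict_apply measurableSet_Ico, inter_comm,
      Measure.count_apply_lt_top]
    exact goodP_finite hp a b
  · rw [kap_bad hp]; simp

lemma measurable_kap_restrict {M : Set (ℝ × ℝ)} (hM : MeasurableSet M) (k : ℤ) :
    Measurable (fun p => (kap M p).restrict (Ico (k:ℝ) (k+1))) := by
  haveI : ∀ p, IsFiniteMeasure ((kap M p).restrict (Ico (k:ℝ) (k+1))) := fun p =>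
    ⟨by rw [Measure.restrict_apply_univ]; exact kap_Ico_lt p _ _⟩
  refine Measurable.measure_of_isPiSystem
    (S := {S | ∃ l u : ℝ, l < u ∧ Ico l u = S})
    (BorelSpace.measurable_eq.trans (borel_eq_generateFrom_Ico ℝ)) (isPiSystem_Ico id id) ?_ ?_
  · rintro s ⟨l, u, hlu, rfl⟩
    simp_rw [Measure.restrict_apply measurableSet_Ico, Ico_inter_Ico]
    exact measurable_kap_Ico hM _ _
  · simp_rw [Measure.restrict_apply_univ]
    exact measurable_kap_Ico hM _ _

lemma kap_sum (M : Set (ℝ × ℝ)) (p : ℝ) :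
    kap M p = Measure.sum (fun k : ℤ => (kap M p).restrict (Ico (k:ℝ) (k+1))) := by
  rw [← Measure.restrict_iUnion (pairwise_disjoint_Ico_intCast ℝ) (fun k => measurableSet_Ico),
    iUnion_Ico_intCast, Measure.restrict_univ]

lemma measurable_kap {M : Set (ℝ × ℝ)} (hM : MeasurableSet M) : Measurable (kap M) := by
  rw [Measure.measurable_measure]
  intro s hs
  have : (fun p => kap M p s) = fun p => ∑' k : ℤ, (kap M p).restrict (Ico (k:ℝ) (k+1)) s := by
    funext p
    conv_lhs => rw [kap_sum, Measure.sum_apply _ hs]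
  rw [this]
  exact Measurable.tsum fun k => (Measure.measurable_coe hs).comp (measurable_kap_restrict hM k)

lemma sfinite_of_finite {α β : Type*} {mα : MeasurableSpace α} {mβ : MeasurableSpace β}
    (κ : Kernel α β) (h : ∀ a, κ a univ < ∞) : IsSFiniteKernel κ := by
  classical
  have hs : ∀ n : ℕ, MeasurableSet {a | ⌊(κ a univ).toReal⌋₊ = n} := by
    intro n
    have h1 : Measurable (fun a => ⌊(κ a univ).toReal⌋₊) :=
      Nat.measurable_floor.comp (Kernel.measurable_coe κ MeasurableSet.univ).ennreal_toReal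
    exact h1 (measurableSet_singleton n)
  have hf : ∀ n : ℕ, IsFiniteKernel (Kernel.piecewise (hs n) κ 0) := by
    intro n
    refine ⟨⟨(n:ℝ≥0∞) + 1, by simp, fun a => ?_⟩⟩
    rw [Kernel.piecewise_apply']
    split_ifs with ha
    · have ha : ⌊(κ a univ).toReal⌋₊ = n := ha
      have h1 := (Nat.lt_floor_add_one (κ a univ).toReal).le
      rw [ha] at h1
      rw [← ENNReal.ofReal_toReal (h a).ne]
      refine (ENNReal.ofReal_le_ofReal h1).trans (le_of_eq ?_)
      rw [ENNReal.ofReal_add (by positivity) zero_le_one]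
      simp
    · simp
  have : κ = Kernel.sum (fun n : ℕ => Kernel.piecewise (hs n) κ 0) := by
    ext a s hs'
    rw [Kernel.sum_apply' _ _ hs', tsum_eq_single ⌊(κ a univ).toReal⌋₊]
    · rw [Kernel.piecewise_apply', if_pos]
      exact rfl
    · intro n hn
      rw [Kernel.piecewise_apply', if_neg]
      · simp
      · intro h1
        exact hn (Eq.symm h1)
  rw [this]
  infer_instance

/-- the kernel -/
noncomputable def kapK {M : Set (ℝ × ℝ)} (hM : MeasurableSet M) : Kernel ℝ ℝ := ⟨kap M, measurable_kap hM⟩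

lemma kapK_apply {M : Set (ℝ × ℝ)} (hM : MeasurableSet M) (p : ℝ) : kapK hM p = kap M p := rfl

instance instSFiniteKapK {M : Set (ℝ × ℝ)} (hM : MeasurableSet M) : IsSFiniteKernel (kapK hM) := by
  have h : ∀ k : ℤ, IsSFiniteKernel (⟨fun p => (kap M p).restrict (Ico (k:ℝ) (k+1)),
      measurable_kap_restrict hM k⟩ : Kernel ℝ ℝ) := by
    intro k
    apply sfinite_of_finite
    intro p
    show (kap M p).restrict (Ico (k:ℝ) (k+1)) univ < ∞
    rw [Measure.restrict_apply_univ]
    exact kap_Ico_lt p _ _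
  have h2 : kapK hM = Kernel.sum (fun k : ℤ => (⟨fun p => (kap M p).restrict (Ico (k:ℝ) (k+1)),
      measurable_kap_restrict hM k⟩ : Kernel ℝ ℝ)) := by
    ext p s hs
    rw [Kernel.sum_apply' _ _ hs, kapK_apply, kap_sum, Measure.sum_apply _ hs]
    rfl
  rw [h2]
  infer_instance

/-- the measure of all jumps of all slices -/
noncomputable def nuM {M : Set (ℝ × ℝ)} (hM : MeasurableSet M) : Measure (ℝ × ℝ) :=
  volume.compProd (kapK hM)

lemma lintegral_nuM {M : Set (ℝ × ℝ)} (hM : MeasurableSet M) {f : ℝ × ℝ → ℝ≥0∞} (hf : Measurable f) :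
    ∫⁻ q, f q ∂(nuM hM) = ∫⁻ p, ∫⁻ t, f (p, t) ∂(kap M p) :=
  Measure.lintegral_compProd hf

lemma measurable_lden {M : Set (ℝ × ℝ)} (hM : MeasurableSet M) (n : ℕ) :
    Measurable (fun q : ℝ × ℝ => lden (sec M q.1) n q.2) := by
  unfold lden
  apply Measurable.mul_const
  have h : MeasurableSet {x : (ℝ × ℝ) × ℝ | (x.1.1, x.2) ∈ M ∧
      x.2 ∈ Ioo (x.1.2 - 1 / ((n:ℝ) + 1)) x.1.2} := by
    apply MeasurableSet.inter
    · exact (by fun_prop : Measurable (fun x : (ℝ × ℝ) × ℝ => (x.1.1, x.2))) hM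
    · exact (measurableSet_lt (f := fun x : (ℝ × ℝ) × ℝ => x.1.2 - 1 / ((n:ℝ) + 1)) (g := fun x => x.2)
        (by fun_prop) (by fun_prop)).inter
        (measurableSet_lt (f := fun x : (ℝ × ℝ) × ℝ => x.2) (g := fun x => x.1.2) (by fun_prop) (by fun_prop))
  exact measurable_measure_prodMk_left h

lemma measurable_rden {M : Set (ℝ × ℝ)} (hM : MeasurableSet M) (n : ℕ) :
    Measurable (fun q : ℝ × ℝ => rden (sec M q.1) n q.2) := by
  unfold rden
  apply Measurable.mul_const
  have h : MeasurableSet {x : (ℝ × ℝ) × ℝ | (x.1.1, x.2) ∈ M ∧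
      x.2 ∈ Ioo x.1.2 (x.1.2 + 1 / ((n:ℝ) + 1))} := by
    apply MeasurableSet.inter
    · exact (by fun_prop : Measurable (fun x : (ℝ × ℝ) × ℝ => (x.1.1, x.2))) hM
    · exact (measurableSet_lt (f := fun x : (ℝ × ℝ) × ℝ => x.1.2) (g := fun x => x.2)
        (by fun_prop) (by fun_prop)).inter
        (measurableSet_lt (f := fun x : (ℝ × ℝ) × ℝ => x.2) (g := fun x => x.1.2 + 1 / ((n:ℝ) + 1))
          (by fun_prop) (by fun_prop))
  exact measurable_measure_prodMk_left h

/-- the sign of the jump as a function on the plane -/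
noncomputable def sgM (M : Set (ℝ × ℝ)) (q : ℝ × ℝ) : ℝ := sg (sec M q.1) q.2

lemma measurable_sgM {M : Set (ℝ × ℝ)} (hM : MeasurableSet M) : Measurable (sgM M) := by
  unfold sgM sg lv rv
  apply Measurable.sub
  · exact (Measurable.limsup fun n => measurable_lden hM n).ennreal_toReal
  · exact (Measurable.limsup fun n => measurable_rden hM n).ennreal_toReal

end Pool.Agent.K1H32.CI
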