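import Pool.Agent.K1H32.CI.Cell

/-! The two measures on the essential boundary coming from rays and circles. -/

set_option autoImplicit false

open MeasureTheory Set Filter Topology Metric ProbabilityTheory
open scoped ENNReal NNReal

namespace Pool.Agent.K1H32.CI

/-- the strip of width `2π` -/
def strip (s : Bool) : Set (ℝ × ℝ) := {q | (io s q).im ∈ Ioc (-Real.pi) Real.pi}

lemma measurableSet_strip (s : Bool) : MeasurableSet (strip s) :=
  (Complex.measurable_im.comp (contDiff_io s).continuous.measurable) measurableSet_Ioc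

/-- the measure on the plane coming from the slices -/
noncomputable def NN (s : Bool) (η : ℂ) {A : Set ℂ} (hA : MeasurableSet A) : Measure ℂ :=
  ((nuM (measurableSet_MM (s := s) (η := η) hA)).restrict (strip s)).map (Th s η)

/-- the relevant part of a slice -/
def PS (s : Bool) (η : ℂ) (A : Set ℂ) (p : ℝ) : Set ℝ :=
  {t | (p, t) ∈ strip s ∧ Th s η (p, t) ∈ essBdry A}

lemma measurable_Th (s : Bool) (η : ℂ) : Measurable (Th s η) := (continuous_Th s η).measurable

lemma lintegral_NN (s : Bool) (η : ℂ) {A : Set ℂ} (hA : MeasurableSet A) {F : ℂ → ℝ≥0∞}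
    (hF : Measurable F) : ∫⁻ ζ, F ζ ∂(NN s η hA) =
      ∫⁻ p, ∫⁻ t, (strip s).indicator (fun q => F (Th s η q)) (p, t) ∂(kap (MM s η A) p) := by
  unfold NN
  rw [lintegral_map hF (measurable_Th s η), ← lintegral_indicator (measurableSet_strip s),
    lintegral_nuM]
  exact (hF.comp (measurable_Th s η)).indicator (measurableSet_strip s)

lemma setLIntegral_count {S : Set ℝ} (hS : MeasurableSet S) (f : ℝ → ℝ≥0∞) :
    ∫⁻ t in S, f t ∂Measure.count = ∑' t : S, f t := by
  rw [← lintegral_indicator hS, lintegral_count, ← tsum_subtype]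

lemma lintegral_NN' (s : Bool) (η : ℂ) {A : Set ℂ} (hA : MeasurableSet A)
    (hfin : ∀ a : ℤ, Measure.hausdorffMeasure 1 (essBdry A ∩ Ann η a) < ∞) {F : ℂ → ℝ≥0∞}
    (hF : Measurable F) : ∫⁻ ζ, F ζ ∂(NN s η hA) =
      ∫⁻ p, ∑' t : PS s η A p, F (Th s η (p, t)) := by
  rw [lintegral_NN s η hA hF]
  apply lintegral_congr_ae
  filter_upwards [slice_ae s η hA hfin] with p hp
  rw [kap_good hp.1, setLIntegral_count (isClosed_HS _ _).measurableSet]
  rw [tsum_subtype (HS (MM s η A) p) (fun t => (strip s).indicator (fun q => F (Th s η q)) (p, t)),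
    tsum_subtype (PS s η A p) (fun t => F (Th s η (p, t)))]
  apply tsum_congr
  intro t
  by_cases h1 : t ∈ HS (MM s η A) p
  · rw [indicator_of_mem h1]
    by_cases h2 : (p, t) ∈ strip s
    · rw [indicator_of_mem h2, indicator_of_mem]
      exact ⟨h2, (hp.2 t).1 h1⟩
    · rw [indicator_of_notMem h2, indicator_of_notMem]
      exact fun h => h2 h.1
  · rw [indicator_of_notMem h1, indicator_of_notMem]
    exact fun h => h1 ((hp.2 t).2 h.2)

lemma Th_ne (s : Bool) (η : ℂ) (q : ℝ × ℝ) : Th s η q ≠ η := by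
  unfold Th
  intro h
  simp at h

lemma measurableSet_Ann (η : ℂ) (a : ℤ) : MeasurableSet (Ann η a) := by
  have h : Measurable (fun ζ : ℂ => ‖ζ - η‖) := by fun_prop
  exact (measurableSet_le measurable_const h).inter (measurableSet_lt h measurable_const)

lemma mem_Ann_iff {η ζ : ℂ} (h : ζ ≠ η) (a : ℤ) : ζ ∈ Ann η a ↔ ⌊4 * Real.log ‖ζ - η‖⌋ = a := by
  have hpos : 0 < ‖ζ - η‖ := norm_pos_iff.2 (sub_ne_zero.2 h)
  rw [← mem_quarter, mem_Ico, Real.le_log_iff_exp_le hpos, Real.log_lt_iff_lt_exp hpos]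
  rfl

lemma ne_of_mem_Ann {η ζ : ℂ} {a : ℤ} (h : ζ ∈ Ann η a) : ζ ≠ η := by
  rintro rfl
  have := h.1
  rw [sub_self, norm_zero] at this
  exact absurd (Real.exp_pos _) (not_lt.2 this)

lemma Ann_disj (η : ℂ) : Pairwise (Function.onFun Disjoint (Ann η)) := by
  intro a b hab
  rw [Function.onFun, Set.disjoint_left]
  intro ζ h1 h2
  exact hab (((mem_Ann_iff (ne_of_mem_Ann h1) a).1 h1).symm.trans ((mem_Ann_iff (ne_of_mem_Ann h1) b).1 h2))

lemma iUnion_Ann (η : ℂ) : ⋃ a, Ann η a = {η}ᶜ := by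
  ext ζ
  rw [mem_iUnion]
  constructor
  · rintro ⟨a, ha⟩
    exact ne_of_mem_Ann ha
  · intro h
    exact ⟨_, (mem_Ann_iff h _).2 rfl⟩

lemma PS_cover (s : Bool) (η : ℂ) (A D : Set ℂ) (a : ℤ) (p : ℝ) :
    {t | t ∈ PS s η A p ∧ Th s η (p, t) ∈ D ∩ Ann η a} ⊆
      ⋃ b ∈ Finset.Icc (-13 : ℤ) 12, Sl s η a b (essBdry A ∩ D) p := by
  rintro t ⟨⟨h1, h2⟩, h3, h4⟩
  rw [mem_iUnion₂]
  have h1 : (io s (p, t)).im ∈ Ioc (-Real.pi) Real.pi := h1
  have hpi := Real.pi_lt_d2
  refine ⟨⌊4 * (io s (p, t)).im⌋, ?_, ⟨?_, mem_quarter.2 rfl⟩, h2, h3⟩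
  · rw [Finset.mem_Icc]
    constructor
    · rw [Int.le_floor]
      push_cast
      linarith [h1.1]
    · rw [← Int.lt_add_one_iff, Int.floor_lt]
      push_cast
      linarith [h1.2]
  · rw [mem_Ann_iff (Th_ne s η _)] at h4
    rw [mem_quarter, ← h4]
    unfold Th
    rw [add_sub_cancel_left, Complex.norm_exp, Real.log_exp]

lemma encard_cast_sum {ι : Type*} (F : Finset ι) (B : ι → Set ℝ) :
    (((⋃ i ∈ F, B i).encard : ℕ∞) : ℝ≥0∞) ≤ ∑ i ∈ F, ((B i).encard : ℝ≥0∞) := by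
  classical
  induction F using Finset.induction_on with
  | empty => simp
  | insert i F hi ih =>
    rw [Finset.sum_insert hi, Finset.set_biUnion_insert]
    calc (((B i ∪ ⋃ x ∈ F, B x).encard : ℕ∞) : ℝ≥0∞) ≤ (((B i).encard + (⋃ x ∈ F, B x).encard : ℕ∞) : ℝ≥0∞) := by
          exact_mod_cast Set.encard_union_le _ _
      _ = ((B i).encard : ℝ≥0∞) + ((⋃ x ∈ F, B x).encard : ℝ≥0∞) := by push_cast; rfl
      _ ≤ _ := by gcongr

theorem NN_Ann_le (s : Bool) (η : ℂ) {A : Set ℂ} (hA : MeasurableSet A)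
    (hfin : ∀ a : ℤ, Measure.hausdorffMeasure 1 (essBdry A ∩ Ann η a) < ∞) (a : ℤ) {D : Set ℂ}
    (hD : MeasurableSet D) : NN s η hA (D ∩ Ann η a) ≤
      26 * ENNReal.ofReal (2 * Real.exp (-((a:ℝ) / 4))) *
        Measure.hausdorffMeasure 1 (essBdry A ∩ D ∩ Ann η a) := by
  have hDA : MeasurableSet (D ∩ Ann η a) := hD.inter (measurableSet_Ann η a)
  rw [← lintegral_indicator_one hDA, lintegral_NN' s η hA hfin (measurable_one.indicator hDA)]
  have hex : ∀ b : ℤ, _ := fun b => slice_bound s η a b (essBdry A ∩ D)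
  choose g hg1 hg2 hg3 using hex
  calc ∫⁻ p, ∑' t : PS s η A p, (D ∩ Ann η a).indicator (1 : ℂ → ℝ≥0∞) (Th s η (p, t))
      ≤ ∫⁻ p, ∑ b ∈ Finset.Icc (-13 : ℤ) 12, g b p := by
        apply lintegral_mono
        intro p
        calc ∑' t : PS s η A p, (D ∩ Ann η a).indicator (1 : ℂ → ℝ≥0∞) (Th s η (p, t))
            = ∑' t : ↥{t | t ∈ PS s η A p ∧ Th s η (p, t) ∈ D ∩ Ann η a}, (1:ℝ≥0∞) := by
              rw [tsum_subtype (PS s η A p) (fun t => (D ∩ Ann η a).indicator (1 : ℂ → ℝ≥0∞) (Th s η (p, t))),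
                tsum_subtype {t | t ∈ PS s η A p ∧ Th s η (p, t) ∈ D ∩ Ann η a} (fun _ => (1:ℝ≥0∞))]
              apply tsum_congr
              intro t
              by_cases h1 : t ∈ PS s η A p
              · rw [indicator_of_mem h1]
                by_cases h2 : Th s η (p, t) ∈ D ∩ Ann η a
                · rw [indicator_of_mem h2, indicator_of_mem]
                  · rfl
                  · exact ⟨h1, h2⟩
                · rw [indicator_of_notMem h2, indicator_of_notMem]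
                  exact fun h => h2 h.2
              · rw [indicator_of_notMem h1, indicator_of_notMem]
                exact fun h => h1 h.1
          _ = (({t | t ∈ PS s η A p ∧ Th s η (p, t) ∈ D ∩ Ann η a}.encard : ℕ∞) : ℝ≥0∞) :=
              ENNReal.tsum_set_one _
          _ ≤ (((⋃ b ∈ Finset.Icc (-13 : ℤ) 12, Sl s η a b (essBdry A ∩ D) p).encard : ℕ∞) : ℝ≥0∞) := by
              exact_mod_cast Set.encard_le_encard (PS_cover s η A D a p)
          _ ≤ ∑ b ∈ Finset.Icc (-13 : ℤ) 12, ((Sl s η a b (essBdry A ∩ D) p).encard : ℝ≥0∞) :=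
              encard_cast_sum _ _
          _ ≤ ∑ b ∈ Finset.Icc (-13 : ℤ) 12, g b p := Finset.sum_le_sum fun b _ => hg2 b p
    _ = ∑ b ∈ Finset.Icc (-13 : ℤ) 12, ∫⁻ p, g b p := lintegral_finsetSum _ (fun b _ => hg1 b)
    _ ≤ ∑ _b ∈ Finset.Icc (-13 : ℤ) 12, ENNReal.ofReal (2 * Real.exp (-((a:ℝ) / 4))) *
        Measure.hausdorffMeasure 1 (essBdry A ∩ D ∩ Ann η a) := Finset.sum_le_sum fun b _ => hg3 b
    _ = _ := by
        rw [Finset.sum_const, mul_assoc]
        have : (Finset.Icc (-13 : ℤ) 12).card = 26 := by decide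
        rw [this, nsmul_eq_mul]
        norm_num

lemma NN_Ann_lt (s : Bool) (η : ℂ) {A : Set ℂ} (hA : MeasurableSet A)
    (hfin : ∀ a : ℤ, Measure.hausdorffMeasure 1 (essBdry A ∩ Ann η a) < ∞) (a : ℤ) :
    NN s η hA (Ann η a) < ∞ := by
  have h := NN_Ann_le s η hA hfin a MeasurableSet.univ
  rw [univ_inter, inter_univ] at h
  exact h.trans_lt (ENNReal.mul_lt_top (ENNReal.mul_lt_top (by norm_num) ENNReal.ofReal_lt_top) (hfin a))

lemma NN_restrict_le (s : Bool) (η : ℂ) {A : Set ℂ} (hA : MeasurableSet A)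
    (hfin : ∀ a : ℤ, Measure.hausdorffMeasure 1 (essBdry A ∩ Ann η a) < ∞) (a : ℤ) :
    (NN s η hA).restrict (Ann η a) ≤ (26 * ENNReal.ofReal (2 * Real.exp (-((a:ℝ) / 4)))) •
      ((Measure.hausdorffMeasure 1 : Measure ℂ).restrict (essBdry A)).restrict (Ann η a) := by
  rw [Measure.le_iff]
  intro D hD
  rw [Measure.restrict_apply hD, Measure.smul_apply, Measure.restrict_apply hD,
    Measure.restrict_apply (hD.inter (measurableSet_Ann η a)), smul_eq_mul]
  refine (NN_Ann_le s η hA hfin a hD).trans (le_of_eq ?_)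
  congr 2
  ext ζ
  simp only [mem_inter_iff]
  tauto

lemma setLIntegral_NN_le (s : Bool) (η : ℂ) {A : Set ℂ} (hA : MeasurableSet A)
    (hfin : ∀ a : ℤ, Measure.hausdorffMeasure 1 (essBdry A ∩ Ann η a) < ∞) (a : ℤ) (F : ℂ → ℝ≥0∞) :
    ∫⁻ ζ in Ann η a, F ζ ∂(NN s η hA) ≤ (26 * ENNReal.ofReal (2 * Real.exp (-((a:ℝ) / 4)))) *
      ∫⁻ ζ in Ann η a, F ζ ∂((Measure.hausdorffMeasure 1 : Measure ℂ).restrict (essBdry A)) := by
  refine (lintegral_mono' (NN_restrict_le s η hA hfin a) le_rfl).trans ?_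
  rw [lintegral_smul_measure, smul_eq_mul]

lemma NN_singleton (s : Bool) (η : ℂ) {A : Set ℂ} (hA : MeasurableSet A) : NN s η hA {η} = 0 := by
  unfold NN
  rw [Measure.map_apply (measurable_Th s η) (measurableSet_singleton η)]
  have : Th s η ⁻¹' {η} = ∅ := by
    ext q
    simp [Th_ne]
  rw [this, measure_empty]

theorem lintegral_NN_mul_le (s : Bool) (η : ℂ) {A : Set ℂ} (hA : MeasurableSet A)
    (hfin : ∀ a : ℤ, Measure.hausdorffMeasure 1 (essBdry A ∩ Ann η a) < ∞) (F : ℂ → ℝ≥0∞) :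
    ∫⁻ ζ, F ζ * ENNReal.ofReal ‖ζ - η‖ ∂(NN s η hA) ≤ ENNReal.ofReal (52 * Real.exp (1 / 4)) *
      ∫⁻ ζ, F ζ ∂((Measure.hausdorffMeasure 1 : Measure ℂ).restrict (essBdry A)) := by
  have hsing : ∫⁻ ζ, F ζ * ENNReal.ofReal ‖ζ - η‖ ∂(NN s η hA) =
      ∫⁻ ζ in ⋃ a, Ann η a, F ζ * ENNReal.ofReal ‖ζ - η‖ ∂(NN s η hA) := by
    rw [iUnion_Ann]
    have : (NN s η hA).restrict {η}ᶜ = NN s η hA := by
      rw [Measure.restrict_eq_self_of_ae_mem]
      rw [ae_iff]
      simpa using NN_singleton s η hA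
    rw [this]
  rw [hsing, lintegral_iUnion (measurableSet_Ann η) (Ann_disj η)]
  calc ∑' a, ∫⁻ ζ in Ann η a, F ζ * ENNReal.ofReal ‖ζ - η‖ ∂(NN s η hA)
      ≤ ∑' a, ENNReal.ofReal (52 * Real.exp (1 / 4)) *
        ∫⁻ ζ in Ann η a, F ζ ∂((Measure.hausdorffMeasure 1 : Measure ℂ).restrict (essBdry A)) := by
        apply ENNReal.tsum_le_tsum
        intro a
        refine (setLIntegral_NN_le s η hA hfin a _).trans ?_
        have h1 : ∫⁻ ζ in Ann η a, F ζ * ENNReal.ofReal ‖ζ - η‖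
            ∂((Measure.hausdorffMeasure 1 : Measure ℂ).restrict (essBdry A)) ≤
            ENNReal.ofReal (Real.exp (((a:ℝ) + 1) / 4)) * ∫⁻ ζ in Ann η a, F ζ
              ∂((Measure.hausdorffMeasure 1 : Measure ℂ).restrict (essBdry A)) := by
          rw [← lintegral_const_mul' _ _ ENNReal.ofReal_ne_top]
          apply setLIntegral_mono' (measurableSet_Ann η a)
          intro ζ hζ
          rw [mul_comm]
          gcongr
          exact hζ.2.le
        refine (mul_le_mul_right h1 _).trans (le_of_eq ?_)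
        rw [← mul_assoc]
        congr 1
        rw [show (26:ℝ≥0∞) = ENNReal.ofReal 26 by norm_num, ← ENNReal.ofReal_mul (by norm_num),
          ← ENNReal.ofReal_mul (by positivity)]
        congr 1
        have : Real.exp (-((a:ℝ) / 4)) * Real.exp (((a:ℝ) + 1) / 4) = Real.exp (1 / 4) := by
          rw [← Real.exp_add]; congr 1; ring
        calc 26 * (2 * Real.exp (-((a:ℝ) / 4))) * Real.exp (((a:ℝ) + 1) / 4)
            = 52 * (Real.exp (-((a:ℝ) / 4)) * Real.exp (((a:ℝ) + 1) / 4)) := by ring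
          _ = _ := by rw [this]
    _ = ENNReal.ofReal (52 * Real.exp (1 / 4)) * ∫⁻ ζ in ⋃ a, Ann η a, F ζ
          ∂((Measure.hausdorffMeasure 1 : Measure ℂ).restrict (essBdry A)) := by
        rw [ENNReal.tsum_mul_left, lintegral_iUnion (measurableSet_Ann η) (Ann_disj η)]
    _ ≤ _ := mul_le_mul_right (setLIntegral_le_lintegral _ _) _

lemma essBdry_subset (A : Set ℂ) : essBdry A ⊆ frontier A := by
  have key : ∀ (B : Set ℂ) (ζ : ℂ), ζ ∉ closure B → ZD B ζ := by
    intro B ζ h ε hε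
    rw [mem_closure_iff_nhds_basis Metric.nhds_basis_closedBall] at h
    push Not at h
    obtain ⟨δ, hδ, hB⟩ := h
    have : ∀ᶠ r in 𝓝[>] (0:ℝ), r < δ := eventually_nhdsWithin_of_eventually_nhds (eventually_lt_nhds hδ)
    filter_upwards [this] with r hr
    have h0 : B ∩ closedBall ζ r = ∅ := by
      ext x
      simp only [mem_inter_iff, mem_empty_iff_false, iff_false, not_and]
      intro h1 h2
      exact hB x h1 (closedBall_subset_closedBall hr.le h2)
    rw [h0]; simp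
  intro ζ hζ
  rw [mem_essBdry] at hζ
  rw [frontier_eq_closure_inter_closure]
  constructor
  · by_contra h
    exact hζ.1 (key A ζ h)
  · by_contra h
    exact hζ.2 (key Aᶜ ζ h)

lemma NN_frontier_compl (s : Bool) (η : ℂ) {A : Set ℂ} (hA : MeasurableSet A)
    (hfin : ∀ a : ℤ, Measure.hausdorffMeasure 1 (essBdry A ∩ Ann η a) < ∞) :
    NN s η hA (frontier A)ᶜ = 0 := by
  have hm : MeasurableSet (frontier A)ᶜ := isClosed_frontier.measurableSet.compl
  rw [← lintegral_indicator_one hm, lintegral_NN' s η hA hfin (measurable_one.indicator hm)]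
  have : ∀ p, ∑' t : PS s η A p, (frontier A)ᶜ.indicator (1 : ℂ → ℝ≥0∞) (Th s η (p, t)) = 0 := by
    intro p
    rw [ENNReal.tsum_eq_zero]
    rintro ⟨t, ht⟩
    rw [indicator_of_notMem]
    intro h
    exact h (essBdry_subset A ht.2)
  simp_rw [this]
  simp

end Pool.Agent.K1H32.CI
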