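import Pool.Agent.K1H32.CI.Ana2

/-! Continuous functions below the weight, and the variation of a signed density. -/

set_option autoImplicit false

open MeasureTheory Set Filter Topology Metric ProbabilityTheory
open scoped ENNReal NNReal

namespace Pool.Agent.K1H32.CI

variable {F : Set ℂ} {Q : ℂ → ℝ} {η : ℂ} {S : Set ℂ} {c δ : ℝ}

/-- Lipschitz regularization of the weight -/
noncomputable def qk (F : Set ℂ) (Q : ℂ → ℝ) (k : ℕ) (ζ : ℂ) : ℝ := ⨅ y : F, (Q y + k * ‖ζ - y‖)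

lemma qk_bdd (hQ : QD F Q η) (k : ℕ) (ζ : ℂ) : BddBelow (range fun y : F => Q y + k * ‖ζ - y‖) := by
  refine ⟨0, ?_⟩
  rintro _ ⟨y, rfl⟩
  have := hQ.nonneg y y.2
  show 0 ≤ Q y + k * ‖ζ - y‖
  positivity

lemma qk_nonneg (hQ : QD F Q η) (k : ℕ) (ζ : ℂ) : 0 ≤ qk F Q k ζ := by
  apply Real.iInf_nonneg
  intro y
  have := hQ.nonneg y y.2
  positivity

lemma qk_le (hQ : QD F Q η) (k : ℕ) {ζ : ℂ} (hζ : ζ ∈ F) : qk F Q k ζ ≤ Q ζ := by
  have := ciInf_le (qk_bdd hQ k ζ) ⟨ζ, hζ⟩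
  simp only [sub_self, norm_zero, mul_zero, add_zero] at this
  exact this

lemma qk_lip (hQ : QD F Q η) (hF : F.Nonempty) (k : ℕ) : LipschitzWith k (qk F Q k) := by
  apply LipschitzWith.of_le_add_mul
  intro x y
  haveI : Nonempty F := hF.to_subtype
  rw [← sub_le_iff_le_add]
  apply le_ciInf
  intro a
  rw [sub_le_iff_le_add]
  refine (ciInf_le (qk_bdd hQ k x) a).trans ?_
  have h1 : ‖x - a‖ ≤ ‖y - a‖ + dist x y := by
    rw [dist_eq_norm]
    calc ‖x - (a:ℂ)‖ = ‖(y - a) + (x - y)‖ := by congr 1; ring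
      _ ≤ _ := norm_add_le _ _
  have hk : (0:ℝ) ≤ k := Nat.cast_nonneg k
  have h2 := mul_le_mul_of_nonneg_left h1 hk
  push_cast
  nlinarith

lemma qk_tendsto (hQ : QD F Q η) {ζ : ℂ} (hζ : ζ ∈ F) :
    Tendsto (fun k => qk F Q k ζ) atTop (𝓝 (Q ζ)) := by
  haveI : Nonempty F := ⟨⟨ζ, hζ⟩⟩
  rw [Metric.tendsto_atTop]
  intro ε hε
  have h1 := hQ.lsc ζ hζ (Q ζ - ε / 2) (by linarith)
  rw [eventually_nhdsWithin_iff, Metric.eventually_nhds_iff] at h1
  obtain ⟨d, hd, h1⟩ := h1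
  obtain ⟨K, hK⟩ := exists_nat_gt (Q ζ / d)
  refine ⟨K, fun k hk => ?_⟩
  have h2 : Q ζ - ε / 2 ≤ qk F Q k ζ := by
    apply le_ciInf
    intro y
    by_cases hy : dist (y:ℂ) ζ < d
    · have := h1 hy y.2
      have : 0 ≤ (k:ℝ) * ‖ζ - y‖ := by positivity
      linarith
    · rw [not_lt, dist_comm, dist_eq_norm] at hy
      have h3 := hQ.nonneg y y.2
      have h4 : (K:ℝ) ≤ k := by exact_mod_cast hk
      have h5 : Q ζ < K * d := by rwa [div_lt_iff₀ hd] at hK
      have h6 : (K:ℝ) * d ≤ k * ‖ζ - y‖ := by gcongr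
      linarith
  have h3 := qk_le hQ k hζ
  rw [Real.dist_eq, abs_lt]
  constructor <;> linarith

lemma sign_mul_self' (x : ℝ) : (SignType.sign x : ℝ) * x = |x| := by
  rcases lt_trichotomy x 0 with h | h | h
  · simp [sign_neg h, abs_of_neg h]
  · simp [h]
  · simp [sign_pos h, abs_of_pos h]

lemma abs_sign_le (x : ℝ) : |(SignType.sign x : ℝ)| ≤ 1 := by
  rcases lt_trichotomy x 0 with h | h | h
  · simp [sign_neg h]
  · simp [h]
  · simp [sign_pos h]

lemma clip_le {x y : ℝ} (hx : |x| ≤ 1) : |x - max (-1) (min 1 y)| ≤ |x - y| := by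
  have h := abs_le.1 hx
  rcases le_total y 1 with h1 | h1
  · rw [min_eq_right h1]
    rcases le_total (-1) y with h2 | h2
    · rw [max_eq_right h2]
    · rw [max_eq_left h2, abs_of_nonneg (by linarith), abs_of_nonneg (by linarith)]
      linarith
  · rw [min_eq_left h1, max_eq_right (by linarith), abs_of_nonpos (by linarith), abs_of_nonpos (by linarith)]
    linarith

lemma abs_clip (y : ℝ) : |max (-1) (min 1 y)| ≤ 1 := by
  rw [abs_le]
  exact ⟨le_max_left _ _, max_le (by norm_num) (min_le_left _ _)⟩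

theorem variation {N : Measure ℂ} (hfin : N {ζ | δ < ‖ζ - η‖} < ∞) {w : ℂ → ℝ}
    (hw : Measurable w) {W M : ℝ} (hW : ∀ᵐ ζ ∂N, |w ζ| ≤ W)
    (h : ∀ g : ℂ → ℝ, Continuous g → (∀ ζ, |g ζ| ≤ 1) → (∀ ζ, ‖ζ - η‖ ≤ δ → g ζ = 0) →
      |∫ ζ, g ζ * w ζ ∂N| ≤ M) :
    ∫ ζ in {ζ | δ < ‖ζ - η‖}, |w ζ| ∂N ≤ M := by
  set U : Set ℂ := {ζ | δ < ‖ζ - η‖} with hU
  have hUo : IsOpen U := isOpen_lt continuous_const (by fun_prop)
  have hUm : MeasurableSet U := hUo.measurableSet
  haveI : IsFiniteMeasure (N.restrict U) := ⟨by rw [Measure.restrict_apply_univ]; exact hfin⟩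
  have hWU : ∀ᵐ ζ ∂(N.restrict U), |w ζ| ≤ W := ae_restrict_of_ae hW
  set σ : ℂ → ℝ := fun ζ => (SignType.sign (w ζ) : ℝ) with hσ
  have hσm : Measurable σ := by
    have h1 : Measurable (fun x : ℝ => (SignType.sign x : ℝ)) := by
      have : (fun x : ℝ => (SignType.sign x : ℝ)) = fun x => if 0 < x then 1 else if x < 0 then -1 else 0 := by
        funext x
        rcases lt_trichotomy x 0 with h | h | h
        · simp [sign_neg h, h, not_lt.2 h.le]
        · simp [h]
        · simp [sign_pos h, h]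
      rw [this]
      exact Measurable.ite measurableSet_Ioi measurable_const
        (Measurable.ite measurableSet_Iio measurable_const measurable_const)
    exact h1.comp hw
  have hσi : Integrable σ (N.restrict U) :=
    Integrable.of_bound hσm.aestronglyMeasurable 1 (Eventually.of_forall fun ζ => abs_sign_le _)
  -- functions with values in `[-1, 1]`
  have key : ∀ g : ℂ → ℝ, Continuous g → (∀ ζ, |g ζ| ≤ 1) → |∫ ζ in U, g ζ * w ζ ∂N| ≤ M := by
    intro g hg hg1
    set θ : ℕ → ℂ → ℝ := fun n ζ => min 1 (n * max 0 (‖ζ - η‖ - δ)) with hθ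
    have hθc : ∀ n, Continuous (θ n) := by intro n; fun_prop
    have hθ0 : ∀ n ζ, 0 ≤ θ n ζ := by
      intro n ζ
      exact le_min zero_le_one (mul_nonneg (Nat.cast_nonneg n) (le_max_left _ _))
    have hθ1 : ∀ n ζ, θ n ζ ≤ 1 := fun n ζ => min_le_left _ _
    have hlim : Tendsto (fun n => ∫ ζ in U, (g ζ * θ n ζ) * w ζ ∂N) atTop (𝓝 (∫ ζ in U, g ζ * w ζ ∂N)) := by
      apply tendsto_integral_of_dominated_convergence (fun _ => W)
      · intro n
        exact ((hg.mul (hθc n)).measurable.mul hw).aestronglyMeasurable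
      · exact integrable_const W
      · intro n
        filter_upwards [hWU] with ζ hζ
        rw [norm_mul, norm_mul, Real.norm_eq_abs, Real.norm_eq_abs, Real.norm_eq_abs, abs_of_nonneg (hθ0 n ζ)]
        have h1 : |g ζ| * θ n ζ ≤ 1 := by nlinarith [hg1 ζ, hθ0 n ζ, hθ1 n ζ, abs_nonneg (g ζ)]
        nlinarith [abs_nonneg (w ζ)]
      · filter_upwards [ae_restrict_mem hUm] with ζ hζ
        have hζ : δ < ‖ζ - η‖ := hζ
        apply tendsto_const_nhds.congr'
        obtain ⟨K, hK⟩ := exists_nat_gt (1 / (‖ζ - η‖ - δ))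
        filter_upwards [eventually_ge_atTop K] with n hn
        have hpos : 0 < ‖ζ - η‖ - δ := by linarith
        have h1 : θ n ζ = 1 := by
          apply min_eq_left
          rw [max_eq_right hpos.le]
          rw [div_lt_iff₀ hpos] at hK
          have : (K:ℝ) ≤ n := by exact_mod_cast hn
          nlinarith
        show g ζ * w ζ = g ζ * θ n ζ * w ζ
        rw [h1, mul_one]
    apply le_of_tendsto hlim.abs
    filter_upwards with n
    have h1 := h (fun ζ => g ζ * θ n ζ) (hg.mul (hθc n)) (by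
      intro ζ
      rw [abs_mul, abs_of_nonneg (hθ0 n ζ)]
      nlinarith [hg1 ζ, hθ0 n ζ, hθ1 n ζ, abs_nonneg (g ζ)]) (by
      intro ζ hζ
      have : θ n ζ = 0 := by
        show min 1 ((n:ℝ) * max 0 (‖ζ - η‖ - δ)) = 0
        rw [max_eq_left (by linarith), mul_zero, min_eq_right zero_le_one]
      show g ζ * θ n ζ = 0
      rw [this, mul_zero])
    have h2 : ∫ ζ in U, (g ζ * θ n ζ) * w ζ ∂N = ∫ ζ, (g ζ * θ n ζ) * w ζ ∂N := by
      apply setIntegral_eq_integral_of_forall_compl_eq_zero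
      intro ζ hζ
      have hζ : ¬ δ < ‖ζ - η‖ := hζ
      have : θ n ζ = 0 := by
        show min 1 ((n:ℝ) * max 0 (‖ζ - η‖ - δ)) = 0
        rw [max_eq_left (by linarith [not_lt.1 hζ]), mul_zero, min_eq_right zero_le_one]
      rw [this]; ring
    rw [h2]
    exact h1
  have hW0 : 0 ≤ |W| := abs_nonneg W
  apply le_of_forall_pos_le_add
  intro ε hε
  obtain ⟨g0, hg0, _⟩ := hσi.exists_boundedContinuous_integral_sub_le (ε := ε / (|W| + 1)) (by positivity)
  set g : ℂ → ℝ := fun ζ => max (-1) (min 1 (g0 ζ)) with hgdef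
  have hgc : Continuous g := by
    have := g0.continuous
    exact continuous_const.max (continuous_const.min this)
  have hg1 : ∀ ζ, |g ζ| ≤ 1 := fun ζ => abs_clip _
  have hk := key g hgc hg1
  have hgi : Integrable (fun ζ => g ζ * w ζ) (N.restrict U) := by
    refine Integrable.of_bound (hgc.measurable.mul hw).aestronglyMeasurable W ?_
    filter_upwards [hWU] with ζ hζ
    rw [norm_mul, Real.norm_eq_abs, Real.norm_eq_abs]
    nlinarith [abs_nonneg (w ζ), hg1 ζ]
  have hwi : Integrable (fun ζ => |w ζ|) (N.restrict U) := by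
    refine Integrable.of_bound (measurable_abs.comp hw).aestronglyMeasurable W ?_
    filter_upwards [hWU] with ζ hζ
    rw [Real.norm_eq_abs, abs_abs]; exact hζ
  have hgσ : Integrable (fun ζ => |σ ζ - g0 ζ|) (N.restrict U) := by
    have : Integrable (fun ζ => g0 ζ) (N.restrict U) := g0.integrable _
    exact (hσi.sub this).abs
  have hdiff : (∫ ζ in U, |w ζ| ∂N) - ∫ ζ in U, g ζ * w ζ ∂N ≤ |W| * ∫ ζ in U, |σ ζ - g0 ζ| ∂N := by
    rw [← integral_sub hwi hgi, ← integral_const_mul]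
    apply integral_mono_ae (hwi.sub hgi) (hgσ.const_mul _)
    filter_upwards [hWU] with ζ hζ
    have h1 : |w ζ| - g ζ * w ζ = (σ ζ - g ζ) * w ζ := by
      rw [← sign_mul_self' (w ζ)]
      ring
    show |w ζ| - g ζ * w ζ ≤ |W| * |σ ζ - g0 ζ|
    rw [h1]
    calc (σ ζ - g ζ) * w ζ ≤ |(σ ζ - g ζ) * w ζ| := le_abs_self _
      _ = |w ζ| * |σ ζ - g ζ| := by rw [abs_mul, mul_comm]
      _ ≤ |W| * |σ ζ - g0 ζ| :=
        mul_le_mul (hζ.trans (le_abs_self W)) (clip_le (abs_sign_le _)) (abs_nonneg _) hW0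
  have h3 : |W| * ∫ ζ in U, |σ ζ - g0 ζ| ∂N ≤ ε := by
    calc |W| * ∫ ζ in U, |σ ζ - g0 ζ| ∂N ≤ |W| * (ε / (|W| + 1)) := by
          gcongr
          exact hg0
      _ = ε * (|W| / (|W| + 1)) := by ring
      _ ≤ ε * 1 := by
          gcongr
          rw [div_le_one (by positivity)]; linarith
      _ = ε := mul_one _
  have h4 := le_abs_self (∫ ζ in U, g ζ * w ζ ∂N)
  linarith

end Pool.Agent.K1H32.CI
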