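import Pool.Agent.K1H32.CI.Nec1

/-! The Banach space and the uniform boundedness principle. -/

set_option autoImplicit false

open MeasureTheory Set Filter Topology Metric ProbabilityTheory
open scoped ENNReal NNReal

namespace Pool.Agent.K1H32.CI

variable {F : Set ℂ} {Q : ℂ → ℝ} {η : ℂ} {S : Set ℂ} {c δ : ℝ}

/-- the ambient Banach space of bounded functions -/
abbrev LB : Type := lp (fun _ : ℂ => ℝ) ∞

lemma LB.le (u : LB) (ζ : ℂ) : |u ζ| ≤ ‖u‖ := by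
  have := lp.norm_apply_le_norm (p := ∞) (by simp) u ζ
  rwa [Real.norm_eq_abs] at this

/-- bounded `u` such that `u Q` is continuous and `u` tends to zero at `η` -/
def YY (F : Set ℂ) (Q : ℂ → ℝ) (η : ℂ) : Submodule ℝ LB where
  carrier := {u | ContinuousOn (fun ζ => u ζ * Q ζ) F ∧ Tendsto (fun ζ => u ζ) (𝓝[F] η) (𝓝 0)}
  add_mem' := by
    rintro u v ⟨h1, h2⟩ ⟨h3, h4⟩
    refine ⟨?_, ?_⟩
    · have := h1.add h3
      refine this.congr ?_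
      intro ζ _
      simp [add_mul]
    · have := h2.add h4
      simpa using this
  zero_mem' := by
    refine ⟨?_, ?_⟩
    · simp [continuousOn_const]
    · show Tendsto (fun _ : ℂ => (0:ℝ)) (𝓝[F] η) (𝓝 0)
      exact tendsto_const_nhds
  smul_mem' := by
    rintro a u ⟨h1, h2⟩
    refine ⟨?_, ?_⟩
    · have := continuousOn_const (c := a) |>.mul h1
      refine this.congr ?_
      intro ζ _
      simp [mul_assoc]
    · have := h2.const_mul a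
      simpa using this

lemma isClosed_YY (hQ : QD F Q η) : IsClosed (YY F Q η : Set LB) := by
  rw [← isSeqClosed_iff_isClosed]
  intro u v hu huv
  obtain ⟨B, hB⟩ := hQ.bdd
  have hnorm : Tendsto (fun n => ‖u n - v‖) atTop (𝓝 0) := by
    have := (tendsto_iff_norm_sub_tendsto_zero.1 huv)
    exact this
  have hpt : ∀ n ζ, |u n ζ - v ζ| ≤ ‖u n - v‖ := by
    intro n ζ
    have := LB.le (u n - v) ζ
    simpa using this
  refine ⟨?_, ?_⟩
  · have hun : TendstoUniformlyOn (fun n ζ => u n ζ * Q ζ) (fun ζ => v ζ * Q ζ) atTop F := by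
      rw [Metric.tendstoUniformlyOn_iff]
      intro ε hε
      have h1 : Tendsto (fun n => ‖u n - v‖ * |B|) atTop (𝓝 (0 * |B|)) := hnorm.mul_const _
      rw [zero_mul] at h1
      filter_upwards [h1.eventually_lt_const hε] with n hn ζ hζ
      rw [dist_comm, Real.dist_eq, ← sub_mul, abs_mul, abs_of_nonneg (hQ.nonneg ζ hζ)]
      have h2 := hpt n ζ
      have h3 := (hB ζ hζ).trans (le_abs_self B)
      calc |u n ζ - v ζ| * Q ζ ≤ ‖u n - v‖ * |B| :=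
            mul_le_mul h2 h3 (hQ.nonneg ζ hζ) (norm_nonneg _)
        _ < ε := hn
    exact hun.continuousOn (Eventually.of_forall fun n => (hu n).1).frequently
  · rw [Metric.tendsto_nhds]
    intro ε hε
    obtain ⟨n, hn⟩ := (hnorm.eventually_lt_const (half_pos hε)).exists
    have h1 := (Metric.tendsto_nhds.1 (hu n).2) (ε / 2) (half_pos hε)
    filter_upwards [h1] with ζ hζ
    rw [Real.dist_eq, sub_zero] at hζ ⊢
    have h2 := hpt n ζ
    have h3 : |v ζ| ≤ |u n ζ| + |u n ζ - v ζ| := by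
      have := abs_sub_abs_le_abs_sub (v ζ) (u n ζ)
      rw [abs_sub_comm] at this
      linarith
    linarith

lemma YY.xx (hQ : QD F Q η) {u : LB} (hu : u ∈ YY F Q η) : XX F Q η (fun ζ => u ζ * Q ζ) := by
  refine ⟨hu.1, fun ε hε => ?_⟩
  have h1 := (Metric.tendsto_nhds.1 hu.2) ε hε
  rw [eventually_nhdsWithin_iff, Metric.eventually_nhds_iff] at h1
  obtain ⟨d, hd, h1⟩ := h1
  refine ⟨d, hd, fun ζ hζ hdist => ?_⟩
  have h2 := h1 (by rw [dist_eq_norm]; exact hdist) hζ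
  rw [Real.dist_eq, sub_zero] at h2
  rw [abs_mul, abs_of_nonneg (hQ.nonneg ζ hζ)]
  exact mul_le_mul_of_nonneg_right h2.le (hQ.nonneg ζ hζ)

/-- integrability of the integrands at one point -/
lemma DN.int_at {N : Measure ℂ} (hN : DN F Q η N) (hQ : QD F Q η) {s : ℂ → ℝ} (hs : Measurable s)
    (hs' : ∀ᵐ ζ ∂N, |s ζ| = 1) {h : ℂ → ℝ} (hh : ContinuousOn h F) {C : ℝ} (hC : ∀ ζ ∈ F, |h ζ| ≤ C * Q ζ)
    {k : ℂ → ℝ} (hk : Measurable k) {D : ℝ} (hkD : ∀ ζ ∈ F, |k ζ| ≤ D * ‖ζ - η‖) :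
    Integrable (fun ζ => s ζ * (h ζ * k ζ)) N ∧
      |∫ ζ, s ζ * (h ζ * k ζ) ∂N| ≤ C * D * ∫ ζ, F.indicator Q ζ * ‖ζ - η‖ ∂N := by
  have hb : ∀ᵐ ζ ∂N, ‖s ζ * (h ζ * k ζ)‖ ≤ C * D * (F.indicator Q ζ * ‖ζ - η‖) := by
    filter_upwards [hs', hN.ae_mem] with ζ h1 h2
    rw [norm_mul, Real.norm_eq_abs, h1, one_mul, norm_mul, Real.norm_eq_abs, Real.norm_eq_abs,
      indicator_of_mem h2]
    calc |h ζ| * |k ζ| ≤ (C * Q ζ) * (D * ‖ζ - η‖) :=
          mul_le_mul (hC ζ h2) (hkD ζ h2) (abs_nonneg _) ((abs_nonneg _).trans (hC ζ h2))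
      _ = _ := by ring
  refine ⟨(hN.int.const_mul (C * D)).mono' (hN.aesm_mul hQ hs hh hk) hb, ?_⟩
  have := norm_integral_le_of_norm_le (hN.int.const_mul (C * D)) hb
  rwa [integral_const_mul, Real.norm_eq_abs] at this

lemma Geo.kz_lin (hg : Geo F S η c δ) (hηS : η ∉ S) {z : ℂ} (hz : z ∈ S) (hzd : ‖z - η‖ < δ) {ζ : ℂ}
    (hζ : ζ ∈ F) : ‖kz η z ζ‖ ≤ 1 / (c * ‖z - η‖) * ‖ζ - η‖ := by
  have hpos := hg.pos_dist hηS hz hzd hζ
  have h1 := hg.le z hz hzd ζ hζ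
  have hne : z ≠ η := fun h => hηS (h ▸ hz)
  have h2 : 0 < ‖z - η‖ := norm_pos_iff.2 (sub_ne_zero.2 hne)
  have hc := hg.c_pos
  unfold kz
  rw [norm_div, one_div_mul_eq_div]
  apply div_le_div_of_nonneg_left (norm_nonneg _) (by positivity)
  nlinarith [norm_nonneg (ζ - η)]

theorem exists_bound {N₁ N₂ : Measure ℂ} {s₁ s₂ : ℂ → ℝ} (hQ : QD F Q η) (hN₁ : DN F Q η N₁)
    (hN₂ : DN F Q η N₂) (hs₁ : Measurable s₁) (hs₂ : Measurable s₂) (hs₁' : ∀ᵐ ζ ∂N₁, |s₁ ζ| = 1)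
    (hs₂' : ∀ᵐ ζ ∂N₂, |s₂ ζ| = 1) (hg : Geo F S η c δ) (hηS : η ∉ S)
    (hlim : ∀ h, XX F Q η h → ∃ L, Tendsto (Lam N₁ N₂ s₁ s₂ η h) (𝓝[S] η) (𝓝 L))
    {z : ℕ → ℂ} (hz : ∀ n, z n ∈ S) (hzd : ∀ n, ‖z n - η‖ < δ) (hzt : Tendsto z atTop (𝓝 η)) :
    ∃ M : ℝ, ∀ n, ∀ h, XX F Q η h → (∀ ζ ∈ F, |h ζ| ≤ Q ζ) → |Lam N₁ N₂ s₁ s₂ η h (z n)| ≤ M := by
  haveI : CompleteSpace (YY F Q η) := (isClosed_YY hQ).completeSpace_coe
  set I₁ : ℝ := ∫ ζ, F.indicator Q ζ * ‖ζ - η‖ ∂N₁ with hI₁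
  set I₂ : ℝ := ∫ ζ, F.indicator Q ζ * ‖ζ - η‖ ∂N₂ with hI₂
  have hD0 : ∀ n, 0 ≤ 1 / (c * ‖z n - η‖) := fun n => by
    have := hg.c_pos
    positivity
  have hre : ∀ n, ∀ ζ ∈ F, |(kz η (z n) ζ).re| ≤ 1 / (c * ‖z n - η‖) * ‖ζ - η‖ := fun n ζ hζ =>
    (Complex.abs_re_le_norm _).trans (hg.kz_lin hηS (hz n) (hzd n) hζ)
  have him : ∀ n, ∀ ζ ∈ F, |(kz η (z n) ζ).im| ≤ 1 / (c * ‖z n - η‖) * ‖ζ - η‖ := fun n ζ hζ =>
    (Complex.abs_im_le_norm _).trans (hg.kz_lin hηS (hz n) (hzd n) hζ)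
  have hmre : ∀ n, Measurable (fun ζ => (kz η (z n) ζ).re) := fun n =>
    Complex.measurable_re.comp (measurable_kz η (z n))
  have hmim : ∀ n, Measurable (fun ζ => (kz η (z n) ζ).im) := fun n =>
    Complex.measurable_im.comp (measurable_kz η (z n))
  have hub : ∀ u : YY F Q η, ∀ ζ ∈ F, |(u : LB) ζ * Q ζ| ≤ ‖u‖ * Q ζ := by
    intro u ζ hζ
    rw [abs_mul, abs_of_nonneg (hQ.nonneg ζ hζ)]
    exact mul_le_mul_of_nonneg_right (LB.le u ζ) (hQ.nonneg ζ hζ)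
  let T : ℕ → (YY F Q η →L[ℝ] ℝ) := fun n => LinearMap.mkContinuous
    { toFun := fun u => Lam N₁ N₂ s₁ s₂ η (fun ζ => (u : LB) ζ * Q ζ) (z n)
      map_add' := by
        intro u v
        unfold Lam
        have a1 := (hN₁.int_at hQ hs₁ hs₁' u.2.1 (hub u) (hmre n) (hre n)).1
        have a2 := (hN₁.int_at hQ hs₁ hs₁' v.2.1 (hub v) (hmre n) (hre n)).1
        have b1 := (hN₂.int_at hQ hs₂ hs₂' u.2.1 (hub u) (hmim n) (him n)).1
        have b2 := (hN₂.int_at hQ hs₂ hs₂' v.2.1 (hub v) (hmim n) (him n)).1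
        have e1 : ∫ ζ, s₁ ζ * (((u + v : YY F Q η) : LB) ζ * Q ζ * (kz η (z n) ζ).re) ∂N₁ =
            (∫ ζ, s₁ ζ * ((u : LB) ζ * Q ζ * (kz η (z n) ζ).re) ∂N₁) +
            ∫ ζ, s₁ ζ * ((v : LB) ζ * Q ζ * (kz η (z n) ζ).re) ∂N₁ := by
          rw [← integral_add a1 a2]
          congr 1
          funext ζ
          simp
          ring
        have e2 : ∫ ζ, s₂ ζ * (((u + v : YY F Q η) : LB) ζ * Q ζ * (kz η (z n) ζ).im) ∂N₂ =
            (∫ ζ, s₂ ζ * ((u : LB) ζ * Q ζ * (kz η (z n) ζ).im) ∂N₂) +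
            ∫ ζ, s₂ ζ * ((v : LB) ζ * Q ζ * (kz η (z n) ζ).im) ∂N₂ := by
          rw [← integral_add b1 b2]
          congr 1
          funext ζ
          simp
          ring
        rw [e1, e2]
        ring
      map_smul' := by
        intro a u
        unfold Lam
        have e1 : ∫ ζ, s₁ ζ * (((a • u : YY F Q η) : LB) ζ * Q ζ * (kz η (z n) ζ).re) ∂N₁ =
            a * ∫ ζ, s₁ ζ * ((u : LB) ζ * Q ζ * (kz η (z n) ζ).re) ∂N₁ := by
          rw [← integral_const_mul]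
          congr 1
          funext ζ
          simp
          ring
        have e2 : ∫ ζ, s₂ ζ * (((a • u : YY F Q η) : LB) ζ * Q ζ * (kz η (z n) ζ).im) ∂N₂ =
            a * ∫ ζ, s₂ ζ * ((u : LB) ζ * Q ζ * (kz η (z n) ζ).im) ∂N₂ := by
          rw [← integral_const_mul]
          congr 1
          funext ζ
          simp
          ring
        rw [e1, e2]
        simp
        ring }
    (1 / (c * ‖z n - η‖) * (I₁ + I₂)) (by
      intro u
      show ‖Lam N₁ N₂ s₁ s₂ η (fun ζ => (u : LB) ζ * Q ζ) (z n)‖ ≤ _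
      unfold Lam
      have a1 := (hN₁.int_at hQ hs₁ hs₁' u.2.1 (hub u) (hmre n) (hre n)).2
      have b1 := (hN₂.int_at hQ hs₂ hs₂' u.2.1 (hub u) (hmim n) (him n)).2
      rw [Real.norm_eq_abs]
      refine (abs_add_le _ _).trans ((add_le_add a1 b1).trans (le_of_eq ?_))
      ring)
  have hT : ∀ n u, T n u = Lam N₁ N₂ s₁ s₂ η (fun ζ => (u : LB) ζ * Q ζ) (z n) := fun n u => rfl
  have hbs : ∃ M, ∀ n, ‖T n‖ ≤ M := by
    apply banach_steinhaus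
    intro u
    obtain ⟨L, hL⟩ := hlim _ (YY.xx hQ u.2)
    have h1 : Tendsto (fun n => T n u) atTop (𝓝 L) := by
      apply hL.comp
      rw [tendsto_nhdsWithin_iff]
      exact ⟨hzt, Eventually.of_forall hz⟩
    obtain ⟨M, hM⟩ := h1.norm.bddAbove_range
    exact ⟨M, fun n => hM ⟨n, rfl⟩⟩
  obtain ⟨M, hM⟩ := hbs
  refine ⟨M, fun n h hh hle => ?_⟩
  classical
  set v : ℂ → ℝ := fun ζ => if ζ ∈ F then h ζ / Q ζ else 0 with hv
  have hv1 : ∀ ζ, |v ζ| ≤ 1 := by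
    intro ζ
    by_cases hζ : ζ ∈ F
    · have : v ζ = h ζ / Q ζ := if_pos hζ
      rw [this, abs_div, abs_of_nonneg (hQ.nonneg ζ hζ)]
      exact div_le_one_of_le₀ (hle ζ hζ) (hQ.nonneg ζ hζ)
    · have : v ζ = 0 := if_neg hζ
      rw [this]; simp
  have hvQ : ∀ ζ ∈ F, v ζ * Q ζ = h ζ := by
    intro ζ hζ
    have e : v ζ = h ζ / Q ζ := if_pos hζ
    rw [e]
    by_cases hq : Q ζ = 0
    · have := hle ζ hζ
      rw [hq] at this
      have h0 : h ζ = 0 := abs_eq_zero.1 (le_antisymm this (abs_nonneg _))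
      rw [hq, h0]; simp
    · field_simp
  have hmem : Memℓp v ∞ := by
    apply memℓp_infty
    refine ⟨1, ?_⟩
    rintro _ ⟨ζ, rfl⟩
    exact hv1 ζ
  let u0 : LB := ⟨v, hmem⟩
  have hu0 : ∀ ζ, u0 ζ = v ζ := fun ζ => rfl
  have hu0m : u0 ∈ YY F Q η := by
    refine ⟨?_, ?_⟩
    · refine hh.cont.congr ?_
      intro ζ hζ
      exact hvQ ζ hζ
    · rw [Metric.tendsto_nhds]
      intro ε hε
      obtain ⟨d, hd, h1⟩ := hh.small (ε / 2) (half_pos hε)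
      rw [eventually_nhdsWithin_iff, Metric.eventually_nhds_iff]
      refine ⟨d, hd, fun ζ hζd hζ => ?_⟩
      rw [dist_eq_norm] at hζd
      have h2 := h1 ζ hζ hζd
      have e : v ζ = h ζ / Q ζ := if_pos hζ
      rw [Real.dist_eq, sub_zero, hu0, e, abs_div, abs_of_nonneg (hQ.nonneg ζ hζ)]
      have h3 : |h ζ| / Q ζ ≤ ε / 2 := by
        apply div_le_of_le_mul₀ (hQ.nonneg ζ hζ) (by positivity) h2
      linarith
  have hnorm : ‖(⟨u0, hu0m⟩ : YY F Q η)‖ ≤ 1 := by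
    show ‖u0‖ ≤ 1
    apply lp.norm_le_of_forall_le zero_le_one
    intro ζ
    exact hv1 ζ
  have h5 := (T n).le_opNorm ⟨u0, hu0m⟩
  rw [hT] at h5
  have hLam : Lam N₁ N₂ s₁ s₂ η (fun ζ => ((⟨u0, hu0m⟩ : YY F Q η) : LB) ζ * Q ζ) (z n) =
      Lam N₁ N₂ s₁ s₂ η h (z n) := by
    unfold Lam
    congr 1
    · apply integral_congr_ae
      filter_upwards [hN₁.ae_mem] with ζ hζ
      show s₁ ζ * (v ζ * Q ζ * (kz η (z n) ζ).re) = _
      rw [hvQ ζ hζ]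
    · apply integral_congr_ae
      filter_upwards [hN₂.ae_mem] with ζ hζ
      show s₂ ζ * (v ζ * Q ζ * (kz η (z n) ζ).im) = _
      rw [hvQ ζ hζ]
  rw [hLam, Real.norm_eq_abs] at h5
  refine h5.trans ?_
  have h6 : 0 ≤ ‖T n‖ := (T n).opNorm_nonneg
  calc ‖T n‖ * ‖(⟨u0, hu0m⟩ : YY F Q η)‖ ≤ ‖T n‖ * 1 := by gcongr
    _ ≤ M := by rw [mul_one]; exact hM n

end Pool.Agent.K1H32.CI
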