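import Pool.Agent.K1H32.CI.Nec2

/-! Necessity of the conditions. -/

set_option autoImplicit false

open MeasureTheory Set Filter Topology Metric ProbabilityTheory
open scoped ENNReal NNReal

namespace Pool.Agent.K1H32.CI

variable {F : Set ℂ} {Q : ℂ → ℝ} {η : ℂ} {S : Set ℂ} {c c₂ δ : ℝ}

/-- second geometric hypothesis on the approach region -/
structure Geo2 (F S : Set ℂ) (η : ℂ) (c₂ δ : ℝ) : Prop where
  c_pos : 0 < c₂
  le : ∀ z ∈ S, ‖z - η‖ < δ → ∀ ζ ∈ F, ‖ζ - η‖ < δ → c₂ * (‖ζ - η‖ * ‖z - η‖) ≤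
    |(ζ - η).re * (z - η).im - (ζ - η).im * (z - η).re|

lemma qk_ind_le (hQ : QD F Q η) (k : ℕ) {ζ : ℂ} (hζ : ζ ∈ F) : qk F Q k ζ ≤ F.indicator Q ζ := by
  rw [indicator_of_mem hζ]; exact qk_le hQ k hζ

lemma xx_test (hQ : QD F Q η) (hF : F.Nonempty) (k : ℕ) {g : ℂ → ℝ} (hg : Continuous g) {d : ℝ}
    (hd : 0 < d) (hg0 : ∀ ζ, ‖ζ - η‖ ≤ d → g ζ = 0) : XX F Q η (fun ζ => g ζ * qk F Q k ζ) := by
  refine ⟨(hg.mul (qk_lip hQ hF k).continuous).continuousOn, fun ε hε => ⟨d, hd, fun ζ hζ hζd => ?_⟩⟩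
  rw [hg0 ζ hζd.le, zero_mul, abs_zero]
  exact mul_nonneg hε.le (hQ.nonneg ζ hζ)

lemma test_le (hQ : QD F Q η) (k : ℕ) {g : ℂ → ℝ} (hg1 : ∀ ζ, |g ζ| ≤ 1) {ζ : ℂ} (hζ : ζ ∈ F) :
    |g ζ * qk F Q k ζ| ≤ Q ζ := by
  rw [abs_mul, abs_of_nonneg (qk_nonneg hQ k ζ)]
  have h1 := qk_le hQ k hζ
  have h2 := qk_nonneg hQ k ζ
  nlinarith [hg1 ζ, abs_nonneg (g ζ)]

theorem dens_bound {N : Measure ℂ} (hQ : QD F Q η) (hF : F.Nonempty) (hN : DN F Q η N) {w : ℂ → ℝ}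
    (hw : Measurable w) {W M : ℝ} (hW0 : 0 ≤ W) (hW : ∀ᵐ ζ ∂N, |w ζ| ≤ W)
    (h : ∀ (k : ℕ) (d : ℝ), 0 < d → ∀ g : ℂ → ℝ, Continuous g → (∀ ζ, |g ζ| ≤ 1) →
      (∀ ζ, ‖ζ - η‖ ≤ d → g ζ = 0) → |∫ ζ, g ζ * (qk F Q k ζ * w ζ) ∂N| ≤ M) :
    ∫⁻ ζ, ENNReal.ofReal (F.indicator Q ζ * |w ζ|) ∂N ≤ ENNReal.ofReal M := by
  obtain ⟨B, hB0, hB⟩ := hQ.ind_bdd
  have hqm : ∀ k, Measurable (qk F Q k) := fun k => (qk_lip hQ hF k).continuous.measurable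
  set f : ℕ → ℂ → ℝ≥0∞ := fun m => {ζ | 1 / ((m:ℝ) + 1) < ‖ζ - η‖}.indicator
    (fun ζ => ENNReal.ofReal (qk F Q m ζ * |w ζ|)) with hf
  have hset : ∀ m : ℕ, MeasurableSet {ζ : ℂ | 1 / ((m:ℝ) + 1) < ‖ζ - η‖} := fun m =>
    (isOpen_lt continuous_const (by fun_prop)).measurableSet
  have hfm : ∀ m, Measurable (f m) := by
    intro m
    exact (((hqm m).mul (measurable_abs.comp hw)).ennreal_ofReal).indicator (hset m)
  have hfb : ∀ m, ∫⁻ ζ, f m ζ ∂N ≤ ENNReal.ofReal M := by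
    intro m
    have hd : (0:ℝ) < 1 / ((m:ℝ) + 1) := by positivity
    have hfin : N {ζ | 1 / ((m:ℝ) + 1) < ‖ζ - η‖} < ∞ :=
      (measure_mono (fun ζ (hζ : 1 / ((m:ℝ) + 1) < ‖ζ - η‖) => hζ.le)).trans_lt (hN.finite_away hQ hd)
    have hbd : ∀ᵐ ζ ∂N, |qk F Q m ζ * w ζ| ≤ B * W := by
      filter_upwards [hW, hN.ae_mem] with ζ h1 h2
      rw [abs_mul, abs_of_nonneg (qk_nonneg hQ m ζ)]
      exact mul_le_mul ((qk_ind_le hQ m h2).trans (hB ζ)) h1 (abs_nonneg _) hB0.le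
    have hv : ∫ ζ in {ζ | 1 / ((m:ℝ) + 1) < ‖ζ - η‖}, |qk F Q m ζ * w ζ| ∂N ≤ M :=
      variation hfin ((hqm m).mul hw) hbd (h m _ hd)
    rw [hf]
    simp only
    rw [lintegral_indicator (hset m)]
    haveI : IsFiniteMeasure (N.restrict {ζ | 1 / ((m:ℝ) + 1) < ‖ζ - η‖}) :=
      ⟨by rw [Measure.restrict_apply_univ]; exact hfin⟩
    have hi : Integrable (fun ζ => |qk F Q m ζ * w ζ|) (N.restrict {ζ | 1 / ((m:ℝ) + 1) < ‖ζ - η‖}) := by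
      refine Integrable.of_bound (measurable_abs.comp ((hqm m).mul hw)).aestronglyMeasurable (B * W) ?_
      filter_upwards [ae_restrict_of_ae hbd] with ζ hζ
      rw [Real.norm_eq_abs, abs_abs]; exact hζ
    have h1 := ofReal_integral_eq_lintegral_ofReal hi (Eventually.of_forall fun ζ => abs_nonneg _)
    have h2 : ∀ ζ, |qk F Q m ζ * w ζ| = qk F Q m ζ * |w ζ| := by
      intro ζ
      rw [abs_mul, abs_of_nonneg (qk_nonneg hQ m ζ)]
    simp_rw [h2] at h1 hv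
    rw [← h1]
    exact ENNReal.ofReal_le_ofReal hv
  calc ∫⁻ ζ, ENNReal.ofReal (F.indicator Q ζ * |w ζ|) ∂N
      ≤ ∫⁻ ζ, liminf (fun m => f m ζ) atTop ∂N := by
        apply lintegral_mono_ae
        filter_upwards [hN.ae_mem, hN.ae_ne] with ζ h1 h2
        have hpos : 0 < ‖ζ - η‖ := norm_pos_iff.2 (sub_ne_zero.2 h2)
        have h3 : Tendsto (fun m => ENNReal.ofReal (qk F Q m ζ * |w ζ|)) atTop
            (𝓝 (ENNReal.ofReal (Q ζ * |w ζ|))) :=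
          (ENNReal.continuous_ofReal.tendsto _).comp ((qk_tendsto hQ h1).mul_const _)
        have h4 : Tendsto (fun m => f m ζ) atTop (𝓝 (ENNReal.ofReal (Q ζ * |w ζ|))) := by
          apply h3.congr'
          filter_upwards [one_div_small hpos] with m hm
          rw [hf]
          simp only
          rw [indicator_of_mem (show ζ ∈ {ζ | 1 / ((m:ℝ) + 1) < ‖ζ - η‖} from hm)]
        rw [h4.liminf_eq, indicator_of_mem h1]
    _ ≤ liminf (fun m => ∫⁻ ζ, f m ζ ∂N) atTop := lintegral_liminf_le hfm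
    _ ≤ ENNReal.ofReal M := by
        apply liminf_le_of_le (by isBoundedDefault)
        intro b hb
        obtain ⟨m, hm⟩ := hb.exists
        exact hm.trans (hfb m)

theorem nec_first {N₁ N₂ : Measure ℂ} {s₁ s₂ : ℂ → ℝ} (hQ : QD F Q η) (hF : F.Nonempty)
    (hN₁ : DN F Q η N₁) (hN₂ : DN F Q η N₂) (hs₁ : Measurable s₁) (hs₂ : Measurable s₂)
    (hs₁' : ∀ᵐ ζ ∂N₁, |s₁ ζ| = 1) (hs₂' : ∀ᵐ ζ ∂N₂, |s₂ ζ| = 1) (hg : Geo F S η c δ) (hηS : η ∉ S)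
    {z : ℕ → ℂ} (hz : ∀ n, z n ∈ S) (hzd : ∀ n, ‖z n - η‖ < δ) (hzt : Tendsto z atTop (𝓝 η)) {M : ℝ}
    (hM : ∀ n, ∀ h, XX F Q η h → (∀ ζ ∈ F, |h ζ| ≤ Q ζ) → |Lam N₁ N₂ s₁ s₂ η h (z n)| ≤ M) :
    Integrable (F.indicator Q) N₁ := by
  have hc := hg.c_pos
  have hb : ∫⁻ ζ, ENNReal.ofReal (F.indicator Q ζ * |s₁ ζ|) ∂N₁ ≤ ENNReal.ofReal M := by
    apply dens_bound hQ hF hN₁ hs₁ zero_le_one (hs₁'.mono fun ζ h => h.le)
    intro k d hd g hgc hg1 hg0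
    set h : ℂ → ℝ := fun ζ => g ζ * qk F Q k ζ with hh
    have hXX : XX F Q η h := xx_test hQ hF k hgc hd hg0
    have hle : ∀ ζ ∈ F, |h ζ| ≤ Q ζ := fun ζ hζ => test_le hQ k hg1 hζ
    have hle2 : ∀ ζ ∈ F, |h ζ| ≤ F.indicator Q ζ * ‖ζ - η‖ * (1 / d) := by
      intro ζ hζ
      rw [indicator_of_mem hζ]
      by_cases hζd : ‖ζ - η‖ ≤ d
      · have : h ζ = 0 := by
          show g ζ * qk F Q k ζ = 0
          rw [hg0 ζ hζd, zero_mul]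
        rw [this, abs_zero]
        have := hQ.nonneg ζ hζ
        positivity
      · rw [not_le] at hζd
        refine (hle ζ hζ).trans ?_
        have h1 := hQ.nonneg ζ hζ
        have h2 : 1 ≤ ‖ζ - η‖ * (1 / d) := by
          rw [mul_one_div, le_div_iff₀ hd]; linarith
        nlinarith
    have hev : ∀ ζ ∈ F, ∀ n, ‖kz η (z n) ζ‖ ≤ 1 / c := fun ζ hζ n => hg.norm_kz hηS (hz n) (hzd n) hζ
    have hlim1 : Tendsto (fun n => ∫ ζ, s₁ ζ * (h ζ * (kz η (z n) ζ).re) ∂N₁) atTop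
        (𝓝 (∫ ζ, s₁ ζ * h ζ ∂N₁)) := by
      apply tendsto_integral_of_dominated_convergence
        (fun ζ => F.indicator Q ζ * ‖ζ - η‖ * (1 / d) * (1 / c))
      · intro n
        exact hN₁.aesm_mul hQ hs₁ hXX.cont (Complex.measurable_re.comp (measurable_kz η (z n)))
      · exact (hN₁.int.mul_const _).mul_const _
      · intro n
        filter_upwards [hs₁', hN₁.ae_mem] with ζ h1 h2
        rw [norm_mul, Real.norm_eq_abs, h1, one_mul, norm_mul, Real.norm_eq_abs, Real.norm_eq_abs]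
        exact mul_le_mul (hle2 ζ h2) ((Complex.abs_re_le_norm _).trans (hev ζ h2 n)) (abs_nonneg _)
          ((abs_nonneg _).trans (hle2 ζ h2))
      · filter_upwards [hN₁.ae_ne] with ζ hζ
        have h1 := (tendsto_kz hζ).comp hzt
        have h2 := (Complex.continuous_re.tendsto 1).comp h1
        have h3 := (h2.const_mul (h ζ)).const_mul (s₁ ζ)
        simpa using h3
    have hlim2 : Tendsto (fun n => ∫ ζ, s₂ ζ * (h ζ * (kz η (z n) ζ).im) ∂N₂) atTop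
        (𝓝 (∫ _, (0:ℝ) ∂N₂)) := by
      apply tendsto_integral_of_dominated_convergence
        (fun ζ => F.indicator Q ζ * ‖ζ - η‖ * (1 / d) * (1 / c))
      · intro n
        exact hN₂.aesm_mul hQ hs₂ hXX.cont (Complex.measurable_im.comp (measurable_kz η (z n)))
      · exact (hN₂.int.mul_const _).mul_const _
      · intro n
        filter_upwards [hs₂', hN₂.ae_mem] with ζ h1 h2
        rw [norm_mul, Real.norm_eq_abs, h1, one_mul, norm_mul, Real.norm_eq_abs, Real.norm_eq_abs]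
        exact mul_le_mul (hle2 ζ h2) ((Complex.abs_im_le_norm _).trans (hev ζ h2 n)) (abs_nonneg _)
          ((abs_nonneg _).trans (hle2 ζ h2))
      · filter_upwards [hN₂.ae_ne] with ζ hζ
        have h1 := (tendsto_kz hζ).comp hzt
        have h2 := (Complex.continuous_im.tendsto 1).comp h1
        have h3 := (h2.const_mul (h ζ)).const_mul (s₂ ζ)
        simpa using h3
    rw [integral_zero] at hlim2
    have hlim := (hlim1.add hlim2).abs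
    rw [add_zero] at hlim
    have hres : |∫ ζ, s₁ ζ * h ζ ∂N₁| ≤ M :=
      le_of_tendsto hlim (Eventually.of_forall fun n => hM n h hXX hle)
    have heq : ∫ ζ, g ζ * (qk F Q k ζ * s₁ ζ) ∂N₁ = ∫ ζ, s₁ ζ * h ζ ∂N₁ := by
      congr 1
      funext ζ
      rw [hh]; ring
    rw [heq]
    exact hres
  have hb2 : ∫⁻ ζ, ENNReal.ofReal (F.indicator Q ζ) ∂N₁ ≤ ENNReal.ofReal M := by
    refine le_trans (le_of_eq ?_) hb
    apply lintegral_congr_ae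
    filter_upwards [hs₁'] with ζ hζ
    rw [hζ, mul_one]
  refine ⟨hQ.meas.aestronglyMeasurable, ?_⟩
  rw [hasFiniteIntegral_iff_ofReal (Eventually.of_forall hQ.ind_nonneg)]
  exact hb2.trans_lt ENNReal.ofReal_lt_top

theorem nec_second_seq {N₁ N₂ : Measure ℂ} {s₁ s₂ : ℂ → ℝ} (hQ : QD F Q η) (hF : F.Nonempty)
    (hN₁ : DN F Q η N₁) (hN₂ : DN F Q η N₂) (hs₁ : Measurable s₁) (hs₂ : Measurable s₂)
    (hs₁' : ∀ᵐ ζ ∂N₁, |s₁ ζ| = 1) (hs₂' : ∀ᵐ ζ ∂N₂, |s₂ ζ| = 1) (hg : Geo F S η c δ)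
    (hg2 : Geo2 F S η c₂ δ) (hηS : η ∉ S)
    {z : ℕ → ℂ} (hz : ∀ n, z n ∈ S) (hzd : ∀ n, ‖z n - η‖ < δ) {M : ℝ}
    (hM : ∀ n, ∀ h, XX F Q η h → (∀ ζ ∈ F, |h ζ| ≤ Q ζ) → |Lam N₁ N₂ s₁ s₂ η h (z n)| ≤ M)
    (hI : Integrable (F.indicator Q) N₁) :
    ∃ K : ℝ, ∀ n, ∫⁻ ζ in ball η ‖z n - η‖, ENNReal.ofReal (F.indicator Q ζ * ‖ζ - η‖) ∂N₂ ≤
      ENNReal.ofReal (K * ‖z n - η‖) := by
  have hc := hg.c_pos
  have hc2 := hg2.c_pos
  set M' : ℝ := M + 1 / c * ∫ ζ, F.indicator Q ζ ∂N₁ with hM'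
  refine ⟨4 / c₂ * M', fun n => ?_⟩
  have hne : z n ≠ η := fun h => hηS (h ▸ hz n)
  have ht : 0 < ‖z n - η‖ := norm_pos_iff.2 (sub_ne_zero.2 hne)
  have hkim : Measurable (fun ζ => (kz η (z n) ζ).im) := Complex.measurable_im.comp (measurable_kz η (z n))
  have hb : ∫⁻ ζ, ENNReal.ofReal (F.indicator Q ζ * |s₂ ζ * (kz η (z n) ζ).im|) ∂N₂ ≤ ENNReal.ofReal M' := by
    have hwm : Measurable (fun ζ => s₂ ζ * (kz η (z n) ζ).im) := hs₂.mul hkim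
    apply dens_bound hQ hF hN₂ hwm (W := 1 / c) (by positivity)
    · filter_upwards [hs₂', hN₂.ae_mem] with ζ h1 h2
      rw [abs_mul, h1, one_mul]
      exact (Complex.abs_im_le_norm _).trans (hg.norm_kz hηS (hz n) (hzd n) h2)
    intro k d hd g hgc hg1 hg0
    set h : ℂ → ℝ := fun ζ => g ζ * qk F Q k ζ with hh
    have hXX : XX F Q η h := xx_test hQ hF k hgc hd hg0
    have hle : ∀ ζ ∈ F, |h ζ| ≤ Q ζ := fun ζ hζ => test_le hQ k hg1 hζ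
    have h1 := hM n h hXX hle
    have h2 : |∫ ζ, s₁ ζ * (h ζ * (kz η (z n) ζ).re) ∂N₁| ≤ 1 / c * ∫ ζ, F.indicator Q ζ ∂N₁ := by
      rw [← integral_const_mul, ← Real.norm_eq_abs]
      apply norm_integral_le_of_norm_le (hI.const_mul _)
      filter_upwards [hs₁', hN₁.ae_mem] with ζ h3 h4
      rw [norm_mul, Real.norm_eq_abs, h3, one_mul, norm_mul, Real.norm_eq_abs, Real.norm_eq_abs,
        indicator_of_mem h4, mul_comm]
      exact mul_le_mul ((Complex.abs_re_le_norm _).trans (hg.norm_kz hηS (hz n) (hzd n) h4)) (hle ζ h4)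
        (abs_nonneg _) (by positivity)
    have heq : ∫ ζ, g ζ * (qk F Q k ζ * (s₂ ζ * (kz η (z n) ζ).im)) ∂N₂ =
        ∫ ζ, s₂ ζ * (h ζ * (kz η (z n) ζ).im) ∂N₂ := by
      congr 1
      funext ζ
      rw [hh]; ring
    rw [heq]
    unfold Lam at h1
    have h5 := abs_sub_abs_le_abs_sub (∫ ζ, s₂ ζ * (h ζ * (kz η (z n) ζ).im) ∂N₂)
      (-(∫ ζ, s₁ ζ * (h ζ * (kz η (z n) ζ).re) ∂N₁))
    rw [abs_neg, sub_neg_eq_add, add_comm (∫ ζ, s₂ ζ * (h ζ * (kz η (z n) ζ).im) ∂N₂)] at h5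
    linarith
  have hM'0 : 0 ≤ ENNReal.ofReal M' := zero_le
  have hlow : ∀ᵐ ζ ∂N₂, ζ ∈ ball η ‖z n - η‖ → ENNReal.ofReal (F.indicator Q ζ * ‖ζ - η‖) ≤
      ENNReal.ofReal (4 * ‖z n - η‖ / c₂) * ENNReal.ofReal (F.indicator Q ζ * |s₂ ζ * (kz η (z n) ζ).im|) := by
    filter_upwards [hs₂', hN₂.ae_mem] with ζ h1 h2 h3
    rw [mem_ball, dist_eq_norm] at h3
    rw [← ENNReal.ofReal_mul (by positivity)]
    apply ENNReal.ofReal_le_ofReal
    rw [abs_mul, h1, one_mul, indicator_of_mem h2]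
    have h4 := hg2.le (z n) (hz n) (hzd n) ζ h2 (h3.trans (hzd n))
    have hpos := hg.pos_dist hηS (hz n) (hzd n) h2
    have h5 : ‖ζ - z n‖ ≤ 2 * ‖z n - η‖ := by
      have : ζ - z n = (ζ - η) - (z n - η) := by ring
      rw [this]
      refine (norm_sub_le _ _).trans ?_
      linarith
    have h6 : c₂ * ‖ζ - η‖ / (4 * ‖z n - η‖) ≤ |(kz η (z n) ζ).im| := by
      rw [kz_im, abs_div, abs_of_pos (by positivity : 0 < ‖ζ - z n‖ ^ 2), div_le_div_iff₀ (by positivity) (by positivity)]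
      have h7 : ‖ζ - z n‖ ^ 2 ≤ (2 * ‖z n - η‖) ^ 2 := pow_le_pow_left₀ hpos.le h5 2
      calc c₂ * ‖ζ - η‖ * ‖ζ - z n‖ ^ 2 ≤ c₂ * ‖ζ - η‖ * (2 * ‖z n - η‖) ^ 2 := by gcongr
        _ = (c₂ * (‖ζ - η‖ * ‖z n - η‖)) * (4 * ‖z n - η‖) := by ring
        _ ≤ _ := by gcongr
    calc Q ζ * ‖ζ - η‖ = 4 * ‖z n - η‖ / c₂ * (Q ζ * (c₂ * ‖ζ - η‖ / (4 * ‖z n - η‖))) := by
          field_simp
      _ ≤ 4 * ‖z n - η‖ / c₂ * (Q ζ * |(kz η (z n) ζ).im|) := by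
          have := hQ.nonneg ζ h2
          gcongr
  calc ∫⁻ ζ in ball η ‖z n - η‖, ENNReal.ofReal (F.indicator Q ζ * ‖ζ - η‖) ∂N₂
      ≤ ∫⁻ ζ in ball η ‖z n - η‖, ENNReal.ofReal (4 * ‖z n - η‖ / c₂) *
          ENNReal.ofReal (F.indicator Q ζ * |s₂ ζ * (kz η (z n) ζ).im|) ∂N₂ := by
        apply lintegral_mono_ae
        exact (ae_restrict_iff' measurableSet_ball).2 hlow
    _ ≤ ∫⁻ ζ, ENNReal.ofReal (4 * ‖z n - η‖ / c₂) *
          ENNReal.ofReal (F.indicator Q ζ * |s₂ ζ * (kz η (z n) ζ).im|) ∂N₂ := setLIntegral_le_lintegral _ _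
    _ = ENNReal.ofReal (4 * ‖z n - η‖ / c₂) *
          ∫⁻ ζ, ENNReal.ofReal (F.indicator Q ζ * |s₂ ζ * (kz η (z n) ζ).im|) ∂N₂ :=
        lintegral_const_mul' _ _ ENNReal.ofReal_ne_top
    _ ≤ ENNReal.ofReal (4 * ‖z n - η‖ / c₂) * ENNReal.ofReal M' := by gcongr
    _ = ENNReal.ofReal (4 / c₂ * M' * ‖z n - η‖) := by
        rw [← ENNReal.ofReal_mul (by positivity)]
        congr 1; ring

/-- `S` meets all small circles around `η` -/
def Circ (S : Set ℂ) (η : ℂ) (d : ℝ) : Prop := ∀ t : ℝ, 0 < t → t < d → ∃ z ∈ S, ‖z - η‖ = t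

theorem nec {N₁ N₂ : Measure ℂ} {s₁ s₂ : ℂ → ℝ} (hQ : QD F Q η) (hF : F.Nonempty)
    (hN₁ : DN F Q η N₁) (hN₂ : DN F Q η N₂) (hs₁ : Measurable s₁) (hs₂ : Measurable s₂)
    (hs₁' : ∀ᵐ ζ ∂N₁, |s₁ ζ| = 1) (hs₂' : ∀ᵐ ζ ∂N₂, |s₂ ζ| = 1) (hg : Geo F S η c δ)
    (hg2 : Geo2 F S η c₂ δ) (hηS : η ∉ S) {d : ℝ} (hd : 0 < d) (hcirc : Circ S η d)
    (hlim : ∀ h, XX F Q η h → ∃ L, Tendsto (Lam N₁ N₂ s₁ s₂ η h) (𝓝[S] η) (𝓝 L)) :
    Integrable (F.indicator Q) N₁ ∧ ∃ M : ℝ, 0 ≤ M ∧ GrB F Q η N₂ M := by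
  have hδ := hg.δ_pos
  set d' : ℝ := min d δ with hd'
  have hd'0 : 0 < d' := lt_min hd hδ
  -- a sequence with prescribed distances
  have hseq : ∀ r : ℕ → ℝ, (∀ n, 0 < r n) → (∀ n, r n < d') → ∃ z : ℕ → ℂ, (∀ n, z n ∈ S) ∧
      (∀ n, ‖z n - η‖ = r n) := by
    intro r hr0 hr1
    have : ∀ n, ∃ z ∈ S, ‖z - η‖ = r n := fun n => hcirc (r n) (hr0 n) ((hr1 n).trans_le (min_le_left _ _))
    choose z hz1 hz2 using this
    exact ⟨z, hz1, hz2⟩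
  have htend : ∀ (r : ℕ → ℝ) (z : ℕ → ℂ), (∀ n, ‖z n - η‖ = r n) → Tendsto r atTop (𝓝 0) →
      Tendsto z atTop (𝓝 η) := by
    intro r z h1 h2
    rw [tendsto_iff_norm_sub_tendsto_zero]
    simp_rw [h1]
    exact h2
  -- the first condition
  have hI : Integrable (F.indicator Q) N₁ := by
    set r : ℕ → ℝ := fun n => d' / ((n:ℝ) + 2) with hr
    have hr0 : ∀ n, 0 < r n := fun n => by rw [hr]; positivity
    have hr1 : ∀ n, r n < d' := by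
      intro n
      rw [hr]
      simp only
      rw [div_lt_iff₀ (by positivity)]
      have : (0:ℝ) ≤ n := Nat.cast_nonneg n
      nlinarith
    obtain ⟨z, hz, hzr⟩ := hseq r hr0 hr1
    have hzt : Tendsto z atTop (𝓝 η) := by
      apply htend r z hzr
      have h1 : Tendsto (fun n : ℕ => (n:ℝ) + 2) atTop atTop :=
        tendsto_atTop_add_const_right _ _ tendsto_natCast_atTop_atTop
      exact h1.const_div_atTop d'
    have hzd : ∀ n, ‖z n - η‖ < δ := fun n => by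
      rw [hzr]; exact (hr1 n).trans_le (min_le_right _ _)
    obtain ⟨M, hM⟩ := exists_bound hQ hN₁ hN₂ hs₁ hs₂ hs₁' hs₂' hg hηS hlim hz hzd hzt
    exact nec_first hQ hF hN₁ hN₂ hs₁ hs₂ hs₁' hs₂' hg hηS hz hzd hzt hM
  refine ⟨hI, ?_⟩
  by_contra hcon
  push Not at hcon
  set I : ℝ := ∫ ζ, F.indicator Q ζ * ‖ζ - η‖ ∂N₂ with hIdef
  have hI0 : 0 ≤ I := integral_nonneg fun ζ => mul_nonneg (hQ.ind_nonneg ζ) (norm_nonneg _)
  have hIe : ∫⁻ ζ, ENNReal.ofReal (F.indicator Q ζ * ‖ζ - η‖) ∂N₂ = ENNReal.ofReal I :=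
    (ofReal_integral_eq_lintegral_ofReal hN₂.int
      (Eventually.of_forall fun ζ => mul_nonneg (hQ.ind_nonneg ζ) (norm_nonneg _))).symm
  obtain ⟨K, hK⟩ := exists_nat_gt ((I + 1) / d')
  have hK0 : (0:ℝ) < K := lt_trans (by positivity) hK
  have hbad : ∀ n : ℕ, ∃ r : ℝ, 0 < r ∧ ENNReal.ofReal (((K:ℝ) + n) * r) <
      ∫⁻ ζ in ball η r, ENNReal.ofReal (F.indicator Q ζ * ‖ζ - η‖) ∂N₂ := by
    intro n
    have := hcon ((K:ℝ) + n) (by positivity)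
    unfold GrB at this
    push Not at this
    exact this
  choose r hr0 hr using hbad
  have hrI : ∀ n, ((K:ℝ) + n) * r n < I + 1 := by
    intro n
    have h1 := (hr n).le.trans (setLIntegral_le_lintegral _ _)
    rw [hIe] at h1
    have h2 := (ENNReal.ofReal_le_ofReal_iff hI0).1 h1
    linarith
  have hr1 : ∀ n, r n < d' := by
    intro n
    have h1 : (K:ℝ) * r n ≤ ((K:ℝ) + n) * r n := by
      have := hr0 n
      have : (0:ℝ) ≤ n := Nat.cast_nonneg n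
      nlinarith
    have h2 : (K:ℝ) * r n < I + 1 := h1.trans_lt (hrI n)
    rw [div_lt_iff₀ hd'0] at hK
    by_contra h3
    rw [not_lt] at h3
    nlinarith
  obtain ⟨z, hz, hzr⟩ := hseq r hr0 hr1
  have hrt : Tendsto r atTop (𝓝 0) := by
    have h1 : Tendsto (fun n : ℕ => (K:ℝ) + n) atTop atTop :=
      tendsto_atTop_add_const_left _ _ tendsto_natCast_atTop_atTop
    have h2 := h1.const_div_atTop (I + 1)
    refine squeeze_zero (fun n => (hr0 n).le) (fun n => ?_) h2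
    rw [le_div_iff₀ (by positivity), mul_comm]
    exact (hrI n).le
  have hzt := htend r z hzr hrt
  have hzd : ∀ n, ‖z n - η‖ < δ := fun n => by
    rw [hzr]; exact (hr1 n).trans_le (min_le_right _ _)
  obtain ⟨M, hM⟩ := exists_bound hQ hN₁ hN₂ hs₁ hs₂ hs₁' hs₂' hg hηS hlim hz hzd hzt
  obtain ⟨C, hC⟩ := nec_second_seq hQ hF hN₁ hN₂ hs₁ hs₂ hs₁' hs₂' hg hg2 hηS hz hzd hM hI
  obtain ⟨n, hn⟩ := exists_nat_gt C
  have hCn := hC n
  rw [hzr n] at hCn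
  have h1 := (hr n).trans_le hCn
  have h2 := (ENNReal.ofReal_lt_ofReal_iff_of_nonneg (by have := hr0 n; positivity)).1 h1
  have h3 := hr0 n
  nlinarith

end Pool.Agent.K1H32.CI
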