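import Mathlib

/-! A lemma on an interval covered by two disjoint countable unions of closed sets. -/

set_option autoImplicit false

open Set Filter Topology Metric

namespace Pool.Agent.K1H32.CI

/-- one case: an open set `V` which meets the common boundary `D` only inside `Ak` -/
lemma top_aux {α β : Set ℝ} {a b : ℝ} (hdis : Disjoint α β) (hcov : Ioo a b ⊆ α ∪ β)
    {V Ak : Set ℝ} (hV : IsOpen V) {p0 : ℝ} (hp0J : p0 ∈ Ioo a b) (hp0V : p0 ∈ V)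
    (hp0α : p0 ∈ closure (Ioo a b ∩ α)) (hp0β : p0 ∈ closure (Ioo a b ∩ β))
    (hAk : Ak ⊆ α)
    (hD : ∀ x ∈ V, x ∈ Ioo a b → x ∈ closure (Ioo a b ∩ α) → x ∈ closure (Ioo a b ∩ β) → x ∈ Ak) :
    ∃ u ∈ Ioo a b, u ∈ Ak ∧ ((∃ q < u, a < q ∧ Ioo q u ⊆ β) ∨ (∃ q > u, q < b ∧ Ioo u q ⊆ β)) := by
  obtain ⟨η, hη, hball⟩ := Metric.isOpen_iff.1 (hV.inter isOpen_Ioo) p0 ⟨hp0V, hp0J⟩
  obtain ⟨q, hqJβ, hqd⟩ := Metric.mem_closure_iff.1 hp0β η hη
  rw [dist_comm, Real.dist_eq, abs_lt] at hqd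
  have hin : ∀ x, p0 - η < x → x < p0 + η → x ∈ V ∧ x ∈ Ioo a b := by
    intro x h1 h2
    have := hball (show x ∈ ball p0 η by rw [Metric.mem_ball, Real.dist_eq, abs_lt]; constructor <;> linarith)
    exact this
  have hq := hin q (by linarith) (by linarith)
  have hqnc : q ∉ closure (Ioo a b ∩ α) := by
    intro h
    have h1 : q ∈ Ak := hD q hq.1 hq.2 h (subset_closure hqJβ)
    exact Set.disjoint_left.1 hdis (hAk h1) hqJβ.2
  have hqp : q ≠ p0 := fun h => hqnc (h ▸ hp0α)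
  rcases lt_or_gt_of_ne hqp with hlt | hgt
  · set S : Set ℝ := closure (Ioo a b ∩ α) ∩ Ici q with hS
    have hSc : IsClosed S := isClosed_closure.inter isClosed_Ici
    have hSne : S.Nonempty := ⟨p0, hp0α, hlt.le⟩
    have hSb : BddBelow S := ⟨q, fun x hx => hx.2⟩
    set u := sInf S with hu
    have huS : u ∈ S := hSc.csInf_mem hSne hSb
    have hup : u ≤ p0 := csInf_le hSb ⟨hp0α, hlt.le⟩
    have hqu : q < u := lt_of_le_of_ne huS.2 (fun h => hqnc (h ▸ huS.1))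
    have hno : ∀ x ∈ Ioo q u, x ∉ closure (Ioo a b ∩ α) := by
      intro x hx h
      exact absurd (csInf_le hSb ⟨h, hx.1.le⟩) (not_le.2 hx.2)
    have hsub : Ioo q u ⊆ β := by
      intro x hx
      have hxJ : x ∈ Ioo a b := ⟨hq.2.1.trans hx.1, hx.2.trans_le (hup.trans hp0J.2.le)⟩
      rcases hcov hxJ with h | h
      · exact absurd (subset_closure (show x ∈ Ioo a b ∩ α from ⟨hxJ, h⟩)) (hno x hx)
      · exact h
    have huJ := hin u (by linarith) (by linarith)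
    have huβ : u ∈ closure (Ioo a b ∩ β) := by
      have h1 : u ∈ closure (Ioo q u) := by
        rw [closure_Ioo hqu.ne]; exact ⟨hqu.le, le_rfl⟩
      refine closure_mono ?_ h1
      intro x hx
      exact ⟨⟨hq.2.1.trans hx.1, hx.2.trans huJ.2.2⟩, hsub hx⟩
    exact ⟨u, huJ.2, hD u huJ.1 huJ.2 huS.1 huβ, Or.inl ⟨q, hqu, hq.2.1, hsub⟩⟩
  · set S : Set ℝ := closure (Ioo a b ∩ α) ∩ Iic q with hS
    have hSc : IsClosed S := isClosed_closure.inter isClosed_Iic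
    have hSne : S.Nonempty := ⟨p0, hp0α, hgt.le⟩
    have hSb : BddAbove S := ⟨q, fun x hx => hx.2⟩
    set u := sSup S with hu
    have huS : u ∈ S := hSc.csSup_mem hSne hSb
    have hup : p0 ≤ u := le_csSup hSb ⟨hp0α, hgt.le⟩
    have hqu : u < q := lt_of_le_of_ne huS.2 (fun h => hqnc (h ▸ huS.1))
    have hno : ∀ x ∈ Ioo u q, x ∉ closure (Ioo a b ∩ α) := by
      intro x hx h
      exact absurd (le_csSup hSb ⟨h, hx.2.le⟩) (not_le.2 hx.1)
    have hsub : Ioo u q ⊆ β := by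
      intro x hx
      have hxJ : x ∈ Ioo a b := ⟨(hp0J.1.trans_le hup).trans hx.1, hx.2.trans hq.2.2⟩
      rcases hcov hxJ with h | h
      · exact absurd (subset_closure (show x ∈ Ioo a b ∩ α from ⟨hxJ, h⟩)) (hno x hx)
      · exact h
    have huJ := hin u (by linarith) (by linarith)
    have huβ : u ∈ closure (Ioo a b ∩ β) := by
      have h1 : u ∈ closure (Ioo u q) := by
        rw [closure_Ioo hqu.ne]; exact ⟨le_rfl, hqu.le⟩
      refine closure_mono ?_ h1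
      intro x hx
      exact ⟨⟨huJ.2.1.trans hx.1, hx.2.trans hq.2.2⟩, hsub hx⟩
    exact ⟨u, huJ.2, hD u huJ.1 huJ.2 huS.1 huβ, Or.inr ⟨q, hqu, hq.2.2, hsub⟩⟩

lemma top_lemma {A B : ℕ → Set ℝ} (hA : ∀ k, IsClosed (A k)) (hB : ∀ k, IsClosed (B k))
    (hdis : Disjoint (⋃ k, A k) (⋃ k, B k)) {a b : ℝ} (hcov : Ioo a b ⊆ (⋃ k, A k) ∪ (⋃ k, B k))
    (hα : (Ioo a b ∩ ⋃ k, A k).Nonempty) (hβ : (Ioo a b ∩ ⋃ k, B k).Nonempty) :
    ∃ k, ∃ u ∈ Ioo a b,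
      (u ∈ A k ∧ ((∃ q < u, a < q ∧ Ioo q u ⊆ ⋃ k, B k) ∨ (∃ q > u, q < b ∧ Ioo u q ⊆ ⋃ k, B k))) ∨
      (u ∈ B k ∧ ((∃ q < u, a < q ∧ Ioo q u ⊆ ⋃ k, A k) ∨ (∃ q > u, q < b ∧ Ioo u q ⊆ ⋃ k, A k))) := by
  classical
  set α := ⋃ k, A k with hαd
  set β := ⋃ k, B k with hβd
  set D : Set ℝ := Ioo a b ∩ (closure (Ioo a b ∩ α) ∩ closure (Ioo a b ∩ β)) with hD
  have hDne : D.Nonempty := by
    refine isPreconnected_closed_iff.1 (isPreconnected_Ioo (a := a) (b := b)) _ _ isClosed_closure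
      isClosed_closure ?_ ?_ ?_
    · intro x hx
      rcases hcov hx with h | h
      · exact Or.inl (subset_closure ⟨hx, h⟩)
      · exact Or.inr (subset_closure ⟨hx, h⟩)
    · obtain ⟨x, hx⟩ := hα
      exact ⟨x, hx.1, subset_closure hx⟩
    · obtain ⟨x, hx⟩ := hβ
      exact ⟨x, hx.1, subset_closure hx⟩
  have hlc : IsLocallyClosed D := ⟨Ioo a b, _, isOpen_Ioo, isClosed_closure.inter isClosed_closure, rfl⟩
  haveI : LocallyCompactSpace D := hlc.locallyCompactSpace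
  haveI : Nonempty D := hDne.to_subtype
  set f : ℕ ⊕ ℕ → Set D := Sum.elim (fun k => Subtype.val ⁻¹' A k) (fun k => Subtype.val ⁻¹' B k) with hf
  have hfc : ∀ i, IsClosed (f i) := by
    rintro (k | k)
    · exact (hA k).preimage continuous_subtype_val
    · exact (hB k).preimage continuous_subtype_val
  have hfU : ⋃ i, f i = univ := by
    rw [eq_univ_iff_forall]
    rintro ⟨x, hx⟩
    rcases hcov hx.1 with h | h
    · obtain ⟨k, hk⟩ := mem_iUnion.1 h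
      exact mem_iUnion.2 ⟨Sum.inl k, hk⟩
    · obtain ⟨k, hk⟩ := mem_iUnion.1 h
      exact mem_iUnion.2 ⟨Sum.inr k, hk⟩
  obtain ⟨i, ⟨x, hxD⟩, hx⟩ := nonempty_interior_of_iUnion_of_closed hfc hfU
  obtain ⟨W, hWf, hWo, hxW⟩ := mem_interior.1 hx
  obtain ⟨V, hVo, rfl⟩ := isOpen_induced_iff.1 hWo
  rcases i with k | k
  · have h := top_aux (α := α) (β := β) hdis hcov hVo hxD.1 hxW hxD.2.1 hxD.2.2 (subset_iUnion A k)
      (fun y hyV hyJ h1 h2 => hWf (show (⟨y, hyJ, h1, h2⟩ : D) ∈ _ from hyV))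
    obtain ⟨u, hu, h1, h2⟩ := h
    exact ⟨k, u, hu, Or.inl ⟨h1, h2⟩⟩
  · have h := top_aux (α := β) (β := α) hdis.symm (by rw [union_comm]; exact hcov) hVo hxD.1 hxW
      hxD.2.2 hxD.2.1 (subset_iUnion B k)
      (fun y hyV hyJ h1 h2 => hWf (show (⟨y, hyJ, h2, h1⟩ : D) ∈ _ from hyV))
    obtain ⟨u, hu, h1, h2⟩ := h
    exact ⟨k, u, hu, Or.inr ⟨h1, h2⟩⟩

end Pool.Agent.K1H32.CI
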