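import Pool.Agent.K1H32.CI.Hit
import Pool.Agent.K1H32.CI.Top

/-! Slices of the essential boundary of a planar set: on almost every line the essential boundary of
the slice is the slice of the essential boundary. -/

set_option autoImplicit false

open MeasureTheory Set Filter Topology Metric
open scoped ENNReal NNReal

namespace Pool.Agent.K1H32.CI

/-- `M` has zero density at `w` -/
def ZD {X : Type*} [PseudoMetricSpace X] [MeasureSpace X] (M : Set X) (w : X) : Prop :=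
  ∀ ε : ℝ, 0 < ε → ∀ᶠ r in 𝓝[>] (0:ℝ), volume (M ∩ closedBall w r) ≤ ENNReal.ofReal (ε * r ^ 2)

/-- essential boundary -/
def Ess {X : Type*} [PseudoMetricSpace X] [MeasureSpace X] (M : Set X) (w : X) : Prop := ¬ ZD M w ∧ ¬ ZD Mᶜ w

/-- slice -/
def sec (M : Set (ℝ × ℝ)) (p : ℝ) : Set ℝ := {t | (p, t) ∈ M}

lemma sec_compl (M : Set (ℝ × ℝ)) (p : ℝ) : sec Mᶜ p = (sec M p)ᶜ := rfl

lemma measurableSet_sec {M : Set (ℝ × ℝ)} (hM : MeasurableSet M) (p : ℝ) : MeasurableSet (sec M p) :=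
  measurable_prodMk_left hM

lemma measurable_vol_sec {M : Set (ℝ × ℝ)} (hM : MeasurableSet M) {J : Set ℝ} (hJ : MeasurableSet J) :
    Measurable (fun p => volume (sec M p ∩ J)) := by
  have h := measurable_measure_prodMk_left (ν := (volume : Measure ℝ)) (hM.inter (MeasurableSet.univ.prod hJ))
  convert h using 2 with p
  congr 1
  ext t
  simp [sec]

lemma ofReal_mul3 {a b c : ℝ} (ha : 0 ≤ a) (hb : 0 ≤ b) :
    ENNReal.ofReal a * ENNReal.ofReal b * ENNReal.ofReal c = ENNReal.ofReal (a * b * c) := by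
  rw [ENNReal.ofReal_mul (mul_nonneg ha hb), ENNReal.ofReal_mul ha]

lemma prod_null {M : Set (ℝ × ℝ)} (hM : MeasurableSet M) {Y J : Set ℝ} (hY : MeasurableSet Y)
    (hJ : MeasurableSet J) (h : ∀ p ∈ Y, volume (sec M p ∩ J) = 0) :
    volume (M ∩ Y ×ˢ J) = 0 := by
  rw [Measure.volume_eq_prod, Measure.measure_prod_null (hM.inter (hY.prod hJ))]
  filter_upwards with p
  by_cases hp : p ∈ Y
  · refine measure_mono_null ?_ (h p hp)
    rintro t ⟨h1, h2⟩
    exact ⟨h1, h2.2⟩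
  · refine measure_mono_null (t := ∅) ?_ measure_empty
    rintro t ⟨h1, h2⟩
    exact absurd h2.1 hp

lemma zd_of_null_strip {M : Set (ℝ × ℝ)} (hM : MeasurableSet M) (a b : ℝ) :
    ∀ᵐ p : ℝ, volume (sec M p ∩ Ioo a b) = 0 → ∀ t ∈ Ioo a b, ZD M (p, t) := by
  set Y : Set ℝ := {p | volume (sec M p ∩ Ioo a b) = 0} with hY
  have hYm : MeasurableSet Y := measurable_vol_sec hM measurableSet_Ioo (measurableSet_singleton 0)
  filter_upwards [Besicovitch.ae_tendsto_measure_inter_div_of_measurableSet volume hYm.compl] with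
    p hp hpY t ht ε hε
  rw [indicator_of_notMem (by simpa [hY] using hpY)] at hp
  have h1 : ∀ᶠ r in 𝓝[>] (0:ℝ), volume (Yᶜ ∩ closedBall p r) / volume (closedBall p r) <
      ENNReal.ofReal (ε / 4) := hp.eventually_lt_const (by simpa using hε)
  have h2 : ∀ᶠ r in 𝓝[>] (0:ℝ), r < min (t - a) (b - t) := by
    apply eventually_nhdsWithin_of_eventually_nhds
    exact eventually_lt_nhds (lt_min (by linarith [ht.1]) (by linarith [ht.2]))
  filter_upwards [h1, h2, self_mem_nhdsWithin] with r hr1 hr2 hr0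
  have hr0 : 0 < r := hr0
  have hsub : M ∩ closedBall (p, t) r ⊆
      ((Yᶜ ∩ closedBall p r) ×ˢ closedBall t r) ∪ (M ∩ Y ×ˢ Ioo a b) := by
    rintro ⟨p', t'⟩ ⟨hw, hb⟩
    rw [← closedBall_prod_same] at hb
    by_cases hpY' : p' ∈ Y
    · right
      refine ⟨hw, hpY', ?_⟩
      have := hb.2
      rw [mem_closedBall, Real.dist_eq, abs_le] at this
      rw [lt_min_iff] at hr2
      constructor <;> linarith
    · left
      exact ⟨⟨hpY', hb.1⟩, hb.2⟩
  have h0 : volume (closedBall p r) = ENNReal.ofReal (2 * r) := Real.volume_closedBall _ _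
  have h0' : volume (closedBall t r) = ENNReal.ofReal (2 * r) := Real.volume_closedBall _ _
  have hpos : ENNReal.ofReal (2 * r) ≠ 0 := by simpa using hr0
  calc volume (M ∩ closedBall (p, t) r)
      ≤ volume (((Yᶜ ∩ closedBall p r) ×ˢ closedBall t r) ∪ (M ∩ Y ×ˢ Ioo a b)) := measure_mono hsub
    _ ≤ volume ((Yᶜ ∩ closedBall p r) ×ˢ closedBall t r) + volume (M ∩ Y ×ˢ Ioo a b) :=
        measure_union_le _ _
    _ = volume (Yᶜ ∩ closedBall p r) * ENNReal.ofReal (2 * r) := by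
        rw [prod_null hM hYm measurableSet_Ioo (fun p hp => hp), add_zero, Measure.volume_eq_prod,
          Measure.prod_prod, h0']
    _ ≤ ENNReal.ofReal (ε / 4) * ENNReal.ofReal (2 * r) * ENNReal.ofReal (2 * r) := by
        gcongr
        rw [h0] at hr1
        exact ((ENNReal.div_lt_iff (Or.inl hpos) (Or.inl ENNReal.ofReal_ne_top)).1 hr1).le
    _ = ENNReal.ofReal (ε * r ^ 2) := by
        rw [ofReal_mul3 (by positivity) (by positivity)]
        congr 1; ring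

theorem hit_of_ess {M : Set (ℝ × ℝ)} (hM : MeasurableSet M) :
    ∀ᵐ p : ℝ, ∀ t, Ess M (p, t) → Hit (sec M p) t := by
  have h1 : ∀ᵐ p : ℝ, ∀ q : ℚ × ℚ, volume (sec M p ∩ Ioo (q.1:ℝ) q.2) = 0 →
      ∀ t ∈ Ioo (q.1:ℝ) q.2, ZD M (p, t) := ae_all_iff.2 fun q => zd_of_null_strip hM _ _
  have h2 : ∀ᵐ p : ℝ, ∀ q : ℚ × ℚ, volume (sec Mᶜ p ∩ Ioo (q.1:ℝ) q.2) = 0 →
      ∀ t ∈ Ioo (q.1:ℝ) q.2, ZD Mᶜ (p, t) := ae_all_iff.2 fun q => zd_of_null_strip hM.compl _ _
  filter_upwards [h1, h2] with p hp1 hp2 t ht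
  by_contra hnot
  obtain ⟨a, b, ha, hb, h⟩ := not_hit hnot
  obtain ⟨a', ha1, ha2⟩ := exists_rat_btwn ha
  obtain ⟨b', hb1, hb2⟩ := exists_rat_btwn hb
  have hsub : Ioo (a':ℝ) b' ⊆ Ioo a b := Ioo_subset_Ioo ha1.le hb2.le
  rcases h with h | h
  · exact ht.1 (hp1 (a', b') (measure_mono_null (inter_subset_inter_right _ hsub) h) t ⟨ha2, hb1⟩)
  · exact ht.2 (hp2 (a', b') (measure_mono_null (inter_subset_inter_right _ hsub) h) t ⟨ha2, hb1⟩)

/-- small density of `M` at `w` at all scales up to `1/(k+1)` -/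
def Small (M : Set (ℝ × ℝ)) (k : ℕ) (w : ℝ × ℝ) : Prop :=
  ∀ r : ℝ, 0 < r → r < 1 / ((k:ℝ) + 1) → volume (M ∩ closedBall w r) ≤ ENNReal.ofReal (r ^ 2 / 100)

lemma bad_null {M : Set (ℝ × ℝ)} (hM : MeasurableSet M) (k : ℕ) (c : ℝ) {δ : ℝ} (hδ : 0 < δ) :
    volume {p : ℝ | ∃ b ∈ Icc c (c + δ / 4), Small M k (p, b) ∧
      volume ((sec M p)ᶜ ∩ Ioo (b - δ) b) = 0} = 0 := by
  set Y : Set ℝ := {p : ℝ | ∃ b ∈ Icc c (c + δ / 4), Small M k (p, b) ∧
      volume ((sec M p)ᶜ ∩ Ioo (b - δ) b) = 0} with hY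
  by_contra hne
  have hd := Besicovitch.ae_tendsto_measure_inter_div (volume : Measure ℝ) Y
  have hnb : (ae (volume.restrict Y)).NeBot := by
    rw [ae_neBot]
    intro h
    rw [Measure.restrict_eq_zero] at h
    exact hne h
  obtain ⟨x, hx⟩ := hd.exists
  have hk : (0:ℝ) < 1 / ((k:ℝ) + 1) := by positivity
  have hsm : ∀ᶠ r in 𝓝[>] (0:ℝ), 8 * r < min (1 / ((k:ℝ) + 1)) δ := by
    apply eventually_nhdsWithin_of_eventually_nhds
    have : Tendsto (fun r : ℝ => 8 * r) (𝓝 0) (𝓝 (8 * 0)) := tendsto_id.const_mul 8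
    rw [mul_zero] at this
    exact this.eventually_lt_const (lt_min hk hδ)
  have hlt := hx.eventually_const_lt (show (1/2 : ℝ≥0∞) < 1 from ENNReal.half_lt_self one_ne_zero ENNReal.one_ne_top)
  obtain ⟨r, hr1, hr2, hr0⟩ := (hlt.and (hsm.and self_mem_nhdsWithin)).exists
  have hr0 : 0 < r := hr0
  rw [lt_min_iff] at hr2
  have hvol : volume (closedBall x r) = ENNReal.ofReal (2 * r) := Real.volume_closedBall _ _
  have hpos : ENNReal.ofReal (2 * r) ≠ 0 := by simpa using hr0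
  set B : Set ℝ := {b | ∃ p ∈ Y ∩ closedBall x r, b ∈ Icc c (c + δ / 4) ∧ Small M k (p, b) ∧
      volume ((sec M p)ᶜ ∩ Ioo (b - δ) b) = 0} with hB
  have hmeas : volume (Y ∩ closedBall x r) ≤ ENNReal.ofReal (32 / 100 * r) := by
    rcases (Y ∩ closedBall x r).eq_empty_or_nonempty with h | ⟨p1, hp1⟩
    · rw [h]; simp
    have hBne : B.Nonempty := by
      obtain ⟨b, hb1, hb2, hb3⟩ := hp1.1
      exact ⟨b, p1, hp1, hb1, hb2, hb3⟩
    have hBb : BddBelow B := ⟨c, by rintro b ⟨p, _, hb, _⟩; exact hb.1⟩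
    obtain ⟨b0, ⟨p0, hp0, hb0, hs0, _⟩, hlt0⟩ := exists_lt_of_csInf_lt hBne (show sInf B < sInf B + 2 * r by linarith)
    set L : Set ℝ := Ioo (b0 - 4 * r) (b0 - 2 * r) with hL
    set W : Set ℝ := closedBall x r ∩ {p | volume (sec Mᶜ p ∩ L) = 0} with hW
    have hWm : MeasurableSet W := measurableSet_closedBall.inter
      (measurable_vol_sec hM.compl measurableSet_Ioo (measurableSet_singleton 0))
    have hYW : Y ∩ closedBall x r ⊆ W := by
      rintro p ⟨hpY, hpx⟩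
      refine ⟨hpx, ?_⟩
      obtain ⟨b, hb1, hb2, hb3⟩ := hpY
      have hbB : b ∈ B := ⟨p, ⟨⟨b, hb1, hb2, hb3⟩, hpx⟩, hb1, hb2, hb3⟩
      have h1 := csInf_le hBb hbB
      refine measure_mono_null ?_ hb3
      rw [sec_compl]
      apply inter_subset_inter_right
      apply Ioo_subset_Ioo
      · linarith [hb1.2, hb0.1, hr2.2]
      · linarith
    have hnull : volume (Mᶜ ∩ W ×ˢ L) = 0 := prod_null hM.compl hWm measurableSet_Ioo (fun p hp => hp.2)
    have h1 : volume (W ×ˢ L) ≤ volume (M ∩ closedBall (p0, b0) (8 * r)) := by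
      calc volume (W ×ˢ L) ≤ volume ((M ∩ closedBall (p0, b0) (8 * r)) ∪ (Mᶜ ∩ W ×ˢ L)) := by
            apply measure_mono
            rintro ⟨p, t⟩ hpt
            by_cases hm : (p, t) ∈ M
            · left
              refine ⟨hm, ?_⟩
              rw [← closedBall_prod_same]
              have h2 := hpt.1.1
              have h3 := hp0.2
              have h4 : t ∈ Ioo (b0 - 4 * r) (b0 - 2 * r) := hpt.2
              constructor
              · show p ∈ closedBall p0 (8 * r)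
                have h2 : p ∈ closedBall x r := h2
                rw [mem_closedBall, Real.dist_eq, abs_le] at h2 h3 ⊢
                constructor <;> linarith
              · show t ∈ closedBall b0 (8 * r)
                rw [mem_closedBall, Real.dist_eq, abs_le]
                constructor <;> linarith [h4.1, h4.2]
            · exact Or.inr ⟨hm, hpt⟩
        _ ≤ volume (M ∩ closedBall (p0, b0) (8 * r)) + volume (Mᶜ ∩ W ×ˢ L) := measure_union_le _ _
        _ = _ := by rw [hnull, add_zero]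
    have h2 : volume W * ENNReal.ofReal (2 * r) ≤ ENNReal.ofReal (32 / 100 * r) * ENNReal.ofReal (2 * r) := by
      have e1 : volume (W ×ˢ L) = volume W * ENNReal.ofReal (2 * r) := by
        rw [Measure.volume_eq_prod, Measure.prod_prod, hL, Real.volume_Ioo]
        congr 2; ring
      rw [← e1]
      refine h1.trans ((hs0 (8 * r) (by linarith) hr2.1).trans ?_)
      rw [← ENNReal.ofReal_mul (by positivity)]
      apply ENNReal.ofReal_le_ofReal
      nlinarith
    have h3 : volume W ≤ ENNReal.ofReal (32 / 100 * r) :=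
      (ENNReal.mul_le_mul_iff_left hpos ENNReal.ofReal_ne_top).1 h2
    exact (measure_mono hYW).trans h3
  rw [hvol] at hr1
  have h5 : volume (Y ∩ closedBall x r) / ENNReal.ofReal (2 * r) ≤ 1 / 2 := by
    rw [ENNReal.div_le_iff hpos ENNReal.ofReal_ne_top]
    refine hmeas.trans ?_
    have : (1 / 2 : ℝ≥0∞) = ENNReal.ofReal (1 / 2) := by
      rw [ENNReal.ofReal_div_of_pos two_pos]; simp
    rw [this, ← ENNReal.ofReal_mul (by norm_num)]
    apply ENNReal.ofReal_le_ofReal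
    linarith
  exact absurd h5 (not_le.2 hr1)

lemma bad_null_right {M : Set (ℝ × ℝ)} (hM : MeasurableSet M) (k : ℕ) (c : ℝ) {δ : ℝ} (hδ : 0 < δ) :
    volume {p : ℝ | ∃ b ∈ Icc c (c + δ / 4), Small M k (p, b) ∧
      volume ((sec M p)ᶜ ∩ Ioo b (b + δ)) = 0} = 0 := by
  set Y : Set ℝ := {p : ℝ | ∃ b ∈ Icc c (c + δ / 4), Small M k (p, b) ∧
      volume ((sec M p)ᶜ ∩ Ioo b (b + δ)) = 0} with hY
  by_contra hne
  have hd := Besicovitch.ae_tendsto_measure_inter_div (volume : Measure ℝ) Y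
  have hnb : (ae (volume.restrict Y)).NeBot := by
    rw [ae_neBot]
    intro h
    rw [Measure.restrict_eq_zero] at h
    exact hne h
  obtain ⟨x, hx⟩ := hd.exists
  have hk : (0:ℝ) < 1 / ((k:ℝ) + 1) := by positivity
  have hsm : ∀ᶠ r in 𝓝[>] (0:ℝ), 8 * r < min (1 / ((k:ℝ) + 1)) δ := by
    apply eventually_nhdsWithin_of_eventually_nhds
    have : Tendsto (fun r : ℝ => 8 * r) (𝓝 0) (𝓝 (8 * 0)) := tendsto_id.const_mul 8
    rw [mul_zero] at this
    exact this.eventually_lt_const (lt_min hk hδ)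
  have hlt := hx.eventually_const_lt (show (1/2 : ℝ≥0∞) < 1 from ENNReal.half_lt_self one_ne_zero ENNReal.one_ne_top)
  obtain ⟨r, hr1, hr2, hr0⟩ := (hlt.and (hsm.and self_mem_nhdsWithin)).exists
  have hr0 : 0 < r := hr0
  rw [lt_min_iff] at hr2
  have hvol : volume (closedBall x r) = ENNReal.ofReal (2 * r) := Real.volume_closedBall _ _
  have hpos : ENNReal.ofReal (2 * r) ≠ 0 := by simpa using hr0
  set B : Set ℝ := {b | ∃ p ∈ Y ∩ closedBall x r, b ∈ Icc c (c + δ / 4) ∧ Small M k (p, b) ∧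
      volume ((sec M p)ᶜ ∩ Ioo b (b + δ)) = 0} with hB
  have hmeas : volume (Y ∩ closedBall x r) ≤ ENNReal.ofReal (32 / 100 * r) := by
    rcases (Y ∩ closedBall x r).eq_empty_or_nonempty with h | ⟨p1, hp1⟩
    · rw [h]; simp
    have hBne : B.Nonempty := by
      obtain ⟨b, hb1, hb2, hb3⟩ := hp1.1
      exact ⟨b, p1, hp1, hb1, hb2, hb3⟩
    have hBb : BddAbove B := ⟨c + δ / 4, by rintro b ⟨p, _, hb, _⟩; exact hb.2⟩
    obtain ⟨b0, ⟨p0, hp0, hb0, hs0, _⟩, hlt0⟩ := exists_lt_of_lt_csSup hBne (show sSup B - 2 * r < sSup B by linarith)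
    set L : Set ℝ := Ioo (b0 + 2 * r) (b0 + 4 * r) with hL
    set W : Set ℝ := closedBall x r ∩ {p | volume (sec Mᶜ p ∩ L) = 0} with hW
    have hWm : MeasurableSet W := measurableSet_closedBall.inter
      (measurable_vol_sec hM.compl measurableSet_Ioo (measurableSet_singleton 0))
    have hYW : Y ∩ closedBall x r ⊆ W := by
      rintro p ⟨hpY, hpx⟩
      refine ⟨hpx, ?_⟩
      obtain ⟨b, hb1, hb2, hb3⟩ := hpY
      have hbB : b ∈ B := ⟨p, ⟨⟨b, hb1, hb2, hb3⟩, hpx⟩, hb1, hb2, hb3⟩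
      have h1 := le_csSup hBb hbB
      refine measure_mono_null ?_ hb3
      rw [sec_compl]
      apply inter_subset_inter_right
      apply Ioo_subset_Ioo
      · linarith
      · linarith [hb1.1, hb0.2, hr2.2]
    have hnull : volume (Mᶜ ∩ W ×ˢ L) = 0 := prod_null hM.compl hWm measurableSet_Ioo (fun p hp => hp.2)
    have h1 : volume (W ×ˢ L) ≤ volume (M ∩ closedBall (p0, b0) (8 * r)) := by
      calc volume (W ×ˢ L) ≤ volume ((M ∩ closedBall (p0, b0) (8 * r)) ∪ (Mᶜ ∩ W ×ˢ L)) := by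
            apply measure_mono
            rintro ⟨p, t⟩ hpt
            by_cases hm : (p, t) ∈ M
            · left
              refine ⟨hm, ?_⟩
              rw [← closedBall_prod_same]
              have h2 := hpt.1.1
              have h3 := hp0.2
              have h4 : t ∈ Ioo (b0 + 2 * r) (b0 + 4 * r) := hpt.2
              constructor
              · show p ∈ closedBall p0 (8 * r)
                have h2 : p ∈ closedBall x r := h2
                rw [mem_closedBall, Real.dist_eq, abs_le] at h2 h3 ⊢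
                constructor <;> linarith
              · show t ∈ closedBall b0 (8 * r)
                rw [mem_closedBall, Real.dist_eq, abs_le]
                constructor <;> linarith [h4.1, h4.2]
            · exact Or.inr ⟨hm, hpt⟩
        _ ≤ volume (M ∩ closedBall (p0, b0) (8 * r)) + volume (Mᶜ ∩ W ×ˢ L) := measure_union_le _ _
        _ = _ := by rw [hnull, add_zero]
    have h2 : volume W * ENNReal.ofReal (2 * r) ≤ ENNReal.ofReal (32 / 100 * r) * ENNReal.ofReal (2 * r) := by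
      have e1 : volume (W ×ˢ L) = volume W * ENNReal.ofReal (2 * r) := by
        rw [Measure.volume_eq_prod, Measure.prod_prod, hL, Real.volume_Ioo]
        congr 2; ring
      rw [← e1]
      refine h1.trans ((hs0 (8 * r) (by linarith) hr2.1).trans ?_)
      rw [← ENNReal.ofReal_mul (by positivity)]
      apply ENNReal.ofReal_le_ofReal
      nlinarith
    have h3 : volume W ≤ ENNReal.ofReal (32 / 100 * r) :=
      (ENNReal.mul_le_mul_iff_left hpos ENNReal.ofReal_ne_top).1 h2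
    exact (measure_mono hYW).trans h3
  rw [hvol] at hr1
  have h5 : volume (Y ∩ closedBall x r) / ENNReal.ofReal (2 * r) ≤ 1 / 2 := by
    rw [ENNReal.div_le_iff hpos ENNReal.ofReal_ne_top]
    refine hmeas.trans ?_
    have : (1 / 2 : ℝ≥0∞) = ENNReal.ofReal (1 / 2) := by
      rw [ENNReal.ofReal_div_of_pos two_pos]; simp
    rw [this, ← ENNReal.ofReal_mul (by norm_num)]
    apply ENNReal.ofReal_le_ofReal
    linarith
  exact absurd h5 (not_le.2 hr1)


lemma vol_cb (w : ℝ × ℝ) {r : ℝ} (hr : 0 < r) : volume (closedBall w r) = ENNReal.ofReal (4 * r ^ 2) := by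
  obtain ⟨p, t⟩ := w
  rw [← closedBall_prod_same, Measure.volume_eq_prod, Measure.prod_prod, Real.volume_closedBall,
    Real.volume_closedBall, ← ENNReal.ofReal_mul (by positivity)]
  congr 1; ring

lemma zd_ae {M : Set (ℝ × ℝ)} (hM : MeasurableSet M) : ∀ᵐ w : ℝ × ℝ, w ∉ M → ZD M w := by
  filter_upwards [Besicovitch.ae_tendsto_measure_inter_div_of_measurableSet volume hM] with w hw hwM ε hε
  rw [indicator_of_notMem hwM] at hw
  have h1 : ∀ᶠ r in 𝓝[>] (0:ℝ), volume (M ∩ closedBall w r) / volume (closedBall w r) <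
      ENNReal.ofReal (ε / 4) := hw.eventually_lt_const (by simpa using hε)
  filter_upwards [h1, self_mem_nhdsWithin] with r hr1 hr0
  have hr0 : 0 < r := hr0
  rw [vol_cb w hr0] at hr1
  have hpos : ENNReal.ofReal (4 * r ^ 2) ≠ 0 := by
    rw [Ne, ENNReal.ofReal_eq_zero, not_le]; positivity
  refine ((ENNReal.div_lt_iff (Or.inl hpos) (Or.inl ENNReal.ofReal_ne_top)).1 hr1).le.trans ?_
  rw [← ENNReal.ofReal_mul (by positivity)]
  apply ENNReal.ofReal_le_ofReal
  apply le_of_eq; ring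

lemma zd_ae_ae {M : Set (ℝ × ℝ)} (hM : MeasurableSet M) :
    ∀ᵐ p : ℝ, ∀ᵐ t : ℝ, (p, t) ∉ M → ZD M (p, t) := by
  have h := zd_ae hM
  rw [Measure.volume_eq_prod] at h
  exact Measure.ae_ae_of_ae_prod h

lemma ZD.small {M : Set (ℝ × ℝ)} {w : ℝ × ℝ} (h : ZD M w) : ∃ k, Small M k w := by
  have h1 := h (1 / 100) (by norm_num)
  rw [eventually_nhdsWithin_iff, Metric.eventually_nhds_iff] at h1
  obtain ⟨δ, hδ, h1⟩ := h1
  obtain ⟨k, hk⟩ := (one_div_small hδ).exists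
  refine ⟨k, fun r hr0 hr => ?_⟩
  have := @h1 r (by rw [Real.dist_eq, sub_zero, abs_of_pos hr0]; linarith) hr0
  refine this.trans (le_of_eq ?_)
  congr 1; ring

lemma small_disj {M : Set (ℝ × ℝ)} {w : ℝ × ℝ} {j k : ℕ} (h1 : Small M j w) (h2 : Small Mᶜ k w) : False := by
  have hj : (0:ℝ) < 1 / ((j:ℝ) + 1) := by positivity
  have hk : (0:ℝ) < 1 / ((k:ℝ) + 1) := by positivity
  set r : ℝ := min (1 / ((j:ℝ) + 1)) (1 / ((k:ℝ) + 1)) / 2 with hr
  have hr0 : 0 < r := by rw [hr]; exact half_pos (lt_min hj hk)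
  have hr1 : r < 1 / ((j:ℝ) + 1) := by
    have := min_le_left (1 / ((j:ℝ) + 1)) (1 / ((k:ℝ) + 1))
    rw [hr] at *; linarith
  have hr2 : r < 1 / ((k:ℝ) + 1) := by
    have := min_le_right (1 / ((j:ℝ) + 1)) (1 / ((k:ℝ) + 1))
    rw [hr] at *; linarith
  have e1 := h1 r hr0 hr1
  have e2 := h2 r hr0 hr2
  have e3 : closedBall w r ⊆ (M ∩ closedBall w r) ∪ (Mᶜ ∩ closedBall w r) := by
    intro x hx
    by_cases h : x ∈ M
    · exact Or.inl ⟨h, hx⟩
    · exact Or.inr ⟨h, hx⟩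
  have e4 : volume (closedBall w r) ≤ ENNReal.ofReal (r ^ 2 / 100) + ENNReal.ofReal (r ^ 2 / 100) :=
    (measure_mono e3).trans ((measure_union_le _ _).trans (add_le_add e1 e2))
  rw [vol_cb w hr0, ← ENNReal.ofReal_add (by positivity) (by positivity),
    ENNReal.ofReal_le_ofReal_iff (by positivity)] at e4
  nlinarith [sq_pos_of_pos hr0]

lemma isClosed_small (M : Set (ℝ × ℝ)) (k : ℕ) : IsClosed {w | Small M k w} := by
  rw [← isSeqClosed_iff_isClosed]
  intro u w hu huw r hr0 hr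
  have h1 : ∀ ε : ℝ, 0 < ε → r + ε < 1 / ((k:ℝ) + 1) →
      volume (M ∩ closedBall w r) ≤ ENNReal.ofReal ((r + ε) ^ 2 / 100) := by
    intro ε hε hε2
    obtain ⟨n, hn⟩ := ((Metric.tendsto_nhds.1 huw) ε hε).exists
    refine (measure_mono ?_).trans (hu n (r + ε) (by linarith) hε2)
    apply inter_subset_inter_right
    intro x hx
    rw [mem_closedBall] at hx ⊢
    have := dist_triangle x w (u n)
    rw [dist_comm w] at this
    linarith
  have h2 : Tendsto (fun ε : ℝ => ENNReal.ofReal ((r + ε) ^ 2 / 100)) (𝓝[>] 0)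
      (𝓝 (ENNReal.ofReal (r ^ 2 / 100))) := by
    have : Continuous (fun ε : ℝ => ENNReal.ofReal ((r + ε) ^ 2 / 100)) :=
      ENNReal.continuous_ofReal.comp (by fun_prop)
    have h3 := (this.tendsto 0).mono_left (nhdsWithin_le_nhds (s := Ioi 0))
    simpa using h3
  refine ge_of_tendsto h2 ?_
  have h4 : ∀ᶠ ε in 𝓝[>] (0:ℝ), ε < 1 / ((k:ℝ) + 1) - r := by
    apply eventually_nhdsWithin_of_eventually_nhds
    exact eventually_lt_nhds (by linarith)
  filter_upwards [h4, self_mem_nhdsWithin] with ε h5 h6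
  exact h1 ε h6 (by linarith)

/-- the left sided bad condition at a slice -/
def BadL (M : Set (ℝ × ℝ)) (p : ℝ) : Prop :=
  ∃ (k : ℕ) (b q : ℝ), q < b ∧ Small M k (p, b) ∧ volume ((sec M p)ᶜ ∩ Ioo q b) = 0

/-- the right sided bad condition at a slice -/
def BadR (M : Set (ℝ × ℝ)) (p : ℝ) : Prop :=
  ∃ (k : ℕ) (b q : ℝ), b < q ∧ Small M k (p, b) ∧ volume ((sec M p)ᶜ ∩ Ioo b q) = 0

lemma exists_grid {δ : ℝ} (hδ : 0 < δ) (b : ℝ) : ∃ m : ℤ, b ∈ Icc (m * (δ / 4)) (m * (δ / 4) + δ / 4) := by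
  refine ⟨⌊b / (δ / 4)⌋, ?_, ?_⟩
  · rw [← le_div_iff₀ (by positivity)]
    exact Int.floor_le _
  · have := (Int.lt_floor_add_one (b / (δ / 4))).le
    rw [div_le_iff₀ (by positivity)] at this
    linarith

lemma ae_not_badL {M : Set (ℝ × ℝ)} (hM : MeasurableSet M) : ∀ᵐ p : ℝ, ¬ BadL M p := by
  have h : ∀ᵐ p : ℝ, ∀ q : ℕ × ℕ × ℤ, ¬ (∃ b ∈ Icc (q.2.2 * ((1 / ((q.2.1:ℝ) + 1)) / 4))
      (q.2.2 * ((1 / ((q.2.1:ℝ) + 1)) / 4) + (1 / ((q.2.1:ℝ) + 1)) / 4), Small M q.1 (p, b) ∧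
      volume ((sec M p)ᶜ ∩ Ioo (b - (1 / ((q.2.1:ℝ) + 1))) b) = 0) := by
    rw [ae_all_iff]
    intro q
    have := bad_null hM q.1 (q.2.2 * ((1 / ((q.2.1:ℝ) + 1)) / 4)) (δ := 1 / ((q.2.1:ℝ) + 1)) (by positivity)
    rw [ae_iff]
    simpa only [not_not] using this
  filter_upwards [h] with p hp ⟨k, b, q, hqb, hs, h0⟩
  obtain ⟨n, hn⟩ := (one_div_small (sub_pos.2 hqb)).exists
  obtain ⟨m, hm⟩ := exists_grid (δ := 1 / ((n:ℝ) + 1)) (by positivity) b
  refine hp (k, n, m) ⟨b, hm, hs, measure_mono_null ?_ h0⟩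
  apply inter_subset_inter_right
  apply Ioo_subset_Ioo _ le_rfl
  show q ≤ b - 1 / ((n:ℝ) + 1)
  linarith

lemma ae_not_badR {M : Set (ℝ × ℝ)} (hM : MeasurableSet M) : ∀ᵐ p : ℝ, ¬ BadR M p := by
  have h : ∀ᵐ p : ℝ, ∀ q : ℕ × ℕ × ℤ, ¬ (∃ b ∈ Icc (q.2.2 * ((1 / ((q.2.1:ℝ) + 1)) / 4))
      (q.2.2 * ((1 / ((q.2.1:ℝ) + 1)) / 4) + (1 / ((q.2.1:ℝ) + 1)) / 4), Small M q.1 (p, b) ∧
      volume ((sec M p)ᶜ ∩ Ioo b (b + (1 / ((q.2.1:ℝ) + 1)))) = 0) := by
    rw [ae_all_iff]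
    intro q
    have := bad_null_right hM q.1 (q.2.2 * ((1 / ((q.2.1:ℝ) + 1)) / 4)) (δ := 1 / ((q.2.1:ℝ) + 1)) (by positivity)
    rw [ae_iff]
    simpa only [not_not] using this
  filter_upwards [h] with p hp ⟨k, b, q, hqb, hs, h0⟩
  obtain ⟨n, hn⟩ := (one_div_small (sub_pos.2 hqb)).exists
  obtain ⟨m, hm⟩ := exists_grid (δ := 1 / ((n:ℝ) + 1)) (by positivity) b
  refine hp (k, n, m) ⟨b, hm, hs, measure_mono_null ?_ h0⟩
  apply inter_subset_inter_right
  apply Ioo_subset_Ioo le_rfl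
  show b + 1 / ((n:ℝ) + 1) ≤ q
  linarith

lemma null_of_small {M : Set (ℝ × ℝ)} {p : ℝ} (hp : ∀ᵐ t : ℝ, (p, t) ∉ M → ZD M (p, t)) {c d : ℝ}
    (h : Ioo c d ⊆ ⋃ k, {t | Small Mᶜ k (p, t)}) : volume ((sec M p)ᶜ ∩ Ioo c d) = 0 := by
  rw [ae_iff] at hp
  refine measure_mono_null ?_ hp
  rintro t ⟨h1, h2⟩ h3
  obtain ⟨k, hk⟩ := mem_iUnion.1 (h h2)
  obtain ⟨j, hj⟩ := (h3 h1).small
  exact small_disj hj hk

theorem ess_of_hit {M : Set (ℝ × ℝ)} (hM : MeasurableSet M) :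
    ∀ᵐ p : ℝ, (∀ n : ℕ, {t : ℝ | t ∈ Icc (-(n:ℝ)) n ∧ Ess M (p, t)}.Finite) →
      ∀ t, Hit (sec M p) t → Ess M (p, t) := by
  filter_upwards [ae_not_badL hM, ae_not_badR hM, ae_not_badL hM.compl, ae_not_badR hM.compl,
    zd_ae_ae hM, zd_ae_ae hM.compl] with p b1 b2 b3 b4 z1 z2 hfin t ht
  by_contra hess
  -- an interval around `t` without points of the essential boundary
  obtain ⟨a, b, hat, htb, hab⟩ : ∃ a b, a < t ∧ t < b ∧ ∀ x ∈ Ioo a b, ¬ Ess M (p, x) := by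
    obtain ⟨n, hn⟩ := exists_nat_gt (|t| + 1)
    have hF := (hfin n).isClosed
    have htF : t ∉ {t : ℝ | t ∈ Icc (-(n:ℝ)) n ∧ Ess M (p, t)} := fun h => hess h.2
    obtain ⟨δ, hδ, hball⟩ := Metric.isOpen_iff.1 hF.isOpen_compl t htF
    refine ⟨t - min δ 1, t + min δ 1, by linarith [lt_min hδ one_pos], by linarith [lt_min hδ one_pos], ?_⟩
    intro x hx hxe
    have hx1 : |x - t| < min δ 1 := by rw [abs_lt]; constructor <;> linarith [hx.1, hx.2]
    rw [lt_min_iff] at hx1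
    apply hball (show x ∈ ball t δ from by rw [mem_ball, Real.dist_eq]; exact hx1.1)
    refine ⟨?_, hxe⟩
    have h1 := abs_lt.1 hx1.2
    have h2 := neg_abs_le t
    have h3 := le_abs_self t
    constructor <;> linarith [h1.1, h1.2]
  set A : ℕ → Set ℝ := fun k => {t | Small M k (p, t)} with hA
  set B : ℕ → Set ℝ := fun k => {t | Small Mᶜ k (p, t)} with hB
  have hAc : ∀ k, IsClosed (A k) := fun k => (isClosed_small M k).preimage (by fun_prop : Continuous (fun t : ℝ => (p, t)))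
  have hBc : ∀ k, IsClosed (B k) := fun k => (isClosed_small Mᶜ k).preimage (by fun_prop : Continuous (fun t : ℝ => (p, t)))
  have hdis : Disjoint (⋃ k, A k) (⋃ k, B k) := by
    rw [Set.disjoint_left]
    intro x h1 h2
    obtain ⟨j, hj⟩ := mem_iUnion.1 h1
    obtain ⟨k, hk⟩ := mem_iUnion.1 h2
    exact small_disj hj hk
  have hcov : Ioo a b ⊆ (⋃ k, A k) ∪ (⋃ k, B k) := by
    intro x hx
    have := hab x hx
    unfold Ess at this
    rw [not_and_or, not_not, not_not] at this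
    rcases this with h | h
    · obtain ⟨k, hk⟩ := h.small
      exact Or.inl (mem_iUnion.2 ⟨k, hk⟩)
    · obtain ⟨k, hk⟩ := h.small
      exact Or.inr (mem_iUnion.2 ⟨k, hk⟩)
  have hht := ht a b hat htb
  have z2' : ∀ᵐ t : ℝ, (p, t) ∈ M → ZD Mᶜ (p, t) := by
    filter_upwards [z2] with t h1 h2
    exact h1 (by simpa using h2)
  have hα : (Ioo a b ∩ ⋃ k, A k).Nonempty := by
    by_contra hemp
    rw [not_nonempty_iff_eq_empty] at hemp
    apply hht.2
    rw [ae_iff] at z1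
    refine measure_mono_null ?_ z1
    rintro x ⟨h1, h2⟩ h3
    obtain ⟨k, hk⟩ := (h3 h1).small
    have : x ∈ Ioo a b ∩ ⋃ k, A k := ⟨h2, mem_iUnion.2 ⟨k, hk⟩⟩
    rw [hemp] at this
    exact this
  have hβ : (Ioo a b ∩ ⋃ k, B k).Nonempty := by
    by_contra hemp
    rw [not_nonempty_iff_eq_empty] at hemp
    apply hht.1
    rw [ae_iff] at z2'
    refine measure_mono_null ?_ z2'
    rintro x ⟨h1, h2⟩ h3
    obtain ⟨k, hk⟩ := (h3 h1).small
    have : x ∈ Ioo a b ∩ ⋃ k, B k := ⟨h2, mem_iUnion.2 ⟨k, hk⟩⟩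
    rw [hemp] at this
    exact this
  obtain ⟨k, u, hu, h⟩ := top_lemma hAc hBc hdis hcov hα hβ
  rcases h with ⟨hk, ⟨q, hq, _, hsub⟩ | ⟨q, hq, _, hsub⟩⟩ | ⟨hk, ⟨q, hq, _, hsub⟩ | ⟨q, hq, _, hsub⟩⟩
  · exact b1 ⟨k, u, q, hq, hk, null_of_small z1 hsub⟩
  · exact b2 ⟨k, u, q, hq, hk, null_of_small z1 hsub⟩
  · refine b3 ⟨k, u, q, hq, hk, ?_⟩
    have := null_of_small (M := Mᶜ) (c := q) (d := u) z2 (by rw [compl_compl]; exact hsub)
    exact this
  · refine b4 ⟨k, u, q, hq, hk, ?_⟩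
    have := null_of_small (M := Mᶜ) (c := u) (d := q) z2 (by rw [compl_compl]; exact hsub)
    exact this

end Pool.Agent.K1H32.CI
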