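import Pool.Agent.K1H32.CI.Geom

/-! The quantities of the problem in terms of the two measures. -/

set_option autoImplicit false

open MeasureTheory Set Filter Topology Metric ProbabilityTheory
open scoped ENNReal NNReal

namespace Pool.Agent.K1H32.CI

/-- the open segment of length `r` (half-line, if `r = ⊤`) from `η` in direction `γ` -/
def ray (η : ℂ) (γ : ℝ) (r : ℝ≥0∞) : Set ℂ :=
  {ξ | ∃ ρ : ℝ, 0 < ρ ∧ ENNReal.ofReal ρ < r ∧ ξ = η + ρ * Complex.exp (γ * Complex.I)}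

/-- `v^Q(η)` -/
noncomputable def vQ (A : Set ℂ) (Q : ℂ → ℝ) (η : ℂ) : ℝ≥0∞ :=
  ∫⁻ γ in Ioc 0 (2 * Real.pi), ∑' ξ : ↥(essBdry A ∩ ray η γ ⊤), ENNReal.ofReal (Q ξ)

/-- `V_r^Q(η)` -/
noncomputable def VQ (A : Set ℂ) (Q : ℂ → ℝ) (η : ℂ) (r : ℝ≥0∞) : ℝ≥0∞ :=
  ∫⁻ γ in Ioc 0 (2 * Real.pi), ∑' ξ : ↥(essBdry A ∩ ray η γ r), ENNReal.ofReal (‖(ξ:ℂ) - η‖ * Q ξ)

/-- `U_r^Q(η)`, with the weight `1/ρ` -/
noncomputable def UQ (A : Set ℂ) (Q : ℂ → ℝ) (η : ℂ) (r : ℝ≥0∞) : ℝ≥0∞ :=
  ∫⁻ ρ in {ρ : ℝ | 0 < ρ ∧ ENNReal.ofReal ρ < r},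
    ENNReal.ofReal ρ⁻¹ * ∑' ξ : ↥(essBdry A ∩ sphere η ρ), ENNReal.ofReal (Q ξ)

/-- the analogue of `U_r^Q(η)` without the weight `1/ρ` -/
noncomputable def uQ (A : Set ℂ) (Q : ℂ → ℝ) (η : ℂ) (r : ℝ≥0∞) : ℝ≥0∞ :=
  ∫⁻ ρ in {ρ : ℝ | 0 < ρ ∧ ENNReal.ofReal ρ < r},
    ∑' ξ : ↥(essBdry A ∩ sphere η ρ), ENNReal.ofReal (Q ξ)

/-- the disc of radius `r` around `η` -/
def Dr (η : ℂ) (r : ℝ≥0∞) : Set ℂ := {ζ | ENNReal.ofReal ‖ζ - η‖ < r}

lemma measurableSet_Dr (η : ℂ) (r : ℝ≥0∞) : MeasurableSet (Dr η r) :=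
  measurableSet_lt (by fun_prop) measurable_const

lemma Dr_top (η : ℂ) : Dr η ⊤ = univ := by
  ext ζ; simp [Dr]

lemma Dr_ofReal (η : ℂ) {r : ℝ} (hr : 0 < r) : Dr η (ENNReal.ofReal r) = ball η r := by
  ext ζ
  unfold Dr
  rw [mem_ofPred_eq, mem_ball, dist_eq_norm, ENNReal.ofReal_lt_ofReal_iff hr]

lemma ray_per (η : ℂ) (γ : ℝ) (r : ℝ≥0∞) : ray η (γ + 2 * Real.pi) r = ray η γ r := by
  unfold ray
  have : Complex.exp (((γ + 2 * Real.pi : ℝ) : ℂ) * Complex.I) = Complex.exp (γ * Complex.I) := by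
    have h : ((γ + 2 * Real.pi : ℝ) : ℂ) * Complex.I = γ * Complex.I + 2 * Real.pi * Complex.I := by
      push_cast; ring
    rw [h, Complex.exp_periodic]
  rw [this]

lemma lintegral_period {f : ℝ → ℝ≥0∞} (hf : ∀ x, f (x + 2 * Real.pi) = f x) :
    ∫⁻ x in Ioc (-Real.pi) Real.pi, f x = ∫⁻ x in Ioc 0 (2 * Real.pi), f x := by
  have hpi := Real.pi_pos
  have h1 : Ioc (-Real.pi) Real.pi = Ioc (-Real.pi) 0 ∪ Ioc 0 Real.pi := by
    rw [Ioc_union_Ioc_eq_Ioc] <;> linarith
  have h2 : Ioc 0 (2 * Real.pi) = Ioc 0 Real.pi ∪ Ioc Real.pi (2 * Real.pi) := by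
    rw [Ioc_union_Ioc_eq_Ioc] <;> linarith
  rw [h1, h2, lintegral_union measurableSet_Ioc, lintegral_union measurableSet_Ioc, add_comm]
  · congr 1
    rw [← lintegral_indicator measurableSet_Ioc, ← lintegral_indicator measurableSet_Ioc,
      ← lintegral_add_right_eq_self ((Ioc Real.pi (2 * Real.pi)).indicator f) (2 * Real.pi)]
    apply lintegral_congr
    intro x
    by_cases hx : x ∈ Ioc (-Real.pi) 0
    · rw [indicator_of_mem hx, indicator_of_mem, hf]
      exact ⟨by linarith [hx.1], by linarith [hx.2]⟩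
    · rw [indicator_of_notMem hx, indicator_of_notMem]
      intro h
      exact hx ⟨by linarith [h.1], by linarith [h.2]⟩
  · rw [Set.disjoint_left]
    intro x hx hx'
    exact absurd hx.2 (not_le.2 hx'.1)
  · rw [Set.disjoint_left]
    intro x hx hx'
    exact absurd hx.2 (not_le.2 hx'.1)

lemma Th_true (η : ℂ) (p t : ℝ) : Th true η (p, t) = η + (Real.exp t : ℝ) * Complex.exp (p * Complex.I) := by
  unfold Th
  rw [io_eq, if_pos rfl, Complex.exp_add]
  simp

lemma Th_false (η : ℂ) (p t : ℝ) : Th false η (p, t) = η + (Real.exp p : ℝ) * Complex.exp (t * Complex.I) := by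
  unfold Th
  rw [io_eq, if_neg (by simp), Complex.exp_add]
  simp

lemma norm_exp_I (x : ℝ) : ‖Complex.exp (x * Complex.I)‖ = 1 := by
  rw [Complex.norm_exp]; simp

variable {η : ℂ} {A : Set ℂ} (hA : MeasurableSet A)
  (hfin : ∀ a : ℤ, Measure.hausdorffMeasure 1 (essBdry A ∩ Ann η a) < ∞)

include hfin in
theorem rays_formula {H : ℂ → ℝ≥0∞} (hH : Measurable H) (r : ℝ≥0∞) :
    ∫⁻ ζ in Dr η r, H ζ ∂(NN true η hA) =
      ∫⁻ γ in Ioc 0 (2 * Real.pi), ∑' ξ : ↥(essBdry A ∩ ray η γ r), H ξ := by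
  have hD := measurableSet_Dr η r
  rw [← lintegral_period (f := fun γ => ∑' ξ : ↥(essBdry A ∩ ray η γ r), H ξ) (by
    intro x
    rw [ray_per]), ← lintegral_indicator hD, lintegral_NN' true η hA hfin (hH.indicator hD),
    ← lintegral_indicator measurableSet_Ioc]
  apply lintegral_congr
  intro p
  by_cases hp : p ∈ Ioc (-Real.pi) Real.pi
  · rw [indicator_of_mem hp]
    have himg : essBdry A ∩ ray η p r =
        (fun t : ℝ => Th true η (p, t)) '' {t | t ∈ PS true η A p ∧ Th true η (p, t) ∈ Dr η r} := by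
      ext ξ
      constructor
      · rintro ⟨h1, ρ, hρ, hρr, rfl⟩
        have e : Th true η (p, Real.log ρ) = η + ρ * Complex.exp (p * Complex.I) := by
          rw [Th_true, Real.exp_log hρ]
        refine ⟨Real.log ρ, ⟨⟨hp, ?_⟩, ?_⟩, e⟩
        · rw [e]; exact h1
        · rw [e]
          show ENNReal.ofReal ‖η + ρ * Complex.exp (p * Complex.I) - η‖ < r
          rw [add_sub_cancel_left, norm_mul, norm_exp_I, mul_one, Complex.norm_real, Real.norm_eq_abs,
            abs_of_pos hρ]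
          exact hρr
      · rintro ⟨t, ⟨⟨_, h1⟩, h2⟩, rfl⟩
        refine ⟨h1, Real.exp t, Real.exp_pos t, ?_, Th_true η p t⟩
        have h2 : ENNReal.ofReal ‖Th true η (p, t) - η‖ < r := h2
        rw [Th_true, add_sub_cancel_left, norm_mul, norm_exp_I, mul_one, Complex.norm_real,
          Real.norm_eq_abs, abs_of_pos (Real.exp_pos t)] at h2
        exact h2
    have hinj : InjOn (fun t : ℝ => Th true η (p, t)) {t | t ∈ PS true η A p ∧ Th true η (p, t) ∈ Dr η r} := by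
      intro t _ t' _ h
      have h : Th true η (p, t) = Th true η (p, t') := h
      rw [Th_true, Th_true] at h
      have h1 := mul_right_cancel₀ (Complex.exp_ne_zero _) (add_left_cancel h)
      exact Real.exp_injective (by exact_mod_cast h1)
    rw [himg, tsum_image (f := H) hinj]
    rw [tsum_subtype (PS true η A p) (fun t => (Dr η r).indicator H (Th true η (p, t))),
      tsum_subtype {t | t ∈ PS true η A p ∧ Th true η (p, t) ∈ Dr η r} (fun t => H (Th true η (p, t)))]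
    apply tsum_congr
    intro t
    by_cases h1 : t ∈ PS true η A p
    · rw [indicator_of_mem h1]
      by_cases h2 : Th true η (p, t) ∈ Dr η r
      · rw [indicator_of_mem h2, indicator_of_mem]
        exact ⟨h1, h2⟩
      · rw [indicator_of_notMem h2, indicator_of_notMem]
        exact fun h => h2 h.2
    · rw [indicator_of_notMem h1, indicator_of_notMem]
      exact fun h => h1 h.1
  · rw [indicator_of_notMem hp]
    rw [ENNReal.tsum_eq_zero]
    rintro ⟨t, ht⟩
    exact absurd ht.1 hp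

include hfin in
theorem circles_formula {H : ℂ → ℝ≥0∞} (hH : Measurable H) (r : ℝ≥0∞) :
    ∫⁻ ζ in Dr η r, H ζ ∂(NN false η hA) =
      ∫⁻ ρ in {ρ : ℝ | 0 < ρ ∧ ENNReal.ofReal ρ < r},
        ENNReal.ofReal ρ⁻¹ * ∑' ξ : ↥(essBdry A ∩ sphere η ρ), H ξ := by
  have hD := measurableSet_Dr η r
  have hs : MeasurableSet {p : ℝ | ENNReal.ofReal (Real.exp p) < r} :=
    measurableSet_lt (by fun_prop) measurable_const
  have himg : Real.exp '' {p : ℝ | ENNReal.ofReal (Real.exp p) < r} = {ρ : ℝ | 0 < ρ ∧ ENNReal.ofReal ρ < r} := by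
    ext ρ
    constructor
    · rintro ⟨p, hp, rfl⟩
      exact ⟨Real.exp_pos p, hp⟩
    · rintro ⟨h1, h2⟩
      refine ⟨Real.log ρ, ?_, Real.exp_log h1⟩
      show ENNReal.ofReal (Real.exp (Real.log ρ)) < r
      rw [Real.exp_log h1]; exact h2
  rw [← himg, lintegral_image_eq_lintegral_abs_deriv_mul hs
    (fun p _ => (Real.hasDerivAt_exp p).hasDerivWithinAt) (Real.exp_injective.injOn),
    ← lintegral_indicator hD, lintegral_NN' false η hA hfin (hH.indicator hD),
    ← lintegral_indicator hs]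
  apply lintegral_congr
  intro p
  have hnorm : ∀ t, ‖Th false η (p, t) - η‖ = Real.exp p := by
    intro t
    rw [Th_false, add_sub_cancel_left, norm_mul, norm_exp_I, mul_one, Complex.norm_real,
      Real.norm_eq_abs, abs_of_pos (Real.exp_pos p)]
  by_cases hp : p ∈ {p : ℝ | ENNReal.ofReal (Real.exp p) < r}
  · rw [indicator_of_mem hp, abs_of_pos (Real.exp_pos p), ← mul_assoc,
      ← ENNReal.ofReal_mul (Real.exp_pos p).le, mul_inv_cancel₀ (Real.exp_pos p).ne',
      ENNReal.ofReal_one, one_mul]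
    have himg2 : essBdry A ∩ sphere η (Real.exp p) = (fun t : ℝ => Th false η (p, t)) '' (PS false η A p) := by
      ext ξ
      constructor
      · rintro ⟨h1, h2⟩
        rw [mem_sphere, dist_eq_norm] at h2
        have hne : ξ - η ≠ 0 := by
          intro h
          rw [h, norm_zero] at h2
          exact (Real.exp_pos p).ne h2
        have e : Th false η (p, (Complex.log (ξ - η)).im) = ξ := by
          rw [Th_false, ← h2]
          have h3 := Complex.norm_mul_exp_arg_mul_I (ξ - η)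
          rw [Complex.log_im, h3]
          ring
        refine ⟨(Complex.log (ξ - η)).im, ⟨⟨Complex.neg_pi_lt_log_im _, Complex.log_im_le_pi _⟩, ?_⟩, e⟩
        rw [e]; exact h1
      · rintro ⟨t, ht, rfl⟩
        refine ⟨ht.2, ?_⟩
        rw [mem_sphere, dist_eq_norm]
        exact hnorm t
    have hinj : InjOn (fun t : ℝ => Th false η (p, t)) (PS false η A p) := by
      intro t ht t' ht' h
      have h : Th false η (p, t) = Th false η (p, t') := h
      unfold Th at h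
      have h1 := Complex.exp_inj_of_neg_pi_lt_of_le_pi ht.1.1 ht.1.2 ht'.1.1 ht'.1.2 (add_left_cancel h)
      exact io_inj false p h1
    rw [himg2, tsum_image (f := H) hinj]
    apply tsum_congr
    rintro ⟨t, ht⟩
    rw [indicator_of_mem]
    show ENNReal.ofReal ‖Th false η (p, t) - η‖ < r
    rw [hnorm]
    exact hp
  · rw [indicator_of_notMem hp, ENNReal.tsum_eq_zero]
    rintro ⟨t, ht⟩
    rw [indicator_of_notMem]
    intro h
    have h : ENNReal.ofReal ‖Th false η (p, t) - η‖ < r := h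
    rw [hnorm] at h
    exact hp h

variable {Q : ℂ → ℝ} (hQ : QD (frontier A) Q η)

include hfin hQ in
theorem vQ_eq : vQ A Q η = ∫⁻ ζ, ENNReal.ofReal ((frontier A).indicator Q ζ) ∂(NN true η hA) := by
  have h := rays_formula hA hfin (H := fun ζ => ENNReal.ofReal ((frontier A).indicator Q ζ))
    hQ.meas.ennreal_ofReal ⊤
  rw [Dr_top, Measure.restrict_univ] at h
  rw [h]
  unfold vQ
  apply lintegral_congr
  intro γ
  apply tsum_congr
  rintro ⟨ξ, hξ⟩
  rw [indicator_of_mem (essBdry_subset A hξ.1)]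

include hfin hQ in
theorem VQ_eq (r : ℝ≥0∞) : VQ A Q η r =
    ∫⁻ ζ in Dr η r, ENNReal.ofReal ((frontier A).indicator Q ζ * ‖ζ - η‖) ∂(NN true η hA) := by
  have hm : Measurable (fun ζ => ENNReal.ofReal ((frontier A).indicator Q ζ * ‖ζ - η‖)) :=
    (hQ.meas.mul (by fun_prop)).ennreal_ofReal
  rw [rays_formula hA hfin hm r]
  unfold VQ
  apply lintegral_congr
  intro γ
  apply tsum_congr
  rintro ⟨ξ, hξ⟩
  rw [indicator_of_mem (essBdry_subset A hξ.1), mul_comm]

include hfin hQ in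
theorem UQ_eq (r : ℝ≥0∞) : UQ A Q η r =
    ∫⁻ ζ in Dr η r, ENNReal.ofReal ((frontier A).indicator Q ζ) ∂(NN false η hA) := by
  rw [circles_formula hA hfin hQ.meas.ennreal_ofReal r]
  unfold UQ
  apply lintegral_congr
  intro ρ
  congr 1
  apply tsum_congr
  rintro ⟨ξ, hξ⟩
  rw [indicator_of_mem (essBdry_subset A hξ.1)]

include hfin hQ in
theorem uQ_eq (r : ℝ≥0∞) : uQ A Q η r =
    ∫⁻ ζ in Dr η r, ENNReal.ofReal ((frontier A).indicator Q ζ * ‖ζ - η‖) ∂(NN false η hA) := by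
  have hm : Measurable (fun ζ => ENNReal.ofReal ((frontier A).indicator Q ζ * ‖ζ - η‖)) :=
    (hQ.meas.mul (by fun_prop)).ennreal_ofReal
  rw [circles_formula hA hfin hm r]
  unfold uQ
  have hs : MeasurableSet {ρ : ℝ | 0 < ρ ∧ ENNReal.ofReal ρ < r} :=
    (measurableSet_lt measurable_const measurable_id).inter
      (measurableSet_lt (f := fun ρ : ℝ => ENNReal.ofReal ρ) (by fun_prop) measurable_const)
  apply setLIntegral_congr_fun hs
  intro ρ hρ
  have hρ0 : 0 < ρ := hρ.1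
  simp only
  rw [← ENNReal.tsum_mul_left]
  apply tsum_congr
  rintro ⟨ξ, hξ⟩
  have h1 := hξ.2
  rw [mem_sphere, dist_eq_norm] at h1
  show ENNReal.ofReal (Q ξ) = ENNReal.ofReal ρ⁻¹ * ENNReal.ofReal ((frontier A).indicator Q ξ * ‖ξ - η‖)
  rw [indicator_of_mem (essBdry_subset A hξ.1), h1, ← ENNReal.ofReal_mul (by positivity)]
  congr 1
  field_simp

end Pool.Agent.K1H32.CI
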