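import Pool.Agent.K1H32.CI.Form3

/-! The representation of the Cauchy-type integral by the two measures. -/

set_option autoImplicit false

open MeasureTheory Set Filter Topology Metric ProbabilityTheory
open scoped ENNReal NNReal

namespace Pool.Agent.K1H32.CI

/-- the Cauchy-type integral of a function of class `C¹` with compact support -/
noncomputable def CauchyC1 (A : Set ℂ) (φ : ℂ → ℂ) (z : ℂ) : ℂ :=
  (1 / (Real.pi * Complex.I)) * ∫ ζ in Aᶜ, dbar φ ζ / (ζ - z)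

/-- the kernel -/
noncomputable def kz (η z ζ : ℂ) : ℂ := (ζ - η) / (ζ - z)

/-- the integral of `h` against the kernel and the two measures -/
noncomputable def JJ (η : ℂ) {A : Set ℂ} (hA : MeasurableSet A) (h : ℂ → ℂ) (z : ℂ) : ℂ :=
  (1 / (2 * Real.pi * Complex.I)) *
    ((∫ ζ, (sN true η A ζ : ℂ) * (h ζ * kz η z ζ) ∂(NN true η hA)) +
      Complex.I * ∫ ζ, (sN false η A ζ : ℂ) * (h ζ * kz η z ζ) ∂(NN false η hA))

lemma dbar_congr {φ ψ : ℂ → ℂ} {ζ : ℂ} (h : φ =ᶠ[𝓝 ζ] ψ) : dbar φ ζ = dbar ψ ζ := by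
  unfold dbar
  rw [h.fderiv_eq]

lemma dbar_mul_fun {φ g : ℂ → ℂ} {ζ : ℂ} (hφ : DifferentiableAt ℝ φ ζ) (hg : DifferentiableAt ℝ g ζ) :
    dbar (fun ζ => φ ζ * g ζ) ζ = dbar φ ζ * g ζ + φ ζ * dbar g ζ := by
  unfold dbar
  rw [fderiv_fun_mul hφ hg]
  simp only [add_apply, smul_apply, smul_eq_mul]
  ring

lemma dbar_holo {g : ℂ → ℂ} {g' ζ : ℂ} (hg : HasDerivAt g g' ζ) : dbar g ζ = 0 := by
  have h := (hg.hasFDerivAt.restrictScalars ℝ).fderiv
  unfold dbar
  rw [h]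
  have h1 : (ContinuousLinearMap.restrictScalars ℝ (ContinuousLinearMap.toSpanSingleton ℂ g')) 1 = g' := by
    simp
  have h2 : (ContinuousLinearMap.restrictScalars ℝ (ContinuousLinearMap.toSpanSingleton ℂ g')) Complex.I = Complex.I * g' := by
    simp
  rw [h1, h2, ← mul_assoc, Complex.I_mul_I]
  simp

lemma dbar_add {φ g : ℂ → ℂ} {ζ : ℂ} (hφ : DifferentiableAt ℝ φ ζ) (hg : DifferentiableAt ℝ g ζ) :
    dbar (fun ζ => φ ζ + g ζ) ζ = dbar φ ζ + dbar g ζ := by
  unfold dbar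
  rw [fderiv_fun_add hφ hg]
  simp only [add_apply]
  ring

lemma dbar_const_mul {g : ℂ → ℂ} {ζ : ℂ} (c : ℂ) (hg : DifferentiableAt ℝ g ζ) :
    dbar (fun ζ => c * g ζ) ζ = c * dbar g ζ := by
  rw [dbar_mul_fun (differentiableAt_const c) hg]
  have : dbar (fun _ : ℂ => c) ζ = 0 := by
    unfold dbar; simp
  rw [this]; ring

lemma continuous_dbar {φ : ℂ → ℂ} (hφ : ContDiff ℝ 1 φ) : Continuous (dbar φ) := by
  have h : Continuous (fderiv ℝ φ) := hφ.continuous_fderiv (by norm_num)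
  unfold dbar
  exact ((h.clm_apply continuous_const).add (continuous_const.mul (h.clm_apply continuous_const))).div_const 2

lemma dbar_supp {φ : ℂ → ℂ} {ζ : ℂ} (h : ζ ∉ tsupport φ) : dbar φ ζ = 0 := by
  have : φ =ᶠ[𝓝 ζ] fun _ => 0 := notMem_tsupport_iff_eventuallyEq.1 h
  rw [dbar_congr this]
  unfold dbar; simp

lemma norm_dbar_le {φ : ℂ → ℂ} {L : ℝ≥0} (hL : LipschitzWith L φ) (ζ : ℂ) : ‖dbar φ ζ‖ ≤ L := by
  have h := norm_fderiv_le_of_lipschitz ℝ hL (x₀ := ζ)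
  unfold dbar
  rw [norm_div]
  have h1 : ‖fderiv ℝ φ ζ 1‖ ≤ L := by
    refine ((fderiv ℝ φ ζ).le_opNorm 1).trans ?_
    simpa using h
  have h2 : ‖Complex.I * fderiv ℝ φ ζ Complex.I‖ ≤ L := by
    rw [norm_mul, Complex.norm_I, one_mul]
    refine ((fderiv ℝ φ ζ).le_opNorm Complex.I).trans ?_
    simpa using h
  have h3 := norm_add_le (fderiv ℝ φ ζ 1) (Complex.I * fderiv ℝ φ ζ Complex.I)
  rw [Complex.norm_ofNat]
  linarith

lemma hasDerivAt_kz {η z ζ : ℂ} (h : ζ ≠ z) : ∃ g', HasDerivAt (kz η z) g' ζ := by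
  unfold kz
  have h1 : HasDerivAt (fun ζ : ℂ => ζ - η) 1 ζ := (hasDerivAt_id ζ).sub_const η
  have h2 : HasDerivAt (fun ζ : ℂ => ζ - z) 1 ζ := (hasDerivAt_id ζ).sub_const z
  exact ⟨_, h1.div h2 (sub_ne_zero.2 h)⟩

lemma contDiffAt_kz {η z ζ : ℂ} (h : ζ ≠ z) : ContDiffAt ℝ 1 (kz η z) ζ := by
  have h1 : ContDiffAt ℝ 1 (fun ζ : ℂ => ζ - η) ζ := contDiffAt_id.sub contDiffAt_const
  have h2 : ContDiffAt ℝ 1 (fun ζ : ℂ => (ζ - z)⁻¹) ζ :=
    (contDiffAt_id.sub contDiffAt_const).inv (sub_ne_zero.2 h)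
  have : kz η z = fun ζ => (ζ - η) * (ζ - z)⁻¹ := by
    funext ζ
    unfold kz
    rw [div_eq_mul_inv]
  rw [this]
  exact h1.mul h2

lemma NN_ae_frontier (s : Bool) (η : ℂ) {A : Set ℂ} (hA : MeasurableSet A)
    (hfin : ∀ a : ℤ, Measure.hausdorffMeasure 1 (essBdry A ∩ Ann η a) < ∞) :
    ∀ᵐ ζ ∂(NN s η hA), ζ ∈ frontier A := by
  rw [ae_iff]
  exact NN_frontier_compl s η hA hfin

lemma NN_ae_ne (s : Bool) (η : ℂ) {A : Set ℂ} (hA : MeasurableSet A) :
    ∀ᵐ ζ ∂(NN s η hA), ζ ≠ η := by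
  rw [ae_iff]
  simpa using NN_singleton s η hA

lemma JJ_congr {η : ℂ} {A : Set ℂ} (hA : MeasurableSet A)
    (hfin : ∀ a : ℤ, Measure.hausdorffMeasure 1 (essBdry A ∩ Ann η a) < ∞) {h h' : ℂ → ℂ} {z : ℂ}
    (hh : ∀ ζ ∈ frontier A, h ζ * kz η z ζ = h' ζ * kz η z ζ) : JJ η hA h z = JJ η hA h' z := by
  have key : ∀ s, ∫ ζ, (sN s η A ζ : ℂ) * (h ζ * kz η z ζ) ∂(NN s η hA) =
      ∫ ζ, (sN s η A ζ : ℂ) * (h' ζ * kz η z ζ) ∂(NN s η hA) := by
    intro s
    apply integral_congr_ae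
    filter_upwards [NN_ae_frontier s η hA hfin] with ζ hζ
    rw [hh ζ hζ]
  unfold JJ
  rw [key, key]

theorem rep_away {η : ℂ} {A : Set ℂ} (hA : MeasurableSet A)
    (hfin : ∀ a : ℤ, Measure.hausdorffMeasure 1 (essBdry A ∩ Ann η a) < ∞) {φ : ℂ → ℂ}
    (hφ : ContDiff ℝ 1 φ) (hc : HasCompactSupport φ) (h0 : ∀ᶠ ζ in 𝓝 η, φ ζ = 0) {z : ℂ}
    (hz : z ∈ interior A) : CauchyC1 A φ z = JJ η hA φ z := by
  obtain ⟨ε, hε, hball⟩ := Metric.isOpen_iff.1 isOpen_interior z hz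
  let f : ContDiffBump z := ⟨ε / 4, ε / 2, by positivity, by linarith⟩
  set χ : ℂ → ℂ := fun ζ => ((1 - f ζ : ℝ) : ℂ) with hχ
  have hχs : ContDiff ℝ 1 χ := by
    apply Complex.ofRealCLM.contDiff.comp
    exact contDiff_const.sub f.contDiff
  have hχ0 : ∀ ζ ∈ closedBall z (ε / 4), χ ζ = 0 := by
    intro ζ hζ
    show ((1 - f ζ : ℝ) : ℂ) = 0
    rw [f.one_of_mem_closedBall hζ]
    simp
  have hχ1 : ∀ ζ ∉ ball z (ε / 2), χ ζ = 1 := by
    intro ζ hζ
    show ((1 - f ζ : ℝ) : ℂ) = 1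
    rw [f.zero_of_le_dist]
    · simp
    · rw [mem_ball, not_lt] at hζ
      exact hζ
  set Φ : ℂ → ℂ := fun ζ => χ ζ * φ ζ * kz η z ζ with hΦ
  have hΦs : ContDiff ℝ 1 Φ := by
    rw [contDiff_iff_contDiffAt]
    intro ζ
    by_cases hζ : ζ = z
    · have : Φ =ᶠ[𝓝 ζ] fun _ => 0 := by
        rw [hζ]
        filter_upwards [closedBall_mem_nhds z (by positivity : 0 < ε / 4)] with x hx
        show χ x * φ x * kz η z x = 0
        rw [hχ0 x hx]; ring
      exact contDiffAt_const.congr_of_eventuallyEq this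
    · exact (hχs.contDiffAt.mul hφ.contDiffAt).mul (contDiffAt_kz hζ)
  have hΦc : HasCompactSupport Φ := (hc.mul_left).mul_right
  have hΦ0 : ∀ᶠ ζ in 𝓝 η, Φ ζ = 0 := by
    filter_upwards [h0] with ζ hζ
    show χ ζ * φ ζ * kz η z ζ = 0
    rw [hζ]; ring
  have hpf := polar_formula η hA hfin hΦs hΦc hΦ0
  have hG : ∀ ζ ∈ Aᶜ, dbar Φ ζ / (ζ - η) = dbar φ ζ / (ζ - z) := by
    intro ζ hζ
    have hζb : ζ ∉ ball z ε := fun h => hζ (interior_subset (hball h))
    rw [mem_ball, not_lt] at hζb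
    have hne : ζ ≠ z := by
      rintro rfl
      rw [dist_self] at hζb
      linarith
    have he : Φ =ᶠ[𝓝 ζ] fun ζ => φ ζ * kz η z ζ := by
      have ho : IsOpen (closedBall z (ε / 2))ᶜ := isClosed_closedBall.isOpen_compl
      have hmem : ζ ∈ (closedBall z (ε / 2))ᶜ := by
        rw [mem_compl_iff, mem_closedBall, not_le]
        linarith
      filter_upwards [ho.mem_nhds hmem] with x hx
      show χ x * φ x * kz η z x = _
      rw [hχ1 x (fun h => hx (ball_subset_closedBall h)), one_mul]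
    obtain ⟨g', hg'⟩ := hasDerivAt_kz (η := η) hne
    rw [dbar_congr he, dbar_mul_fun (hφ.differentiable (by norm_num)).differentiableAt
      (hg'.differentiableAt.restrictScalars ℝ), dbar_holo hg', mul_zero, add_zero]
    by_cases hη : ζ = η
    · have : dbar φ ζ = 0 := by
        rw [hη]
        have : φ =ᶠ[𝓝 η] fun _ => 0 := h0
        rw [dbar_congr this]
        unfold dbar; simp
      rw [this]; simp
    · unfold kz
      have h1 := sub_ne_zero.2 hη
      have h2 := sub_ne_zero.2 hne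
      field_simp
  unfold CauchyC1
  rw [← setIntegral_congr_fun hA.compl hG, hpf]
  have hJ : ∀ s, ∫ ζ, (sN s η A ζ : ℂ) * Φ ζ ∂(NN s η hA) =
      ∫ ζ, (sN s η A ζ : ℂ) * (φ ζ * kz η z ζ) ∂(NN s η hA) := by
    intro s
    apply integral_congr_ae
    filter_upwards [NN_ae_frontier s η hA hfin] with ζ hζ
    have hζb : ζ ∉ ball z (ε / 2) := by
      intro h
      have h2 : ζ ∈ interior A := hball (ball_subset_ball (by linarith) h)
      exact hζ.2 h2
    show (sN s η A ζ : ℂ) * (χ ζ * φ ζ * kz η z ζ) = _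
    rw [hχ1 ζ hζb, one_mul]
  rw [hJ, hJ]
  unfold JJ
  have hpi : (Real.pi : ℂ) ≠ 0 := by exact_mod_cast Real.pi_ne_zero
  have hI := Complex.I_ne_zero
  field_simp

lemma integrableOn_dbar_div {A : Set ℂ} (hA : MeasurableSet A) {φ : ℂ → ℂ} (hφ : ContDiff ℝ 1 φ)
    (hc : HasCompactSupport φ) {z : ℂ} (hz : z ∈ interior A) :
    IntegrableOn (fun ζ => dbar φ ζ / (ζ - z)) Aᶜ volume := by
  obtain ⟨ε, hε, hball⟩ := Metric.isOpen_iff.1 isOpen_interior z hz
  obtain ⟨L, hL⟩ := hφ.lipschitzWith_of_hasCompactSupport hc (by norm_num)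
  have hm : Measurable (fun ζ => dbar φ ζ / (ζ - z)) :=
    (continuous_dbar hφ).measurable.div (by fun_prop)
  have h1 : IntegrableOn (fun ζ => dbar φ ζ / (ζ - z)) (Aᶜ ∩ tsupport φ) volume := by
    refine IntegrableOn.of_bound ?_ hm.aestronglyMeasurable (L / ε) ?_
    · exact (measure_mono inter_subset_right).trans_lt hc.isCompact.measure_lt_top
    · apply ae_restrict_of_forall_mem (hA.compl.inter (isClosed_tsupport φ).measurableSet)
      rintro ζ ⟨hζ, _⟩
      have hζb : ζ ∉ ball z ε := fun h => hζ (interior_subset (hball h))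
      rw [mem_ball, not_lt, dist_eq_norm] at hζb
      rw [norm_div]
      exact div_le_div₀ L.2 (norm_dbar_le hL ζ) hε hζb
  refine h1.of_forall_sdiff_eq_zero hA.compl ?_
  rintro ζ ⟨h2, h3⟩
  rw [dbar_supp (fun h => h3 ⟨h2, h⟩), zero_div]

/-- the fixed bump function -/
noncomputable def bmp : ContDiffBump (0:ℂ) := ⟨1, 2, one_pos, one_lt_two⟩

/-- cut-off near `η` at scale `1/(n+1)` -/
noncomputable def bet (η : ℂ) (n : ℕ) (ζ : ℂ) : ℂ := ((bmp (((n:ℝ) + 1) • (ζ - η)) : ℝ) : ℂ)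

lemma contDiff_bet (η : ℂ) (n : ℕ) : ContDiff ℝ 1 (bet η n) := by
  have h1 : ContDiff ℝ 1 (fun ζ : ℂ => ((n:ℝ) + 1) • (ζ - η)) := by fun_prop
  have h2 : ContDiff ℝ 1 (bmp : ℂ → ℝ) := bmp.contDiff
  exact Complex.ofRealCLM.contDiff.comp (h2.comp h1)

lemma bet_norm (η : ℂ) (n : ℕ) (ζ : ℂ) : ‖bet η n ζ‖ ≤ 1 := by
  unfold bet
  rw [Complex.norm_real, Real.norm_eq_abs, abs_of_nonneg bmp.nonneg]
  exact bmp.le_one

lemma one_sub_bet_norm (η : ℂ) (n : ℕ) (ζ : ℂ) : ‖1 - bet η n ζ‖ ≤ 1 := by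
  unfold bet
  have : (1 - ((bmp (((n:ℝ) + 1) • (ζ - η)) : ℝ) : ℂ)) = ((1 - bmp (((n:ℝ) + 1) • (ζ - η)) : ℝ) : ℂ) := by
    push_cast; rfl
  rw [this, Complex.norm_real, Real.norm_eq_abs, abs_of_nonneg (sub_nonneg.2 bmp.le_one)]
  linarith [bmp.nonneg (x := ((n:ℝ) + 1) • (ζ - η))]

lemma bet_one {η : ℂ} {n : ℕ} {ζ : ℂ} (h : ‖ζ - η‖ ≤ 1 / ((n:ℝ) + 1)) : bet η n ζ = 1 := by
  unfold bet
  rw [bmp.one_of_mem_closedBall]
  · simp
  · rw [mem_closedBall, dist_zero_right, norm_smul, Real.norm_eq_abs, abs_of_pos (by positivity)]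
    rw [le_div_iff₀ (by positivity)] at h
    show _ ≤ (1:ℝ)
    linarith

lemma bet_zero {η : ℂ} {n : ℕ} {ζ : ℂ} (h : 2 / ((n:ℝ) + 1) ≤ ‖ζ - η‖) : bet η n ζ = 0 := by
  unfold bet
  rw [bmp.zero_of_le_dist]
  · simp
  · rw [dist_zero_right, norm_smul, Real.norm_eq_abs, abs_of_pos (by positivity)]
    rw [div_le_iff₀ (by positivity)] at h
    show (2:ℝ) ≤ _
    linarith

lemma bet_lip (η : ℂ) : ∃ C : ℝ≥0, ∀ n : ℕ, LipschitzWith (((n:ℝ≥0) + 1) * C) (bet η n) := by
  have hb : ContDiff ℝ 1 (bmp : ℂ → ℝ) := bmp.contDiff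
  obtain ⟨C, hC⟩ := hb.lipschitzWith_of_hasCompactSupport bmp.hasCompactSupport (by norm_num)
  refine ⟨C, fun n => LipschitzWith.of_dist_le_mul fun z w => ?_⟩
  unfold bet
  rw [Complex.dist_eq, ← Complex.ofReal_sub, Complex.norm_real, ← dist_eq_norm]
  refine (hC.dist_le_mul _ _).trans ?_
  rw [dist_eq_norm, dist_eq_norm, ← smul_sub, norm_smul, Real.norm_eq_abs,
    abs_of_pos (by positivity : (0:ℝ) < (n:ℝ) + 1), sub_sub_sub_cancel_right]
  push_cast
  apply le_of_eq; ring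

lemma tendsto_bet {η ζ : ℂ} (h : ζ ≠ η) : ∀ᶠ n in atTop, bet η n ζ = 0 := by
  have hpos : 0 < ‖ζ - η‖ := norm_pos_iff.2 (sub_ne_zero.2 h)
  have h2 : 0 < ‖ζ - η‖ / 2 := by positivity
  filter_upwards [one_div_small h2] with n hn
  apply bet_zero
  have : 2 / ((n:ℝ) + 1) = 2 * (1 / ((n:ℝ) + 1)) := by ring
  rw [this]
  linarith

lemma dbar_bet {η : ℂ} {n : ℕ} {ζ : ℂ} (h : 2 / ((n:ℝ) + 1) < ‖ζ - η‖) : dbar (bet η n) ζ = 0 := by
  have ho : IsOpen {ζ : ℂ | 2 / ((n:ℝ) + 1) < ‖ζ - η‖} :=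
    isOpen_lt continuous_const (by fun_prop)
  have he : bet η n =ᶠ[𝓝 ζ] fun _ => 0 := by
    filter_upwards [ho.mem_nhds h] with x hx
    exact bet_zero (le_of_lt hx)
  rw [dbar_congr he]
  unfold dbar; simp

theorem rep_zero {η : ℂ} {A : Set ℂ} (hA : MeasurableSet A)
    (hfin : ∀ a : ℤ, Measure.hausdorffMeasure 1 (essBdry A ∩ Ann η a) < ∞) {φ : ℂ → ℂ}
    (hφ : ContDiff ℝ 1 φ) (hc : HasCompactSupport φ) (h0 : φ η = 0) {z : ℂ}
    (hz : z ∈ interior A) (hint : ∀ s, Integrable (fun ζ => φ ζ * kz η z ζ) (NN s η hA)) :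
    CauchyC1 A φ z = JJ η hA φ z := by
  obtain ⟨ε, hε, hball⟩ := Metric.isOpen_iff.1 isOpen_interior z hz
  set φn : ℕ → ℂ → ℂ := fun n ζ => φ ζ * (1 - bet η n ζ) with hφn
  have hs : ∀ n, ContDiff ℝ 1 (φn n) := fun n => hφ.mul (contDiff_const.sub (contDiff_bet η n))
  have hcn : ∀ n, HasCompactSupport (φn n) := fun n => hc.mul_right
  have h0n : ∀ n, ∀ᶠ ζ in 𝓝 η, φn n ζ = 0 := by
    intro n
    have hpos : (0:ℝ) < 1 / ((n:ℝ) + 1) := by positivity
    filter_upwards [closedBall_mem_nhds η hpos] with ζ hζ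
    rw [mem_closedBall, dist_eq_norm] at hζ
    show φ ζ * (1 - bet η n ζ) = 0
    rw [bet_one hζ]; ring
  have hrep : ∀ n, CauchyC1 A (φn n) z = JJ η hA (φn n) z := fun n =>
    rep_away hA hfin (hs n) (hcn n) (h0n n) hz
  -- right side
  have hR : Tendsto (fun n => JJ η hA (φn n) z) atTop (𝓝 (JJ η hA φ z)) := by
    have key : ∀ s, Tendsto (fun n => ∫ ζ, (sN s η A ζ : ℂ) * (φn n ζ * kz η z ζ) ∂(NN s η hA)) atTop
        (𝓝 (∫ ζ, (sN s η A ζ : ℂ) * (φ ζ * kz η z ζ) ∂(NN s η hA))) := by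
      intro s
      have hk : Measurable (kz η z) := by unfold kz; fun_prop
      apply tendsto_integral_of_dominated_convergence (fun ζ => ‖φ ζ * kz η z ζ‖)
      · intro n
        apply Measurable.aestronglyMeasurable
        exact (Complex.measurable_ofReal.comp (measurable_sN s η hA)).mul
          ((hs n).continuous.measurable.mul hk)
      · exact (hint s).norm
      · intro n
        filter_upwards [sN_ae s η hA] with ζ hζ
        rw [norm_mul, Complex.norm_real, Real.norm_eq_abs, hζ, one_mul]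
        show ‖φ ζ * (1 - bet η n ζ) * kz η z ζ‖ ≤ _
        rw [norm_mul, norm_mul, norm_mul]
        have := one_sub_bet_norm η n ζ
        have h1 : ‖φ ζ‖ * ‖1 - bet η n ζ‖ ≤ ‖φ ζ‖ := by
          nlinarith [norm_nonneg (φ ζ)]
        exact mul_le_mul_of_nonneg_right h1 (norm_nonneg _)
      · filter_upwards [NN_ae_ne s η hA] with ζ hζ
        apply tendsto_const_nhds.congr'
        filter_upwards [tendsto_bet hζ] with n hn
        show _ = (sN s η A ζ : ℂ) * (φ ζ * (1 - bet η n ζ) * kz η z ζ)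
        rw [hn, sub_zero, mul_one]
    unfold JJ
    exact ((key true).add ((key false).const_mul _)).const_mul _
  -- left side
  obtain ⟨L, hL⟩ := hφ.lipschitzWith_of_hasCompactSupport hc (by norm_num)
  obtain ⟨C, hC⟩ := bet_lip η
  have hLft : Tendsto (fun n => CauchyC1 A (φn n) z) atTop (𝓝 (CauchyC1 A φ z)) := by
    unfold CauchyC1
    apply Tendsto.const_mul
    apply tendsto_integral_of_dominated_convergence
      (fun ζ => (tsupport φ).indicator (fun _ => (L + 2 * L * C : ℝ) / ε) ζ)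
    · intro n
      apply Measurable.aestronglyMeasurable
      exact (continuous_dbar (hs n)).measurable.div (by fun_prop)
    · rw [integrable_indicator_iff (isClosed_tsupport φ).measurableSet]
      apply IntegrableOn.mono_measure _ Measure.restrict_le_self
      exact integrableOn_const hc.isCompact.measure_lt_top.ne
    · intro n
      apply ae_restrict_of_forall_mem hA.compl
      intro ζ hζ
      have hζb : ζ ∉ ball z ε := fun h => hζ (interior_subset (hball h))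
      rw [mem_ball, not_lt, dist_eq_norm] at hζb
      have hd : dbar (φn n) ζ = dbar φ ζ * (1 - bet η n ζ) - φ ζ * dbar (bet η n) ζ := by
        rw [hφn]
        rw [dbar_mul_fun (hφ.differentiable (by norm_num)).differentiableAt
          ((contDiff_const.sub (contDiff_bet η n)).differentiable (by norm_num)).differentiableAt]
        have : dbar (fun ζ => 1 - bet η n ζ) ζ = - dbar (bet η n) ζ := by
          unfold dbar
          rw [fderiv_const_sub]
          simp only [neg_apply]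
          ring
        rw [this]; ring
      by_cases hsup : ζ ∈ tsupport φ
      · rw [indicator_of_mem hsup, norm_div, hd]
        refine div_le_div₀ (by positivity) ?_ hε hζb
        refine (norm_sub_le _ _).trans ?_
        rw [norm_mul, norm_mul]
        have e1 : ‖dbar φ ζ‖ * ‖1 - bet η n ζ‖ ≤ L := by
          have := norm_dbar_le hL ζ
          have := one_sub_bet_norm η n ζ
          nlinarith [norm_nonneg (dbar φ ζ), norm_nonneg (1 - bet η n ζ)]
        have e2 : ‖φ ζ‖ * ‖dbar (bet η n) ζ‖ ≤ 2 * L * C := by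
          by_cases hfar : 2 / ((n:ℝ) + 1) < ‖ζ - η‖
          · rw [dbar_bet hfar, norm_zero, mul_zero]
            positivity
          · rw [not_lt] at hfar
            have f1 : ‖φ ζ‖ ≤ L * ‖ζ - η‖ := by
              have := hL.dist_le_mul ζ η
              rw [h0, dist_zero_right, dist_eq_norm] at this
              exact this
            have f2 := norm_dbar_le (hC n) ζ
            push_cast at f2
            calc ‖φ ζ‖ * ‖dbar (bet η n) ζ‖ ≤ (L * (2 / ((n:ℝ) + 1))) * (((n:ℝ) + 1) * C) := by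
                  gcongr
                  exact f1.trans (mul_le_mul_of_nonneg_left hfar L.2)
              _ = 2 * L * C := by field_simp
        linarith
      · rw [indicator_of_notMem hsup]
        rw [dbar_supp]
        · simp
        · intro h
          exact hsup ((tsupport_mul_subset_left (f := φ) (g := fun ζ => 1 - bet η n ζ)) h)
    · have hne : ∀ᵐ ζ : ℂ, ζ ≠ η := by
        rw [ae_iff]; simp
      filter_upwards [ae_restrict_of_ae hne] with ζ hζ
      apply Tendsto.div_const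
      apply tendsto_const_nhds.congr'
      have hpos : 0 < ‖ζ - η‖ := norm_pos_iff.2 (sub_ne_zero.2 hζ)
      have h2 : 0 < ‖ζ - η‖ / 2 := by positivity
      filter_upwards [one_div_small h2] with n hn
      have hlt : 2 / ((n:ℝ) + 1) < ‖ζ - η‖ := by
        have : 2 / ((n:ℝ) + 1) = 2 * (1 / ((n:ℝ) + 1)) := by ring
        rw [this]
        linarith
      have ho : IsOpen {ζ : ℂ | 2 / ((n:ℝ) + 1) < ‖ζ - η‖} :=
        isOpen_lt continuous_const (by fun_prop)
      apply dbar_congr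
      filter_upwards [ho.mem_nhds hlt] with x hx
      show φ x = φ x * (1 - bet η n x)
      rw [bet_zero (le_of_lt hx)]; ring
  have heq : (fun n => CauchyC1 A (φn n) z) = fun n => JJ η hA (φn n) z := funext hrep
  rw [heq] at hLft
  exact tendsto_nhds_unique hLft hR

end Pool.Agent.K1H32.CI
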