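import Pool.Agent.K1H32.CI.Ker
import Pool.Agent.K1H32.CI.Eil

/-! Logarithmic polar coordinates and the essential boundary. -/

set_option autoImplicit false

open MeasureTheory Set Filter Topology Metric ProbabilityTheory
open scoped ENNReal NNReal

namespace Pool.Agent.K1H32.CI

/-- the set `E` of the problem: both `A` and its complement have positive upper density -/
def essBdry (A : Set ℂ) : Set ℂ :=
  {ζ | 0 < limsup (fun r : ℝ => volume (ball ζ r ∩ A) / ENNReal.ofReal (r ^ 2)) (𝓝[>] 0) ∧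
    0 < limsup (fun r : ℝ => volume (ball ζ r ∩ Aᶜ) / ENNReal.ofReal (r ^ 2)) (𝓝[>] 0)}

lemma tendsto_mul_const_zero {c : ℝ} (hc : 0 < c) : Tendsto (fun r : ℝ => c * r) (𝓝[>] 0) (𝓝[>] 0) := by
  rw [tendsto_nhdsWithin_iff]
  constructor
  · have : Tendsto (fun r : ℝ => c * r) (𝓝 0) (𝓝 (c * 0)) := tendsto_id.const_mul c
    rw [mul_zero] at this
    exact this.mono_left nhdsWithin_le_nhds
  · filter_upwards [self_mem_nhdsWithin] with r hr
    exact mul_pos hc hr

lemma ofReal_sq_ne {r : ℝ} (hr : 0 < r) : ENNReal.ofReal (r ^ 2) ≠ 0 := by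
  rw [Ne, ENNReal.ofReal_eq_zero, not_le]; positivity

lemma not_zd_iff (A : Set ℂ) (ζ : ℂ) :
    ¬ ZD A ζ ↔ 0 < limsup (fun r : ℝ => volume (ball ζ r ∩ A) / ENNReal.ofReal (r ^ 2)) (𝓝[>] 0) := by
  rw [pos_iff_ne_zero, not_iff_not]
  constructor
  · intro h
    apply le_antisymm _ bot_le
    apply ENNReal.le_of_forall_pos_le_add
    intro ε hε _
    show _ ≤ (0:ℝ≥0∞) + ε
    rw [zero_add]
    apply limsup_le_of_le (by isBoundedDefault)
    filter_upwards [h ε hε, self_mem_nhdsWithin] with r hr hr0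
    have hr0 : 0 < r := hr0
    rw [ENNReal.div_le_iff (ofReal_sq_ne hr0) ENNReal.ofReal_ne_top]
    calc volume (ball ζ r ∩ A) ≤ volume (A ∩ closedBall ζ r) := by
          rw [inter_comm]; exact measure_mono (inter_subset_inter_right _ ball_subset_closedBall)
      _ ≤ _ := hr
      _ = _ := by rw [ENNReal.ofReal_mul (NNReal.coe_nonneg ε), ENNReal.ofReal_coe_nnreal]
  · intro h ε hε
    have h1 : ∀ᶠ r in 𝓝[>] (0:ℝ), volume (ball ζ r ∩ A) / ENNReal.ofReal (r ^ 2) < ENNReal.ofReal (ε / 4) := by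
      apply eventually_lt_of_limsup_lt (h ▸ (by simpa using hε)) (by isBoundedDefault)
    filter_upwards [(tendsto_mul_const_zero two_pos).eventually h1, self_mem_nhdsWithin] with r hr hr0
    have hr0 : 0 < r := hr0
    have h2r : 0 < 2 * r := by positivity
    have h3 := ((ENNReal.div_lt_iff (Or.inl (ofReal_sq_ne h2r)) (Or.inl ENNReal.ofReal_ne_top)).1 hr).le
    calc volume (A ∩ closedBall ζ r) ≤ volume (ball ζ (2 * r) ∩ A) := by
          rw [inter_comm]
          exact measure_mono (inter_subset_inter_left _ (closedBall_subset_ball (by linarith)))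
      _ ≤ _ := h3
      _ = _ := by
        rw [← ENNReal.ofReal_mul (by positivity)]
        congr 1; ring

lemma mem_essBdry (A : Set ℂ) (ζ : ℂ) : ζ ∈ essBdry A ↔ Ess A ζ := by
  unfold essBdry Ess
  rw [not_zd_iff, not_zd_iff]
  rfl

/-! ### change of variables for zero density -/

lemma vol_equiv_image (B : Set ℂ) : volume (Complex.measurableEquivRealProd '' B) = volume B := by
  rw [MeasurableEquiv.image_eq_preimage_symm]
  exact (Complex.volume_preserving_equiv_real_prod.symm).measure_preimage_equiv B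

lemma vol_image_le {L : ℝ≥0} {f : ℝ × ℝ → ℝ × ℝ} {B : Set (ℝ × ℝ)} (h : LipschitzOnWith L f B) :
    volume (f '' B) ≤ (L:ℝ≥0∞) ^ 2 * volume B := by
  rw [← hausdorffMeasure_prod_real]
  have := h.hausdorffMeasure_image_le (d := 2) (by norm_num)
  rw [ENNReal.rpow_ofNat] at this
  exact this

lemma lip_e : LipschitzWith 1 (Complex.measurableEquivRealProd : ℂ → ℝ × ℝ) := by
  apply LipschitzWith.of_dist_le_mul
  intro z w
  rw [NNReal.coe_one, one_mul, Prod.dist_eq, Complex.dist_eq, Real.dist_eq, Real.dist_eq]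
  apply max_le
  · exact Complex.abs_re_le_norm (z - w)
  · exact Complex.abs_im_le_norm (z - w)

lemma lip_e_symm : LipschitzWith 2 (Complex.measurableEquivRealProd.symm : ℝ × ℝ → ℂ) := by
  apply LipschitzWith.of_dist_le_mul
  intro p q
  rw [Complex.dist_eq, Prod.dist_eq, Real.dist_eq, Real.dist_eq]
  refine (Complex.norm_le_abs_re_add_abs_im _).trans ?_
  have h1 : (Complex.measurableEquivRealProd.symm p - Complex.measurableEquivRealProd.symm q).re = p.1 - q.1 := rfl
  have h2 : (Complex.measurableEquivRealProd.symm p - Complex.measurableEquivRealProd.symm q).im = p.2 - q.2 := rfl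
  rw [h1, h2]
  have h3 := le_max_left |p.1 - q.1| |p.2 - q.2|
  have h4 := le_max_right |p.1 - q.1| |p.2 - q.2|
  push_cast
  linarith

lemma vol_image_le_of_prod {L : ℝ≥0} {f : ℝ × ℝ → ℂ} {B : Set (ℝ × ℝ)} (h : LipschitzOnWith L f B) :
    volume (f '' B) ≤ (L:ℝ≥0∞) ^ 2 * volume B := by
  rw [← vol_equiv_image, ← image_comp]
  apply vol_image_le
  simpa using lip_e.comp_lipschitzOnWith h

lemma vol_image_le_of_complex {L : ℝ≥0} {g : ℂ → ℝ × ℝ} {B : Set ℂ} (h : LipschitzOnWith L g B) :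
    volume (g '' B) ≤ ((2 * L : ℝ≥0) : ℝ≥0∞) ^ 2 * volume B := by
  have h1 : g '' B = (g ∘ Complex.measurableEquivRealProd.symm) '' (Complex.measurableEquivRealProd '' B) := by
    rw [← image_comp]
    congr 1
  rw [h1, ← vol_equiv_image B]
  apply vol_image_le
  have h2 := h.comp (lip_e_symm.lipschitzOnWith (s := Complex.measurableEquivRealProd '' B)) (by
    rintro _ ⟨z, hz, rfl⟩
    simpa using hz)
  rw [mul_comm]
  exact h2

lemma zd_of_vol_le {X Y : Type*} [PseudoMetricSpace X] [MeasureSpace X] [PseudoMetricSpace Y]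
    [MeasureSpace Y] {P : Set X} {R : Set Y} {w : X} {v : Y} {C : ℝ≥0} {L : ℝ} (hL : 0 < L)
    (h : ∀ᶠ r in 𝓝[>] (0:ℝ), volume (P ∩ closedBall w r) ≤ C * volume (R ∩ closedBall v (L * r)))
    (hR : ZD R v) : ZD P w := by
  intro ε hε
  have h1 := (tendsto_mul_const_zero hL).eventually (hR (ε / (L ^ 2 * (C + 1))) (by positivity))
  filter_upwards [h, h1, self_mem_nhdsWithin] with r hr hr1 hr0
  have hr0 : 0 < r := hr0
  refine hr.trans ((mul_le_mul_right hr1 _).trans ?_)
  rw [← ENNReal.ofReal_coe_nnreal, ← ENNReal.ofReal_mul (by positivity)]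
  apply ENNReal.ofReal_le_ofReal
  have hC : (0:ℝ) ≤ C := C.2
  have : (C:ℝ) * (ε / (L ^ 2 * (C + 1)) * (L * r) ^ 2) = C / (C + 1) * (ε * r ^ 2) := by
    field_simp
  rw [this]
  have h2 : (C:ℝ) / (C + 1) ≤ 1 := by
    rw [div_le_one (by positivity)]; linarith
  have h3 : 0 ≤ ε * r ^ 2 := by positivity
  nlinarith

theorem zd_preimage {Θ : ℝ × ℝ → ℂ} {g : ℂ → ℝ × ℝ} {q : ℝ × ℝ} {L : ℝ≥0}
    {U : Set (ℝ × ℝ)} {V : Set ℂ} (hU : U ∈ 𝓝 q) (hV : V ∈ 𝓝 (Θ q)) (h1 : LipschitzOnWith L Θ U)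
    (h2 : LipschitzOnWith L g V) (h3 : ∀ x ∈ U, g (Θ x) = x) (h4 : ∀ v ∈ V, Θ (g v) = v) (G : Set ℂ) :
    ZD (Θ ⁻¹' G) q ↔ ZD G (Θ q) := by
  have hq : q ∈ U := mem_of_mem_nhds hU
  have hv : Θ q ∈ V := mem_of_mem_nhds hV
  obtain ⟨δ, hδ, hδU⟩ := Metric.nhds_basis_closedBall.mem_iff.1 hU
  obtain ⟨δ', hδ', hδV⟩ := Metric.nhds_basis_closedBall.mem_iff.1 hV
  have hL : (0:ℝ) < (L:ℝ) + 1 := by positivity
  have hsm : ∀ᶠ r in 𝓝[>] (0:ℝ), r < δ ∧ r < δ' := by
    apply eventually_nhdsWithin_of_eventually_nhds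
    exact (eventually_lt_nhds hδ).and (eventually_lt_nhds hδ')
  constructor
  · intro h
    refine zd_of_vol_le (C := L ^ 2) hL ?_ h
    filter_upwards [hsm, self_mem_nhdsWithin, (tendsto_mul_const_zero hL).eventually hsm] with r hr hr0 hr'
    have hr0 : 0 < r := hr0
    have hsub : G ∩ closedBall (Θ q) r ⊆ Θ '' (Θ ⁻¹' G ∩ closedBall q ((L + 1) * r)) := by
      rintro v ⟨hvG, hvr⟩
      have hvV : v ∈ V := hδV (closedBall_subset_closedBall hr.2.le hvr)
      refine ⟨g v, ⟨?_, ?_⟩, h4 v hvV⟩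
      · show Θ (g v) ∈ G
        rw [h4 v hvV]; exact hvG
      · rw [mem_closedBall] at hvr ⊢
        calc dist (g v) q = dist (g v) (g (Θ q)) := by rw [h3 q hq]
          _ ≤ L * dist v (Θ q) := h2.dist_le_mul v hvV _ hv
          _ ≤ (L + 1) * r := by
            have : (0:ℝ) ≤ L := L.2
            nlinarith [dist_nonneg (x := v) (y := Θ q)]
    refine (measure_mono hsub).trans ?_
    have := vol_image_le_of_prod (h1.mono (show Θ ⁻¹' G ∩ closedBall q ((L + 1) * r) ⊆ U from
      fun x hx => hδU (closedBall_subset_closedBall hr'.1.le hx.2)))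
    simpa using this
  · intro h
    refine zd_of_vol_le (C := (2 * L) ^ 2) hL ?_ h
    filter_upwards [hsm, self_mem_nhdsWithin, (tendsto_mul_const_zero hL).eventually hsm] with r hr hr0 hr'
    have hr0 : 0 < r := hr0
    have hsub : Θ ⁻¹' G ∩ closedBall q r ⊆ g '' (G ∩ closedBall (Θ q) ((L + 1) * r)) := by
      rintro x ⟨hxG, hxr⟩
      have hxU : x ∈ U := hδU (closedBall_subset_closedBall hr.1.le hxr)
      refine ⟨Θ x, ⟨hxG, ?_⟩, h3 x hxU⟩
      rw [mem_closedBall] at hxr ⊢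
      calc dist (Θ x) (Θ q) ≤ L * dist x q := h1.dist_le_mul x hxU _ hq
        _ ≤ (L + 1) * r := by
            have : (0:ℝ) ≤ L := L.2
            nlinarith [dist_nonneg (x := x) (y := q)]
    refine (measure_mono hsub).trans ?_
    have := vol_image_le_of_complex (h2.mono (show G ∩ closedBall (Θ q) ((L + 1) * r) ⊆ V from
      fun x hx => hδV (closedBall_subset_closedBall hr'.2.le hx.2)))
    simpa using this

/-! ### logarithmic polar coordinates -/

/-- coordinates of the logarithmic plane: `false` for (real part, imaginary part),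
`true` for (imaginary part, real part) -/
def io (s : Bool) (q : ℝ × ℝ) : ℂ := if s then ⟨q.2, q.1⟩ else ⟨q.1, q.2⟩

/-- the inverse of `io` -/
def oi (s : Bool) (w : ℂ) : ℝ × ℝ := if s then (w.im, w.re) else (w.re, w.im)

lemma io_oi (s : Bool) (w : ℂ) : io s (oi s w) = w := by cases s <;> rfl
lemma oi_io (s : Bool) (q : ℝ × ℝ) : oi s (io s q) = q := by cases s <;> rfl

lemma io_eq (s : Bool) (q : ℝ × ℝ) :
    io s q = if s then (q.2 : ℂ) + q.1 * Complex.I else (q.1 : ℂ) + q.2 * Complex.I := by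
  cases s <;> simp [io, Complex.ext_iff]

lemma contDiff_io (s : Bool) : ContDiff ℝ 1 (io s) := by
  have : io s = fun q => if s then (q.2 : ℂ) + q.1 * Complex.I else (q.1 : ℂ) + q.2 * Complex.I := by
    funext q; exact io_eq s q
  rw [this]
  have h1 : ContDiff ℝ 1 (fun q : ℝ × ℝ => (q.1 : ℂ)) := Complex.ofRealCLM.contDiff.comp contDiff_fst
  have h2 : ContDiff ℝ 1 (fun q : ℝ × ℝ => (q.2 : ℂ)) := Complex.ofRealCLM.contDiff.comp contDiff_snd
  cases s
  · simpa using h1.add (h2.mul contDiff_const)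
  · simpa using h2.add (h1.mul contDiff_const)

lemma contDiff_oi (s : Bool) : ContDiff ℝ 1 (oi s) := by
  have h1 : ContDiff ℝ 1 (fun w : ℂ => w.re) := Complex.reCLM.contDiff
  have h2 : ContDiff ℝ 1 (fun w : ℂ => w.im) := Complex.imCLM.contDiff
  cases s
  · exact h1.prodMk h2
  · exact h2.prodMk h1

/-- the parametrization of the plane by logarithmic polar coordinates -/
noncomputable def Th (s : Bool) (η : ℂ) (q : ℝ × ℝ) : ℂ := η + Complex.exp (io s q)

lemma contDiff_Th (s : Bool) (η : ℂ) : ContDiff ℝ 1 (Th s η) :=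
  contDiff_const.add (((Complex.contDiff_exp (𝕜 := ℂ)).restrict_scalars ℝ).comp (contDiff_io s))

lemma continuous_Th (s : Bool) (η : ℂ) : Continuous (Th s η) := (contDiff_Th s η).continuous

theorem zd_Th (s : Bool) (η : ℂ) (G : Set ℂ) (q : ℝ × ℝ) : ZD (Th s η ⁻¹' G) q ↔ ZD G (Th s η q) := by
  set w0 := io s q with hw0
  set g : ℂ → ℝ × ℝ := fun ζ => oi s (w0 + Complex.log ((ζ - η) * Complex.exp (-w0))) with hg
  have hne : Th s η q ≠ η := by
    unfold Th
    intro h
    simp at h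
  have hval : (Th s η q - η) * Complex.exp (-w0) = 1 := by
    unfold Th
    rw [add_sub_cancel_left, ← Complex.exp_add, ← hw0]
    simp
  obtain ⟨K, U, hU, hKU⟩ := (contDiff_Th s η).contDiffAt (x := q) |>.exists_lipschitzOnWith
  have hgd : ContDiffAt ℝ 1 g (Th s η q) := by
    apply (contDiff_oi s).contDiffAt.comp
    apply contDiffAt_const.add
    have h1 : ContDiffAt ℝ 1 Complex.log ((Th s η q - η) * Complex.exp (-w0)) := by
      apply (Complex.contDiffAt_log _).restrict_scalars ℝ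
      rw [hval]
      exact Complex.one_mem_slitPlane
    exact h1.comp (Th s η q) ((contDiffAt_id.sub contDiffAt_const).mul contDiffAt_const)
  obtain ⟨K', V, hV, hKV⟩ := hgd.exists_lipschitzOnWith
  refine zd_preimage (g := g) (L := max K K')
    (U := U ∩ {x | |(io s x).im - w0.im| < Real.pi}) (V := V ∩ {ζ | ζ ≠ η}) ?_ ?_ ?_ ?_ ?_ ?_ G
  · apply inter_mem hU
    have hc : Continuous (fun x : ℝ × ℝ => |(io s x).im - w0.im|) :=
      (((Complex.continuous_im.comp (contDiff_io s).continuous)).sub continuous_const).abs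
    exact (isOpen_lt hc continuous_const).mem_nhds (by simp [hw0, Real.pi_pos])
  · exact inter_mem hV (isOpen_ne.mem_nhds hne)
  · exact (hKU.mono inter_subset_left).weaken (le_max_left _ _)
  · exact (hKV.mono inter_subset_left).weaken (le_max_right _ _)
  · rintro x ⟨_, hx⟩
    have hx : |(io s x).im - w0.im| < Real.pi := hx
    rw [abs_lt] at hx
    show oi s (w0 + Complex.log ((Th s η x - η) * Complex.exp (-w0))) = x
    unfold Th
    rw [add_sub_cancel_left, ← Complex.exp_add, ← sub_eq_add_neg, Complex.log_exp]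
    · rw [add_sub_cancel, oi_io]
    · rw [Complex.sub_im]; exact hx.1
    · rw [Complex.sub_im]; exact hx.2.le
  · rintro v ⟨_, hv⟩
    have hv : v ≠ η := hv
    show η + Complex.exp (io s (oi s (w0 + Complex.log ((v - η) * Complex.exp (-w0))))) = v
    rw [io_oi, Complex.exp_add, Complex.exp_log (mul_ne_zero (sub_ne_zero.2 hv) (Complex.exp_ne_zero _))]
    rw [mul_comm, mul_assoc, ← Complex.exp_add]
    simp

theorem ess_Th (s : Bool) (η : ℂ) (A : Set ℂ) (q : ℝ × ℝ) :
    Ess (Th s η ⁻¹' A) q ↔ Th s η q ∈ essBdry A := by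
  rw [mem_essBdry]
  unfold Ess
  rw [zd_Th, ← preimage_compl, zd_Th]

end Pool.Agent.K1H32.CI
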